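import Mathlib
import Pool.Agent.Work.MP_12b649_co.Even.Defs
import Pool.Agent.Work.MP_12b649_co.Product
import Pool.Agent.Work.MP_12b649_co.Even.Stmts
import Pool.Agent.Work.MP_12b649_co.Even.StmtsB

/-! Bundle of small proof modules (one section per former module). -/

section

/-!
# Derangement representations of graphs on four and six vertices: tables

A permutation of at most eight points is coded by a number with three bits for every point.
The table `tabT` contains, for every graph on four vertices, four permutations of four points.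
For six vertices, `tabX` contains, for every isomorphism class of graphs on five vertices, five
permutations of six points which represent the graph, and for every subset of them a permutation
which agrees somewhere exactly with the members of this subset; `tabY` contains for every graph
on five vertices its class and an isomorphism.
-/

namespace Pool.Agent.Work.MP_12b649_co.Even

/-- The value at `i` of the permutation with code `c`. -/
def app (c i : ℕ) : ℕ := (c >>> (3 * i)) % 8

/-- `c` is the code of a permutation of `n` points. -/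
def isP (n c : ℕ) : Bool :=
  (List.range n).all fun i => decide (app c i < n) &&
    (List.range i).all fun j => app c i != app c j

/-- The permutations with codes `a` and `b` agree somewhere. -/
def agr (n a b : ℕ) : Bool := (List.range n).any fun i => app a i == app b i

/-- The permutations with codes `a` and `b` are different. -/
def dfr (n a b : ℕ) : Bool := (List.range n).any fun i => app a i != app b i

lemma exists_perm {n c : ℕ} (h : isP n c = true) :
    ∃ σ : Equiv.Perm (Fin n), ∀ i : Fin n, (σ i).val = app c i := by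
  simp only [isP, List.all_eq_true, List.mem_range, Bool.and_eq_true, decide_eq_true_eq,
    bne_iff_ne, ne_eq] at h
  let f : Fin n → Fin n := fun i => ⟨app c i, (h i i.2).1⟩
  have hf : Function.Injective f := by
    intro i j hij
    have hij' : app c i = app c j := congrArg Fin.val hij
    rcases lt_trichotomy i j with h1 | h1 | h1
    · exact absurd hij'.symm ((h j j.2).2 i h1)
    · exact h1
    · exact absurd hij' ((h i i.2).2 j h1)
  exact ⟨Equiv.ofBijective f (Finite.injective_iff_bijective.1 hf), fun i => rfl⟩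

lemma agr_iff {n a b : ℕ} {σ τ : Equiv.Perm (Fin n)} (hσ : ∀ i : Fin n, (σ i).val = app a i)
    (hτ : ∀ i : Fin n, (τ i).val = app b i) : agr n a b = true ↔ ∃ i, σ i = τ i := by
  simp only [agr, List.any_eq_true, List.mem_range, beq_iff_eq]
  constructor
  · rintro ⟨i, hi, h⟩
    refine ⟨⟨i, hi⟩, Fin.ext ?_⟩
    rw [hσ, hτ]
    exact h
  · rintro ⟨i, h⟩
    refine ⟨i, i.2, ?_⟩
    rw [← hσ, ← hτ, h]

lemma dfr_ne {n a b : ℕ} {σ τ : Equiv.Perm (Fin n)} (hσ : ∀ i : Fin n, (σ i).val = app a i)
    (hτ : ∀ i : Fin n, (τ i).val = app b i) (h : dfr n a b = true) : σ ≠ τ := by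
  simp only [dfr, List.any_eq_true, List.mem_range, bne_iff_ne, ne_eq] at h
  obtain ⟨i, hi, h⟩ := h
  intro hst
  apply h
  have h1 := hσ ⟨i, hi⟩
  have h2 := hτ ⟨i, hi⟩
  rw [hst, h2] at h1
  exact h1.symm

/-- A representation from codes. -/
lemma rep_of_codes {V : Type} (H : SimpleGraph V) (n : ℕ) (c : V → ℕ)
    (h1 : ∀ v, isP n (c v) = true) (h2 : ∀ u v, u ≠ v → dfr n (c u) (c v) = true)
    (h3 : ∀ u v, u ≠ v → (H.Adj u v ↔ agr n (c u) (c v) = true)) : Rep H n := by
  choose π hπ using fun v => exists_perm (h1 v)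
  refine ⟨π, fun u v huv => ?_, fun u v huv => ?_⟩
  · by_contra hne
    exact dfr_ne (hπ u) (hπ v) (h2 u v hne) huv
  · rw [h3 u v huv, agr_iff (hπ u) (hπ v)]

/-! ### Codes of graphs -/

/-- The number of the pair `i < j`. -/
def ix (i j : ℕ) : ℕ := j * (j - 1) / 2 + i

/-! ### Four vertices -/

def tabT : ℕ := 0x2d06504c86882d04c84c16882d04c14c86884c80d14c16886506814c86884c86504c16882d021a4c86882d021a4c16880d16504c86880d14c84c16880d14c14c86884190d14c16884c16814c86880d16504c168841921a4c868841921a4c16886816504c86886504c84c16886814c14c86886500d14c16886116814c86882986504c168861121a4c868829821a4c168805a6504c868821a2d04c168805a0d14c868805a0d14c168821a6114c868805a6504c168805a21a4c868805a21a4c16880ca6504c86886814c84c16886504c14c86884580d14c16882d06814c86880996504c168865021a4c86884c821a4c16884c16504c86884192d04c16884430d14c86884430d14c16882c26114c86884196504c16884c121a4c86880d121a4c16880996504c868860a2d04c16886420d14c86882980d14c16882836114c868808b6504c168868121a4c868865021a4c168821a6504c868821a4c84c168821a4c14c868821a0d14c168821a6814c868821a6504c168805321a4c868805321a4c1688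

def tc (g i : ℕ) : ℕ := (tabT >>> (12 * (4 * g + i))) % 2 ^ 12

def chk4 : Bool :=
  (List.range 64).all fun g => (List.range 4).all fun j => isP 4 (tc g j) &&
    (List.range j).all fun i => dfr 4 (tc g i) (tc g j) &&
      (g.testBit (ix i j) == agr 4 (tc g i) (tc g j))

lemma chk4_true : chk4 = true := by decide +kernel

/-! ### Six vertices -/

def tabX : ℕ := 0x72a2254c195a223a11b1a050b19a22648b1a710a50ae1a2345a82941d858951a1c458b11b132158c1aa32058d155c05d50115c45d811b1305ab01a9885aa21ad4053b01ae0443b1180aae529888ba14343b1a22b88856306c4c80e546568195306c61176046568882b45d50874446561194345c15115386b88175406a11956066c6816a506c4190a565510b5488d415954465d0a13508c4559750861ad0ae1093b0886a0ec68895a2158c1ae205d501b194254c1ad406544341d85394176205ab0155c053b0195a062a43ae22058d1ae045d4218e94250d1ac4465419622a5a82916265d8118c2a65213942663a1145d12c4c86252942e8b1a2256886ac05ca508d506c65095305d85081566b8508ab063a508e90a52d0943465650161694ac135311ca8176046c4c174445d88175406b881563043aa14ec0688d116344589914c6a2668710353a0ca8332c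688b132254c172a215819aa0643951a22661a1a15c44551994265d50111d443b11b1a063541aa32158c195a213b01898a5a941ae2058951a9885aa2195a05d111a9c05ab018ea063a111117518e854b8022ecb1a2235488ab06c6509530654c88e846c458943454ac86254695180e545d88876046c2d01634656888e90a565094b0a3a888296ab8509416958c806c6a98d00656ab88822c68d8d034469c42989915174462a32c68876221ab01ad422505aae22254c1b132252c272a223a1155c22521395a2254198d522222b76141d501b1940d11ab0a6158c1b1160d8c274c41d11135c40b15455980356150d60545c8a82e98c2644558aa1b1a22c65082b463a8895305570876046c2d00ec46a8c86a505ab086ac0558c856305ca887540656509416a56889486999503606ab31074889a9481616aa3183446ab8882256ab50814c694ac185856206b421aec68852b21a94195a2158c1b19413941a5c422ac172a219942ae222046bb0b423a42ae1422a4372a06354195a0654c152b043b118ea053b0170d099b0282a2c852b32b0a1ac286a0c8b13aa161562175030435ab1a21ca889506656114ec0656889530656810e546c68156305570176046a8c116345d8816ac06c4c8815663a0a8e8462ac882b46b1110ec46c61142b86a11942c66a0e10ab86871162c44d8838d1a1421d313a2c688b1321d81172a21895132b4254c1b1941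d111ae2213b0195a21a94195161d5018a961ab01ae0463a11aa30558c1b184550e1b1a062ac1ae205394189d050959a98862a1995a062a43654a0c0d50e528b425b1a22a7088d506b8814ec06b5080ec46a1190d4a6b85076045d0a175086b8888e846c4196a886568895305d88156305ab0862c442b0b0ac65d8889434458990a1adca8882b444a990a3a6b22245c15564485d42c68872a21d50152b21d811b1940195a75420585a76221a941951622159b1321505c71520d81a8ea222ac18ab223a11a9c20195336340d81395a2254c1953225419aa321521c56320a81d701a81b138ea069684b1a2254c8760463a506ac0656888e84652d08ab05d88842b86b85075406b8884ec0698d016346c41995066889995306568156066a8c188566c4c154385d88115386c6815630698c2063a8bb1088875846551836c688b132254c1715218b115632250d131d41095955c21ab0172a203b1189d223a1151d20395195320d8c2ad4208b13aa320ba22a9980aa2376221d842a9c201b1395a22322aae220286b5056484e56541652c2b1a2254c895305d50814c6ac68175406c6426650a56888e90958c83630ab8422ec0a970276109ca888ab06c4c868d12b8814ec06c4434650eb8888a90ea8c86a91298834e9110b0b46c0cd6221156622e88c2a6c688953222ac1a9c20a8c552b21ab01ae221511989d0654c1a9c05a065aa10d5063aa30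558c195a223a4255c20285d72a20bb0276220b9429590a334215c29a8455442d584374429d842a1384ca98858561a13b1a22a8c856305c54154464d7106a50627418d506568895305ca814ec0656508e846568175406b88836309ca423446ab850761088aa374c09ca8846c0d4a4354c0eb31014c4c52a31518e26292256940cda6342c688ae22254c17622018ea70d41d81176140d81a95a22521a55c208b1aacc403a6235c40d11a8ab222ac1aa3218a62ae141ab01729419a22b1322306a52b208ae22ec40ba22b19411a2314a71a941813363541b1a2256888d50627418ab06a8c16a506a70175406c6504ec0656119530688d156306c4c115465d8888c546540b94345580b76045ca11750863a508e84442d582b44ca13163444ad11538697026853232a82e2a2c68851d2058d195a043b1195a20531a15c2a02eaad421ab0155c05d501754220a5a95828d0e2ae22029598ea0454e172a22521a72829d222aa32158c18e82a54c1953221a1a943299a2221c5442ab4e506a858b1a2158c86ac0656888ab06b5086650ab8888e90a98d04e506565095306b31088d0eb8502d5114ac175406c68176046970266c0ac6422e852b50156306b881163469883214aeb4440e15623587282950e1444aec688b132254c1ae22252c28ea062ac1a630a3a4295a2250d1953205313728460ad182a2c2363b1941d501ae141d842b1a053941ac1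8a334235c41d11174c40d1137054511636429611530ab32b842354614629b1a21474882b45ca812e50ab88881566568162c46a8c895305ca1174445ab0875405580b6ac05ca887488a56422ec0a56885488e52838294ec4c894b09ca428e90ab5089510d3a0c54c0c295921a94c0eaa5382c6888ea223a11b19422ac18ab215819959420ad172a2158c1b1161ab01563218951729418b1195a22354194b4254c195321d81135c4250d1ae221a941b0b41d5017542058d135461d1114298e162aaca10394ab1a222ac8563054748544663a886ac0557087604558c866c09ca8836069ab085610d3b084688e54c895305c54874446568875406b85062546c4c876109c4687418ab2a06a116b8881518d1a1c81d44c0ea88b16c6884e52158c1a54605519354610b199532254c195a21d84246c60531a35c420a5a52b2252c2ae221a941a5c403b112ec420ad1b13222ac172a21994286b421ac232b4202d58ab2222c554172b421062ac88abb1a222ac88ab063a50815665688614a61ad08e846a8c81634698d056306c4c874446c2d095306b8886ac05ca5062545ca884ec06b2a075086a7086a506b8504e506b50875405c3504cd1210ea22a8c285d09c36c68895a223541b132158c176140d11376220d11a95a0654c1762042959b0168585ab1828d81a8ea21ab01aa3213941b19418362ae220336272a060ad1b1a05a94162528195370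52991623507133288ab060a53b1a22b88856305d8887610ac6504e5063a500e989d88195305d80a94b0ab8818ab061a8386b0ab5085446656886298a2a584ec053a608e90ab501754063a0a7488a3a81885648aa38cd0818d5519a1d40ca8466c6886a52054e1b18453b018ea223a11ae0443b11ad4223541ae2053941ae22250d1ac444395172a222ac172a05ab01aa3222a19aa06558197622254c1b1a05d84295a2108e9a226551190cd50aa237111614e8b1a21ca886ac05ca816a505ab0862c45ca11163463a884ec06a8c18ab06a8c842c66a0e10a56656889530656815630558c874446c0d176046b8888d506c6818456ac4c8423a54159425642a637485216852d4a2c6886ac213b01a5461d501a9c2254c1363405519762222ac176141a941ae2213941aa16158c175420bb0232b41d302b1322544335c4153038ea223a4272941d22295a223055b194152c40a564852b6688a308db1a21995076045d85066c0a35488d505d8887610a54c895305ca883540dc54875405d5085488e3a885630558c83630939484e506b8880ccaa2ac88ab054ac822c4e568854465570854c0d94250e1a88ad488566c688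

def tabY : ℕ := 0x8d110a22381181c04351e4631010e27888d3c4469850870161478b423c1a3160a32f82a370189b80b51250b1016227844cbe118dc2d40f06a158270b80b8923034f181a60429b8195120d42e066248350b2118ce5191008d17cb813c142dc2e20f051970388ac0c6923184f088b70c61301a3120e22e07116438524142ce31a0f089970468b82345931a0c06a148388a41464e11a2b085a4846524222ce11a290899384689c2344b888703214799423cc23164232f90a370889b8435126888f340c59a222cd110a6888ea21c551622a435095032f9423719423a817152d40e84635418d360a8d03026e1614493222a5850910b4d846340b4228117075182fb21474a81b8833152e20e82e26c285aa0c4d03106e260c54b42245a1091194d961450285a01330731a0e86626c385364351431a0b86a144388a20c68d1116a885340445a01a30711a28885a344651a1a30488b1032227a04cbe818dc6540f30a159070b8438928832fa22370b423a117156540ea0635488d36428d068c0f342159a303a888d568c0b3460291702a438894c42e162248c0d36508d04cc0a962224b5028118c75190fb22274b813a0b51b2a30e20e15428caa0c6903184e86546cc612e1a3112a30d90e250385220c4cd3130e262154c4c36588942d40916a024a7020138471132a885a4046522214cd2d40806a11c4689a1a8448434f4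21a62029b8c15126142e306249850b2818ce8426e321449a222ac850980b4da0634194228817076842e32224a10d36888d068c0ab2222595028818c76842ca22339a22288870768c0a22231da3026888c38434ec21a5d16236c151145c0db0624418d28428cd4c88db21444b42225a1082a30d20633c2859e0b5064cc0db22244c4c34888cf2d40896a020a701e0b88610b4a1423344459e195062d40786621846898118c28991040d17d9813c842dc6620f211971888ac446928982f961475181b8133156620e90e26d085aa444d08990f9622759813a4351b4630e04e15508caa446903034e981a5ca62361951129c0d86624488d280a8cd6a10f350875a80ac8c0d56a10b231855a8414446894e02e18c26cb8124540d04e10a971050b8112142c74e10e18d06d380aa5c0942e209151840b88121464711a2a885a44b8120222cd2e2080899343888e1c4448584f408b7216130c23126222e31116588524842ce8506e340c5594224ca1098194db21451085a0833078584eb0546e1612ec23114630d82e25188522444cd6888d96144594222ca1084630d04633d0859e435066a02e42c26d981248c0d06a10ab3105198112842c76a02cb40c511819c8b1076a10a35084d1818e8c0c34e10da70869981228c0cf2e20895183cb88100c6861194a08533ca819a531062e2078899303850c142c285a0f409972068b90345985a0c30a149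888a48464e85a0eb0626d885360b51485a0bb0a145888a24468d8530e34215614c36c88946540932a025170208384768c0d96224614c34508cf65408b2a0211701e438866a10e42d06da80aacc0946620923184198812846476a10db50868b8122540cf66208a3183d98810446866a10cb42151a80a8d40534630722e01d18c0e8c60311a2a085a3cb811e222cc2a30694e018a8c0c1464281a2b405a4a06525022ce81a2940993a0689d0344b8116ac05342045a0c230781a28c05a360651ac23048132ac05a4206523014cd6540830a11e0689ac284480b4a2223360459ec150665407b0621a06898818c281a2ac05a4598121022cd662084099358888ec44448194a40533d1819a8b10666207c099318850c842c281a2a405a3d9811f022cc46306a2e01918c0c8464281a29a22331181988b1054630622e01518c0a446818d11046117e340be4351d8d10f90e27488d3a446977084f280b71421b81a3157084e96146cb42360b51170a0f281971c283a5889b50b0e06a154b50360b8917022b181a49405aa604d05032a981a40c0d28118cd7110f388875460b85c09b5190e17106c388aa0c6917102b284354c6124620d05182a98c250c6120142cd7110b2858554642a6341431a09189840c68201464d71105181a24c6112222c731a0488991c4688e234448c84f440b72221b8c23158c84eb2146d94236435118c84c340c49a2224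d11098c84bb40c45a2222d11087022e38116630536c151450b0d86625142c340a8cf70149280b39405a098307701489813354059e585067102e46426dc40b2c23145190da8c868385280c4cf708492843414219c9910770848a8433cc419a5a1067110ab85051c4428e221331a0898983cc681e1464c70844a80b1d4218ea10c331a04085a184650c222c28ca0f4419723283ac889b88b0e30a15595036438918c22e461165c05361951488b0db0625222c34428cf8ca0c34214a3282ed085168c09346025a3022d180870229281939c08a26068d4cc0826211d3301e588867110e46506dc4436e221a7110cb0a150388a80c68f7102ab84250c6122620cf7102a38814cc611e142cc70a09285841c2822a160f50b0726601cc4c1a5a80670a04a8191dc28106068650b03a8580cc4c0c226428c22b421a4a205ab084d08832ac21a4210d28818cd8c149440b3a205a0d03078c148c213362059ec85068c22944193a308a30868d68c0834211da301ec88868c22746112e3051ad03048c226b4211230898888c28c22ac21a4630529084cf8c22a421a3e308a6818cc70848440b354219a9910670847c40b31421989910570a08441935c281f1064c50b06a6601942c189980570223b81111c050ca02c250b0328190942c0a606818d10f468876260b8cc09b8990e33106d888aa446918d02e38426e340b21a3148990dc4c86988528444cf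8d10e38506e344371a21a8d10c86a151888a84468f7022a981a45c0528604cf7022a181a3dc08a6118cc8d10c46885da80a4d40516a109350845a8412d4208710293881454609c6308d4e10827083d3808e5c0867110938884546420a320f5190718d0353840e5c40671104b888214608e630865190398d01946406234428d02b444356161250a0d08982ac2c25216120842cd8c8494443422219cd11078c848c4433e1419aca1068d02ac64252161230a0cf8d02a46814e1611e842cc8c848280b362219ad11068c847a80b3222198d11058d0294681462609d0b08d6a10835083da808ecc0868d02746423634096d11048d026c68131a80888c0c27110838883e2609b1304c51906a8c8313840c9c20571023b84219c4088a10c25190328c81546084630818d10b4458562642b0b41485a09429842168208464d8d10ac65052344291a21385a08c2983e1681e8464c8ca09445842328231160f88b0734601e14c1aca8068ca082819363281ea064c88b06b4601a22c18d18058d109468846264211320f8990742d035a840ecc4068d10846883d4609aa304c89906c4c831a840cd42058d1074650363441b1a20c8d105b46011a84088c60271103b85019c440ce22057110228580946404634018d105421a2616113022c785a04c0991e0688f034448c844c40b1e2218f110c385a04405a1a0650d022c28ca04c4191e328110868688b03c4580e14c0d026428c223c611123050d102c288b0344190a22c0b086818d104c688222608f0b08689903c2d01a26407034428d023c6421a34089110c28990344c816260850b0818d103c6501a3440d1a2058d10244580a264050b4018d101c6110a34085190818d101465006344031a200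

def cx (l k : ℕ) : ℕ := (tabX >>> (18 * (37 * l + k))) % 2 ^ 18

def cy (g : ℕ) : ℕ := (tabY >>> (21 * g)) % 2 ^ 21

def cl (g : ℕ) : ℕ := cy g % 64

def rh (g i : ℕ) : ℕ := ((cy g / 64) >>> (3 * i)) % 8

/-- The rows of the table `tabX`. -/
def chkX : Bool :=
  (List.range 34).all fun l => (List.range 37).all (fun k => isP 6 (cx l k)) &&
    (List.range 5).all (fun i => (List.range 32).all fun p =>
      dfr 6 (cx l i) (cx l (5 + p)) && (p.testBit i == agr 6 (cx l i) (cx l (5 + p)))) &&
    (List.range 5).all (fun j => (List.range j).all fun i => dfr 6 (cx l i) (cx l j))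

/-- The isomorphisms. -/
def chkY : Bool :=
  (List.range 1024).all fun g => decide (cl g < 34) && (List.range 5).all fun j =>
    decide (rh g j < 5) && (List.range j).all fun i => (rh g i != rh g j) &&
      (g.testBit (ix i j) == agr 6 (cx (cl g) (rh g i)) (cx (cl g) (rh g j)))

lemma chkX_true : chkX = true := by decide +kernel

lemma chkY_true : chkY = true := by decide +kernel

lemma ix_inj : ∀ i j i' j' : Fin 5, i < j → i' < j' → ix i j = ix i' j' → i = i' ∧ j = j' := by
  decide

lemma ix_lt : ∀ i j : Fin 5, i < j → ix i j < 10 := by decide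

lemma ix_lt4 : ∀ i j : Fin 4, i < j → ix i j < 6 := by decide

lemma bits_exist (n : ℕ) (P : ℕ → Prop) : ∃ g < 2 ^ n, ∀ k < n, (g.testBit k = true ↔ P k) := by
  classical
  refine ⟨Nat.ofBits (fun k : Fin n => decide (P k)), Nat.ofBits_lt_two_pow _, fun k hk => ?_⟩
  rw [Nat.testBit_ofBits_lt _ _ hk]
  simp

/-- Every graph on four vertices has a representation with four points. -/
theorem n4 (H : SimpleGraph (Fin 4)) : Rep H 4 := by
  obtain ⟨g, hg, hb⟩ := bits_exist 6 (fun k => ∃ i j : Fin 4, i < j ∧ ix i j = k ∧ H.Adj i j)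
  have hadj : ∀ i j : Fin 4, i < j → (g.testBit (ix i j) = true ↔ H.Adj i j) := by
    intro i j hij
    rw [hb _ (ix_lt4 i j hij)]
    constructor
    · rintro ⟨i', j', h1, h2, h3⟩
      have := ix_inj (i'.castLE (by norm_num)) (j'.castLE (by norm_num))
        (i.castLE (by norm_num)) (j.castLE (by norm_num)) h1 hij h2
      have e1 : i' = i := by
        have := congrArg Fin.val this.1
        exact Fin.ext this
      have e2 : j' = j := by
        have := congrArg Fin.val this.2
        exact Fin.ext this
      rw [← e1, ← e2]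
      exact h3
    · intro h
      exact ⟨i, j, hij, rfl, h⟩
  have h4 := chk4_true
  simp only [chk4, List.all_eq_true, List.mem_range, Bool.and_eq_true, beq_iff_eq] at h4
  have hP : ∀ i : Fin 4, isP 4 (tc g i) = true := fun i => (h4 g hg i i.2).1
  have key : ∀ i j : Fin 4, i < j → dfr 4 (tc g i) (tc g j) = true ∧
      (H.Adj i j ↔ agr 4 (tc g i) (tc g j) = true) := by
    intro i j hij
    have := (h4 g hg j j.2).2 i hij
    refine ⟨this.1, ?_⟩
    rw [← hadj i j hij, this.2]
  have dsymm : ∀ {n a b : ℕ}, dfr n a b = true → dfr n b a = true := by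
    intro n a b h
    simp only [dfr, List.any_eq_true, List.mem_range, bne_iff_ne, ne_eq] at h ⊢
    obtain ⟨i, hi, h⟩ := h
    exact ⟨i, hi, fun h' => h h'.symm⟩
  have asymm : ∀ {n a b : ℕ}, agr n a b = true → agr n b a = true := by
    intro n a b h
    simp only [agr, List.any_eq_true, List.mem_range, beq_iff_eq] at h ⊢
    obtain ⟨i, hi, h⟩ := h
    exact ⟨i, hi, h.symm⟩
  refine rep_of_codes H 4 (fun i => tc g i) hP (fun u v huv => ?_) (fun u v huv => ?_)
  · rcases lt_or_gt_of_ne huv with h | h
    · exact (key u v h).1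
    · exact dsymm (key v u h).1
  · rcases lt_or_gt_of_ne huv with h | h
    · exact (key u v h).2
    · rw [H.adj_comm, (key v u h).2]
      exact ⟨asymm, asymm⟩

/-- Every graph on six vertices has a representation with six points. -/
theorem n6 (H : SimpleGraph (Option (Fin 5))) : Rep H 6 := by
  obtain ⟨g, hg, hb⟩ := bits_exist 10
    (fun k => ∃ i j : Fin 5, i < j ∧ ix i j = k ∧ H.Adj (some i) (some j))
  have hadj : ∀ i j : Fin 5, i < j → (g.testBit (ix i j) = true ↔ H.Adj (some i) (some j)) := by
    intro i j hij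
    rw [hb _ (ix_lt i j hij)]
    constructor
    · rintro ⟨i', j', h1, h2, h3⟩
      have := ix_inj i' j' i j h1 hij h2
      rw [← this.1, ← this.2]
      exact h3
    · intro h
      exact ⟨i, j, hij, rfl, h⟩
  have dsymm : ∀ {n a b : ℕ}, dfr n a b = true → dfr n b a = true := by
    intro n a b h
    simp only [dfr, List.any_eq_true, List.mem_range, bne_iff_ne, ne_eq] at h ⊢
    obtain ⟨i, hi, h⟩ := h
    exact ⟨i, hi, fun h' => h h'.symm⟩
  have asymm : ∀ {n a b : ℕ}, agr n a b = true → agr n b a = true := by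
    intro n a b h
    simp only [agr, List.any_eq_true, List.mem_range, beq_iff_eq] at h ⊢
    obtain ⟨i, hi, h⟩ := h
    exact ⟨i, hi, h.symm⟩
  have hY := chkY_true
  simp only [chkY, List.all_eq_true, List.mem_range, Bool.and_eq_true, beq_iff_eq,
    decide_eq_true_eq, bne_iff_ne, ne_eq] at hY
  obtain ⟨hl, hY2⟩ := hY g hg
  have hX := chkX_true
  simp only [chkX, List.all_eq_true, List.mem_range, Bool.and_eq_true, beq_iff_eq] at hX
  obtain ⟨⟨hX1, hX2⟩, hX3⟩ := hX (cl g) hl
  have hr : ∀ i : Fin 5, rh g i < 5 := fun i => (hY2 i i.2).1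
  have hrinj : ∀ i j : Fin 5, rh g i = rh g j → i = j := by
    intro i j hij
    rcases lt_trichotomy i j with h | h | h
    · exact absurd hij ((hY2 j j.2).2 i h).1
    · exact h
    · exact absurd hij.symm ((hY2 i i.2).2 j h).1
  obtain ⟨p, hp, hpb⟩ := bits_exist 5 (fun k => ∃ i : Fin 5, rh g i = k ∧ H.Adj (some i) none)
  have hpadj : ∀ i : Fin 5, (p.testBit (rh g i) = true ↔ H.Adj (some i) none) := by
    intro i
    rw [hpb _ (hr i)]
    constructor
    · rintro ⟨i', h1, h2⟩
      rw [← hrinj i' i h1]
      exact h2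
    · intro h
      exact ⟨i, rfl, h⟩
  let c : Option (Fin 5) → ℕ := fun v => v.elim (cx (cl g) (5 + p)) (fun i => cx (cl g) (rh g i))
  have hss : ∀ i j : Fin 5, i < j → dfr 6 (c (some i)) (c (some j)) = true ∧
      (H.Adj (some i) (some j) ↔ agr 6 (c (some i)) (c (some j)) = true) := by
    intro i j hij
    have h1 := (hY2 j j.2).2 i hij
    refine ⟨?_, ?_⟩
    · rcases lt_or_gt_of_ne h1.1 with h | h
      · exact hX3 _ (hr j) _ h
      · exact dsymm (hX3 _ (hr i) _ h)
    · rw [← hadj i j hij, h1.2]
      rfl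
  have hsn : ∀ i : Fin 5, dfr 6 (c (some i)) (c none) = true ∧
      (H.Adj (some i) none ↔ agr 6 (c (some i)) (c none) = true) := by
    intro i
    have h1 := hX2 (rh g i) (hr i) p hp
    refine ⟨h1.1, ?_⟩
    rw [← hpadj i, h1.2]
    rfl
  refine rep_of_codes H 6 c ?_ ?_ ?_
  · intro v
    cases v with
    | none => exact hX1 (5 + p) (by omega)
    | some i => exact hX1 (rh g i) (by have := hr i; omega)
  · intro u v huv
    cases u with
    | none =>
      cases v with
      | none => exact absurd rfl huv
      | some j => exact dsymm (hsn j).1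
    | some i =>
      cases v with
      | none => exact (hsn i).1
      | some j =>
        have hij : i ≠ j := fun h => huv (by rw [h])
        rcases lt_or_gt_of_ne hij with h | h
        · exact (hss i j h).1
        · exact dsymm (hss j i h).1
  · intro u v huv
    cases u with
    | none =>
      cases v with
      | none => exact absurd rfl huv
      | some j =>
        rw [H.adj_comm, (hsn j).2]
        exact ⟨asymm, asymm⟩
    | some i =>
      cases v with
      | none => exact (hsn i).2
      | some j =>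
        have hij : i ≠ j := fun h => huv (by rw [h])
        rcases lt_or_gt_of_ne hij with h | h
        · exact (hss i j h).2
        · rw [H.adj_comm, (hss j i h).2]
          exact ⟨asymm, asymm⟩

/-- Transfer of representations. -/
lemma rep_of_equiv {V W : Type} (e : V ≃ W) (H : SimpleGraph V) (n : ℕ)
    (h : Rep (H.comap e.symm) n) : Rep H n := by
  obtain ⟨π, h1, h2⟩ := h
  refine ⟨fun v => π (e v), fun u v huv => e.injective (h1 huv), fun u v huv => ?_⟩
  rw [← h2 (e u) (e v) (fun h => huv (e.injective h))]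
  simp

/-- Four vertices. -/
theorem rep_four (V : Type) [Fintype V] (H : SimpleGraph V) (h : Fintype.card V = 4) :
    Rep H 4 :=
  rep_of_equiv (Fintype.equivFinOfCardEq h) H 4 (n4 _)

/-- Six vertices. -/
theorem rep_six (V : Type) [Fintype V] (H : SimpleGraph V) (h : Fintype.card V = 6) :
    Rep H 6 :=
  rep_of_equiv ((Fintype.equivFinOfCardEq h).trans
    (Fintype.equivFinOfCardEq (by simp : Fintype.card (Option (Fin 5)) = 6)).symm) H 6 (n6 _)

end Pool.Agent.Work.MP_12b649_co.Even

end

section

/-!
# Kotzig factorizations exist for every odd order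
-/

namespace Pool.Agent.Work.MP_12b649_co

/-- The Kotzig factorization of order `1`. -/
def kotzigOne : Kotzig 1 where
  V := Unit
  J := Empty
  C := Unit
  finV := inferInstance
  finJ := inferInstance
  finC := inferInstance
  cardV := by simp
  cardC := by simp
  cardJ := by simp
  f := fun j => j.elim
  col := fun _ _ => ()
  trans := fun j => j.elim
  col_comm := fun _ _ => rfl
  col_inj := fun _ _ _ _ => rfl
  diag_inj := fun _ _ _ => rfl
  orth := fun j => j.elim
  cover := fun u v h => absurd (Subsingleton.elim u v) h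

section

variable {d e : ℕ}

lemma rho_inj (q : ZMod d → ZMod e) (c : ZMod d) : Function.Injective
    (fun p : ZMod d × ZMod e => if p.2 = q p.1 then (p.1 + c, q (p.1 + c)) else p) := by
  rintro ⟨x, i⟩ ⟨x', i'⟩ h
  simp only at h
  split_ifs at h with h1 h2 h2
  · simp only [Prod.mk.injEq] at h
    have hx : x = x' := by linear_combination h.1
    rw [h1, h2, hx]
  · exfalso
    simp only [Prod.mk.injEq] at h
    apply h2
    rw [← h.2, ← h.1]
  · exfalso
    simp only [Prod.mk.injEq] at h
    apply h1
    rw [h.2, h.1]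
  · exact h

/-- The product construction. -/
theorem product [hd : Fact d.Prime] (hd2 : d ≠ 2) (he : Odd e) (K : Kotzig e) :
    Nonempty (Kotzig (d * e)) := by
  classical
  have hp := hd.out
  have hodd : Odd d := hp.odd_of_ne_two hd2
  have hepos : 0 < e := he.pos
  have : NeZero e := ⟨hepos.ne'⟩
  have hd3 : 3 ≤ d := by
    have := hp.two_le
    omega
  have h2d : (2 : ZMod d) ≠ 0 := by
    intro h0
    have h3 : (d : ℕ) ∣ 2 := (ZMod.natCast_eq_zero_iff 2 d).mp (by exact_mod_cast h0)
    exact hd2 ((Nat.prime_dvd_prime_iff_eq hp Nat.prime_two).mp h3)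
  have h2e : IsUnit (2 : ZMod e) := two_isUnit he
  set half : ZMod d := (2 : ZMod d)⁻¹ with hhalf
  have hh : 2 * half = 1 := mul_inv_cancel₀ h2d
  have h1d : (1 : ZMod d) ≠ 0 := one_ne_zero
  -- the base vertex
  have hVne : Nonempty K.V := by
    have : 0 < Nat.card K.V := by rw [K.cardV]; exact hepos
    exact (Nat.card_pos_iff.mp this).1
  obtain ⟨w0⟩ := hVne
  -- labels
  have hcardJ : Nat.card K.J = (e - 1) / 2 := by
    have := K.cardJ
    omega
  let idx : K.J ≃ Fin ((e - 1) / 2) := Finite.equivFinOfCardEq hcardJ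
  let lam : K.J → ℕ := fun j => (idx j).val + 1
  have lam1 : ∀ j, 1 ≤ lam j := fun j => Nat.le_add_left _ _
  have lam2 : ∀ j, 2 * lam j < e := by
    intro j
    have := (idx j).2
    simp only [lam]
    omega
  let lab : K.J → ZMod e := fun j => (lam j : ZMod e)
  have lab_inj : Function.Injective lab := by
    intro j j' h
    have h1 : lam j = lam j' := by
      have a1 : (lam j : ZMod e).val = lam j :=
        ZMod.val_natCast_of_lt (by have := lam2 j; omega)
      have a2 : (lam j' : ZMod e).val = lam j' :=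
        ZMod.val_natCast_of_lt (by have := lam2 j'; omega)
      rw [← a1, ← a2]
      exact congrArg ZMod.val h
    apply idx.injective
    apply Fin.ext
    simp only [lam] at h1
    omega
  have nz : ∀ k : ℕ, 1 ≤ k → k < e → (k : ZMod e) ≠ 0 := by
    intro k h1 h2 h
    have := (ZMod.natCast_eq_zero_iff k e).mp h
    exact absurd (Nat.le_of_dvd (by omega) this) (by omega)
  have lab0 : ∀ j, lab j ≠ 0 := fun j => nz _ (lam1 j) (by have := lam2 j; omega)
  have lab1 : ∀ j, (1 : ZMod e) - 2 * lab j ≠ 0 := by
    intro j h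
    apply nz (2 * lam j - 1) (by have := lam1 j; omega) (by have := lam2 j; omega)
    rw [Nat.cast_sub (by have := lam1 j; omega)]
    push_cast
    simp only [lab] at h
    linear_combination -h
  -- the end points of the exchanged edges
  let q : K.J → ZMod d → ZMod e := fun j x => - sg x.val (lab j)
  have q0 : ∀ j x, q j x ≠ 0 := by
    intro j x
    simp only [q, neg_ne_zero]
    unfold sg
    split_ifs
    · exact lab0 j
    · exact lab1 j
    · exact lab0 j
    · exact neg_ne_zero.mpr (lab0 j)
  have q_inj : ∀ x, Function.Injective (fun j => q j x) := by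
    intro x j j' h
    exact lab_inj (sg_injective he x.val (neg_injective h))
  let ν : K.J → K.V := fun j => K.f j w0
  have ν_ne : ∀ j, ν j ≠ w0 := fun j => K.f_ne j w0
  have ν_inj : Function.Injective ν := by
    intro j j' h
    have := K.nb_injective w0 (a₁ := (j, true)) (a₂ := (j', true)) (by simpa [Kotzig.nb] using h)
    simpa using this
  have hφex : ∀ x : ZMod d, ∃ φ : K.V ≃ ZMod e, φ w0 = 0 ∧ ∀ j, φ (ν j) = q j x := by
    intro x
    obtain ⟨φ, hφ⟩ := exists_equiv_ext (J := Option K.J) (A := K.V) (B := ZMod e)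
      (by rw [K.cardV, Nat.card_eq_fintype_card, ZMod.card])
      (fun o => o.elim w0 ν) (fun o => o.elim 0 (fun j => q j x))
      (by
        rintro (_ | j) (_ | j') h
        · rfl
        · exact absurd h.symm (ν_ne j')
        · exact absurd h (ν_ne j)
        · exact congrArg some (ν_inj h))
      (by
        rintro (_ | j) (_ | j') h
        · rfl
        · exact absurd h.symm (q0 j' x)
        · exact absurd h (q0 j x)
        · exact congrArg some (q_inj x h))
    exact ⟨φ, hφ none, fun j => hφ (some j)⟩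
  choose φ hφ0 hφ using hφex
  have hψex : ∀ x : ZMod d, ∃ ψ : K.C ≃ ZMod e, ∀ j, ψ (K.col w0 (ν j)) = q j (x - half) := by
    intro x
    exact exists_equiv_ext (J := K.J) (A := K.C) (B := ZMod e)
      (by rw [K.cardC, Nat.card_eq_fintype_card, ZMod.card])
      (fun j => K.col w0 (ν j)) (fun j => q j (x - half))
      (by
        intro j j' h
        exact ν_inj (K.col_inj w0 h))
      (q_inj _)
  choose ψ hψ using hψex
  have hφs0 : ∀ x, (φ x).symm 0 = w0 := by
    intro x
    rw [Equiv.symm_apply_eq, hφ0]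
  have hφsq : ∀ x j, (φ x).symm (q j x) = ν j := by
    intro x j
    rw [Equiv.symm_apply_eq, hφ]
  -- the colouring
  let col : ZMod d × ZMod e → ZMod d × ZMod e → ZMod d × ZMod e := fun u v =>
    if u.1 = v.1 then
      (u.1 + v.1, ψ u.1 (K.col ((φ u.1).symm u.2) ((φ u.1).symm v.2)))
    else (u.1 + v.1, u.2 + v.2)
  have col_eq : ∀ (x : ZMod d) (i i' : ZMod e), col (x, i) (x, i') =
      (x + x, ψ x (K.col ((φ x).symm i) ((φ x).symm i'))) := by
    intro x i i'
    simp only [col, if_true]
  have col_ne : ∀ (x x' : ZMod d) (i i' : ZMod e), x ≠ x' → col (x, i) (x', i') =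
      (x + x', i + i') := by
    intro x x' i i' h
    simp only [col, if_neg h]
  have col_fst : ∀ u v, (col u v).1 = u.1 + v.1 := by
    intro u v
    simp only [col]
    split_ifs <;> rfl
  have col_q : ∀ (x : ZMod d) (j : K.J), col (x, q j x) (x, 0) = (x + x, q j (x - half)) := by
    intro x j
    rw [col_eq, hφs0, hφsq, K.col_comm, hψ]
  -- the inner cycles
  let gin : K.J → Equiv.Perm (ZMod d × ZMod e) := fun j =>
    { toFun := fun p => (p.1, φ p.1 ((K.f j).symm ((φ p.1).symm p.2)))
      invFun := fun p => (p.1, φ p.1 (K.f j ((φ p.1).symm p.2)))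
      left_inv := fun p => by simp
      right_inv := fun p => by simp }
  let fin : K.J → Equiv.Perm (ZMod d × ZMod e) := fun j => (gin j).trans sh.symm
  have fin_apply : ∀ j x i, fin j (x, i) =
      if i = q j x then (x + 1, 0) else (x, φ x ((K.f j).symm ((φ x).symm i))) := by
    intro j x i
    have h1 : (gin j (x, i)) = (x, φ x ((K.f j).symm ((φ x).symm i))) := rfl
    have h2 : φ x ((K.f j).symm ((φ x).symm i)) = 0 ↔ i = q j x := by
      rw [← hφ x j, ← hφ0 x, (φ x).apply_eq_iff_eq, Equiv.symm_apply_eq, Equiv.symm_apply_eq]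
    simp only [fin, Equiv.trans_apply, h1, sh_symm_apply]
    by_cases h : i = q j x
    · rw [if_pos (h2.mpr h), if_pos h, h2.mpr h]
    · rw [if_neg (fun h' => h (h2.mp h')), if_neg h]
  have trans_fin : ∀ j u v, (fin j).SameCycle u v := by
    intro j
    have s1 : ∀ x w, w ≠ w0 → (fin j).SameCycle (x, φ x (K.f j w)) (x, φ x w) := by
      intro x w hw
      apply sc_step
      rw [fin_apply, if_neg, Equiv.symm_apply_apply, Equiv.symm_apply_apply]
      rw [← hφ x j, (φ x).apply_eq_iff_eq]
      intro h
      exact hw ((K.f j).injective h)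
    have s2 : ∀ x, ∀ k : ℕ, ∀ w, (K.f j ^ k) w = w0 →
        (fin j).SameCycle (x, φ x w) (x, φ x w0) := by
      intro x k
      induction k with
      | zero =>
        intro w h
        rw [pow_zero, Equiv.Perm.one_apply] at h
        rw [h]
      | succ k ih =>
        intro w h
        by_cases hw : w = w0
        · rw [hw]
        · rw [pow_succ, Equiv.Perm.mul_apply] at h
          exact (s1 x w hw).symm.trans (ih _ h)
    have s3 : ∀ x i, (fin j).SameCycle (x, i) (x, 0) := by
      intro x i
      obtain ⟨k, hk⟩ := (K.trans j ((φ x).symm i) w0).exists_nat_pow_eq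
      have := s2 x k _ hk
      rwa [Equiv.apply_symm_apply, hφ0] at this
    have s4 : ∀ x, (fin j).SameCycle (x, 0) (x + 1, 0) := by
      intro x
      have h1 : (fin j).SameCycle (x, q j x) (x + 1, 0) := by
        apply sc_step
        rw [fin_apply, if_pos rfl]
      exact (s3 x (q j x)).symm.trans h1
    have s5 : ∀ k : ℕ, (fin j).SameCycle ((0 : ZMod d), 0) ((k : ZMod d), 0) := by
      intro k
      induction k with
      | zero => rw [Nat.cast_zero]
      | succ k ih =>
        rw [Nat.cast_succ]
        exact ih.trans (s4 _)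
    have s6 : ∀ u, (fin j).SameCycle ((0 : ZMod d), 0) u := by
      rintro ⟨x, i⟩
      have := s5 x.val
      rw [ZMod.natCast_zmod_val] at this
      exact this.trans (s3 x i).symm
    intro u v
    exact (s6 u).symm.trans (s6 v)
  -- all cycles
  let f : (Fin ((d - 1) / 2) × ZMod e) ⊕ K.J → Equiv.Perm (ZMod d × ZMod e) := fun c =>
    match c with
    | Sum.inl rl => if (rl.1.val = 0 ∧ ∃ j, lab j = rl.2) then fsw rl.2 else
        fout (((rl.1.val + 1 : ℕ) : ZMod d)) rl.2
    | Sum.inr j => fin j
  have hδ : ∀ r : Fin ((d - 1) / 2), ((r.val + 1 : ℕ) : ZMod d) ≠ 0 := by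
    intro r h
    have := (ZMod.natCast_eq_zero_iff _ _).mp h
    have h1 := Nat.le_of_dvd (by omega) this
    have := r.2
    omega
  -- the injectivity of the unmodified outer edge colours
  have F_inj : ∀ (δ : ZMod d) (l : ZMod e), Function.Injective
      (fun u : ZMod d × ZMod e => (u.1 + (u.1 + δ), u.2 + (u.2 + sg (u.1 * δ⁻¹).val l))) := by
    rintro δ l ⟨x, i⟩ ⟨x', i'⟩ h
    simp only [Prod.mk.injEq] at h
    have hx : x = x' := by
      have : 2 * (x - x') = 0 := by linear_combination h.1
      exact sub_eq_zero.mp ((mul_eq_zero.mp this).resolve_left h2d)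
    subst hx
    have hi : i = i' := by
      have : 2 * i = 2 * i' := by linear_combination h.2
      exact h2e.mul_left_cancel this
    rw [hi]
  have orth : ∀ c, Function.Injective (fun u => col u (f c u)) := by
    rintro (⟨r, l⟩ | j)
    · simp only [f]
      by_cases hc : r.val = 0 ∧ ∃ j, lab j = l
      · rw [if_pos hc]
        obtain ⟨_, j, hj⟩ := hc
        -- modified outer cycle
        have hG : (fun u => col u (fsw l u)) =
            (fun u : ZMod d × ZMod e => (u.1 + (u.1 + 1), u.2 + (u.2 + sg (u.1 * 1⁻¹).val l))) ∘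
            (fun p : ZMod d × ZMod e => if p.2 = q j p.1 then
              (p.1 + (-half), q j (p.1 + (-half))) else p) := by
          funext p
          obtain ⟨x, i⟩ := p
          simp only [Function.comp]
          rw [fsw_apply]
          have hq : q j x = - sg x.val l := by simp only [q]; rw [hj]
          by_cases hi : i = q j x
          · have hi' : i = - sg x.val l := hi.trans hq
            simp only [hi', if_true]
            rw [if_pos hq.symm, ← hq, col_q]
            have hq2 : q j (x + -half) = - sg (x + -half).val l := by simp only [q]; rw [hj]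
            have e1 : (x + -half) * (1 : ZMod d)⁻¹ = x + -half := by rw [inv_one, mul_one]
            rw [e1]
            ext
            · linear_combination hh
            · rw [show x - half = x + -half by ring, hq2]
              ring
          · have hi' : ¬ i = - sg x.val l := fun h => hi (h.trans hq.symm)
            simp only [hi, hi', if_false]
            rw [col_ne _ _ _ _ (by
              intro h
              apply h1d
              linear_combination -h)]
            rw [inv_one, mul_one]
        rw [hG]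
        exact (F_inj 1 l).comp (rho_inj _ _)
      · rw [if_neg hc]
        have hG : (fun u => col u (fout (((r.val + 1 : ℕ) : ZMod d)) l u)) =
            (fun u : ZMod d × ZMod e => (u.1 + (u.1 + ((r.val + 1 : ℕ) : ZMod d)),
              u.2 + (u.2 + sg (u.1 * ((r.val + 1 : ℕ) : ZMod d)⁻¹).val l))) := by
          funext p
          obtain ⟨x, i⟩ := p
          rw [fout_apply]
          rw [col_ne _ _ _ _ (by
            intro h
            apply hδ r
            linear_combination -h)]
        rw [hG]
        exact F_inj _ _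
    · -- inner cycle
      simp only [f]
      have hF2 : Function.Injective (fun u : ZMod d × ZMod e =>
          (u.1 + u.1, ψ u.1 (K.col ((φ u.1).symm u.2) ((K.f j).symm ((φ u.1).symm u.2))))) := by
        rintro ⟨x, i⟩ ⟨x', i'⟩ h
        simp only [Prod.mk.injEq] at h
        have hx : x = x' := by
          have : 2 * (x - x') = 0 := by linear_combination h.1
          exact sub_eq_zero.mp ((mul_eq_zero.mp this).resolve_left h2d)
        subst hx
        have h2 := (ψ x).injective h.2
        rw [K.col_comm, K.col_comm ((φ x).symm i')] at h2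
        have h3 := K.orth j (a₁ := (K.f j).symm ((φ x).symm i))
          (a₂ := (K.f j).symm ((φ x).symm i'))
          (by simpa only [Equiv.apply_symm_apply] using h2)
        have h4 := (φ x).symm.injective ((K.f j).symm.injective h3)
        rw [h4]
      have hG : (fun u => col u (fin j u)) =
          (fun u : ZMod d × ZMod e =>
            (u.1 + u.1, ψ u.1 (K.col ((φ u.1).symm u.2) ((K.f j).symm ((φ u.1).symm u.2))))) ∘
          (fun p : ZMod d × ZMod e => if p.2 = q j p.1 then
            (p.1 + half, q j (p.1 + half)) else p) := by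
        funext p
        obtain ⟨x, i⟩ := p
        simp only [Function.comp]
        rw [fin_apply]
        by_cases hi : i = q j x
        · simp only [hi, if_true]
          rw [col_ne _ _ _ _ (by
            intro h
            apply h1d
            linear_combination -h)]
          rw [hφsq]
          have e1 : (K.f j).symm (ν j) = w0 := by simp only [ν, Equiv.symm_apply_apply]
          rw [e1, K.col_comm, hψ]
          ext
          · linear_combination -hh
          · simp
        · simp only [hi, if_false]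
          rw [col_eq, Equiv.symm_apply_apply]
      rw [hG]
      exact hF2.comp (rho_inj _ _)
  -- covering
  have coverDiff : ∀ (x : ZMod d) (i i' : ZMod e) (r : Fin ((d - 1) / 2)),
      ∃ c, f c (x, i) = (x + ((r.val + 1 : ℕ) : ZMod d), i') ∨
        f c (x + ((r.val + 1 : ℕ) : ZMod d), i') = (x, i) := by
    intro x i i' r
    have hsurj : Function.Surjective
        (sg (x * (((r.val + 1 : ℕ) : ZMod d))⁻¹).val : ZMod e → ZMod e) :=
      Finite.surjective_of_injective (sg_injective he _)
    obtain ⟨l, hl⟩ := hsurj (i' - i)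
    have hout : fout (((r.val + 1 : ℕ) : ZMod d)) l (x, i) =
        (x + ((r.val + 1 : ℕ) : ZMod d), i') := by
      rw [fout_apply]
      simp only [hl]
      rw [add_sub_cancel]
    by_cases hc : r.val = 0 ∧ ∃ j, lab j = l
    · obtain ⟨hr, j, hj⟩ := hc
      have e1 : ((r.val + 1 : ℕ) : ZMod d) = 1 := by rw [hr]; simp
      rw [e1] at hout hl ⊢
      rw [inv_one, mul_one] at hl
      by_cases hi : i = q j x
      · refine ⟨Sum.inr j, Or.inl ?_⟩
        simp only [f]
        rw [fin_apply, if_pos hi]
        have : i' = 0 := by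
          have h1 : i = - sg x.val l := by rw [hi]; simp only [q]; rw [hj]
          rw [hl] at h1
          linear_combination h1
        rw [this]
      · refine ⟨Sum.inl (r, l), Or.inl ?_⟩
        simp only [f]
        rw [if_pos ⟨hr, j, hj⟩, fsw_apply, if_neg]
        · simp only [hl]
          rw [add_sub_cancel]
        · intro h
          apply hi
          have h' : i = - sg x.val l := h
          rw [h']
          simp only [q]
          rw [hj]
    · refine ⟨Sum.inl (r, l), Or.inl ?_⟩
      simp only [f]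
      rw [if_neg hc]
      exact hout
  have coverIn : ∀ (x : ZMod d) (w w' : K.V) (j : K.J), K.f j w = w' →
      ∃ c, f c (x, φ x w') = (x, φ x w) ∨ f c (x, φ x w) = (x, φ x w') := by
    intro x w w' j h
    by_cases hw : w = w0
    · -- the exchanged edge
      have hr0 : 0 < (d - 1) / 2 := by omega
      refine ⟨Sum.inl (⟨0, hr0⟩, lab j), Or.inl ?_⟩
      simp only [f]
      rw [if_pos ⟨trivial, j, rfl⟩, fsw_apply, if_pos]
      · rw [hw, hφ0]
      · rw [← h, hw]
        exact hφ x j
    · refine ⟨Sum.inr j, Or.inl ?_⟩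
      simp only [f]
      rw [fin_apply, if_neg]
      · rw [Equiv.symm_apply_apply, ← h, Equiv.symm_apply_apply]
      · rw [← hφ x j, (φ x).apply_eq_iff_eq, ← h]
        intro h'
        exact hw ((K.f j).injective h')
  refine ⟨{
    V := ZMod d × ZMod e
    J := (Fin ((d - 1) / 2) × ZMod e) ⊕ K.J
    C := ZMod d × ZMod e
    finV := inferInstance
    finJ := inferInstance
    finC := inferInstance
    cardV := by rw [Nat.card_prod, Nat.card_eq_fintype_card, Nat.card_eq_fintype_card,
      ZMod.card, ZMod.card]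
    cardC := by rw [Nat.card_prod, Nat.card_eq_fintype_card, Nat.card_eq_fintype_card,
      ZMod.card, ZMod.card]
    cardJ := by
      rw [Nat.card_sum, Nat.card_prod, Nat.card_eq_fintype_card (α := ZMod e), ZMod.card,
        Nat.card_eq_fintype_card (α := Fin ((d - 1) / 2)), Fintype.card_fin, hcardJ]
      obtain ⟨a, ha⟩ := hodd
      obtain ⟨b, hb⟩ := he
      have h1 : (d - 1) / 2 = a := by omega
      have h2 : (e - 1) / 2 = b := by omega
      rw [h1, h2, ha, hb]
      ring
    f := f
    col := col
    trans := ?_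
    col_comm := ?_
    col_inj := ?_
    diag_inj := ?_
    orth := orth
    cover := ?_ }⟩
  · rintro (⟨r, l⟩ | j) u v
    · simp only [f]
      by_cases hc : r.val = 0 ∧ ∃ j, lab j = l
      · rw [if_pos hc]
        obtain ⟨_, j, hj⟩ := hc
        rw [← hj]
        exact trans_fsw hd2 (lam1 j) (lam2 j) u v
      · rw [if_neg hc]
        exact trans_fout hd2 (hδ r) l u v
    · exact trans_fin j u v
  · rintro ⟨x, i⟩ ⟨x', i'⟩
    by_cases h : x = x'
    · subst h
      rw [col_eq, col_eq, K.col_comm]
    · rw [col_ne _ _ _ _ h, col_ne _ _ _ _ (Ne.symm h), add_comm x, add_comm i]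
  · rintro ⟨x, i⟩ ⟨x', i'⟩ ⟨x'', i''⟩ h
    have h1 : x' = x'' := by
      have := congrArg Prod.fst h
      rw [col_fst, col_fst] at this
      exact add_left_cancel this
    subst h1
    by_cases hx : x = x'
    · subst hx
      rw [col_eq, col_eq] at h
      simp only [Prod.mk.injEq] at h
      have := (φ x).symm.injective (K.col_inj _ ((ψ x).injective h.2))
      rw [this]
    · rw [col_ne _ _ _ _ hx, col_ne _ _ _ _ hx] at h
      simp only [Prod.mk.injEq] at h
      rw [add_left_cancel h.2]
  · rintro ⟨x, i⟩ ⟨x', i'⟩ h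
    simp only at h
    rw [col_eq, col_eq] at h
    simp only [Prod.mk.injEq] at h
    have hx : x = x' := by
      have : 2 * (x - x') = 0 := by linear_combination h.1
      exact sub_eq_zero.mp ((mul_eq_zero.mp this).resolve_left h2d)
    subst hx
    have := (φ x).symm.injective (K.diag_inj ((ψ x).injective h.2))
    rw [this]
  · rintro ⟨x, i⟩ ⟨x', i'⟩ hne
    by_cases hx : x = x'
    · subst hx
      have hw : (φ x).symm i ≠ (φ x).symm i' := by
        intro h
        apply hne
        rw [(φ x).symm.injective h]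
      obtain ⟨j, h | h⟩ := K.cover _ _ hw
      · obtain ⟨c, hc⟩ := coverIn x _ _ j h
        simp only [Equiv.apply_symm_apply] at hc
        exact ⟨c, hc.symm⟩
      · obtain ⟨c, hc⟩ := coverIn x _ _ j h
        simp only [Equiv.apply_symm_apply] at hc
        exact ⟨c, hc⟩
    · -- different cosets
      have hy : x' - x ≠ 0 := sub_ne_zero.mpr (Ne.symm hx)
      have hy1 : (x' - x).val ≠ 0 := by rwa [Ne, ZMod.val_eq_zero]
      have hy2 : (x' - x).val < d := ZMod.val_lt _
      have hyc : (((x' - x).val : ℕ) : ZMod d) = x' - x := ZMod.natCast_zmod_val _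
      rcases Nat.lt_or_ge ((x' - x).val - 1) ((d - 1) / 2) with h | h
      · obtain ⟨c, hc⟩ := coverDiff x i i' ⟨(x' - x).val - 1, h⟩
        simp only [Nat.sub_add_cancel (Nat.one_le_iff_ne_zero.mpr hy1)] at hc
        rw [hyc, add_sub_cancel] at hc
        exact ⟨c, hc⟩
      · have h' : d - (x' - x).val - 1 < (d - 1) / 2 := by
          obtain ⟨a, ha⟩ := hodd
          omega
        obtain ⟨c, hc⟩ := coverDiff x' i' i ⟨d - (x' - x).val - 1, h'⟩
        have e1 : d - (x' - x).val - 1 + 1 = d - (x' - x).val := by omega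
        have e2 : ((d - (x' - x).val : ℕ) : ZMod d) = x - x' := by
          rw [Nat.cast_sub hy2.le, hyc, ZMod.natCast_self]
          ring
        simp only [e1, e2, add_sub_cancel] at hc
        exact ⟨c, hc.symm⟩

end

/-- Kotzig factorizations exist for every odd order. -/
theorem exists_kotzig (N : ℕ) (hN : Odd N) : Nonempty (Kotzig N) := by
  induction N using Nat.strong_induction_on with
  | _ N ih =>
    by_cases h1 : N = 1
    · subst h1
      exact ⟨kotzigOne⟩
    · have hp : N.minFac.Prime := Nat.minFac_prime h1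
      have : Fact N.minFac.Prime := ⟨hp⟩
      obtain ⟨e, he⟩ := Nat.minFac_dvd N
      have hodd : Odd N.minFac ∧ Odd e := by
        have h := hN
        rw [he] at h
        exact Nat.odd_mul.mp h
      have hlt : e < N := by
        have h2 := hp.two_le
        have h3 : 0 < e := hodd.2.pos
        have h4 : 2 * e ≤ N.minFac * e := Nat.mul_le_mul_right e h2
        rw [← he] at h4
        omega
      obtain ⟨K⟩ := ih e hlt hodd.2
      have hne : N.minFac ≠ 2 := by
        intro h
        have := hodd.1
        rw [h] at this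
        exact absurd this (by decide)
      have := product (d := N.minFac) hne hodd.2 K
      rwa [← he] at this

end Pool.Agent.Work.MP_12b649_co

end

section

/-!
# Complete bipartite graphs: the reflections and the translations of `ZMod M`
-/

namespace Pool.Agent.Work.MP_12b649_co.Even

theorem pr_BIP : S_BIP := by
  intro M V _ H c hodd hM hH hcard
  classical
  have : NeZero M := ⟨by omega⟩
  -- injections of the classes
  have hg : ∀ i : Bool, ∃ g : V → ZMod M, ∀ u v, c u = i → c v = i → g u = g v → u = v := by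
    intro i
    have h1 : Fintype.card {v // c v = i} ≤ Fintype.card (ZMod M) := by
      rw [ZMod.card, Fintype.card_subtype]
      exact hcard i
    obtain ⟨f⟩ := Function.Embedding.nonempty_of_card_le h1
    refine ⟨fun v => if h : c v = i then f ⟨v, h⟩ else 0, ?_⟩
    intro u v hu hv huv
    simp only [hu, hv, dif_pos] at huv
    have := f.injective huv
    exact congrArg Subtype.val this
  choose g hg using hg
  let idx : V → ZMod M := fun v => g (c v) v
  have hidx : ∀ u v, c u = c v → idx u = idx v → u = v := by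
    intro u v h1 h2
    refine hg (c v) u v h1 rfl ?_
    have h3 : g (c u) u = g (c v) v := h2
    rwa [h1] at h3
  have h2 : (2 : ZMod M) ≠ 0 := by
    intro h
    have h3 : ((2 : ℕ) : ZMod M) = 0 := by exact_mod_cast h
    rw [ZMod.natCast_eq_zero_iff] at h3
    have := Nat.le_of_dvd (by norm_num) h3
    omega
  obtain ⟨k, hk⟩ := hodd
  have hhalf : (2 : ZMod M) * ((k + 1 : ℕ) : ZMod M) = 1 := by
    have h3 : ((2 * (k + 1) : ℕ) : ZMod M) = ((M + 1 : ℕ) : ZMod M) := by
      congr 1; omega
    push_cast at h3 ⊢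
    rw [h3]
    simp
  let P : V → Equiv.Perm (ZMod M) := fun v =>
    if c v = true then Equiv.addRight (idx v) else Equiv.subLeft (idx v)
  have hPt : ∀ v x, c v = true → P v x = x + idx v := by
    intro v x h
    simp [P, h]
  have hPf : ∀ v x, c v = false → P v x = idx v - x := by
    intro v x h
    simp [P, h]
  let e : ZMod M ≃ Fin M := Fintype.equivFinOfCardEq (ZMod.card M)
  have hagree : ∀ u v, u ≠ v → (H.Adj u v ↔ ∃ x, P u x = P v x) := by
    intro u v huv
    rw [hH]
    cases hu : c u <;> cases hv : c v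
    · simp only [ne_eq, not_true_eq_false, false_iff, not_exists]
      intro x hx
      rw [hPf u x hu, hPf v x hv] at hx
      exact huv (hidx u v (by rw [hu, hv]) (by simpa using hx))
    · simp only [ne_eq, Bool.false_eq_true, not_false_eq_true, true_iff]
      refine ⟨(idx u - idx v) * ((k + 1 : ℕ) : ZMod M), ?_⟩
      rw [hPf u _ hu, hPt v _ hv]
      linear_combination (idx v - idx u) * hhalf
    · simp only [ne_eq, Bool.true_eq_false, not_false_eq_true, true_iff]
      refine ⟨(idx v - idx u) * ((k + 1 : ℕ) : ZMod M), ?_⟩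
      rw [hPt u _ hu, hPf v _ hv]
      linear_combination (idx v - idx u) * hhalf
    · simp only [ne_eq, not_true_eq_false, false_iff, not_exists]
      intro x hx
      rw [hPt u x hu, hPt v x hv] at hx
      exact huv (hidx u v (by rw [hu, hv]) (by simpa using hx))
  have hinj : ∀ u v, (∀ x, P u x = P v x) → u = v := by
    intro u v h
    by_contra huv
    have h3 : H.Adj u v := (hagree u v huv).mpr ⟨0, h 0⟩
    rw [hH] at h3
    have h0 := h 0
    have h1 := h 1
    cases hu : c u <;> cases hv : c v
    · exact h3 (by rw [hu, hv])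
    · rw [hPf u _ hu, hPt v _ hv] at h0 h1
      exact h2 (by linear_combination h0 - h1)
    · rw [hPt u _ hu, hPf v _ hv] at h0 h1
      exact h2 (by linear_combination h1 - h0)
    · exact h3 (by rw [hu, hv])
  refine ⟨fun v => e.permCongr (P v), ?_, ?_⟩
  · intro u v huv
    apply hinj
    intro x
    have h3 := congrArg (fun p : Equiv.Perm (Fin M) => p (e x)) huv
    simpa [Equiv.permCongr_apply] using h3
  · intro u v huv
    rw [hagree u v huv]
    constructor
    · rintro ⟨x, hx⟩
      exact ⟨e x, by simpa [Equiv.permCongr_apply] using hx⟩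
    · rintro ⟨i, hi⟩
      exact ⟨e.symm i, by simpa [Equiv.permCongr_apply] using hi⟩

end Pool.Agent.Work.MP_12b649_co.Even

end

section

/-!
# Item GOOD
-/

namespace Pool.Agent.Work.MP_12b649_co.Even

open Pool.Agent.Work.MP_12b649_co

theorem pr_GOOD (h1 : S_GOODP) (h2 : S_GOOD9) (h3 : S_GOODX) : S_GOOD := by
  intro N hodd hN
  by_cases hp : N.Prime
  · obtain ⟨K, x, hx⟩ := h1 N hp hN
    exact ⟨K, N, x, hx⟩
  by_cases h9 : N = 9
  · subst h9
    obtain ⟨K, x, hx⟩ := h2
    exact ⟨K, 9, x, hx⟩
  have hN1 : N ≠ 1 := by omega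
  have hmp : N.minFac.Prime := Nat.minFac_prime hN1
  have hsq : N.minFac ^ 2 ≤ N := Nat.minFac_sq_le_self (by omega) hp
  obtain ⟨d, hd⟩ := Nat.minFac_dvd N
  generalize N.minFac = p at hmp hsq hd
  rw [mul_comm] at hd
  subst hd
  have hdo : Odd d := (Nat.odd_mul.1 hodd).1
  have hpo : Odd p := (Nat.odd_mul.1 hodd).2
  have hp3 : 3 ≤ p := by
    have := hmp.two_le
    rcases hpo with ⟨k, hk⟩
    omega
  have hdp : p ≤ d := by
    have : p * p ≤ d * p := by rw [← sq]; exact hsq
    exact Nat.le_of_mul_le_mul_right this (by omega)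
  have hd5 : 5 ≤ d := by
    have hd3 : d ≠ 3 := by
      rintro rfl
      have : p = 3 := by omega
      subst this
      exact h9 rfl
    rcases hdo with ⟨k, hk⟩
    omega
  obtain ⟨K⟩ := exists_kotzig d hdo
  obtain ⟨K', x, hx⟩ := h3 d p K hmp hpo hdo hd5
  exact ⟨K', 2 * p - 1, x, hx⟩

end Pool.Agent.Work.MP_12b649_co.Even

end

section

/-!
# GOOD9: a Kotzig factorization of order nine with a good pair (found by computer)
-/

namespace Pool.Agent.Work.MP_12b649_co.Even

open Pool.Agent.Work.MP_12b649_co

/-- The four Hamiltonian cycles. -/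
def g9f : Fin 4 → Fin 9 → Fin 9 :=
  ![![3, 4, 5, 6, 7, 8, 1, 2, 0], ![4, 5, 0, 7, 8, 3, 2, 6, 1], ![5, 3, 4, 8, 6, 7, 0, 1, 2],
    ![1, 2, 3, 4, 5, 6, 8, 0, 7]]

/-- Their inverses. -/
def g9g : Fin 4 → Fin 9 → Fin 9 :=
  ![![8, 6, 7, 0, 1, 2, 3, 4, 5], ![2, 8, 6, 5, 0, 1, 7, 3, 4], ![6, 7, 8, 1, 2, 0, 4, 5, 3],
    ![7, 0, 1, 2, 3, 4, 5, 8, 6]]

/-- The Latin square. -/
def g9col : Fin 9 → Fin 9 → Fin 9 :=
  ![![0, 1, 2, 3, 4, 5, 6, 7, 8], ![1, 2, 0, 4, 5, 3, 7, 8, 6], ![2, 0, 1, 5, 3, 4, 8, 6, 7],
    ![3, 4, 5, 6, 8, 7, 0, 1, 2], ![4, 5, 3, 8, 7, 6, 1, 2, 0], ![5, 3, 4, 7, 6, 8, 2, 0, 1],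
    ![6, 7, 8, 0, 1, 2, 3, 5, 4], ![7, 8, 6, 1, 2, 0, 5, 4, 3], ![8, 6, 7, 2, 0, 1, 4, 3, 5]]

lemma g9_left : ∀ j u, g9g j (g9f j u) = u := by decide

lemma g9_right : ∀ j u, g9f j (g9g j u) = u := by decide

/-- The cycles as permutations. -/
def g9p (j : Fin 4) : Equiv.Perm (Fin 9) where
  toFun := g9f j
  invFun := g9g j
  left_inv := g9_left j
  right_inv := g9_right j

lemma g9_ham : ∀ j : Fin 4, ∀ v : Fin 9, ∃ k : Fin 9, (g9f j)^[k.val] 0 = v := by decide

lemma g9_same (j : Fin 4) (v : Fin 9) : (g9p j).SameCycle 0 v := by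
  obtain ⟨k, hk⟩ := g9_ham j v
  refine ⟨(k.val : ℤ), ?_⟩
  rw [zpow_natCast, ← hk, ← Equiv.Perm.iterate_eq_pow]
  rfl

lemma g9_comm : ∀ u v, g9col u v = g9col v u := by decide

lemma g9_inj : ∀ u v w, g9col u v = g9col u w → v = w := by decide

lemma g9_diag : ∀ u v, g9col u u = g9col v v → u = v := by decide

lemma g9_orth : ∀ j u v, g9col u (g9f j u) = g9col v (g9f j v) → u = v := by decide

lemma g9_cover : ∀ u v, u ≠ v → ∃ j, g9f j u = v ∨ g9f j v = u := by decide

/-- The factorization of order nine. -/
def g9K : Kotzig 9 where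
  V := Fin 9
  J := Fin 4
  C := Fin 9
  finV := inferInstance
  finJ := inferInstance
  finC := inferInstance
  cardV := by simp
  cardC := by simp
  cardJ := by simp
  f := g9p
  col := g9col
  trans := fun j u v => (g9_same j u).symm.trans (g9_same j v)
  col_comm := g9_comm
  col_inj := fun u v w h => g9_inj u v w h
  diag_inj := fun u v h => g9_diag u v h
  orth := fun j u v h => g9_orth j u v h
  cover := fun u v h => g9_cover u v h

/-- The order of the vertices. -/
def g9v : Fin 9 → Fin 9 := ![0, 2, 4, 6, 5, 8, 3, 7, 1]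

/-- The order of the vertices as a sequence. -/
def g9x (a : ℕ) : Fin 9 := if h : a < 9 then g9v ⟨a, h⟩ else 0

theorem pr_GOOD9 : S_GOOD9 := by
  refine ⟨g9K, g9x, ⟨4, rfl⟩, by norm_num, le_rfl, ?_, ?_, ?_⟩
  · intro a b ha hb h
    have h1 : g9x a = g9x b := h
    rw [g9x, g9x, dif_pos ha, dif_pos hb] at h1
    have key : ∀ a b : Fin 9, g9v a = g9v b → a = b := by decide
    exact congrArg Fin.val (key _ _ h1)
  · have key : ∀ j : Fin 4, ∃ a : Fin 9, Odd a.val ∧ a.val + 1 < 9 ∧
        ((g9f j (g9x 0) = g9x a.val ∧ g9g j (g9x 0) = g9x (a.val + 1)) ∨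
          (g9f j (g9x 0) = g9x (a.val + 1) ∧ g9g j (g9x 0) = g9x a.val)) := by decide
    intro j
    obtain ⟨a, ha⟩ := key j
    exact ⟨a.val, ha⟩
  · have key : ∀ j : Fin 4, ∃ a : Fin 9, ((Even a.val ∧ a.val + 2 < 9) ∨
        (Odd a.val ∧ 9 ≤ a.val ∧ a.val + 1 < 9)) ∧
        ((g9f j (g9x 8) = g9x a.val ∧ g9g j (g9x 8) = g9x (a.val + 1)) ∨
          (g9f j (g9x 8) = g9x (a.val + 1) ∧ g9g j (g9x 8) = g9x a.val)) := by decide
    intro j
    obtain ⟨a, ha⟩ := key j
    exact ⟨a.val, ha⟩

end Pool.Agent.Work.MP_12b649_co.Even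

end

section

/-!
# GOODP: the cyclic Kotzig factorization of prime order has a good pair
-/

namespace Pool.Agent.Work.MP_12b649_co.Even

open Pool.Agent.Work.MP_12b649_co

lemma goodp_pow {p : ℕ} (c u : ZMod p) (n : ℕ) :
    ((Equiv.addRight c : Equiv.Perm (ZMod p)) ^ n) u = u + n * c := by
  induction n with
  | zero => simp
  | succ n ih =>
    rw [pow_succ', Equiv.Perm.mul_apply, ih, Equiv.coe_addRight]
    push_cast
    ring

/-- The step of the cycle `j` is not zero. -/
lemma goodp_ne {p : ℕ} (hp : 5 ≤ p) (j : Fin ((p - 1) / 2)) : ((j.val : ZMod p) + 1) ≠ 0 := by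
  intro h
  have h1 : ((j.val + 1 : ℕ) : ZMod p) = 0 := by push_cast; exact h
  rw [ZMod.natCast_eq_zero_iff] at h1
  have := Nat.le_of_dvd (by omega) h1
  have := j.2
  omega

/-- The cyclic Kotzig factorization. -/
def goodpK (p : ℕ) (hpr : p.Prime) (hp : 5 ≤ p) : Kotzig p :=
  haveI : Fact p.Prime := ⟨hpr⟩
  haveI : NeZero p := ⟨by omega⟩
  have hodd : Odd p := hpr.odd_of_ne_two (by omega)
  have h2 : (2 : ZMod p) ≠ 0 := by
    intro h0
    have h3 : (p : ℕ) ∣ 2 := (ZMod.natCast_eq_zero_iff 2 p).mp (by exact_mod_cast h0)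
    have := Nat.le_of_dvd (by norm_num) h3
    omega
  { V := ZMod p
    J := Fin ((p - 1) / 2)
    C := ZMod p
    finV := inferInstance
    finJ := inferInstance
    finC := inferInstance
    cardV := by simp
    cardC := by simp
    cardJ := by
      rw [Nat.card_eq_fintype_card, Fintype.card_fin]
      obtain ⟨k, hk⟩ := hodd
      omega
    f := fun j => Equiv.addRight ((j.val : ZMod p) + 1)
    col := fun u v => u + v
    trans := by
      intro j u v
      have hc := goodp_ne hp j
      refine ⟨(((v - u) * ((j.val : ZMod p) + 1)⁻¹).val : ℕ), ?_⟩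
      rw [zpow_natCast, goodp_pow, ZMod.natCast_val, ZMod.cast_id', id_eq,
        mul_assoc, inv_mul_cancel₀ hc]
      ring
    col_comm := fun u v => add_comm u v
    col_inj := fun u v w h => add_left_cancel h
    diag_inj := by
      intro u v h
      simp only at h
      have : (2 : ZMod p) * u = 2 * v := by linear_combination h
      exact mul_left_cancel₀ h2 this
    orth := by
      intro j u v h
      simp only [Equiv.coe_addRight] at h
      have : (2 : ZMod p) * u = 2 * v := by linear_combination h
      exact mul_left_cancel₀ h2 this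
    cover := by
      intro u v huv
      have hd : v - u ≠ 0 := sub_ne_zero.mpr huv.symm
      have hv0 : (v - u).val ≠ 0 := fun h => hd ((ZMod.val_eq_zero _).mp h)
      have hlt : (v - u).val < p := ZMod.val_lt _
      have hval : (((v - u).val : ℕ) : ZMod p) = v - u := ZMod.natCast_zmod_val _
      obtain ⟨k, hk⟩ := hodd
      by_cases hle : (v - u).val ≤ (p - 1) / 2
      · refine ⟨⟨(v - u).val - 1, by omega⟩, Or.inl ?_⟩
        simp only [Equiv.coe_addRight]
        rw [Nat.cast_sub (by omega), hval]
        push_cast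
        ring
      · refine ⟨⟨p - (v - u).val - 1, by omega⟩, Or.inr ?_⟩
        simp only [Equiv.coe_addRight]
        rw [Nat.cast_sub (by omega), Nat.cast_sub (by omega), hval, ZMod.natCast_self]
        push_cast
        ring }

/-- The order of the vertices. -/
def goodpx (p : ℕ) (a : ℕ) : ZMod p := if a % 2 = 1 then (a : ZMod p) + 1 else -(a : ZMod p)

lemma goodpx_odd {p a : ℕ} (h : a % 2 = 1) : goodpx p a = (a : ZMod p) + 1 := by
  rw [goodpx, if_pos h]

lemma goodpx_even {p a : ℕ} (h : a % 2 = 0) : goodpx p a = -(a : ZMod p) := by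
  rw [goodpx, if_neg (by omega)]

/-- The value as a natural number. -/
lemma goodpx_nat {p a : ℕ} (ha : a < p) :
    goodpx p a = ((if a % 2 = 1 then a + 1 else (if a = 0 then 0 else p - a) : ℕ) : ZMod p) := by
  rw [goodpx]
  split_ifs with h h'
  · push_cast; rfl
  · subst h'; simp
  · rw [Nat.cast_sub ha.le, ZMod.natCast_self]; ring

theorem pr_GOODP : S_GOODP := by
  intro p hpr hp
  have hodd : Odd p := hpr.odd_of_ne_two (by omega)
  have hodd' : p % 2 = 1 := Nat.odd_iff.mp hodd
  have hcast : ∀ n m : ℕ, n + m = p → (n : ZMod p) = -(m : ZMod p) := by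
    intro n m h
    have : ((n + m : ℕ) : ZMod p) = 0 := by rw [h, ZMod.natCast_self]
    push_cast at this
    linear_combination this
  refine ⟨goodpK p hpr hp, goodpx p, hodd, hp, le_rfl, ?_, ?_, ?_⟩
  · intro a b ha hb h
    have h1 : goodpx p a = goodpx p b := h
    rw [goodpx_nat ha, goodpx_nat hb, ZMod.natCast_eq_natCast_iff'] at h1
    have ya : (if a % 2 = 1 then a + 1 else (if a = 0 then 0 else p - a) : ℕ) < p := by
      split_ifs <;> omega
    have yb : (if b % 2 = 1 then b + 1 else (if b = 0 then 0 else p - b) : ℕ) < p := by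
      split_ifs <;> omega
    rw [Nat.mod_eq_of_lt ya, Nat.mod_eq_of_lt yb] at h1
    split_ifs at h1 <;> omega
  · intro j
    have hj : j.val < (p - 1) / 2 := j.2
    have e0 : goodpx p 0 = 0 := by rw [goodpx_even rfl]; simp
    by_cases h : j.val % 2 = 1
    · refine ⟨j.val, Nat.odd_iff.mpr h, by omega, Or.inl ⟨?_, ?_⟩⟩
      · show goodpx p 0 + ((j.val : ZMod p) + 1) = goodpx p j.val
        rw [e0, goodpx_odd h]; ring
      · show goodpx p 0 + -((j.val : ZMod p) + 1) = goodpx p (j.val + 1)
        rw [e0, goodpx_even (by omega)]; push_cast; ring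
    · have hc := hcast (p - j.val - 2) (j.val + 2) (by omega)
      push_cast at hc
      refine ⟨p - j.val - 2, Nat.odd_iff.mpr (by omega), by omega, Or.inr ⟨?_, ?_⟩⟩
      · show goodpx p 0 + ((j.val : ZMod p) + 1) = goodpx p (p - j.val - 2 + 1)
        rw [e0, goodpx_even (by omega)]; push_cast; rw [hc]; ring
      · show goodpx p 0 + -((j.val : ZMod p) + 1) = goodpx p (p - j.val - 2)
        rw [e0, goodpx_odd (by omega), hc]; ring
  · intro j
    have hj : j.val < (p - 1) / 2 := j.2
    have e1 : goodpx p (p - 1) = 1 := by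
      rw [goodpx_even (by omega), Nat.cast_sub (by omega), ZMod.natCast_self]; push_cast; ring
    by_cases h : j.val % 2 = 1
    · have hc := hcast (p - j.val - 2) (j.val + 2) (by omega)
      push_cast at hc
      refine ⟨p - j.val - 2, Or.inl ⟨Nat.even_iff.mpr (by omega), by omega⟩, Or.inl ⟨?_, ?_⟩⟩
      · show goodpx p (p - 1) + ((j.val : ZMod p) + 1) = goodpx p (p - j.val - 2)
        rw [e1, goodpx_even (by omega), hc]; ring
      · show goodpx p (p - 1) + -((j.val : ZMod p) + 1) = goodpx p (p - j.val - 2 + 1)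
        rw [e1, goodpx_odd (by omega)]; push_cast; rw [hc]; ring
    · refine ⟨j.val, Or.inl ⟨Nat.even_iff.mpr (by omega), by omega⟩, Or.inr ⟨?_, ?_⟩⟩
      · show goodpx p (p - 1) + ((j.val : ZMod p) + 1) = goodpx p (j.val + 1)
        rw [e1, goodpx_odd (by omega)]; push_cast; ring
      · show goodpx p (p - 1) + -((j.val : ZMod p) + 1) = goodpx p j.val
        rw [e1, goodpx_even (by omega)]; ring

end Pool.Agent.Work.MP_12b649_co.Even

end

section

/-!
# The complete graph minus an edge
-/

namespace Pool.Agent.Work.MP_12b649_co.Even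

open Pool.Agent.Work.MP_12b649_co

theorem pr_KE : S_KE := by
  classical
  intro n V _ H a b hcard hn hK
  obtain ⟨m, rfl⟩ : ∃ m, n = m + 4 := ⟨n - 4, by omega⟩
  obtain ⟨hab, hadj⟩ := hK
  have h01 : (0 : Fin (m + 4)) ≠ 1 := by
    intro h; have := congrArg Fin.val h; simp at this
  have h02 : (0 : Fin (m + 4)) ≠ 2 := by
    intro h
    have := congrArg Fin.val h
    rw [Fin.val_zero, Fin.val_two] at this
    omega
  have h12 : (1 : Fin (m + 4)) ≠ 2 := by
    intro h
    have := congrArg Fin.val h
    rw [Fin.val_one, Fin.val_two] at this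
    omega
  -- the labelling
  obtain ⟨e, ea, eb⟩ : ∃ e : V ≃ Fin (m + 4), e a = 0 ∧ e b = 1 := by
    let e0 : V ≃ Fin (m + 4) := Fintype.equivFinOfCardEq hcard
    let e1 : V ≃ Fin (m + 4) := e0.trans (Equiv.swap (e0 a) 0)
    have h1a : e1 a = 0 := by simp [e1]
    have h1b : e1 b ≠ 0 := by
      intro h
      exact hab (e1.injective (h1a.trans h.symm))
    refine ⟨e1.trans (Equiv.swap (e1 b) 1), ?_, ?_⟩
    · rw [Equiv.trans_apply, h1a]
      exact Equiv.swap_apply_of_ne_of_ne h1b.symm h01
    · rw [Equiv.trans_apply, Equiv.swap_apply_left]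
  let ρ : Fin (m + 4) → Equiv.Perm (Fin (m + 4)) := fun k => Equiv.swap 1 2 * Equiv.swap 2 k
  have hρ0 : ∀ k, k ≠ 0 → ρ k 0 = 0 := by
    intro k hk
    show Equiv.swap 1 2 (Equiv.swap 2 k 0) = 0
    rw [Equiv.swap_apply_of_ne_of_ne h02 hk.symm, Equiv.swap_apply_of_ne_of_ne h01 h02]
  have hρ1 : ∀ k, k ≠ 1 → ρ k 1 = 2 := by
    intro k hk
    show Equiv.swap 1 2 (Equiv.swap 2 k 1) = 2
    rw [Equiv.swap_apply_of_ne_of_ne h12 hk.symm, Equiv.swap_apply_left]
  have hρi : ∀ k k', ρ k = ρ k' → k = k' := by
    intro k k' h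
    have h1 : Equiv.swap 2 k = Equiv.swap 2 k' := mul_left_cancel h
    have h2 := congrArg (fun f : Equiv.Perm (Fin (m + 4)) => f 2) h1
    simpa using h2
  let π : V → Equiv.Perm (Fin (m + 4)) := fun v =>
    if v = a then 1 else if v = b then finRotate (m + 4) else ρ (e v)
  have hπa : π a = 1 := by simp [π]
  have hπb : π b = finRotate (m + 4) := by simp [π, hab.symm]
  have hπw : ∀ w, w ≠ a → w ≠ b → π w = ρ (e w) := by
    intro w h1 h2; simp [π, h1, h2]
  have ne0 : ∀ w, w ≠ a → e w ≠ 0 := fun w h1 h => h1 (e.injective (h.trans ea.symm))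
  have ne1 : ∀ w, w ≠ b → e w ≠ 1 := fun w h1 h => h1 (e.injective (h.trans eb.symm))
  have rot0 : finRotate (m + 4) 0 = 1 := by
    rw [finRotate_apply]; simp
  have rot1 : finRotate (m + 4) 1 = 2 := by
    rw [finRotate_apply]; rfl
  have rotne : ∀ i, finRotate (m + 4) i ≠ i := by
    intro i h
    rw [finRotate_apply] at h
    have h1 : (1 : Fin (m + 4)) = 0 := by
      have : i + 1 = i + 0 := by rw [h, add_zero]
      exact add_left_cancel this
    exact h01 h1.symm
  -- agreement
  have hagree : ∀ u v, u ≠ v → (H.Adj u v ↔ ∃ i, π u i = π v i) := by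
    intro u v huv
    rw [hadj]
    by_cases h1 : u = a
    · subst h1
      by_cases h2 : v = b
      · subst h2
        constructor
        · rintro ⟨_, h, _⟩; exact absurd ⟨rfl, rfl⟩ h
        · rintro ⟨i, hi⟩
          rw [hπa, hπb] at hi
          exact absurd hi.symm (rotne i)
      · refine ⟨fun _ => ⟨0, ?_⟩, fun _ => ⟨huv, ?_, ?_⟩⟩
        · rw [hπa, hπw v huv.symm h2, hρ0 _ (ne0 v huv.symm)]; rfl
        · rintro ⟨_, h⟩; exact h2 h
        · rintro ⟨h, _⟩; exact hab h
    · by_cases h2 : u = b
      · subst h2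
        by_cases h3 : v = a
        · subst h3
          constructor
          · rintro ⟨_, _, h⟩; exact absurd ⟨rfl, rfl⟩ h
          · rintro ⟨i, hi⟩
            rw [hπa, hπb] at hi
            exact absurd hi (rotne i)
        · refine ⟨fun _ => ⟨1, ?_⟩, fun _ => ⟨huv, ?_, ?_⟩⟩
          · rw [hπb, hπw v h3 huv.symm, hρ1 _ (ne1 v huv.symm), rot1]
          · rintro ⟨h, _⟩; exact h1 h
          · rintro ⟨_, h⟩; exact h3 h
      · have hu := hπw u h1 h2
        refine ⟨fun _ => ?_, fun _ => ⟨huv, fun h => h1 h.1, fun h => h2 h.1⟩⟩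
        by_cases h3 : v = a
        · refine ⟨0, ?_⟩
          rw [hu, h3, hπa, hρ0 _ (ne0 u h1)]; rfl
        · by_cases h4 : v = b
          · refine ⟨1, ?_⟩
            rw [hu, h4, hπb, hρ1 _ (ne1 u h2), rot1]
          · refine ⟨0, ?_⟩
            rw [hu, hπw v h3 h4, hρ0 _ (ne0 u h1), hρ0 _ (ne0 v h3)]
  refine ⟨π, ?_, hagree⟩
  -- injectivity
  have hdiff : ∀ u v, u ≠ v → ∃ i, π u i ≠ π v i := by
    intro u v huv
    by_cases h1 : u = a
    · by_cases h2 : v = b
      · refine ⟨0, ?_⟩
        rw [h1, h2, hπa, hπb, rot0]; exact h01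
      · refine ⟨1, ?_⟩
        have hva : v ≠ a := fun h => huv (h1.trans h.symm)
        rw [h1, hπa, hπw v hva h2, hρ1 _ (ne1 v h2)]; exact h12
    · by_cases h2 : u = b
      · by_cases h3 : v = a
        · refine ⟨0, ?_⟩
          rw [h2, h3, hπa, hπb, rot0]; exact h01.symm
        · refine ⟨0, ?_⟩
          have hvb : v ≠ b := fun h => huv (h2.trans h.symm)
          rw [h2, hπb, hπw v h3 hvb, hρ0 _ (ne0 v h3), rot0]; exact h01.symm
      · by_cases h3 : v = a
        · refine ⟨1, ?_⟩
          rw [hπw u h1 h2, h3, hπa, hρ1 _ (ne1 u h2)]; exact h12.symm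
        · by_cases h4 : v = b
          · refine ⟨0, ?_⟩
            rw [hπw u h1 h2, h4, hπb, hρ0 _ (ne0 u h1), rot0]; exact h01
          · by_contra hcon
            push Not at hcon
            have h5 : π u = π v := Equiv.ext hcon
            rw [hπw u h1 h2, hπw v h3 h4] at h5
            exact huv (e.injective (hρi _ _ h5))
  intro u v h
  by_contra hne
  obtain ⟨i, hi⟩ := hdiff u v hne
  exact hi (by rw [h])

end Pool.Agent.Work.MP_12b649_co.Even

end

section

/-!
# PETB: the certificate for the doubled Petersen graph plus an isolated vertex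
-/

namespace Pool.Agent.Work.MP_12b649_co.Even

/-- the rows -/
def PETB_tab : List (List (Fin 8)) :=
  [[0,1,2,3,4,5,6,7],[0,1,5,3,4,2,6,7],[4,2,1,3,6,7,0,5],[4,1,2,3,6,7,0,5],[4,5,1,6,0,7,3,2],
   [4,3,1,6,0,7,5,2],[5,7,6,1,3,0,4,2],[5,7,6,1,0,3,4,2],[2,4,5,1,3,0,6,7],[0,4,5,1,3,2,6,7],
   [1,6,7,0,4,5,2,3],[1,6,0,7,4,5,2,3],[7,2,3,5,1,6,0,4],[7,2,3,4,1,6,0,5],[1,3,7,6,2,4,5,0],
   [1,5,7,6,2,4,3,0],[5,6,0,7,1,3,2,4],[5,7,6,0,1,3,2,4],[7,4,3,5,2,6,1,0],[2,4,3,5,7,6,1,0],
   [3,0,4,2,5,1,7,6]]

/-- the index of the row of a vertex -/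
def PETB_ix : Option (Fin 10 × Bool) → ℕ
  | none => 20
  | some (i, false) => 2 * i.val
  | some (i, true) => 2 * i.val + 1

/-- the row of a vertex -/
def PETB_f (a : Option (Fin 10 × Bool)) (i : Fin 8) : Fin 8 :=
  (PETB_tab.getD (PETB_ix a) []).getD i.val 0

theorem PETB_inj : ∀ a : Option (Fin 10 × Bool), ∀ i j : Fin 8,
    PETB_f a i = PETB_f a j → i = j := by
  decide +kernel

theorem PETB_ne : ∀ a b : Option (Fin 10 × Bool),
    (∀ i : Fin 8, PETB_f a i = PETB_f b i) → a = b := by
  decide +kernel

theorem PETB_adj : ∀ a b : Option (Fin 10 × Bool), a ≠ b →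
    (bigAdj a b = true ↔ ∃ i : Fin 8, PETB_f a i = PETB_f b i) := by
  decide +kernel

/-- the permutation of a vertex -/
noncomputable def PETB_p (a : Option (Fin 10 × Bool)) : Equiv.Perm (Fin 8) :=
  Equiv.ofBijective (PETB_f a) (Finite.injective_iff_bijective.mp (fun i j h => PETB_inj a i j h))

theorem pr_PETB : S_PETB := by
  rintro V H ⟨f, hf, hadj⟩
  refine ⟨fun u => PETB_p (f u), fun u v huv => hf (PETB_ne _ _ (fun i => ?_)), fun u v huv => ?_⟩
  · exact congrArg (fun e : Equiv.Perm (Fin 8) => e i) huv
  · rw [hadj]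
    exact PETB_adj _ _ (fun h => huv (hf h))

end Pool.Agent.Work.MP_12b649_co.Even

end

section

/-!
# Item RAW
-/

namespace Pool.Agent.Work.MP_12b649_co.Even

open Pool.Agent.Work.MP_12b649_co

theorem pr_RAW : S_RAW := by
  classical
  intro N K V H φ τ h1 h2 h3
  have Hsymm : ∀ u v, H.Adj u v → H.Adj v u := fun u v h => h.symm
  -- rows
  let row : V → Option (K.J × Bool) → K.C := fun u s =>
    match s with
    | none => K.col (φ u) (φ u)
    | some p => K.col (φ u) (K.nb (φ u) (p.1, decide (p.2 = τ p.1 u)))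
  have row_none : ∀ u, row u none = K.col (φ u) (φ u) := fun u => rfl
  have row_some : ∀ u j b, row u (some (j, b)) =
      K.col (φ u) (K.nb (φ u) (j, decide (b = τ j u))) := fun u j b => rfl
  have row_inj : ∀ u, Function.Injective (row u) := by
    intro u s s' h
    rcases s with _ | ⟨j, b⟩ <;> rcases s' with _ | ⟨j', b'⟩
    · rfl
    · rw [row_none, row_some] at h
      exact absurd (K.col_inj _ h).symm (K.nb_ne _ _)
    · rw [row_none, row_some] at h
      exact absurd (K.col_inj _ h) (K.nb_ne _ _)
    · rw [row_some, row_some] at h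
      have h1 := K.nb_injective _ (K.col_inj _ h)
      simp only [Prod.mk.injEq, decide_eq_decide] at h1
      obtain ⟨h2, h3⟩ := h1
      subst h2
      have : b = b' := by
        cases b <;> cases b' <;> cases hh : τ j u <;> simp_all
      rw [this]
  -- agreements
  have agree1 : ∀ u v, u ≠ v → ∀ s, row u s = row v s → H.Adj u v := by
    intro u v huv s hs
    rcases s with _ | ⟨j, b⟩
    · rw [row_none, row_none] at hs
      exact h1 u v huv (K.diag_inj hs)
    · rw [row_some, row_some] at hs
      unfold Kotzig.nb at hs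
      by_cases e1 : b = τ j u <;> by_cases e2 : b = τ j v
      · simp only [decide_eq_true e1, decide_eq_true e2, if_true] at hs
        exact h1 u v huv (K.orth j hs)
      · simp only [decide_eq_true e1, decide_eq_false e2, if_true, Bool.false_eq_true,
          if_false] at hs
        rw [K.col_comm (φ v)] at hs
        have h3 : K.col (φ u) (K.f j (φ u)) =
            K.col ((K.f j).symm (φ v)) (K.f j ((K.f j).symm (φ v))) := by
          rw [hs, Equiv.apply_symm_apply]
        have h4 : φ u = (K.f j).symm (φ v) := K.orth j h3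
        have h5 : K.f j (φ u) = φ v := by rw [h4, Equiv.apply_symm_apply]
        exact (h2 j u v h5).1 (by rw [← e1]; exact e2)
      · simp only [decide_eq_false e1, decide_eq_true e2, if_true, Bool.false_eq_true,
          if_false] at hs
        rw [K.col_comm (φ u)] at hs
        have h3 : K.col ((K.f j).symm (φ u)) (K.f j ((K.f j).symm (φ u))) =
            K.col (φ v) (K.f j (φ v)) := by
          rw [← hs, Equiv.apply_symm_apply]
        have h4 : (K.f j).symm (φ u) = φ v := K.orth j h3
        have h5 : K.f j (φ v) = φ u := by rw [← h4, Equiv.apply_symm_apply]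
        exact Hsymm _ _ ((h2 j v u h5).1 (by rw [← e2]; exact e1))
      · simp only [decide_eq_false e1, decide_eq_false e2, Bool.false_eq_true, if_false] at hs
        rw [K.col_comm (φ u), K.col_comm (φ v)] at hs
        have h3 : K.col ((K.f j).symm (φ u)) (K.f j ((K.f j).symm (φ u))) =
            K.col ((K.f j).symm (φ v)) (K.f j ((K.f j).symm (φ v))) := by
          rw [Equiv.apply_symm_apply, Equiv.apply_symm_apply]
          exact hs
        exact h1 u v huv ((K.f j).symm.injective (K.orth j h3))
  have agree2' : ∀ u v j, K.f j (φ u) = φ v → H.Adj u v → ∃ s, row u s = row v s := by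
    intro u v j hj hH'
    have e1 := (h2 j u v hj).2 hH'
    refine ⟨some (j, τ j u), ?_⟩
    rw [row_some, row_some]
    unfold Kotzig.nb
    simp only [decide_true, decide_eq_false e1, if_true, Bool.false_eq_true, if_false]
    rw [hj, K.col_comm (φ v)]
    congr 1
    rw [← hj, Equiv.symm_apply_apply]
  have agree2 : ∀ u v, u ≠ v → H.Adj u v → ∃ s, row u s = row v s := by
    intro u v huv hH'
    by_cases hφ : φ u = φ v
    · exact ⟨none, by rw [row_none, row_none, hφ]⟩
    · obtain ⟨j, h | h⟩ := K.cover _ _ hφ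
      · exact agree2' u v j h hH'
      · obtain ⟨s, hs⟩ := agree2' v u j h (Hsymm _ _ hH')
        exact ⟨s, hs.symm⟩
  -- the permutations
  have hcardS : Nat.card (Option (K.J × Bool)) = N := by
    rw [Finite.card_option, Nat.card_prod, Nat.card_eq_fintype_card (α := Bool),
      Fintype.card_bool]
    have := K.cardJ
    omega
  let eS : Option (K.J × Bool) ≃ Fin N := Finite.equivFinOfCardEq hcardS
  let eC : K.C ≃ Fin N := Finite.equivFinOfCardEq K.cardC
  have row_bij : ∀ u, Function.Bijective (row u) := by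
    intro u
    rw [Nat.bijective_iff_injective_and_card]
    exact ⟨row_inj u, by rw [hcardS, K.cardC]⟩
  let π : V → Equiv.Perm (Fin N) := fun a =>
    eS.symm.trans ((Equiv.ofBijective _ (row_bij a)).trans eC)
  have hπ : ∀ a i, π a i = eC (row a (eS.symm i)) := fun a i => rfl
  have hrow : ∀ a b, π a = π b → ∀ s, row a s = row b s := by
    intro a b hab s
    have h1 : π a (eS s) = π b (eS s) := by rw [hab]
    rw [hπ, hπ, Equiv.symm_apply_apply] at h1
    exact eC.injective h1
  refine ⟨π, ?_, ?_⟩
  · intro a b hab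
    by_contra hne
    have h4 := hrow a b hab
    have h5 := h4 none
    rw [row_none, row_none] at h5
    have h6 := K.diag_inj h5
    obtain ⟨j, hj⟩ := h3 a b hne h6
    have h7 := h4 (some (j, true))
    rw [row_some, row_some, h6] at h7
    have h8 := K.nb_injective _ (K.col_inj _ h7)
    simp only [Prod.mk.injEq, decide_eq_decide, true_and] at h8
    apply hj
    cases hh : τ j a <;> cases hh' : τ j b <;> simp_all
  · intro a b hab
    constructor
    · intro h
      obtain ⟨s, hs⟩ := agree2 a b hab h
      refine ⟨eS s, ?_⟩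
      rw [hπ, hπ, Equiv.symm_apply_apply, hs]
    · rintro ⟨i, hi⟩
      rw [hπ, hπ] at hi
      exact agree1 _ _ hab _ (eC.injective hi)

end Pool.Agent.Work.MP_12b649_co.Even

end

section

/-!
# Three closed twins (item TR)
-/

set_option autoImplicit false

namespace Pool.Agent.Work.MP_12b649_co.Even

open Pool.Agent.Work.MP_12b649_co

namespace ITR

lemma xor_ne (a b e : Bool) (P Q D : Prop) (h1 : a ≠ b ↔ P) (h2 : D ↔ e = true)
    (h3 : D ↔ ¬ (P ↔ Q)) : (xor a e ≠ b ↔ Q) := by
  cases e
  · have hD : ¬ D := fun h => by simpa using h2.1 h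
    have : P ↔ Q := by
      by_contra hc
      exact hD (h3.2 hc)
    rw [← this, ← h1]
    cases a <;> cases b <;> simp
  · have hD : D := h2.2 rfl
    have hPQ := h3.1 hD
    by_cases hP : P
    · have hQ : ¬ Q := fun hQ => hPQ (iff_of_true hP hQ)
      have := h1.2 hP
      cases a <;> cases b <;> simp_all
    · have hQ : Q := by
        by_contra hQ
        exact hPQ (iff_of_false hP hQ)
      have : ¬ (a ≠ b) := fun h => hP (h1.1 h)
      cases a <;> cases b <;> simp_all

end ITR

theorem pr_TR (hC : S_CORE) (hS : S_STAR) : S_TR := by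
  classical
  intro N K V _ H p p' p'' q g h e hN hcard hz
  have hpq : p ≠ q := hz.adj.ne
  have hpp' : p ≠ p' := hz.tw1.1.ne
  have hpp'' : p ≠ p'' := hz.tw2.1.ne
  have hgp : g ≠ p := hz.gp.ne
  let W := {v : V // v ≠ p ∧ v ≠ p' ∧ v ≠ p'' ∧ v ≠ q}
  have hWc : Fintype.card W + 3 = N := by
    have h1 : (Finset.univ.filter fun v : V => v ≠ p ∧ v ≠ p' ∧ v ≠ p'' ∧ v ≠ q) =
        ((((Finset.univ : Finset V).erase p).erase p').erase p'').erase q := by
      ext v
      simp only [Finset.mem_filter, Finset.mem_univ, true_and, Finset.mem_erase, and_true]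
      tauto
    have h2 : Fintype.card W = N + 1 - 1 - 1 - 1 - 1 := by
      change Fintype.card {v : V // v ≠ p ∧ v ≠ p' ∧ v ≠ p'' ∧ v ≠ q} = _
      rw [Fintype.card_subtype, h1, Finset.card_erase_of_mem, Finset.card_erase_of_mem,
        Finset.card_erase_of_mem, Finset.card_erase_of_mem, Finset.card_univ, hcard]
      · exact Finset.mem_univ _
      · exact Finset.mem_erase.2 ⟨hpp'.symm, Finset.mem_univ _⟩
      · exact Finset.mem_erase.2 ⟨hz.pp.symm, Finset.mem_erase.2 ⟨hpp''.symm, Finset.mem_univ _⟩⟩
      · exact Finset.mem_erase.2 ⟨hz.qp'', Finset.mem_erase.2 ⟨hz.qp', Finset.mem_erase.2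
          ⟨hpq.symm, Finset.mem_univ _⟩⟩⟩
    omega
  -- adjacencies
  have htw' : ∀ w, w ≠ p → w ≠ p' → (H.Adj p' w ↔ H.Adj p w) :=
    fun w h1 h2 => (hz.tw1.2 w h1 h2).symm
  have htw'' : ∀ w, w ≠ p → w ≠ p'' → (H.Adj p'' w ↔ H.Adj p w) :=
    fun w h1 h2 => (hz.tw2.2 w h1 h2).symm
  have hpp1 : H.Adj p' p'' := (htw' p'' hpp''.symm hz.pp.symm).2 hz.tw2.1
  have hqp1 : H.Adj p' q := (htw' q hpq.symm hz.qp').2 hz.adj
  have hqp2 : H.Adj p'' q := (htw'' q hpq.symm hz.qp'').2 hz.adj
  let gg : W := ⟨g, hgp, hz.gp', hz.gp'', hz.gq'⟩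
  let hh : W := ⟨h, hz.h1, hz.h2, hz.h3, hz.h4⟩
  let ee : W := ⟨e, hz.e1, hz.e2, hz.e3, hz.e4⟩
  have hDg : Dd H p q g := by
    unfold Dd
    intro hc
    exact hz.gq (hc.1 hz.gp.symm).symm
  have hgh : gg ≠ hh := fun hc => hz.gh (congrArg Subtype.val hc)
  let va : Option W → V := fun a => a.elim p (fun w => w.1)
  obtain ⟨o, s1, o2, ψ, ε, σ, hos, ho2s, ho2o, hψ, hψo, hψs, hψo2, hg8, hε, hr1, hr2, hR, hCC⟩ :=
    hC N K W (by omega) hWc (fun w => Dd H p q w.1) gg hh hgh (iff_of_true hDg hz.dh)
      (fun a b => H.Adj (va a) (va b)) (fun a b => H.Adj a.1 b.1)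
  -- the placement
  let φ : V → K.V := fun v => if hv : v ≠ p ∧ v ≠ p' ∧ v ≠ p'' ∧ v ≠ q then ψ ⟨v, hv⟩ else s1
  have hφW : ∀ w : W, φ w.1 = ψ w := fun w => by
    simp only [φ]
    rw [dif_pos w.2]
  have hφp : φ p = s1 := by
    simp only [φ]
    rw [dif_neg (fun h => h.1 rfl)]
  have hφp' : φ p' = s1 := by
    simp only [φ]
    rw [dif_neg (fun h => h.2.1 rfl)]
  have hφp'' : φ p'' = s1 := by
    simp only [φ]
    rw [dif_neg (fun h => h.2.2.1 rfl)]
  have hφq : φ q = s1 := by
    simp only [φ]
    rw [dif_neg (fun h => h.2.2.2 rfl)]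
  have hcase : ∀ v, (v = p ∨ v = p' ∨ v = p'' ∨ v = q) ∨ ∃ w : W, v = w.1 := by
    intro v
    by_cases h1 : v = p
    · exact Or.inl (Or.inl h1)
    by_cases h2 : v = p'
    · exact Or.inl (Or.inr (Or.inl h2))
    by_cases h3 : v = p''
    · exact Or.inl (Or.inr (Or.inr (Or.inl h3)))
    by_cases h4 : v = q
    · exact Or.inl (Or.inr (Or.inr (Or.inr h4)))
    exact Or.inr ⟨⟨v, h1, h2, h3, h4⟩, rfl⟩
  have hφ1 : ∀ v, (v = p ∨ v = p' ∨ v = p'' ∨ v = q) → φ v = s1 := by
    rintro v (rfl | rfl | rfl | rfl)
    · exact hφp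
    · exact hφp'
    · exact hφp''
    · exact hφq
  have hφo : ∀ v, φ v ≠ o := by
    intro v h1
    rcases hcase v with h2 | ⟨w, h2⟩
    · rw [hφ1 v h2] at h1
      exact hos h1.symm
    · rw [h2, hφW] at h1
      exact hψo w h1
  have hφs : ∀ v, φ v = s1 → (v = p ∨ v = p' ∨ v = p'' ∨ v = q) := by
    intro v h1
    rcases hcase v with h2 | ⟨w, h2⟩
    · exact h2
    · rw [h2, hφW] at h1
      exact absurd h1 (hψs w)
  have hφo2 : ∀ v, φ v ≠ o2 := by
    intro v h1
    rcases hcase v with h2 | ⟨w, h2⟩
    · rw [hφ1 v h2] at h1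
      exact ho2s h1.symm
    · rw [h2, hφW] at h1
      exact hψo2 w h1
  have hφeq : ∀ a b, a ≠ b → φ a = φ b → φ a = s1 ∧ φ b = s1 := by
    intro a b hab h1
    by_cases h3 : φ a = s1
    · exact ⟨h3, h1 ▸ h3⟩
    · exfalso
      have h4 : φ b ≠ s1 := h1 ▸ h3
      rcases hcase a with h5 | ⟨w, hw⟩
      · exact h3 (hφ1 a h5)
      · rcases hcase b with h6 | ⟨w', hw'⟩
        · exact h4 (hφ1 b h6)
        · rw [hw, hw', hφW, hφW] at h1
          exact hab (by rw [hw, hw', hψ h1])
  -- the status
  let st : V → St := fun v => if v = p' then St.S else if v = p'' then St.U else St.D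
  have hstS : ∀ v, st v = St.S ↔ v = p' := by
    intro v
    simp only [st]
    by_cases h1 : v = p'
    · simp [h1]
    · rw [if_neg h1]
      by_cases h2 : v = p''
      · simp [h2, hz.pp.symm]
      · simp [h2, h1]
  have hstU : ∀ v, st v = St.U ↔ v = p'' := by
    intro v
    simp only [st]
    by_cases h1 : v = p'
    · simp [h1, hz.pp]
    · rw [if_neg h1]
      by_cases h2 : v = p''
      · simp [h2]
      · simp [h2]
  -- the signs
  let τ : K.J → V → Bool := fun j v => if v = q then xor (σ j s1) (ε j) else σ j (φ v)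
  have hτq : ∀ j, τ j q = xor (σ j s1) (ε j) := fun j => by simp only [τ, if_true]
  have hτ : ∀ j v, v ≠ q → τ j v = σ j (φ v) := fun j v hv => by
    simp only [τ]
    rw [if_neg hv]
  have hτW : ∀ j (w : W), τ j w.1 = σ j (ψ w) := fun j w => by
    rw [hτ j w.1 w.2.2.2.2, hφW]
  have hJ : Nonempty K.J := by
    have h1 := K.cardJ
    have h2 : 0 < Nat.card K.J := by omega
    exact (Nat.card_pos_iff.1 h2).1
  -- a vertex on `s1` and a vertex of `W`
  have hmix : ∀ j a (w : W), (a = p ∨ a = p' ∨ a = p'' ∨ a = q) →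
      (K.f j s1 = ψ w ∨ K.f j (ψ w) = s1) → (τ j a ≠ τ j w.1 ↔ H.Adj a w.1) := by
    intro j a w ha hj
    have h1 : σ j s1 ≠ σ j (ψ w) ↔ H.Adj p w.1 := by
      rcases hj with hj | hj
      · exact hR j none (some w) hj
      · have h2 := hR j (some w) none hj
        rw [ne_comm, H.adj_comm]
        exact h2
    have h3 : ∀ a, a ≠ q → φ a = s1 → (H.Adj a w.1 ↔ H.Adj p w.1) →
        (τ j a ≠ τ j w.1 ↔ H.Adj a w.1) := by
      intro a h4 h5 h6
      rw [h6, hτ j a h4, h5, hτW, h1]
    rcases ha with rfl | rfl | rfl | rfl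
    · exact h3 _ hpq hφp Iff.rfl
    · exact h3 _ hz.qp'.symm hφp' (htw' w.1 w.2.1 w.2.2.1)
    · exact h3 _ hz.qp''.symm hφp'' (htw'' w.1 w.2.1 w.2.2.2.1)
    · rw [hτq, hτW]
      exact ITR.xor_ne _ _ _ (H.Adj p w.1) (H.Adj a w.1) (Dd H p a w.1) h1 (hε j w hj) Iff.rfl
  refine hS N K V H o φ τ st ?_ ?_ ?_ ?_ ?_ ?_ ?_ ?_ ?_ ?_ ?_
  · -- 1
    intro a ha
    exact absurd ha (hφo a)
  · -- 2
    intro a b hab h1 _
    obtain ⟨h2, h3⟩ := hφeq a b hab h1
    rcases hφs a h2 with rfl | rfl | rfl | rfl
    · rcases hφs b h3 with rfl | rfl | rfl | rfl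
      · exact absurd rfl hab
      · exact hz.tw1.1
      · exact hz.tw2.1
      · exact hz.adj
    · rcases hφs b h3 with rfl | rfl | rfl | rfl
      · exact hz.tw1.1.symm
      · exact absurd rfl hab
      · exact hpp1
      · exact hqp1
    · rcases hφs b h3 with rfl | rfl | rfl | rfl
      · exact hz.tw2.1.symm
      · exact hpp1.symm
      · exact absurd rfl hab
      · exact hqp2
    · rcases hφs b h3 with rfl | rfl | rfl | rfl
      · exact hz.adj.symm
      · exact hqp1.symm
      · exact hqp2.symm
      · exact absurd rfl hab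
  · -- 3
    intro a b h1 _ h3 h4
    have ha := (hstS a).1 h3
    subst ha
    have hb : b ≠ a := fun hc => h4 ((hstS b).2 hc)
    obtain ⟨_, h6⟩ := hφeq a b hb.symm h1
    by_cases hbq : b = q
    · obtain ⟨j, hj⟩ := K.cover s1 (ψ ee) (Ne.symm (hψs ee))
      refine ⟨j, ?_⟩
      have h7 : ε j = false := by
        by_contra hc
        exact hz.de ((hε j ee hj).2 (by simpa using hc))
      rw [hbq, hτq, h7, hτ j a hz.qp'.symm, hφp', Bool.xor_false]
    · obtain ⟨j⟩ := hJ
      refine ⟨j, ?_⟩
      rw [hτ j a hz.qp'.symm, hτ j b hbq, h1]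
  · -- 4
    intro j a b h1 _ _
    rcases hcase a with ha | ⟨w, rfl⟩
    · rcases hcase b with hb | ⟨w', rfl⟩
      · rw [hφ1 a ha, hφ1 b hb] at h1
        exact absurd h1 (K.f_ne _ _)
      · rw [hφ1 a ha, hφW] at h1
        exact hmix j a w' ha (Or.inl h1)
    · rcases hcase b with hb | ⟨w', rfl⟩
      · rw [hφ1 b hb, hφW] at h1
        rw [ne_comm, H.adj_comm]
        exact hmix j b w hb (Or.inr h1)
      · rw [hφW, hφW] at h1
        rw [hτW, hτW]
        exact hR j (some w) (some w') h1
  · -- 5
    intro j a b h1 h2 _ _ h5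
    rcases hcase a with ha | ⟨w, rfl⟩
    · exfalso
      rw [hφ1 a ha] at h1
      exact hφo2 b (h2.symm.trans (hr1 j h1))
    · rcases hcase b with hb | ⟨w', rfl⟩
      · exfalso
        rw [hφ1 b hb] at h2
        exact hφo2 w.1 ((K.f j).injective (h1.trans (hr2 j h2).symm))
      · rw [hφW] at h1 h2
        rw [hτW, hτW]
        by_contra h6
        exact h5 ((hCC j w w' h1 h2).1 h6)
  · -- 6
    intro a b hab ha hb
    exact absurd (((hstU a).1 ha).trans ((hstU b).1 hb).symm) hab
  · -- 7
    intro a b hab ha hb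
    exact absurd (((hstS a).1 ha).trans ((hstS b).1 hb).symm) hab
  · -- 8
    intro a b _ hb h1
    have hb' := (hstS b).1 hb
    rw [hb', hφp'] at h1
    rcases hcase a with ha | ⟨w, rfl⟩
    · rw [hφ1 a ha] at h1
      exact absurd (K.col_inj s1 h1) hos
    · rw [hφW, K.col_comm] at h1
      have h2 := hg8 w h1
      rw [h2, hb']
      exact ((htw' g hgp hz.gp').2 hz.gp.symm).symm
  · -- 9
    intro a b _ ha
    exact absurd ha (hφo a)
  · -- 10
    intro a b ha
    exact absurd ha (hφo a)
  · -- 11
    intro a b hab h1 h2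
    obtain ⟨h3, h4⟩ := hφeq a b hab h1
    have key : ∃ j, τ j p ≠ τ j q := by
      obtain ⟨j, hj⟩ := K.cover s1 (ψ gg) (Ne.symm (hψs gg))
      refine ⟨j, ?_⟩
      have h7 : ε j = true := (hε j gg hj).1 hDg
      rw [hτ j p hpq, hφp, hτq, h7]
      cases σ j s1 <;> simp
    have hS' : st p' = St.S := (hstS p').2 rfl
    have hU' : st p'' = St.U := (hstU p'').2 rfl
    have hDp : ∀ v, v ≠ p' → v ≠ p'' → st v = St.D := by
      intro v h5 h6
      simp only [st]
      rw [if_neg h5, if_neg h6]
    have hp1 : st p = St.D := hDp p hpp' hpp''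
    have hq1 : st q = St.D := hDp q hz.qp' hz.qp''
    rcases hφs a h3 with rfl | rfl | rfl | rfl
    · rcases hφs b h4 with rfl | rfl | rfl | rfl
      · exact absurd rfl hab
      · rw [hp1, hS'] at h2; cases h2
      · rw [hp1, hU'] at h2; cases h2
      · exact key
    · rcases hφs b h4 with rfl | rfl | rfl | rfl
      · rw [hp1, hS'] at h2; cases h2
      · exact absurd rfl hab
      · rw [hS', hU'] at h2; cases h2
      · rw [hS', hq1] at h2; cases h2
    · rcases hφs b h4 with rfl | rfl | rfl | rfl
      · rw [hp1, hU'] at h2; cases h2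
      · rw [hS', hU'] at h2; cases h2
      · exact absurd rfl hab
      · rw [hU', hq1] at h2; cases h2
    · rcases hφs b h4 with rfl | rfl | rfl | rfl
      · obtain ⟨j, hj⟩ := key
        exact ⟨j, hj.symm⟩
      · rw [hS', hq1] at h2; cases h2
      · rw [hU', hq1] at h2; cases h2
      · exact absurd rfl hab

end Pool.Agent.Work.MP_12b649_co.Even

end

section

/-!
# The configuration with one more column and a pair of almost twins (item Z)
-/

namespace Pool.Agent.Work.MP_12b649_co.Even

open Pool.Agent.Work.MP_12b649_co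

namespace IZ

/-- A bit with prescribed relations to some other bits. -/
lemma exists_bit {V : Type} (P A : V → Prop) (t : V → Bool)
    (h : ∀ u v, P u → P v → (t u = t v ↔ (A u ↔ A v))) :
    ∃ b : Bool, ∀ v, P v → (b ≠ t v ↔ A v) := by
  classical
  by_cases hex : ∃ v, P v
  · obtain ⟨u, hu⟩ := hex
    refine ⟨if A u then !(t u) else t u, fun v hv => ?_⟩
    have h1 := h u v hu hv
    by_cases hA : A u
    · rw [if_pos hA]
      simp only [hA, true_iff] at h1
      rw [← h1]
      cases t u <;> cases t v <;> simp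
    · rw [if_neg hA]
      simp only [hA, false_iff] at h1
      cases h2 : t u <;> cases h3 : t v <;> simp [h2, h3] at h1 ⊢ <;> exact h1
  · exact ⟨true, fun v hv => absurd ⟨v, hv⟩ hex⟩

/-- Two elements with the same colour. -/
lemma exists_pair {W : Type} [Fintype W] (hW : 3 ≤ Fintype.card W) (D : W → Prop) :
    ∃ g h : W, g ≠ h ∧ (D g ↔ D h) := by
  classical
  have h1 : Fintype.card Bool < Fintype.card W := by
    rw [Fintype.card_bool]
    omega
  obtain ⟨g, h, hne, he⟩ := Fintype.exists_ne_map_eq_of_card_lt (fun w => decide (D w)) h1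
  exact ⟨g, h, hne, by simpa using he⟩

lemma xor_ne (a b e : Bool) (P Q D : Prop) (h1 : a ≠ b ↔ P) (h2 : D ↔ e = true)
    (h3 : D ↔ ¬ (P ↔ Q)) : (xor a e ≠ b ↔ Q) := by
  cases e
  · have hD : ¬ D := fun h => by simpa using h2.1 h
    have : P ↔ Q := by
      by_contra hc
      exact hD (h3.2 hc)
    rw [← this, ← h1]
    cases a <;> cases b <;> simp
  · have hD : D := h2.2 rfl
    have hPQ := h3.1 hD
    by_cases hP : P
    · have hQ : ¬ Q := fun hQ => hPQ (iff_of_true hP hQ)
      have := h1.2 hP
      cases a <;> cases b <;> simp_all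
    · have hQ : Q := by
        by_contra hQ
        exact hPQ (iff_of_false hP hQ)
      have : ¬ (a ≠ b) := fun h => hP (h1.1 h)
      cases a <;> cases b <;> simp_all

end IZ

theorem pr_Z (hC : S_CORE) (hS : S_STAR) : S_Z := by
  classical
  intro N K V _ H x x' p q hN hcard hz
  have hpq : p ≠ q := hz.adj.ne
  let W := {v : V // v ≠ x ∧ v ≠ x' ∧ v ≠ p ∧ v ≠ q}
  have hWc : Fintype.card W + 3 = N := by
    have h1 : (Finset.univ.filter fun v : V => v ≠ x ∧ v ≠ x' ∧ v ≠ p ∧ v ≠ q) =
        ((((Finset.univ : Finset V).erase x).erase x').erase p).erase q := by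
      ext v
      simp only [Finset.mem_filter, Finset.mem_univ, true_and, Finset.mem_erase, and_true]
      tauto
    have h2 : Fintype.card W = N + 1 - 1 - 1 - 1 - 1 := by
      change Fintype.card {v : V // v ≠ x ∧ v ≠ x' ∧ v ≠ p ∧ v ≠ q} = _
      rw [Fintype.card_subtype, h1, Finset.card_erase_of_mem, Finset.card_erase_of_mem,
        Finset.card_erase_of_mem, Finset.card_erase_of_mem, Finset.card_univ, hcard]
      · exact Finset.mem_univ _
      · exact Finset.mem_erase.2 ⟨hz.ne.symm, Finset.mem_univ _⟩
      · exact Finset.mem_erase.2 ⟨hz.px', Finset.mem_erase.2 ⟨hz.px, Finset.mem_univ _⟩⟩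
      · exact Finset.mem_erase.2 ⟨hpq.symm, Finset.mem_erase.2 ⟨hz.qx', Finset.mem_erase.2
          ⟨hz.qx, Finset.mem_univ _⟩⟩⟩
    omega
  obtain ⟨g, h, hgh, hDgh⟩ := IZ.exists_pair (W := W) (by omega) (fun w => Dd H p q w.1)
  let va : Option W → V := fun a => a.elim p (fun w => w.1)
  obtain ⟨o, s1, o2, ψ, ε, σ, hos, ho2s, ho2o, hψ, hψo, hψs, hψo2, -, hε, hr1, hr2, hR, hCC⟩ :=
    hC N K W (by omega) hWc (fun w => Dd H p q w.1) g h hgh hDgh
      (fun a b => H.Adj (va a) (va b))
      (fun a b => (H.Adj x a.1 ∧ H.Adj x b.1 ∧ ¬ (H.Adj x' a.1 ↔ H.Adj x' b.1)) ∨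
        (¬ (H.Adj x a.1 ∧ H.Adj x b.1) ∧ H.Adj a.1 b.1))
  -- the placement
  let φ : V → K.V := fun v => if hv : v ≠ x ∧ v ≠ x' ∧ v ≠ p ∧ v ≠ q then ψ ⟨v, hv⟩ else
    if v = x ∨ v = x' then o else s1
  have hφW : ∀ w : W, φ w.1 = ψ w := fun w => by
    simp only [φ]
    rw [dif_pos w.2]
  have hφx : φ x = o := by
    change (if hv : x ≠ x ∧ x ≠ x' ∧ x ≠ p ∧ x ≠ q then ψ ⟨x, hv⟩ else
      if x = x ∨ x = x' then o else s1) = o
    rw [dif_neg (fun h => h.1 rfl), if_pos (Or.inl rfl)]
  have hφx' : φ x' = o := by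
    change (if hv : x' ≠ x ∧ x' ≠ x' ∧ x' ≠ p ∧ x' ≠ q then ψ ⟨x', hv⟩ else
      if x' = x ∨ x' = x' then o else s1) = o
    rw [dif_neg (fun h => h.2.1 rfl), if_pos (Or.inr rfl)]
  have hφp : φ p = s1 := by
    simp only [φ]
    rw [dif_neg (fun h => h.2.2.1 rfl), if_neg (not_or.2 ⟨hz.px, hz.px'⟩)]
  have hφq : φ q = s1 := by
    simp only [φ]
    rw [dif_neg (fun h => h.2.2.2 rfl), if_neg (not_or.2 ⟨hz.qx, hz.qx'⟩)]
  have hφva : ∀ a : Option W, φ (va a) = pos s1 ψ a := by
    intro a
    cases a with
    | none => exact hφp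
    | some w => exact hφW w
  have hcase : ∀ v, v = x ∨ v = x' ∨ v = p ∨ v = q ∨ ∃ w : W, v = w.1 := by
    intro v
    by_cases h1 : v = x
    · exact Or.inl h1
    by_cases h2 : v = x'
    · exact Or.inr (Or.inl h2)
    by_cases h3 : v = p
    · exact Or.inr (Or.inr (Or.inl h3))
    by_cases h4 : v = q
    · exact Or.inr (Or.inr (Or.inr (Or.inl h4)))
    exact Or.inr (Or.inr (Or.inr (Or.inr ⟨⟨v, h1, h2, h3, h4⟩, rfl⟩)))
  have hcase' : ∀ v, v ≠ x → v ≠ x' → v = q ∨ ∃ a : Option W, v = va a := by
    intro v h1 h2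
    rcases hcase v with h | h | h | h | ⟨w, h⟩
    · exact absurd h h1
    · exact absurd h h2
    · exact Or.inr ⟨none, h⟩
    · exact Or.inl h
    · exact Or.inr ⟨some w, h⟩
  have hφo : ∀ v, φ v = o ↔ (v = x ∨ v = x') := by
    intro v
    constructor
    · intro h1
      rcases hcase v with h | h | h | h | ⟨w, h⟩
      · exact Or.inl h
      · exact Or.inr h
      · rw [h, hφp] at h1
        exact absurd h1.symm hos
      · rw [h, hφq] at h1
        exact absurd h1.symm hos
      · rw [h, hφW] at h1
        exact absurd h1 (hψo w)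
    · rintro (rfl | rfl)
      · exact hφx
      · exact hφx'
  have hφs : ∀ v, φ v = s1 → v = p ∨ v = q := by
    intro v h1
    rcases hcase v with h | h | h | h | ⟨w, h⟩
    · rw [h, hφx] at h1
      exact absurd h1 hos
    · rw [h, hφx'] at h1
      exact absurd h1 hos
    · exact Or.inl h
    · exact Or.inr h
    · rw [h, hφW] at h1
      exact absurd h1 (hψs w)
  have hφo2 : ∀ v, φ v ≠ o2 := by
    intro v h1
    rcases hcase v with h | h | h | h | ⟨w, h⟩
    · rw [h, hφx] at h1
      exact ho2o h1.symm
    · rw [h, hφx'] at h1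
      exact ho2o h1.symm
    · rw [h, hφp] at h1
      exact ho2s h1.symm
    · rw [h, hφq] at h1
      exact ho2s h1.symm
    · rw [h, hφW] at h1
      exact hψo2 w h1
  have hφeq : ∀ a b, a ≠ b → φ a = φ b → φ a ≠ o → (a = p ∧ b = q) ∨ (a = q ∧ b = p) := by
    intro a b hab h1 h2
    by_cases h3 : φ a = s1
    · have h4 : φ b = s1 := h1 ▸ h3
      rcases hφs a h3 with rfl | rfl
      · rcases hφs b h4 with rfl | rfl
        · exact absurd rfl hab
        · exact Or.inl ⟨rfl, rfl⟩
      · rcases hφs b h4 with rfl | rfl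
        · exact Or.inr ⟨rfl, rfl⟩
        · exact absurd rfl hab
    · have h4 : φ b ≠ s1 := h1 ▸ h3
      have h5 : φ b ≠ o := h1 ▸ h2
      have key : ∀ v, φ v ≠ s1 → φ v ≠ o → ∃ w : W, v = w.1 := by
        intro v h6 h7
        rcases hcase v with h | h | h | h | h
        · exact absurd (h ▸ hφx) h7
        · exact absurd (h ▸ hφx') h7
        · exact absurd (h ▸ hφp) h6
        · exact absurd (h ▸ hφq) h6
        · exact h
      obtain ⟨w, hw⟩ := key a h3 h2
      obtain ⟨w', hw'⟩ := key b h4 h5
      rw [hw, hw', hφW, hφW] at h1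
      exact absurd (by rw [hw, hw', hψ h1]) hab
  -- the status
  let st : V → St := fun v => if v = x' then St.S else if v = x ∨ H.Adj x v then St.U else St.D
  have hstS : ∀ v, st v = St.S ↔ v = x' := by
    intro v
    simp only [st]
    by_cases h1 : v = x'
    · simp [h1]
    · rw [if_neg h1]
      by_cases h2 : v = x ∨ H.Adj x v
      · simp [h2, h1]
      · simp [h2, h1]
  have hstU : ∀ v, st v = St.U ↔ (v = x ∨ (v ≠ x' ∧ H.Adj x v)) := by
    intro v
    simp only [st]
    by_cases h1 : v = x'
    · simp [h1, hz.ne.symm]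
    · rw [if_neg h1]
      by_cases h2 : v = x ∨ H.Adj x v
      · rw [if_pos h2]
        simp only [true_iff]
        rcases h2 with h2 | h2
        · exact Or.inl h2
        · exact Or.inr ⟨h1, h2⟩
      · rw [if_neg h2]
        rw [not_or] at h2
        simp [h2]
  have hstD : ∀ v, st v = St.D ↔ (v ≠ x' ∧ v ≠ x ∧ ¬ H.Adj x v) := by
    intro v
    simp only [st]
    by_cases h1 : v = x'
    · simp [h1]
    · rw [if_neg h1]
      by_cases h2 : v = x ∨ H.Adj x v
      · rw [if_pos h2]
        simp only [reduceCtorEq, false_iff, not_and, not_not]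
        intro _ h3
        rcases h2 with h2 | h2
        · exact absurd h2 h3
        · exact h2
      · rw [if_neg h2]
        rw [not_or] at h2
        simp [h2, h1]
  -- the signs
  let τ0 : K.J → V → Bool := fun j v => if v = q then xor (σ j s1) (ε j) else σ j (φ v)
  have hvaq : ∀ a : Option W, va a ≠ q := by
    intro a
    cases a with
    | none => exact hpq
    | some w => exact w.2.2.2.2
  have hvax : ∀ a : Option W, va a ≠ x := by
    intro a
    cases a with
    | none => exact hz.px
    | some w => exact w.2.1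
  have hvax' : ∀ a : Option W, va a ≠ x' := by
    intro a
    cases a with
    | none => exact hz.px'
    | some w => exact w.2.2.1
  have hτ0q : ∀ j, τ0 j q = xor (σ j s1) (ε j) := fun j => by simp only [τ0, if_true]
  have hτ0a : ∀ j a, τ0 j (va a) = σ j (pos s1 ψ a) := fun j a => by
    simp only [τ0]
    rw [if_neg (hvaq a), hφva]
  have hτ0W : ∀ j (w : W), τ0 j w.1 = σ j (ψ w) := fun j w => hτ0a j (some w)
  have hbit : ∀ j, ∃ b : Bool, ∀ v, (v ≠ x ∧ st v = St.U ∧ (K.f j o = φ v ∨ K.f j (φ v) = o)) →
      (b ≠ τ0 j v ↔ H.Adj x' v) := by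
    intro j
    apply IZ.exists_bit (fun v => v ≠ x ∧ st v = St.U ∧ (K.f j o = φ v ∨ K.f j (φ v) = o))
      (fun v => H.Adj x' v) (τ0 j)
    rintro u v ⟨hu1, hu2, hu3⟩ ⟨hv1, hv2, hv3⟩
    have hu4 : u ≠ x' ∧ H.Adj x u := ((hstU u).1 hu2).resolve_left hu1
    have hv4 : v ≠ x' ∧ H.Adj x v := ((hstU v).1 hv2).resolve_left hv1
    by_cases huv : u = v
    · rw [huv]
      simp
    have huo : φ u ≠ o := fun h' => by
      rcases (hφo u).1 h' with h' | h'
      · exact hu1 h'
      · exact hu4.1 h'
    have hvo : φ v ≠ o := fun h' => by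
      rcases (hφo v).1 h' with h' | h'
      · exact hv1 h'
      · exact hv4.1 h'
    have hsame : φ u ≠ φ v := by
      intro h'
      rcases hφeq u v huv h' huo with ⟨h5, h6⟩ | ⟨h5, h6⟩
      · exact hz.notboth ⟨h5 ▸ hu4.2, h6 ▸ hv4.2⟩
      · exact hz.notboth ⟨h6 ▸ hv4.2, h5 ▸ hu4.2⟩
    have hmain : ∀ a b : V, a ≠ x → a ≠ x' → b ≠ x → b ≠ x' → H.Adj x a → H.Adj x b →
        K.f j (φ a) = o → K.f j o = φ b → (τ0 j a = τ0 j b ↔ (H.Adj x' a ↔ H.Adj x' b)) := by
      intro a b ha1 ha2 hb1 hb2 ha3 hb3 hab1 hab2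
      rcases hcase a with h' | h' | h' | h' | ⟨w, hw⟩
      · exact absurd h' ha1
      · exact absurd h' ha2
      · exfalso
        rw [h', hφp] at hab1
        exact hφo2 b (hab2.symm.trans (hr1 j hab1))
      · exfalso
        rw [h', hφq] at hab1
        exact hφo2 b (hab2.symm.trans (hr1 j hab1))
      rcases hcase b with h' | h' | h' | h' | ⟨w', hw'⟩
      · exact absurd h' hb1
      · exact absurd h' hb2
      · exfalso
        rw [h', hφp] at hab2
        exact hφo2 a ((K.f j).injective (hab1.trans (hr2 j hab2).symm))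
      · exfalso
        rw [h', hφq] at hab2
        exact hφo2 a ((K.f j).injective (hab1.trans (hr2 j hab2).symm))
      rw [hw, hφW] at hab1
      rw [hw', hφW] at hab2
      have h1 := hCC j w w' hab1 hab2
      rw [hw] at ha3
      rw [hw'] at hb3
      rw [hw, hw', hτ0W, hτ0W]
      constructor
      · intro h2
        by_contra h3
        exact h1.2 (Or.inl ⟨ha3, hb3, h3⟩) h2
      · intro h2
        by_contra h3
        rcases h1.1 h3 with h4 | h4
        · exact h4.2.2 h2
        · exact h4.1 ⟨ha3, hb3⟩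
    rcases hu3 with hu3 | hu3
    · rcases hv3 with hv3 | hv3
      · exact absurd (hu3.symm.trans hv3) hsame
      · have := hmain v u hv1 hv4.1 hu1 hu4.1 hv4.2 hu4.2 hv3 hu3
        rw [eq_comm, this]
        tauto
    · rcases hv3 with hv3 | hv3
      · exact hmain u v hu1 hu4.1 hv1 hv4.1 hu4.2 hv4.2 hu3 hv3
      · exact absurd ((K.f j).injective (hu3.trans hv3.symm)) hsame
  choose β hβ using hbit
  let τ : K.J → V → Bool := fun j v => if v = x' then β j else
    if v = x then (if H.Adj x x' then β j else !(β j)) else τ0 j v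
  have hτx' : ∀ j, τ j x' = β j := fun j => by simp only [τ, if_true]
  have hτx : ∀ j, τ j x = if H.Adj x x' then β j else !(β j) := fun j => by
    simp only [τ]
    rw [if_neg hz.ne]
    simp only [if_true]
  have hτ : ∀ j v, v ≠ x → v ≠ x' → τ j v = τ0 j v := fun j v h1 h2 => by
    simp only [τ]
    rw [if_neg h2, if_neg h1]
  have hJ : Nonempty K.J := by
    have h1 := K.cardJ
    have h2 : 0 < Nat.card K.J := by omega
    exact (Nat.card_pos_iff.1 h2).1
  refine hS N K V H o φ τ st ?_ ?_ ?_ ?_ ?_ ?_ ?_ ?_ ?_ ?_ ?_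
  · -- 1
    intro a ha hD
    have h1 := (hstD a).1 hD
    rcases (hφo a).1 ha with h2 | h2
    · exact h1.2.1 h2
    · exact h1.1 h2
  · -- 2
    intro a b hab h1 h2
    rcases hφeq a b hab h1 h2 with ⟨rfl, rfl⟩ | ⟨rfl, rfl⟩
    · exact hz.adj
    · exact hz.adj.symm
  · -- 3
    intro a b _ h2 h3
    exact absurd ((hφo a).2 (Or.inr ((hstS a).1 h3))) h2
  · -- 4
    intro j a b h1 h2 h3
    have ha1 : a ≠ x := fun h' => h2 ((hφo a).2 (Or.inl h'))
    have ha2 : a ≠ x' := fun h' => h2 ((hφo a).2 (Or.inr h'))
    have hb1 : b ≠ x := fun h' => h3 ((hφo b).2 (Or.inl h'))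
    have hb2 : b ≠ x' := fun h' => h3 ((hφo b).2 (Or.inr h'))
    rw [hτ j a ha1 ha2, hτ j b hb1 hb2]
    rcases hcase' a ha1 ha2 with rfl | ⟨a', rfl⟩
    · rcases hcase' b hb1 hb2 with rfl | ⟨b', rfl⟩
      · exact absurd h1 (K.f_ne _ _)
      · rw [hφq, hφva] at h1
        cases b' with
        | none => exact absurd h1 (K.f_ne _ _)
        | some w =>
          rw [hτ0q, hτ0a]
          exact IZ.xor_ne _ _ _ (H.Adj p w.1) (H.Adj a w.1) (Dd H p a w.1)
            (hR j none (some w) h1) (hε j w (Or.inl h1)) Iff.rfl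
    · rcases hcase' b hb1 hb2 with rfl | ⟨b', rfl⟩
      · rw [hφq, hφva] at h1
        cases a' with
        | none => exact absurd h1 (K.f_ne _ _)
        | some w =>
          rw [hτ0q, hτ0a, ne_comm]
          have h5 := hR j (some w) none h1
          rw [ne_comm] at h5
          have h6 : H.Adj (va (some w)) (va none) ↔ H.Adj p w.1 := H.adj_comm _ _
          have h7 : H.Adj (va (some w)) b ↔ H.Adj b w.1 := H.adj_comm _ _
          rw [h7]
          exact IZ.xor_ne _ _ _ (H.Adj p w.1) (H.Adj b w.1) (Dd H p b w.1)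
            (h5.trans h6) (hε j w (Or.inr h1)) Iff.rfl
      · rw [hφva, hφva] at h1
        rw [hτ0a, hτ0a]
        exact hR j a' b' h1
  · -- 5
    intro j a b h1 h2 h3 h4 h5
    have ha := (hstD a).1 h3
    have hb := (hstD b).1 h4
    rw [hτ j a ha.2.1 ha.1, hτ j b hb.2.1 hb.1]
    rcases hcase a with h' | h' | h' | h' | ⟨w, hw⟩
    · exact absurd h' ha.2.1
    · exact absurd h' ha.1
    · exfalso
      rw [h', hφp] at h1
      exact hφo2 b (h2.symm.trans (hr1 j h1))
    · exfalso
      rw [h', hφq] at h1
      exact hφo2 b (h2.symm.trans (hr1 j h1))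
    rcases hcase b with h' | h' | h' | h' | ⟨w', hw'⟩
    · exact absurd h' hb.2.1
    · exact absurd h' hb.1
    · exfalso
      rw [h', hφp] at h2
      exact hφo2 a ((K.f j).injective (h1.trans (hr2 j h2).symm))
    · exfalso
      rw [h', hφq] at h2
      exact hφo2 a ((K.f j).injective (h1.trans (hr2 j h2).symm))
    subst hw
    subst hw'
    rw [hφW] at h1 h2
    rw [hτ0W, hτ0W]
    by_contra h6
    rcases (hCC j w w' h1 h2).1 h6 with h7 | h7
    · exact ha.2.2 h7.1
    · exact h5 h7.2
  · -- 6
    intro a b hab ha hb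
    rcases (hstU a).1 ha with rfl | ⟨ha1, ha2⟩
    · rcases (hstU b).1 hb with rfl | ⟨hb1, hb2⟩
      · exact absurd rfl hab
      · exact hb2
    · rcases (hstU b).1 hb with rfl | ⟨hb1, hb2⟩
      · exact ha2.symm
      · exact hz.clique a b ha2 hb2 ha1 hb1 hab
  · -- 7
    intro a b hab ha hb
    exact absurd (((hstS a).1 ha).trans ((hstS b).1 hb).symm) hab
  · -- 8
    intro a b ha hb h1
    exfalso
    have hb' := (hstS b).1 hb
    have ha' := (hstD a).1 ha
    rw [hb', hφx', K.col_comm] at h1
    rcases (hφo a).1 (K.col_inj o h1) with h2 | h2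
    · exact ha'.2.1 h2
    · exact ha'.1 h2
  · -- 9
    have key : H.Adj x x' ↔ ∃ j, τ j x = τ j x' := by
      constructor
      · intro h1
        obtain ⟨j⟩ := hJ
        refine ⟨j, ?_⟩
        rw [hτx, hτx', if_pos h1]
      · rintro ⟨j, h1⟩
        by_contra h2
        rw [hτx, hτx', if_neg h2] at h1
        exact absurd h1 (by cases β j <;> simp)
    have hst1 : st x ≠ st x' := by
      rw [(hstS x').2 rfl, (hstU x).2 (Or.inl rfl)]
      simp
    intro a b hab ha hb
    rcases (hφo a).1 ha with rfl | rfl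
    · rcases (hφo b).1 hb with rfl | rfl
      · exact absurd rfl hab
      · rw [key]
        constructor
        · exact fun h1 => Or.inr h1
        · exact fun h1 => h1.resolve_left hst1
    · rcases (hφo b).1 hb with rfl | rfl
      · rw [H.adj_comm, key]
        constructor
        · rintro ⟨j, h1⟩
          exact Or.inr ⟨j, h1.symm⟩
        · intro h1
          obtain ⟨j, h1⟩ := h1.resolve_left hst1.symm
          exact ⟨j, h1.symm⟩
      · exact absurd rfl hab
  · -- 10
    intro a b ha hb
    have hb1 : b ≠ x := fun h' => hb ((hφo b).2 (Or.inl h'))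
    have hb2 : b ≠ x' := fun h' => hb ((hφo b).2 (Or.inr h'))
    have hbS : st b ≠ St.S := fun h' => hb2 ((hstS b).1 h')
    have hbU : H.Adj x b ↔ st b = St.U := by
      rw [hstU]
      constructor
      · exact fun h1 => Or.inr ⟨hb2, h1⟩
      · exact fun h1 => (h1.resolve_left hb1).2
    have hbU' : st b ≠ St.D → st b = St.U := by
      intro h1
      cases h2 : st b with
      | D => exact absurd h2 h1
      | U => rfl
      | S => exact absurd h2 hbS
    rcases (hφo a).1 ha with rfl | rfl
    · rw [(hstU a).2 (Or.inl rfl), hbU]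
      constructor
      · exact fun h1 => Or.inl h1.symm
      · rintro (h1 | ⟨h1, _⟩)
        · exact h1.symm
        · exact hbU' h1
    · rw [(hstS a).2 rfl]
      constructor
      · intro h1
        have h2 : st b = St.U := hbU.1 (hz.sub b hb1 h1)
        refine Or.inr ⟨by rw [h2]; simp, ?_⟩
        obtain ⟨j, hj⟩ := K.cover o (φ b) (Ne.symm hb)
        refine ⟨j, hj, ?_⟩
        rw [hτx', hτ j b hb1 hb2]
        exact (hβ j b ⟨hb1, h2, hj⟩).2 h1
      · rintro (h1 | ⟨h1, j, hj, h2⟩)
        · exact absurd h1.symm hbS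
        · rw [hτx', hτ j b hb1 hb2] at h2
          exact (hβ j b ⟨hb1, hbU' h1, hj⟩).1 h2
  · -- 11
    intro a b hab h1 h2
    by_cases h3 : φ a = o
    · exfalso
      have h4 : φ b = o := h1 ▸ h3
      have hst1 : st x ≠ st x' := by
        rw [(hstS x').2 rfl, (hstU x).2 (Or.inl rfl)]
        simp
      rcases (hφo a).1 h3 with rfl | rfl
      · rcases (hφo b).1 h4 with rfl | rfl
        · exact hab rfl
        · exact hst1 h2
      · rcases (hφo b).1 h4 with rfl | rfl
        · exact hst1 h2.symm
        · exact hab rfl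
    · have key : st p = st q → ∃ j, τ j p ≠ τ j q := by
        intro h4
        have h5 : H.Adj x p ↔ H.Adj x q := by
          have e1 : H.Adj x p ↔ st p = St.U := by
            rw [hstU]
            exact ⟨fun h => Or.inr ⟨hz.px', h⟩, fun h => (h.resolve_left hz.px).2⟩
          have e2 : H.Adj x q ↔ st q = St.U := by
            rw [hstU]
            exact ⟨fun h => Or.inr ⟨hz.qx', h⟩, fun h => (h.resolve_left hz.qx).2⟩
          rw [e1, e2, h4]
        rcases hz.nt with h6 | ⟨t, t1, t2, t3, t4, t5⟩
        · exact absurd h5 h6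
        · let w : W := ⟨t, t1, t2, t3, t4⟩
          obtain ⟨j, hj⟩ := K.cover s1 (ψ w) (Ne.symm (hψs w))
          refine ⟨j, ?_⟩
          have h7 : ε j = true := (hε j w hj).1 t5
          rw [hτ j p hz.px hz.px', hτ j q hz.qx hz.qx', hτ0q, h7]
          have h8 : τ0 j p = σ j s1 := hτ0a j none
          rw [h8]
          cases σ j s1 <;> simp
      rcases hφeq a b hab h1 h3 with ⟨rfl, rfl⟩ | ⟨rfl, rfl⟩
      · exact key h2
      · obtain ⟨j, hj⟩ := key h2.symm
        exact ⟨j, hj.symm⟩

end Pool.Agent.Work.MP_12b649_co.Even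

end

section

/-!
# Derangement representations, even order at least eight: assembly
-/

namespace Pool.Agent.Work.MP_12b649_co.Even

open Pool.Agent.Work.MP_12b649_co

/-- The part with complete bipartite and tripartite graphs. -/
lemma aff_case (hA : S_AFF) (hB : S_BIP) (V : Type) [Fintype V] (H : SimpleGraph V)
    (hn : 8 ≤ Fintype.card V) (he : Even (Fintype.card V)) (c : V → Fin 4) (a1 a2 b1 b2 : V)
    (hc : AffC H c) (ha : a1 ≠ a2) (hb : b1 ≠ b2) (h1 : c a1 = 0) (h2 : c a2 = 0)
    (h3 : c b1 = 1) (h4 : c b2 = 1) : ∃ k, 0 < k ∧ k ≤ Fintype.card V ∧ Rep H k := by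
  classical
  obtain ⟨hc1, hc2⟩ := hc
  by_cases hz : ∃ z, c z ≠ 0 ∧ c z ≠ 1
  · obtain ⟨z, hz0, hz1⟩ := hz
    -- all parts have at most `n - 3` elements
    have key : ∀ (i : Fin 4) (x y w : V), x ≠ y → x ≠ w → y ≠ w → c x ≠ i → c y ≠ i → c w ≠ i →
        (Finset.univ.filter (fun v => c v = i)).card ≤ Fintype.card V - 3 := by
      intro i x y w hxy hxw hyw hx hy hw
      have hsub : (Finset.univ.filter (fun v => c v = i)) ⊆
          (((Finset.univ.erase x).erase y).erase w) := by
        intro v hv
        simp only [Finset.mem_filter, Finset.mem_univ, true_and] at hv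
        simp only [Finset.mem_erase, Finset.mem_univ, and_true, ne_eq]
        refine ⟨?_, ?_, ?_⟩
        · rintro rfl; exact hw hv
        · rintro rfl; exact hy hv
        · rintro rfl; exact hx hv
      have := Finset.card_le_card hsub
      rw [Finset.card_erase_of_mem, Finset.card_erase_of_mem, Finset.card_erase_of_mem,
        Finset.card_univ] at this
      · omega
      · exact Finset.mem_univ _
      · simp [hxy.symm]
      · simp [hxw.symm, hyw.symm]
    have hall : ∀ i : Fin 4,
        (Finset.univ.filter (fun v => c v = i)).card ≤ Fintype.card V - 3 := by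
      intro i
      have za1 : z ≠ a1 := by rintro rfl; exact hz0 h1
      have za2 : z ≠ a2 := by rintro rfl; exact hz0 h2
      have zb1 : z ≠ b1 := by rintro rfl; exact hz1 h3
      have zb2 : z ≠ b2 := by rintro rfl; exact hz1 h4
      have ab : a1 ≠ b1 := by rintro rfl; rw [h1] at h3; exact absurd h3 (by decide)
      have ab2 : a2 ≠ b1 := by rintro rfl; rw [h2] at h3; exact absurd h3 (by decide)
      by_cases hi0 : i = 0
      · exact key i b1 b2 z hb zb1.symm zb2.symm (by rw [h3, hi0]; decide)
          (by rw [h4, hi0]; decide) (by rw [hi0]; exact hz0)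
      · by_cases hi1 : i = 1
        · exact key i a1 a2 z ha za1.symm za2.symm (by rw [h1, hi1]; decide)
            (by rw [h2, hi1]; decide) (by rw [hi1]; exact hz1)
        · exact key i a1 a2 b1 ha ab ab2 (by rw [h1]; exact fun h => hi0 h.symm)
            (by rw [h2]; exact fun h => hi0 h.symm) (by rw [h3]; exact fun h => hi1 h.symm)
    obtain ⟨r, hr⟩ := he
    by_cases h3' : 3 ∣ (Fintype.card V - 1)
    · refine ⟨Fintype.card V - 3 + 1, by omega, by omega, hA (Fintype.card V - 3) V H c ?_
        (by omega) ⟨hc1, hc2⟩ hall⟩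
      have e2 : Nat.Coprime (Fintype.card V - 3) 2 := by
        rw [Nat.coprime_comm, Nat.Prime.coprime_iff_not_dvd Nat.prime_two]
        omega
      have e3 : Nat.Coprime (Fintype.card V - 3) 3 := by
        rw [Nat.coprime_comm, Nat.Prime.coprime_iff_not_dvd Nat.prime_three]
        omega
      exact Nat.Coprime.mul_right e2 e3
    · refine ⟨Fintype.card V - 1 + 1, by omega, by omega, hA (Fintype.card V - 1) V H c ?_
        (by omega) ⟨hc1, hc2⟩ (fun i => (hall i).trans (by omega))⟩
      have e2 : Nat.Coprime (Fintype.card V - 1) 2 := by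
        rw [Nat.coprime_comm, Nat.Prime.coprime_iff_not_dvd Nat.prime_two]
        omega
      have e3 : Nat.Coprime (Fintype.card V - 1) 3 := by
        rw [Nat.coprime_comm, Nat.Prime.coprime_iff_not_dvd Nat.prime_three]
        exact h3'
      exact Nat.Coprime.mul_right e2 e3
  · -- complete bipartite
    have hz' : ∀ z, c z = 0 ∨ c z = 1 := by
      intro z
      by_contra h
      push Not at h
      exact hz ⟨z, h.1, h.2⟩
    refine ⟨Fintype.card V - 1, by omega, by omega,
      hB (Fintype.card V - 1) V H (fun v => decide (c v = 0)) ?_ (by omega) ?_ ?_⟩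
    · obtain ⟨r, hr⟩ := he
      exact ⟨r - 1, by omega⟩
    · intro u v
      rw [hc1 u v]
      have t0 : (0 : Fin 4) ≠ 3 := by decide
      have t1 : (1 : Fin 4) ≠ 3 := by decide
      have t2 : (0 : Fin 4) ≠ 1 := by decide
      rcases hz' u with hu | hu <;> rcases hz' v with hv | hv <;> simp [hu, hv, t0, t1, t2]
    · intro i
      have key : ∀ x : V, decide (c x = 0) ≠ i →
          (Finset.univ.filter (fun v => decide (c v = 0) = i)).card ≤ Fintype.card V - 1 := by
        intro x hx
        have hsub : (Finset.univ.filter (fun v => decide (c v = 0) = i)) ⊆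
            (Finset.univ.erase x) := by
          intro v hv
          simp only [Finset.mem_filter, Finset.mem_univ, true_and] at hv
          simp only [Finset.mem_erase, Finset.mem_univ, and_true, ne_eq]
          rintro rfl
          exact hx hv
        have := Finset.card_le_card hsub
        rw [Finset.card_erase_of_mem (Finset.mem_univ _), Finset.card_univ] at this
        exact this
      cases i
      · exact key a1 (by simp [h1])
      · exact key b1 (by simp [h3])

/-- Even order at least eight: every graph which is not a disjoint union of cliques has a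
representation with at most as many points as vertices. -/
theorem even_big (hA : S_AFF) (hB : S_BIP) (hKE : S_KE) (hP : S_PETB) (hG : S_GOOD) (hT2 : S_T2)
    (hZ : S_Z) (hTR : S_TR) (hM : S_MAIN) (V : Type) [Fintype V] (H : SimpleGraph V)
    (hn : 8 ≤ Fintype.card V) (he : Even (Fintype.card V)) (hcl : ¬ Cluster H) :
    ∃ k, 0 < k ∧ k ≤ Fintype.card V ∧ Rep H k := by
  have hodd : Odd (Fintype.card V - 1) := by
    obtain ⟨r, hr⟩ := he
    exact ⟨r - 1, by omega⟩
  have hN : Fintype.card V = (Fintype.card V - 1) + 1 := by omega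
  by_cases hno : NoT2 H
  · rcases hM V H hn hno hcl with h | h | h | h | h
    · obtain ⟨x, x', p, q, h⟩ := h
      obtain ⟨K⟩ := exists_kotzig _ hodd
      refine ⟨Fintype.card V - 1 + 1, by omega, by omega, hZ _ K V H x x' p q (by omega) hN h⟩
    · obtain ⟨x, y, h⟩ := h
      exact ⟨Fintype.card V, by omega, le_refl _, hKE _ V H x y rfl (by omega) h⟩
    · obtain ⟨c, a1, a2, b1, b2, hc, ha, hb, h1, h2, h3, h4⟩ := h
      exact aff_case hA hB V H hn he c a1 a2 b1 b2 hc ha hb h1 h2 h3 h4
    · obtain ⟨p, p', p'', q, g, h', e, h⟩ := h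
      obtain ⟨K⟩ := exists_kotzig _ hodd
      refine ⟨Fintype.card V - 1 + 1, by omega, by omega,
        hTR _ K V H p p' p'' q g h' e (by omega) hN h⟩
    · exact ⟨8, by omega, hn, hP V H h⟩
  · unfold NoT2 at hno
    push Not at hno
    obtain ⟨p1, q1, p2, q2, v, h⟩ := hno
    obtain ⟨K, L, x, hK⟩ := hG _ hodd (by omega)
    exact ⟨Fintype.card V - 1, by omega, by omega, hT2 _ L K x hK V H p1 q1 p2 q2 v hN h⟩

end Pool.Agent.Work.MP_12b649_co.Even

end

section

/-!
# Item C4F
-/

namespace Pool.Agent.Work.MP_12b649_co.Even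

theorem pr_C4F (h1 : S_C4) (h2 : S_OUT) : S_C4F := by
  intro V H hn hnc
  simp only [NoC4, not_forall, not_or] at hnc
  obtain ⟨a, b, a', b', hab, hba, hab', hba', hne1, hne2, hm1, hm2⟩ := hnc
  obtain ⟨c, ca, ca', cb, cb', hc1, hc2⟩ :=
    h1 V H a b a' b' hn hab hba hab' hba' hne1 hne2 hm1 hm2
  have h03 : (0 : Fin 4) ≠ 3 := by decide
  have h13 : (1 : Fin 4) ≠ 3 := by decide
  have hcl : ∀ u v, c u = 3 → H.Adj u v → c v = 3 := by
    intro u v hu huv
    by_contra hv
    exact hc2 v u hv hu huv.symm
  by_cases hex : ∃ u0 v0, c u0 = 3 ∧ c v0 = 3 ∧ u0 ≠ v0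
  · obtain ⟨u0, v0, hu0, hv0, huv⟩ := hex
    left
    obtain ⟨x, x', hz⟩ := h2 V H (fun v => c v = 3) a b a' u0 v0 hn hcl
      (by simp only [ca]; exact h03) (by simp only [cb]; exact h13)
      (by simp only [ca']; exact h03) hab hne1.symm hba.ne'
      (by intro hd; exact hm1 (hd.2 hba)) hu0 hv0 huv
    exact ⟨x, x', a, b, hz⟩
  · right
    have huniq : ∀ u v, c u = 3 → c v = 3 → u = v := by
      intro u v hu hv
      by_contra hne
      exact hex ⟨u, v, hu, hv, hne⟩
    refine ⟨c, a, a', b, b', ⟨?_, huniq⟩, hne1, hne2, ca, ca', cb, cb'⟩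
    intro u v
    by_cases hu : c u = 3
    · constructor
      · intro huv
        exact absurd (huniq u v hu (hcl u v hu huv)) huv.ne
      · intro hh
        exact absurd hu hh.2.1
    · by_cases hv : c v = 3
      · constructor
        · intro huv
          exact absurd huv (hc2 u v hu hv)
        · intro hh
          exact absurd hv hh.2.2
      · rw [hc1 u v hu hv]
        constructor
        · intro hh
          exact ⟨hh, hu, hv⟩
        · intro hh
          exact hh.1

end Pool.Agent.Work.MP_12b649_co.Even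

end

section

/-! Item LEAF2: a doubled leaf class. -/

namespace Pool.Agent.Work.MP_12b649_co.Even

theorem LEAF2_rep_cases {V : Type} {H : SimpleGraph V} {rep : V → V} {K : V → Prop}
    (su : Su H rep K) (z a : TT rep K) (hz : ∀ v, (TG H rep K).Adj z v ↔ v = a) (c : V)
    (hc : H.Adj z.val c) : rep c = z.val ∨ rep c = a.val := by
  rcases (su.adj z.val c).1 hc with ⟨h1, -⟩ | ⟨-, h1⟩
  · left
    rw [← h1, z.2.1]
  · right
    rw [z.2.1] at h1
    have hK : K (rep c) := su.closed _ _ z.2.2 h1
    have h2 : (TG H rep K).Adj z ⟨rep c, su.idem c, hK⟩ := h1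
    have h3 := (hz _).1 h2
    exact congrArg Subtype.val h3

theorem pr_LEAF2 (hT : S_TPROP) : S_LEAF2 := by
  intro V H rep K su z a z' hz hz' hne
  obtain ⟨hconn, -, -, -, A, B, C, hAB, hBC, hAC, -⟩ := hT V H rep K su
  have hza : H.Adj z.val a.val := (hz a).2 rfl
  have hzane : z ≠ a := fun h => hza.ne (congrArg Subtype.val h)
  obtain ⟨r, har, hrz⟩ : ∃ r : TT rep K, (TG H rep K).Adj a r ∧ r ≠ z := by
    by_contra hcon
    push Not at hcon
    have hall : ∀ v : TT rep K, v = z ∨ v = a := by
      refine hconn (fun v => v = z ∨ v = a) ⟨z, Or.inl rfl⟩ ?_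
      rintro u v (rfl | rfl) huv
      · exact Or.inr ((hz v).1 huv)
      · exact Or.inl (hcon v huv)
    have hABn : A ≠ B := fun h => hAB.ne (congrArg Subtype.val h)
    have hBCn : B ≠ C := fun h => hBC.ne (congrArg Subtype.val h)
    rcases hall A with h1 | h1 <;> rcases hall B with h2 | h2 <;> rcases hall C with h3 | h3 <;>
      first
      | exact hABn (h1.trans h2.symm)
      | exact hBCn (h2.trans h3.symm)
      | exact hAC (h1.trans h3.symm)
  have har' : H.Adj a.val r.val := har
  have hra : r ≠ a := fun h => har'.ne (congrArg Subtype.val h).symm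
  have hnzr : ¬ H.Adj z.val r.val := fun h => hra ((hz r).1 h)
  refine ⟨z.val, z', a.val, r.val, ?_⟩
  refine ⟨hne.symm, ?_, ?_, har', hza.ne', ?_, ?_, ?_, fun h => hnzr h.2,
    Or.inl fun h => hnzr (h.1 hza)⟩
  · intro c b hc hb _ _ hcb
    have e1 := LEAF2_rep_cases su z a hz c hc
    have e2 := LEAF2_rep_cases su z a hz b hb
    by_cases he : rep c = rep b
    · exact (su.adj c b).2 (Or.inl ⟨he, hcb⟩)
    · refine (su.adj c b).2 (Or.inr ⟨he, ?_⟩)
      rcases e1 with e1 | e1 <;> rcases e2 with e2 | e2
      · exact absurd (e1.trans e2.symm) he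
      · rw [e1, e2]; exact hza
      · rw [e1, e2]; exact hza.symm
      · exact absurd (e1.trans e2.symm) he
  · intro v hv hadj
    rcases (su.adj z' v).1 hadj with ⟨h1, -⟩ | ⟨h1, h2⟩
    · refine (su.adj z.val v).2 (Or.inl ⟨?_, hv.symm⟩)
      rw [z.2.1, ← h1, hz']
    · refine (su.adj z.val v).2 (Or.inr ⟨?_, ?_⟩)
      · rw [z.2.1, ← hz']; exact h1
      · rw [z.2.1, ← hz']; exact h2
  · intro h
    apply hzane
    apply Subtype.ext
    rw [← hz', ← h, a.2.1]
  · exact fun h => hrz (Subtype.ext h)
  · intro h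
    apply hrz
    apply Subtype.ext
    rw [← hz', ← h, r.2.1]

end Pool.Agent.Work.MP_12b649_co.Even

end

section

/-!
# MP_12b649_co, item LO1: two leaves with a common neighbour
-/

namespace Pool.Agent.Work.MP_12b649_co.Even

open Pool.Agent.Work.MP_12b649_co

theorem pr_LO1 (h : S_TPROP) : S_LO1 := by
  classical
  intro V H rep K hS hnd z z' a hO
  obtain ⟨hzz, hz, hz'⟩ := hO
  obtain ⟨hconn, -, -, -, -⟩ := h V H rep K hS
  -- neighbours of a leaf in `H`
  have key : ∀ y : TT rep K, (∀ v, (TG H rep K).Adj y v ↔ v = a) → ∀ v, H.Adj y.val v ↔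
      rep v = a.val := by
    intro y hy v
    have hya : H.Adj y.val a.val := (hy a).2 rfl
    have hne : y.val ≠ a.val := hya.ne
    constructor
    · intro hv
      rcases (hS.adj _ _).1 hv with ⟨h1, h2⟩ | ⟨h1, h2⟩
      · exfalso
        rw [y.2.1] at h1
        exact h2 (hnd y a v hy h1.symm).symm
      · rw [y.2.1] at h2
        have hK : K (rep v) := hS.closed _ _ y.2.2 h2
        have := (hy ⟨rep v, hS.idem v, hK⟩).1 h2
        rw [← this]
    · intro hv
      rw [hS.adj]
      right
      rw [y.2.1, hv]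
      exact ⟨hne, hya⟩
  have kz := key z hz
  have kz' := key z' hz'
  have same : ∀ u v, rep u = a.val → rep v = a.val → u ≠ v → H.Adj u v := by
    intro u v hu hv huv
    rw [hS.adj]
    left
    exact ⟨by rw [hu, hv], huv⟩
  have hza : H.Adj z.val a.val := (hz a).2 rfl
  have hz'a : H.Adj z'.val a.val := (hz' a).2 rfl
  have hzv : z.val ≠ z'.val := fun hh => hzz (Subtype.ext hh)
  have hnzz' : ¬ H.Adj z.val z'.val := by
    intro hh
    have := (kz _).1 hh
    rw [z'.2.1] at this
    exact hz'a.ne this
  by_cases hr : ∃ r, (TG H rep K).Adj a r ∧ r ≠ z ∧ r ≠ z'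
  · obtain ⟨r, har, hrz, hrz'⟩ := hr
    have har' : H.Adj a.val r.val := har
    have hnr : ¬ H.Adj z.val r.val := by
      intro hh
      have := (kz _).1 hh
      rw [r.2.1] at this
      exact har'.ne this.symm
    left
    refine ⟨z.val, z'.val, a.val, r.val, ?_⟩
    refine ⟨hzv, ?_, ?_, har', hza.ne.symm, hz'a.ne.symm, ?_, ?_, ?_, ?_⟩
    · intro u v hu hv _ _ huv
      exact same u v ((kz u).1 hu) ((kz v).1 hv) huv
    · intro v _ hv
      exact (kz v).2 ((kz' v).1 hv)
    · exact fun hh => hrz (Subtype.ext hh)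
    · exact fun hh => hrz' (Subtype.ext hh)
    · exact fun hh => hnr hh.2
    · left
      exact fun hh => hnr (hh.1 hza)
  · push Not at hr
    have hall : ∀ v : TT rep K, v = z ∨ v = z' ∨ v = a := by
      apply hconn (fun v => v = z ∨ v = z' ∨ v = a) ⟨z, Or.inl rfl⟩
      rintro u v (rfl | rfl | rfl) huv
      · right; right; exact (hz v).1 huv
      · right; right; exact (hz' v).1 huv
      · by_cases hv : v = z
        · left; exact hv
        · right; left; exact hr v huv hv
    by_cases hK : ∃ z0, ¬ K z0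
    · obtain ⟨z0, hz0⟩ := hK
      left
      refine ⟨z.val, z0, a.val, z'.val, ?_⟩
      refine ⟨?_, ?_, ?_, hz'a.symm, hza.ne.symm, ?_, hzv.symm, ?_, ?_, ?_⟩
      · rintro rfl; exact hz0 z.2.2
      · intro u v hu hv _ _ huv
        exact same u v ((kz u).1 hu) ((kz v).1 hv) huv
      · intro v _ hv
        exact absurd hv (hS.iso _ _ hz0)
      · rintro rfl; exact hz0 a.2.2
      · rintro rfl; exact hz0 z'.2.2
      · exact fun hh => hnzz' hh.2
      · left
        exact fun hh => hnzz' (hh.1 hza)
    · push Not at hK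
      have hcl : ∀ v, v = z.val ∨ v = z'.val ∨ rep v = a.val := by
        intro v
        rcases hall ⟨rep v, hS.idem v, hK _⟩ with h1 | h1 | h1
        · left
          exact hnd z a v hz (by rw [← h1])
        · right; left
          exact hnd z' a v hz' (by rw [← h1])
        · right; right
          rw [← h1]
      right
      refine ⟨z.val, z'.val, hzv, ?_⟩
      intro u v
      constructor
      · intro huv
        refine ⟨huv.ne, ?_, ?_⟩
        · rintro ⟨rfl, rfl⟩; exact hnzz' huv
        · rintro ⟨rfl, rfl⟩; exact hnzz' huv.symm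
      · rintro ⟨h1, h2, h3⟩
        rcases hcl u with rfl | rfl | hu
        · rcases hcl v with rfl | rfl | hv
          · exact absurd rfl h1
          · exact absurd ⟨rfl, rfl⟩ h2
          · exact (kz v).2 hv
        · rcases hcl v with rfl | rfl | hv
          · exact absurd ⟨rfl, rfl⟩ h3
          · exact absurd rfl h1
          · exact (kz' v).2 hv
        · rcases hcl v with rfl | rfl | hv
          · exact ((kz u).2 hu).symm
          · exact ((kz' u).2 hu).symm
          · exact same u v hu hv h1

end Pool.Agent.Work.MP_12b649_co.Even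

end

section

/-!
# Item LO2: a leaf whose neighbour has degree two
-/

namespace Pool.Agent.Work.MP_12b649_co.Even

theorem pr_LO2 : S_LO2 := by
  intro V H rep K s hL z b v hO
  obtain ⟨hzv, hz, hb⟩ := hO
  have rz : rep z.val = z.val := z.2.1
  have rb : rep b.val = b.val := b.2.1
  have rv : rep v.val = v.val := v.2.1
  have Kz : K z.val := z.2.2
  have Kb : K b.val := b.2.2
  have Kv : K v.val := v.2.2
  have Krep : ∀ u, K u → K (rep u) := by
    intro u hu
    have h1 := (s.cls (rep u) u).1 (s.idem u)
    rcases h1 with h1 | h1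
    · rw [h1]; exact hu
    · exact s.closed _ _ hu h1.1.symm
  have Azb : H.Adj z.val b.val := (hz b).2 rfl
  have Abv : H.Adj b.val v.val := (hb v).2 (Or.inr rfl)
  have nzb : z.val ≠ b.val := Azb.ne
  have nbv : b.val ≠ v.val := Abv.ne
  have nzv : z.val ≠ v.val := fun h => hzv (Subtype.ext h)
  have clz : ∀ u, rep u = z.val → u = z.val := fun u hu => hL z b u hz hu
  -- neighbours of `z`
  have Nz : ∀ w, H.Adj z.val w ↔ rep w = b.val := by
    intro w
    constructor
    · intro hw
      rcases (s.adj _ _).1 hw with h1 | h1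
      · exfalso
        apply hw.ne
        rw [rz] at h1
        exact (clz w h1.1.symm).symm
      · rw [rz] at h1
        have hKw : K w := s.closed _ _ Kz hw
        have h2 := (hz ⟨rep w, s.idem w, Krep w hKw⟩).1 h1.2
        exact congrArg Subtype.val h2
    · intro hw
      apply (s.adj _ _).2
      right
      rw [rz, hw]
      exact ⟨nzb, Azb⟩
  -- neighbours of `b`
  have Nb : ∀ w, H.Adj b.val w ↔ ((rep w = b.val ∧ w ≠ b.val) ∨ w = z.val ∨ rep w = v.val) := by
    intro w
    constructor
    · intro hw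
      rcases (s.adj _ _).1 hw with h1 | h1
      · rw [rb] at h1
        exact Or.inl ⟨h1.1.symm, fun h => h1.2 h.symm⟩
      · rw [rb] at h1
        have hKw : K w := s.closed _ _ Kb hw
        rcases (hb ⟨rep w, s.idem w, Krep w hKw⟩).1 h1.2 with h2 | h2
        · exact Or.inr (Or.inl (clz w (congrArg Subtype.val h2)))
        · exact Or.inr (Or.inr (congrArg Subtype.val h2))
    · rintro (⟨h1, h2⟩ | h1 | h1)
      · apply (s.adj _ _).2
        left
        rw [rb, h1]
        exact ⟨rfl, fun h => h2 h.symm⟩
      · rw [h1]; exact Azb.symm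
      · apply (s.adj _ _).2
        right
        rw [rb, h1]
        exact ⟨nbv, Abv⟩
  have same : ∀ a c, rep a = rep c → a ≠ c → H.Adj a c := by
    intro a c h1 h2
    exact (s.adj _ _).2 (Or.inl ⟨h1, h2⟩)
  by_cases hr : ∃ r : TT rep K, r ≠ b ∧ (TG H rep K).Adj v r
  · left
    obtain ⟨r, hrb, hvr⟩ := hr
    have Avr : H.Adj v.val r.val := hvr
    have nrb : r.val ≠ b.val := fun h => hrb (Subtype.ext h)
    have nrz : r.val ≠ z.val := by
      intro h
      have h1 : (TG H rep K).Adj z v := by
        change H.Adj z.val v.val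
        rw [← h]
        exact Avr.symm
      have h2 := (hz v).1 h1
      exact nbv (congrArg Subtype.val h2).symm
    have nrv : ¬ H.Adj b.val r.val := by
      intro h
      rcases (hb r).1 h with h1 | h1
      · exact nrz (congrArg Subtype.val h1)
      · exact Avr.ne (congrArg Subtype.val h1).symm
    refine ⟨b.val, z.val, v.val, r.val, ?_⟩
    refine ⟨nzb.symm, ?_, ?_, Avr, nbv.symm, nzv.symm, nrb, nrz, fun h => nrv h.2,
      Or.inl (fun h => nrv (h.1 Abv))⟩
    · intro a c ha hc haz hcz hac
      rcases (Nb a).1 ha with h1 | h1 | h1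
      · rcases (Nb c).1 hc with h2 | h2 | h2
        · exact same a c (h1.1.trans h2.1.symm) hac
        · exact absurd h2 hcz
        · apply (s.adj _ _).2
          right
          rw [h1.1, h2]
          exact ⟨nbv, Abv⟩
      · exact absurd h1 haz
      · rcases (Nb c).1 hc with h2 | h2 | h2
        · apply (s.adj _ _).2
          right
          rw [h1, h2.1]
          exact ⟨nbv.symm, Abv.symm⟩
        · exact absurd h2 hcz
        · exact same a c (h1.trans h2.symm) hac
    · intro u hu1 hu2
      have h1 := (Nz u).1 hu2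
      exact (Nb u).2 (Or.inl ⟨h1, hu1⟩)
  · have hvl : ∀ w : TT rep K, (TG H rep K).Adj v w ↔ w = b := by
      intro w
      constructor
      · intro hw
        by_contra hwb
        exact hr ⟨w, hwb, hw⟩
      · rintro rfl
        exact Abv.symm
    have clv : ∀ u, rep u = v.val → u = v.val := fun u hu => hL v b u hvl hu
    have nzv' : ¬ H.Adj z.val v.val := by
      intro h
      exact nbv (congrArg Subtype.val ((hz v).1 h)).symm
    by_cases hK : ∃ z0, ¬ K z0
    · left
      obtain ⟨z0, hz0⟩ := hK
      have nK : ∀ w, K w → w ≠ z0 := by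
        rintro w hw rfl
        exact hz0 hw
      refine ⟨z.val, z0, b.val, v.val, ?_⟩
      refine ⟨nK _ Kz, ?_, ?_, Abv, nzb.symm, nK _ Kb, nzv.symm, nK _ Kv, fun h => nzv' h.2,
        Or.inl (fun h => nzv' (h.1 Azb))⟩
      · intro a c ha hc _ _ hac
        exact same a c (((Nz a).1 ha).trans ((Nz c).1 hc).symm) hac
      · intro u _ hu2
        exact absurd hu2 (s.iso _ _ hz0)
    · right
      have hall : ∀ w, K w := by
        intro w
        by_contra hw
        exact hK ⟨w, hw⟩
      have key : ∀ w, w = z.val ∨ w = v.val ∨ rep w = b.val := by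
        intro w
        have h1 := s.conn (fun w => rep w = z.val ∨ rep w = v.val ∨ rep w = b.val)
          ⟨z.val, Kz, Or.inl rz⟩ ?_ w (hall w)
        · rcases h1 with h1 | h1 | h1
          · exact Or.inl (clz w h1)
          · exact Or.inr (Or.inl (clv w h1))
          · exact Or.inr (Or.inr h1)
        · intro u w hu huw
          rcases (s.adj _ _).1 huw with h1 | h1
          · change rep w = z.val ∨ rep w = v.val ∨ rep w = b.val
            rw [← h1.1]
            exact hu
          · rcases hu with h2 | h2 | h2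
            · rw [h2] at h1
              have h3 := (hz ⟨rep w, s.idem w, Krep w (hall w)⟩).1 h1.2
              exact Or.inr (Or.inr (congrArg Subtype.val h3))
            · rw [h2] at h1
              have h3 := (hvl ⟨rep w, s.idem w, Krep w (hall w)⟩).1 h1.2
              exact Or.inr (Or.inr (congrArg Subtype.val h3))
            · rw [h2] at h1
              rcases (hb ⟨rep w, s.idem w, Krep w (hall w)⟩).1 h1.2 with h3 | h3
              · exact Or.inl (congrArg Subtype.val h3)
              · exact Or.inr (Or.inl (congrArg Subtype.val h3))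
      have Av : ∀ w, rep w = b.val → H.Adj v.val w := by
        intro w hw
        apply (s.adj _ _).2
        right
        rw [rv, hw]
        exact ⟨nbv.symm, Abv.symm⟩
      refine ⟨z.val, v.val, nzv, ?_⟩
      intro u w
      constructor
      · intro h
        refine ⟨h.ne, ?_, ?_⟩
        · rintro ⟨rfl, rfl⟩
          exact nzv' h
        · rintro ⟨rfl, rfl⟩
          exact nzv' h.symm
      · rintro ⟨h1, h2, h3⟩
        rcases key u with h4 | h4 | h4
        · rcases key w with h5 | h5 | h5
          · exact absurd (h4.trans h5.symm) h1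
          · exact absurd ⟨h4, h5⟩ h2
          · rw [h4]; exact (Nz w).2 h5
        · rcases key w with h5 | h5 | h5
          · exact absurd ⟨h4, h5⟩ h3
          · exact absurd (h4.trans h5.symm) h1
          · rw [h4]; exact Av w h5
        · rcases key w with h5 | h5 | h5
          · rw [h5]; exact ((Nz u).2 h4).symm
          · rw [h5]; exact (Av u h4).symm
          · exact same u w (h4.trans h5.symm) h1

end Pool.Agent.Work.MP_12b649_co.Even

end
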