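import Mathlib
import Pool.Agent.Work.MP_12b649_co.Even.GX2
import Pool.Agent.Work.MP_12b649_co.Even.StmtsB
import Pool.Agent.Work.MP_12b649_co.Even.Stmts

/-! Bundle of small proof modules (one section per former module). -/

section

/-!
# Existence of the data of the generalised product
-/

namespace Pool.Agent.Work.MP_12b649_co.GX

open Pool.Agent.Work.MP_12b649_co

/-- Position function along a row. -/
lemma exists_pos {d : ℕ} (Kd : Kotzig d) (hd : 0 < d) (b : Kd.V) (j : Kd.J) :
    ∃ κ : Kd.V ≃ ZMod d, κ b = 0 ∧ ∀ u, κ (Kd.f j u) = κ u + 1 := by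
  classical
  have : NeZero d := ⟨hd.ne'⟩
  set f := Kd.f j with hf
  have hper : b ∈ Function.periodicPts f := by
    have := isOfFinOrder_of_finite f
    obtain ⟨n, hn, h⟩ := isOfFinOrder_iff_pow_eq_one.mp this
    refine ⟨n, hn, ?_⟩
    show (f)^[n] b = b
    rw [← Equiv.Perm.coe_pow, h]
    rfl
  set p := Function.minimalPeriod f b with hp
  have hp0 : 0 < p := Function.minimalPeriod_pos_of_mem_periodicPts hper
  have hbij : Function.Bijective (fun i : Fin p => (f)^[i.val] b) := by
    constructor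
    · intro i i' h
      have h1 := (Function.iterate_eq_iterate_iff_of_lt_minimalPeriod i.2 i'.2).mp h
      exact Fin.ext h1
    · intro v
      obtain ⟨n, hn⟩ := (Kd.trans j b v).exists_nat_pow_eq
      refine ⟨⟨n % p, Nat.mod_lt _ hp0⟩, ?_⟩
      show (f)^[n % p] b = v
      rw [Function.iterate_mod_minimalPeriod_eq, ← Equiv.Perm.coe_pow]
      exact hn
  have hpd : p = d := by
    have h1 := Nat.card_congr (Equiv.ofBijective _ hbij)
    rw [Nat.card_eq_fintype_card, Fintype.card_fin, Kd.cardV] at h1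
    exact h1
  have hfd : (f)^[d] b = b := by
    have := Function.iterate_minimalPeriod (f := f) (x := b)
    rwa [← hp, hpd] at this
  let g : ZMod d → Kd.V := fun x => (f)^[x.val] b
  have hg : Function.Bijective g := by
    rw [Nat.bijective_iff_injective_and_card]
    constructor
    · intro x x' h
      have h1 := (Function.iterate_eq_iterate_iff_of_lt_minimalPeriod
        (by rw [← hp, hpd]; exact ZMod.val_lt x) (by rw [← hp, hpd]; exact ZMod.val_lt x')).mp h
      exact ZMod.val_injective d h1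
    · rw [Nat.card_zmod, Kd.cardV]
  have hg1 : ∀ x, f (g x) = g (x + 1) := by
    intro x
    show f ((f)^[x.val] b) = (f)^[(x + 1).val] b
    rw [← Function.iterate_succ_apply' f x.val b]
    rcases Nat.lt_or_ge (x.val + 1) d with h | h
    · have : (x + 1).val = x.val + 1 := by
        have h2 : (((x.val + 1 : ℕ)) : ZMod d).val = x.val + 1 := ZMod.val_natCast_of_lt h
        rw [Nat.cast_add, ZMod.natCast_zmod_val, Nat.cast_one] at h2
        exact h2
      rw [this]
    · have h1 : x.val + 1 = d := by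
        have := ZMod.val_lt x
        omega
      have h2 : (x + 1).val = 0 := by
        have h3 : (((x.val + 1 : ℕ)) : ZMod d) = 0 := by rw [h1, ZMod.natCast_self]
        rw [Nat.cast_add, ZMod.natCast_zmod_val, Nat.cast_one] at h3
        rw [h3, ZMod.val_zero]
      rw [h2, Nat.succ_eq_add_one, h1, hfd]
      rfl
  refine ⟨(Equiv.ofBijective g hg).symm, ?_, ?_⟩
  · rw [Equiv.symm_apply_eq]
    show b = g 0
    show b = (f)^[(0 : ZMod d).val] b
    rw [ZMod.val_zero]
    rfl
  · intro u
    rw [Equiv.symm_apply_eq]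
    show f u = g ((Equiv.ofBijective g hg).symm u + 1)
    rw [← hg1]
    congr 1
    exact ((Equiv.ofBijective g hg).apply_symm_apply u).symm

section

variable {d e : ℕ}

/-- Existence of the data, with prescribed base vertices, prescribed labels and prescribed
identification of the coset of the base. -/
theorem exists_pdata (Kd : Kotzig d) (K : Kotzig e) (hd : Odd d) (hd3 : 3 ≤ d) (he : Odd e)
    (b : Kd.V) (w0 : K.V) (lam : K.J → ℕ) (lam_inj : Function.Injective lam)
    (lam1 : ∀ j, 1 ≤ lam j) (lam2 : ∀ j, 2 * lam j < e) (φb : K.V ≃ ZMod e) (hφb0 : φb w0 = 0)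
    (hφb : ∀ j, φb (K.f j w0) = - (lam j : ZMod e)) :
    ∃ P : PData Kd K, P.b = b ∧ P.w0 = w0 ∧ P.lam = lam ∧ P.φ b = φb := by
  classical
  have hd0 : 0 < d := by omega
  have : NeZero d := ⟨hd0.ne'⟩
  have : NeZero e := ⟨he.pos.ne'⟩
  have hJ : Nonempty Kd.J := by
    have h1 := Kd.cardJ
    have : 0 < Nat.card Kd.J := by omega
    exact (Nat.card_pos_iff.mp this).1
  obtain ⟨j0⟩ := hJ
  choose κ κb κf using exists_pos Kd hd0 b
  have nz : ∀ k : ℕ, 1 ≤ k → k < e → (k : ZMod e) ≠ 0 := fun k h1 h2 => PData.nz h1 h2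
  have lab0 : ∀ j, (lam j : ZMod e) ≠ 0 := fun j => nz _ (lam1 j) (by have := lam2 j; omega)
  have lab1 : ∀ j, (1 : ZMod e) - 2 * (lam j : ZMod e) ≠ 0 := by
    intro j h
    apply nz (2 * lam j - 1) (by have := lam1 j; omega) (by have := lam2 j; omega)
    rw [Nat.cast_sub (by have := lam1 j; omega)]
    push_cast
    linear_combination -h
  have lab_inj : Function.Injective (fun m => (lam m : ZMod e)) := by
    intro m m' h
    apply lam_inj
    have a1 : (lam m : ZMod e).val = lam m :=
      ZMod.val_natCast_of_lt (by have := lam2 m; omega)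
    have a2 : (lam m' : ZMod e).val = lam m' :=
      ZMod.val_natCast_of_lt (by have := lam2 m'; omega)
    rw [← a1, ← a2]
    exact congrArg ZMod.val h
  let q : K.J → Kd.V → ZMod e := fun j x => - sg (κ j0 x).val (lam j : ZMod e)
  have q0 : ∀ j x, q j x ≠ 0 := by
    intro j x
    simp only [q, neg_ne_zero]
    unfold sg
    split_ifs
    · exact lab0 j
    · exact lab1 j
    · exact lab0 j
    · exact neg_ne_zero.mpr (lab0 j)
  have q_inj : ∀ x, Function.Injective (fun j => q j x) := by
    intro x j j' h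
    exact lab_inj (sg_injective he (κ j0 x).val (neg_injective h))
  let ν : K.J → K.V := fun j => K.f j w0
  have ν_ne : ∀ j, ν j ≠ w0 := fun j => K.f_ne j w0
  have ν_inj : Function.Injective ν := by
    intro j j' h
    have := K.nb_injective w0 (a₁ := (j, true)) (a₂ := (j', true)) (by simpa [Kotzig.nb] using h)
    simpa using this
  have hφex : ∀ x : Kd.V, ∃ φ : K.V ≃ ZMod e, φ w0 = 0 ∧ (∀ j, φ (ν j) = q j x) ∧
      (x = b → φ = φb) := by
    intro x
    by_cases hx : x = b
    · refine ⟨φb, hφb0, fun j => ?_, fun _ => rfl⟩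
      rw [hφb]
      simp only [q]
      rw [hx, κb, ZMod.val_zero, sg_zero]
    · obtain ⟨φ, hφ⟩ := exists_equiv_ext (J := Option K.J) (A := K.V) (B := ZMod e)
        (by rw [K.cardV, Nat.card_zmod])
        (fun o => o.elim w0 ν) (fun o => o.elim 0 (fun j => q j x))
        (by
          rintro (_ | j) (_ | j') h
          · rfl
          · exact absurd h.symm (ν_ne j')
          · exact absurd h (ν_ne j)
          · exact congrArg some (ν_inj h))
        (by
          rintro (_ | j) (_ | j') h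
          · rfl
          · exact absurd h.symm (q0 j' x)
          · exact absurd h (q0 j x)
          · exact congrArg some (q_inj x h))
      exact ⟨φ, hφ none, fun j => hφ (some j), fun h => absurd h hx⟩
  choose φ hφ0 hφ hφb' using hφex
  -- the half step
  have hcol : Function.Bijective (fun u => Kd.col u (Kd.f j0 u)) := by
    rw [Nat.bijective_iff_injective_and_card]
    exact ⟨Kd.orth j0, by rw [Kd.cardV, Kd.cardC]⟩
  have hex : ∀ u, ∃ v, Kd.col v (Kd.f j0 v) = Kd.col u u := fun u => hcol.2 _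
  choose h0 hh0 using hex
  have h0_inj : Function.Injective h0 := by
    intro u v huv
    apply Kd.diag_inj
    show Kd.col u u = Kd.col v v
    rw [← hh0 u, ← hh0 v, huv]
  have h0_bij : Function.Bijective h0 := Finite.injective_iff_bijective.mp h0_inj
  let h : Kd.V ≃ Kd.V := Equiv.ofBijective h0 h0_bij
  have hψex : ∀ x : Kd.V, ∃ ψ : K.C ≃ ZMod e, ∀ j, ψ (K.col w0 (ν j)) = q j (h x) := by
    intro x
    exact exists_equiv_ext (J := K.J) (A := K.C) (B := ZMod e)
      (by rw [K.cardC, Nat.card_zmod])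
      (fun j => K.col w0 (ν j)) (fun j => q j (h x))
      (by
        intro j j' h
        exact ν_inj (K.col_inj w0 h))
      (q_inj _)
  choose ψ hψ using hψex
  exact ⟨{
    hd := hd
    hd3 := hd3
    he := he
    b := b
    j0 := j0
    w0 := w0
    κ := κ
    κb := κb
    κf := κf
    lam := lam
    lam_inj := lam_inj
    lam1 := lam1
    lam2 := lam2
    φ := φ
    φ0 := hφ0
    φq := hφ
    h := h
    hh := hh0
    ψ := ψ
    ψq := hψ }, rfl, rfl, rfl, hφb' b rfl⟩

end

end Pool.Agent.Work.MP_12b649_co.GX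

end

section

/-!
# Item LPET: the quotient embeds in the Petersen graph
-/

namespace Pool.Agent.Work.MP_12b649_co.Even

theorem petAdj_irrefl (a : Fin 10) : petAdj a a = false := by
  revert a; decide

theorem pr_LPET : S_LPET := by
  classical
  intro V H rep K Su hPet htw
  obtain ⟨f, hfinj, hfadj⟩ := hPet
  have hrepK : ∀ v, K v → K (rep v) := by
    intro v hv
    have h1 : rep (rep v) = rep v := Su.idem v
    rcases (Su.cls (rep v) v).1 h1 with h | h
    · rw [h]; exact hv
    · exact Su.closed v (rep v) hv h.1.symm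
  -- the map
  let g : ∀ v, K v → Fin 10 := fun v hv => f ⟨rep v, Su.idem v, hrepK v hv⟩
  have ginj : ∀ u v (hu : K u) (hv : K v), g u hu = g v hv → rep u = rep v := by
    intro u v hu hv h
    have := hfinj h
    exact congrArg Subtype.val this
  let F : V → Option (Fin 10 × Bool) := fun v =>
    if hv : K v then some (g v hv, decide (v ≠ rep v)) else none
  have F1 : ∀ v (hv : K v), F v = some (g v hv, decide (v ≠ rep v)) := by
    intro v hv; simp only [F, dif_pos hv]
  have F0 : ∀ v (_ : ¬ K v), F v = none := by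
    intro v hv; simp only [F, dif_neg hv]
  refine ⟨F, ?_, ?_⟩
  · intro u v huv
    by_cases hu : K u
    · by_cases hv : K v
      · rw [F1 u hu, F1 v hv] at huv
        have h1 := Option.some.inj huv
        have h2 : g u hu = g v hv := congrArg Prod.fst h1
        have h3 : decide (u ≠ rep u) = decide (v ≠ rep v) := congrArg Prod.snd h1
        have h4 := ginj u v hu hv h2
        have h5 : (u ≠ rep u) ↔ (v ≠ rep v) := by
          constructor
          · intro h
            rw [decide_eq_true h] at h3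
            exact of_decide_eq_true h3.symm
          · intro h
            rw [decide_eq_true h] at h3
            exact of_decide_eq_true h3
        by_cases h6 : u = rep u
        · have h7 : v = rep v := by
            by_contra h'
            exact (h5.2 h') h6
          rw [h6, h7, h4]
        · have h7 : v ≠ rep v := h5.1 h6
          rcases htw u v (rep u) hu h4 (Su.idem u).symm with h | h | h
          · exact h
          · exact absurd h h6
          · exact absurd (h.trans h4) h7
      · rw [F1 u hu, F0 v hv] at huv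
        cases huv
    · by_cases hv : K v
      · rw [F1 v hv, F0 u hu] at huv
        cases huv
      · exact Su.out u v hu hv
  · intro u v
    by_cases hu : K u
    · by_cases hv : K v
      · rw [F1 u hu, F1 v hv]
        rw [Su.adj u v]
        have hg : H.Adj (rep u) (rep v) ↔ petAdj (g u hu) (g v hv) = true :=
          hfadj ⟨rep u, Su.idem u, hrepK u hu⟩ ⟨rep v, Su.idem v, hrepK v hv⟩
        have hb : bigAdj (some (g u hu, decide (u ≠ rep u))) (some (g v hv, decide (v ≠ rep v)))
            = ((g u hu == g v hv && decide (u ≠ rep u) != decide (v ≠ rep v)) ||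
              petAdj (g u hu) (g v hv)) := rfl
        rw [hb, Bool.or_eq_true, Bool.and_eq_true, beq_iff_eq]
        constructor
        · rintro (⟨h1, h2⟩ | ⟨h1, h2⟩)
          · left
            have hgg : g u hu = g v hv := by
              simp only [g]
              congr 1
              exact Subtype.ext h1
            refine ⟨hgg, ?_⟩
            rw [bne_iff_ne]
            intro h3
            by_cases h6 : u = rep u
            · have h7 : v = rep v := by
                by_contra h'
                have a1 : decide (u ≠ rep u) = false := by simpa using h6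
                have a2 : decide (v ≠ rep v) = true := by simpa using h'
                rw [a1, a2] at h3
                cases h3
              exact h2 (by rw [h6, h7, h1])
            · have h7 : v ≠ rep v := by
                intro h'
                have a1 : decide (u ≠ rep u) = true := by simpa using h6
                have a2 : decide (v ≠ rep v) = false := by simpa using h'
                rw [a1, a2] at h3
                cases h3
              rcases htw u v (rep u) hu h1 (Su.idem u).symm with h | h | h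
              · exact h2 h
              · exact h6 h
              · exact h7 (h.trans h1)
          · right
            exact hg.1 h2
        · rintro (⟨h1, h2⟩ | h1)
          · left
            refine ⟨ginj u v hu hv h1, ?_⟩
            intro h3
            subst h3
            simp at h2
          · right
            refine ⟨?_, hg.2 h1⟩
            intro h3
            have := hg.2 h1
            rw [h3] at this
            exact H.irrefl this
      · rw [F1 u hu, F0 v hv]
        constructor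
        · intro h
          exact absurd (Su.closed u v hu h) hv
        · intro h
          exact absurd h (by simp [bigAdj])
    · rw [F0 u hu]
      constructor
      · intro h
        exact absurd h (Su.iso u v hu)
      · intro h
        exact absurd h (by simp [bigAdj])

end Pool.Agent.Work.MP_12b649_co.Even

end

section

/-!
# Item LTR: a class of closed twins with at least three members
-/

namespace Pool.Agent.Work.MP_12b649_co.Even

theorem pr_LTR (h1 : S_TPROP) (h2 : S_NBR) : S_LTR := by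
  intro V H rep K hS hO1 hO2 hleaf P P1 P2 hP1 hP2 n1 n2 n12
  obtain ⟨hconn, hnoT2, hnoC4, htf, a0, b0, c0, hab0, -, -, -⟩ := h1 V H rep K hS
  obtain ⟨hN1, -⟩ := h2 V H rep K hS P P1 hP1 n1
  have hadj : ∀ u v : TT rep K, (TG H rep K).Adj u v ↔ H.Adj u.val v.val := fun u v => Iff.rfl
  -- a neighbour of `P`
  have ex0 : ∃ q0 : TT rep K, (TG H rep K).Adj P q0 := by
    by_contra hc
    push Not at hc
    have key := hconn (fun v => v = P) ⟨P, rfl⟩ (by
      intro u v hu huv
      rw [hu] at huv
      exact absurd huv (hc v))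
    have e1 := key a0
    have e2 := key b0
    rw [e1, e2] at hab0
    exact hab0.ne rfl
  obtain ⟨q0, hq0⟩ := ex0
  have ex1 : ∃ q1 : TT rep K, (TG H rep K).Adj P q1 ∧ q1 ≠ q0 := by
    by_contra hc
    push Not at hc
    exact n1 (hleaf P q0 P1 (fun v => ⟨fun h => hc v h, fun h => h ▸ hq0⟩) hP1)
  obtain ⟨q1, hq1, hq10⟩ := ex1
  -- a neighbour `q` with a neighbour `h ≠ P`, and another neighbour `g`
  have ex2 : ∃ q g h : TT rep K, (TG H rep K).Adj P q ∧ (TG H rep K).Adj P g ∧ q ≠ g ∧
      (TG H rep K).Adj q h ∧ h ≠ P := by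
    by_contra hc
    push Not at hc
    apply hO1
    refine ⟨q0, q1, P, hq10.symm, fun v => ⟨fun h => ?_, fun h => h ▸ hq0.symm⟩,
      fun v => ⟨fun h => ?_, fun h => h ▸ hq1.symm⟩⟩
    · exact hc q0 q1 v hq0 hq1 hq10.symm h
    · exact hc q1 q0 v hq1 hq0 hq10 h
  obtain ⟨q, g, h, hq, hg, hqg, hqh, hhP⟩ := ex2
  have hqg' : ¬ (TG H rep K).Adj q g := hN1 q g hq hg
  have hPh : ¬ (TG H rep K).Adj P h := fun hh => hN1 q h hq hh hqh
  have hgh : g ≠ h := by
    rintro rfl
    exact hPh hg
  -- representatives are different from `P1`, `P2`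
  have r1 : ∀ y : TT rep K, y.val ≠ P1 := by
    intro y hy
    have := y.2.1
    rw [hy, hP1] at this
    exact n1 this.symm
  have r2 : ∀ y : TT rep K, y.val ≠ P2 := by
    intro y hy
    have := y.2.1
    rw [hy, hP2] at this
    exact n2 this.symm
  have val_ne : ∀ {x y : TT rep K}, x ≠ y → x.val ≠ y.val := fun h h' => h (Subtype.ext h')
  have tw1 : Tw H P.val P1 := by
    have := (hS.cls P.val P1).1 (by rw [P.2.1, hP1])
    rcases this with h | h
    · exact absurd h.symm n1
    · exact h
  have tw2 : Tw H P.val P2 := by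
    have := (hS.cls P.val P2).1 (by rw [P.2.1, hP2])
    rcases this with h | h
    · exact absurd h.symm n2
    · exact h
  by_cases he : ∃ e : V, e ≠ P.val ∧ e ≠ P1 ∧ e ≠ P2 ∧ e ≠ q.val ∧ ¬ Dd H P.val q.val e
  · obtain ⟨e, e1, e2, e3, e4, e5⟩ := he
    refine ⟨P.val, P1, P2, q.val, g.val, h.val, e, ?_⟩
    exact
      { tw1 := tw1
        tw2 := tw2
        pp := n12
        adj := hq
        qp' := r1 q
        qp'' := r2 q
        gp := hg.symm
        gq := fun hh => hqg' hh.symm
        gq' := val_ne hqg.symm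
        gp' := r1 g
        gp'' := r2 g
        gh := val_ne hgh
        h1 := val_ne hhP
        h2 := r1 h
        h3 := r2 h
        h4 := fun hh => hqh.ne (Subtype.ext hh.symm)
        dh := by
          intro hh
          exact hPh (hh.2 hqh)
        e1 := e1
        e2 := e2
        e3 := e3
        e4 := e4
        de := e5 }
  · exfalso
    push Not at he
    -- every neighbour `g' ≠ q` of `P` is a leaf
    have leaf : ∀ g' : TT rep K, (TG H rep K).Adj P g' → g' ≠ q →
        ∀ v, (TG H rep K).Adj g' v ↔ v = P := by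
      intro g' hg' hgq y
      refine ⟨fun hy => ?_, fun hy => hy ▸ hg'.symm⟩
      by_contra hyP
      have hyq : y ≠ q := by
        rintro rfl
        exact hN1 g' y hg' hq hy
      have hD := he y.val (val_ne hyP) (r1 y) (r2 y) (val_ne hyq)
      have hPy : ¬ (TG H rep K).Adj P y := fun hh => hN1 g' y hg' hh hy
      have hqy : (TG H rep K).Adj q y := by
        by_contra hh
        exact hD ⟨fun a => absurd a hPy, fun a => absurd a hh⟩
      rcases hnoC4 P q y g' hq hqy hy.symm hg'.symm (fun a => hyP a.symm) hgq.symm with hh | hh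
      · exact hPy hh
      · exact hN1 q g' hq hg' hh
    have hgl := leaf g hg hqg.symm
    by_cases h3 : ∃ g2 : TT rep K, (TG H rep K).Adj P g2 ∧ g2 ≠ q ∧ g2 ≠ g
    · obtain ⟨g2, hg2, hg2q, hg2g⟩ := h3
      exact hO1 ⟨g, g2, P, hg2g.symm, hgl, leaf g2 hg2 hg2q⟩
    · push Not at h3
      apply hO2
      refine ⟨g, P, q, hqg.symm, hgl, fun w => ⟨fun hw => ?_, fun hw => ?_⟩⟩
      · by_contra hh
        push Not at hh
        exact hh.1 (h3 w hw hh.2)
      · rcases hw with hw | hw
        · rw [hw]; exact hg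
        · rw [hw]; exact hq

end Pool.Agent.Work.MP_12b649_co.Even

end

section

/-!
# LTRI: the triangle case has at most seven vertices
-/

namespace Pool.Agent.Work.MP_12b649_co.Even

theorem pr_LTRI (h1 : S_TTRI) (h2 : S_TPROP) (h3 : S_NBR) : S_LTRI := by
  intro V _ H rep K hs htri
  classical
  haveI : Fintype (TT rep K) := Fintype.ofFinite _
  obtain ⟨p1, p2, p3, p4, _⟩ := h2 V H rep K hs
  rcases h1 (TT rep K) (TG H rep K) p1 p2 p3 p4 htri with h | ⟨hcard, hall⟩
  · exact Or.inl h
  · refine Or.inr ?_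
    have hK : ∀ v, K v → K (rep v) := by
      intro v hv
      rcases (hs.cls v (rep v)).mp (hs.idem v).symm with e | e
      · rw [← e]; exact hv
      · exact hs.closed v (rep v) hv e.1
    have hrep : ∀ v, K v → rep v = v := by
      intro v hv
      by_contra hne
      let P : TT rep K := ⟨rep v, hs.idem v, hK v hv⟩
      obtain ⟨n1, n2⟩ := h3 V H rep K hs P v rfl (fun h => hne h.symm)
      rcases hall P with ⟨y, z, a, b, c⟩ | ⟨x, y, z, a, b, c, d, e, f⟩
      · exact n1 y z a b c
      · exact n2 x y z a b c d e f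
    let f : V → Option (TT rep K) := fun v =>
      if h : K v then some ⟨v, hrep v h, h⟩ else none
    have hf : Function.Injective f := by
      intro u v huv
      by_cases hu : K u
      · by_cases hv : K v
        · simp only [f, hu, hv, dif_pos, Option.some.injEq, Subtype.mk.injEq] at huv
          exact huv
        · simp [f, hu, hv] at huv
      · by_cases hv : K v
        · simp [f, hu, hv] at huv
        · exact hs.out u v hu hv
    have := Fintype.card_le_of_injective f hf
    rw [Fintype.card_option] at this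
    omega

end Pool.Agent.Work.MP_12b649_co.Even

end

section

/-!
# Item MAIN: the structure theorem
-/

namespace Pool.Agent.Work.MP_12b649_co.Even

theorem pr_MAIN (hC4F : S_C4F) (hSETUP : S_SETUP) (hTPROP : S_TPROP) (hLEAF2 : S_LEAF2)
    (hLO1 : S_LO1) (hLO2 : S_LO2) (hLTRI : S_LTRI) (hTF : S_TF) (hLTR : S_LTR)
    (hLPET : S_LPET) : S_MAIN := by
  intro V _ H hn hno hcl
  by_cases hC4 : NoC4 H
  · rcases hSETUP V H hno hC4 hcl with h | ⟨rep, K, hS⟩
    · exact Or.inl h
    obtain ⟨hconn, hT2, hnC4, htf, a, b, c, hab, hbc, hac, hnac⟩ := hTPROP V H rep K hS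
    by_cases hdl : ∀ (z a : TT rep K) (z' : V), (∀ v, (TG H rep K).Adj z v ↔ v = a) →
        rep z' = z.val → z' = z.val
    · by_cases hO1 : ∃ z z' a, O1 (TG H rep K) z z' a
      · obtain ⟨z, z', a, h⟩ := hO1
        rcases hLO1 V H rep K hS hdl z z' a h with h | h
        · exact Or.inl h
        · exact Or.inr (Or.inl h)
      by_cases hO2 : ∃ z b v, O2 (TG H rep K) z b v
      · obtain ⟨z, b, v, h⟩ := hO2
        rcases hLO2 V H rep K hS hdl z b v h with h | h
        · exact Or.inl h
        · exact Or.inr (Or.inl h)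
      by_cases htri : ∃ a b c : TT rep K, (TG H rep K).Adj a b ∧ (TG H rep K).Adj a c ∧
          (TG H rep K).Adj b c
      · rcases hLTRI V H rep K hS htri with h | h
        · exact absurd h hO1
        · omega
      have hPE : PetE (TG H rep K) := by
        rcases hTF (TT rep K) (TG H rep K) hconn hT2 hnC4 htf
          (fun a b c h1 h2 h3 => htri ⟨a, b, c, h1, h2, h3⟩) ⟨a, c, hac⟩ with h | h | h
        · exact absurd h hO1
        · exact absurd h hO2
        · exact h
      by_cases h3 : ∀ u v w, K u → rep u = rep v → rep u = rep w → u = v ∨ u = w ∨ v = w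
      · exact Or.inr (Or.inr (Or.inr (Or.inr (hLPET V H rep K hS hPE h3))))
      · push Not at h3
        obtain ⟨u, v, w, hu, huv, huw, n1, n2, n3⟩ := h3
        have hKr : K (rep u) := by
          by_cases h : rep u = u
          · rw [h]; exact hu
          · rcases (hS.cls u (rep u)).1 (hS.idem u).symm with h' | h'
            · exact absurd h'.symm h
            · exact hS.closed u (rep u) hu h'.1
        have key : ∀ x y : V, rep x = rep u → rep y = rep u → x ≠ rep u → y ≠ rep u → x ≠ y →
            ∃ p p' p'' q g h e, TRc H p p' p'' q g h e := by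
          intro x y hx hy hx' hy' hxy
          exact hLTR V H rep K hS hO1 hO2 hdl ⟨rep u, hS.idem u, hKr⟩ x y hx hy hx' hy' hxy
        refine Or.inr (Or.inr (Or.inr (Or.inl ?_)))
        by_cases e1 : u = rep u
        · exact key v w huv.symm huw.symm (fun h => n1 (e1.trans h.symm))
            (fun h => n2 (e1.trans h.symm)) n3
        · by_cases e2 : v = rep u
          · exact key u w rfl huw.symm e1 (fun h => n3 (e2.trans h.symm)) n2
          · exact key u v rfl huv.symm e1 e2 n1
    · push Not at hdl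
      obtain ⟨z, a', z', hz, hz', hne⟩ := hdl
      exact Or.inl (hLEAF2 V H rep K hS z a' z' hz hz' hne)
  · rcases hC4F V H hno hC4 with h | h
    · exact Or.inl h
    · exact Or.inr (Or.inr (Or.inl h))

end Pool.Agent.Work.MP_12b649_co.Even

end

section

/-!
# Neighbours of a doubled class
-/

namespace Pool.Agent.Work.MP_12b649_co.Even

theorem pr_NBR : S_NBR := by
  intro V H rep K hS P P' hrep hne
  have hPr : rep P.val = P.val := P.2.1
  have hPP : Tw H P.val P' := by
    rcases (hS.cls P.val P').1 (by rw [hPr, hrep]) with h | h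
    · exact absurd h.symm hne
    · exact h
  have adjPP : H.Adj P.val P' := hPP.1
  have tw : ∀ w, w ≠ P.val → w ≠ P' → (H.Adj P.val w ↔ H.Adj P' w) := hPP.2
  have ntw : ∀ u v : V, rep u ≠ rep v → ¬ Tw H u v := fun u v h h' =>
    h ((hS.cls u v).2 (Or.inr h'))
  constructor
  · intro y z hy hz hyz
    have hy' : H.Adj P.val y.val := hy
    have hz' : H.Adj P.val z.val := hz
    have hyz' : H.Adj y.val z.val := hyz
    have ry : rep y.val = y.val := y.2.1
    have rz : rep z.val = z.val := z.2.1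
    have nyP' : y.val ≠ P' := by
      intro h
      have h1 : y.val = P.val := by rw [← ry, h, hrep]
      exact hy'.ne h1.symm
    have nzP' : z.val ≠ P' := by
      intro h
      have h1 : z.val = P.val := by rw [← rz, h, hrep]
      exact hz'.ne h1.symm
    have aP'y : H.Adj P' y.val := (tw y.val hy'.ne' nyP').1 hy'
    have aP'z : H.Adj P' z.val := (tw z.val hz'.ne' nzP').1 hz'
    have nt1 : ¬ Tw H P.val y.val := ntw _ _ (by rw [hPr, ry]; exact hy'.ne)
    have nt2 : ¬ Tw H P' z.val := ntw _ _ (by rw [hrep, rz]; exact hz'.ne)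
    obtain ⟨w1, a1, a2, a3⟩ := nt_of hy' nt1
    obtain ⟨w2, b1, b2, b3⟩ := nt_of aP'z nt2
    have key : ∀ v, v ≠ P.val → v ≠ y.val → v ≠ P' → v ≠ z.val →
        (Dd H P.val y.val v ↔ Dd H P' z.val v) := fun v v1 v2 v3 v4 =>
      ek4 hS.noT2 hy' aP'z adjPP hz' aP'y.symm hyz' a1 a2 a3 b1 b2 b3 v1 v2 v3 v4
    have htw : Tw H y.val z.val := by
      refine ⟨hyz', fun w h1 h2 => ?_⟩
      by_cases h3 : w = P.val
      · rw [h3]
        exact ⟨fun _ => hz'.symm, fun _ => hy'.symm⟩
      by_cases h4 : w = P'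
      · rw [h4]
        exact ⟨fun _ => aP'z.symm, fun _ => aP'y.symm⟩
      have h5 := key w h3 h1 h4 h2
      have h6 := tw w h3 h4
      simp only [Dd] at h5
      tauto
    exact ntw _ _ (by rw [ry, rz]; exact hyz'.ne) htw
  · intro a b c hPa hab hac hbc hPb hPc
    have hPa' : H.Adj P.val a.val := hPa
    have hab' : H.Adj a.val b.val := hab
    have hac' : H.Adj a.val c.val := hac
    have hbc' : H.Adj b.val c.val := hbc
    have hPb' : ¬ H.Adj P.val b.val := hPb
    have hPc' : ¬ H.Adj P.val c.val := hPc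
    have ra : rep a.val = a.val := a.2.1
    have rb : rep b.val = b.val := b.2.1
    have rc : rep c.val = c.val := c.2.1
    have nbP : b.val ≠ P.val := by
      intro h; rw [h] at hbc'; exact hPc' hbc'
    have ncP : c.val ≠ P.val := by
      intro h; rw [h] at hbc'; exact hPb' hbc'.symm
    have naP : a.val ≠ P.val := hPa'.ne'
    have aux : ∀ x : V, rep x = x → x ≠ P.val → x ≠ P' := by
      intro x hx h h'
      apply h
      rw [← hx, h', hrep]
    have naP' := aux _ ra naP
    have nbP' := aux _ rb nbP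
    have ncP' := aux _ rc ncP
    have nt1 : ¬ Tw H b.val c.val := ntw _ _ (by rw [rb, rc]; exact hbc'.ne)
    obtain ⟨w1, a1, a2, a3⟩ := nt_of hbc' nt1
    refine opaw hS.noT2 (v := P') hbc' hPa'.symm hab'.symm hac'.symm
      (fun h => hPb' h.symm) (fun h => hPc' h.symm) nbP ncP a1 a2 a3
      nbP'.symm ncP'.symm naP'.symm hne ?_
    have e1 := tw b.val nbP nbP'
    have e2 := tw c.val ncP ncP'
    have e3 := tw a.val naP naP'
    have f1 : ¬ H.Adj b.val P' := fun h => hPb' (e1.2 h.symm)
    have f2 : ¬ H.Adj c.val P' := fun h => hPc' (e2.2 h.symm)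
    have f3 : H.Adj a.val P' := (e3.1 hPa').symm
    simp only [Dd, f1, f2, f3, adjPP]

end Pool.Agent.Work.MP_12b649_co.Even

end

section

/-!
# OCL: outside the component of a non-twin edge there are only cliques
-/

namespace Pool.Agent.Work.MP_12b649_co.Even

theorem pr_OCL : S_OCL := by
  intro V H O p q t hn hO hp hq htO hpq htp htq hd u v w hu huv hvw huw
  by_contra hc
  have hv : O v := hO u v hu huv
  have key : ∀ x y, O x → ¬ O y → ¬ H.Adj x y := fun x y hx hy h => hy (hO x y hx h)
  have hne : ∀ x, O x → t ≠ x := by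
    rintro x hx rfl
    exact htO hx
  have h := e2k2 hn (p1 := u) (q1 := v) (p2 := p) (q2 := q) (v := t) (w1 := w) (w2 := t)
    huv hpq (key u p hu hp) (key u q hu hq) (key v p hv hp) (key v q hv hq)
    huw.symm hvw.ne' (fun h => hc (h.2 hvw)) htp htq hd (hne u hu) (hne v hv) htp htq
  have h' := h.2 hd
  apply h'
  exact ⟨fun h => absurd h (key u t hu htO), fun h => absurd h (key v t hv htO)⟩

end Pool.Agent.Work.MP_12b649_co.Even

end

section

/-!
# Item OUT
-/

namespace Pool.Agent.Work.MP_12b649_co.Even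

theorem pr_OUT (h : S_OCL) : S_OUT := by
  intro V H O p q t u0 v0 hn hcl hp hq ht hpq htp htq hd hu0 hv0 huv
  have hne : ∀ {x y : V}, O x → ¬ O y → y ≠ x := by
    rintro x y hx hy rfl
    exact hy hx
  have hna : ∀ {x y : V}, O x → ¬ O y → ¬ H.Adj x y := by
    intro x y hx hy hxy
    exact hy (hcl x y hx hxy)
  have key := h V H O p q t hn hcl hp hq ht hpq htp htq hd
  by_cases hex : ∃ x x', O x ∧ H.Adj x x'
  · obtain ⟨x, x', hx, hxx⟩ := hex
    have hx' : O x' := hcl x x' hx hxx
    refine ⟨x, x', hxx.ne, ?_, ?_, hpq, hne hx hp, hne hx' hp, hne hx hq, hne hx' hq, ?_, ?_⟩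
    · intro a b ha hb _ _ hab
      exact key a x b (hcl x a hx ha) ha.symm hb hab
    · intro v hv hxv
      exact key x x' v hx hxx hxv hv.symm
    · exact fun hh => hna hx hp hh.1
    · exact Or.inr ⟨t, hne hx ht, hne hx' ht, htp, htq, hd⟩
  · have hiso : ∀ x y, O x → ¬ H.Adj x y := fun x y hx hxy => hex ⟨x, y, hx, hxy⟩
    refine ⟨u0, v0, huv, ?_, ?_, hpq, hne hu0 hp, hne hv0 hp, hne hu0 hq, hne hv0 hq, ?_, ?_⟩
    · intro a b ha _ _ _ _
      exact absurd ha (hiso u0 a hu0)
    · intro v _ hxv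
      exact absurd hxv (hiso v0 v hv0)
    · exact fun hh => hna hu0 hp hh.1
    · exact Or.inr ⟨t, hne hu0 ht, hne hv0 ht, htp, htq, hd⟩

end Pool.Agent.Work.MP_12b649_co.Even

end

section

/-! Item SETUP: existence of the setup. -/

namespace Pool.Agent.Work.MP_12b649_co.Even

theorem SETUP_tw_symm {V : Type} {H : SimpleGraph V} {u v : V} (h : Tw H u v) : Tw H v u :=
  ⟨h.1.symm, fun w h1 h2 => (h.2 w h2 h1).symm⟩

theorem SETUP_tw_trans {V : Type} {H : SimpleGraph V} {u v w : V} (h1 : Tw H u v)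
    (h2 : Tw H v w) (hne : u ≠ w) : Tw H u w := by
  have huw : H.Adj u w := (h1.2 w hne.symm h2.1.ne').2 h2.1
  refine ⟨huw, fun x hxu hxw => ?_⟩
  by_cases hxv : x = v
  · subst hxv
    exact ⟨fun _ => h2.1.symm, fun _ => h1.1⟩
  · exact (h1.2 x hxu hxv).trans (h2.2 x hxv hxw)

/-- equal or closed twins -/
def SETUP_setoid {V : Type} (H : SimpleGraph V) : Setoid V where
  r u v := u = v ∨ Tw H u v
  iseqv := by
    refine ⟨fun u => Or.inl rfl, ?_, ?_⟩
    · rintro u v (rfl | h)
      · exact Or.inl rfl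
      · exact Or.inr (SETUP_tw_symm h)
    · rintro u v w (rfl | h1) (rfl | h2)
      · exact Or.inl rfl
      · exact Or.inr h2
      · exact Or.inr h1
      · by_cases hne : u = w
        · exact Or.inl hne
        · exact Or.inr (SETUP_tw_trans h1 h2 hne)

/-- a representative of the class -/
noncomputable def SETUP_rep {V : Type} (H : SimpleGraph V) (v : V) : V :=
  (Quotient.mk (SETUP_setoid H) v).out

theorem SETUP_mk_rep {V : Type} (H : SimpleGraph V) (v : V) :
    Quotient.mk (SETUP_setoid H) (SETUP_rep H v) = Quotient.mk (SETUP_setoid H) v :=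
  Quotient.out_eq _

theorem SETUP_idem {V : Type} (H : SimpleGraph V) (v : V) :
    SETUP_rep H (SETUP_rep H v) = SETUP_rep H v := by
  have h := SETUP_mk_rep H v
  unfold SETUP_rep at h ⊢
  rw [h]

theorem SETUP_cls {V : Type} (H : SimpleGraph V) (u v : V) :
    SETUP_rep H u = SETUP_rep H v ↔ (u = v ∨ Tw H u v) := by
  constructor
  · intro h
    have h1 : Quotient.mk (SETUP_setoid H) u = Quotient.mk (SETUP_setoid H) v := by
      rw [← SETUP_mk_rep H u, ← SETUP_mk_rep H v, h]
    exact Quotient.exact h1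
  · intro h
    have h1 : Quotient.mk (SETUP_setoid H) u = Quotient.mk (SETUP_setoid H) v :=
      Quotient.sound h
    unfold SETUP_rep
    rw [h1]

theorem SETUP_step {V : Type} (H : SimpleGraph V) (u v : V)
    (hne : SETUP_rep H u ≠ SETUP_rep H v) : H.Adj u v ↔ H.Adj (SETUP_rep H u) v := by
  have h1 : SETUP_rep H (SETUP_rep H u) = SETUP_rep H u := SETUP_idem H u
  rcases (SETUP_cls H _ _).1 h1 with h | h
  · rw [h]
  · have hvu : v ≠ u := by
      rintro rfl
      exact hne rfl
    have hvr : v ≠ SETUP_rep H u := by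
      intro hh
      apply hne
      rw [hh, SETUP_idem]
    exact (h.2 v hvr hvu).symm

theorem SETUP_adj {V : Type} (H : SimpleGraph V) (u v : V) :
    H.Adj u v ↔ ((SETUP_rep H u = SETUP_rep H v ∧ u ≠ v) ∨
      (SETUP_rep H u ≠ SETUP_rep H v ∧ H.Adj (SETUP_rep H u) (SETUP_rep H v))) := by
  by_cases h : SETUP_rep H u = SETUP_rep H v
  · rcases (SETUP_cls H _ _).1 h with h1 | h1
    · subst h1
      simp
    · exact ⟨fun _ => Or.inl ⟨h, h1.1.ne⟩, fun _ => h1.1⟩
  · have e1 := SETUP_step H u v h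
    have h' : SETUP_rep H v ≠ SETUP_rep H (SETUP_rep H u) := by
      rw [SETUP_idem]
      exact fun hh => h hh.symm
    have e2 := SETUP_step H v (SETUP_rep H u) h'
    constructor
    · intro ha
      exact Or.inr ⟨h, (e2.1 (e1.1 ha).symm).symm⟩
    · rintro (⟨h1, -⟩ | ⟨-, h2⟩)
      · exact absurd h1 h
      · exact e1.2 (e2.2 h2.symm).symm

theorem pr_SETUP (h2 : S_OUT) : S_SETUP := by
  intro V _ H hT hC hcl
  unfold Cluster at hcl
  push Not at hcl
  obtain ⟨a, b, c, hab, hbc, hac, hnac⟩ := hcl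
  have hcloseK : ∀ u v, H.Reachable a u → H.Adj u v → H.Reachable a v :=
    fun u v h1 h3 => h1.trans h3.reachable
  by_cases hout : ∀ u v, ¬ H.Reachable a u → ¬ H.Reachable a v → u = v
  · right
    refine ⟨SETUP_rep H, fun v => H.Reachable a v, hT, hC, SETUP_idem H, SETUP_cls H,
      SETUP_adj H, hcloseK, hout, ?_, ?_, ?_⟩
    · intro u v hu huv
      have hv : ¬ H.Reachable a v := fun h => hu (hcloseK v u h huv.symm)
      exact huv.ne (hout u v hu hv)
    · rintro S ⟨v0, hv0, hS⟩ hcl2 v hv
      obtain ⟨p⟩ := hv0.symm.trans hv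
      induction p with
      | nil => exact hS
      | cons hadj p ih => exact ih (hcloseK _ _ hv0 hadj) (hcl2 _ _ hS hadj) hv
    · exact ⟨a, b, c, SimpleGraph.Reachable.refl a, hab, hbc, hac, hnac⟩
  · left
    push Not at hout
    obtain ⟨u0, v0, hu, hv, hne⟩ := hout
    have hKb : H.Reachable a b := hab.reachable
    have hKc : H.Reachable a c := hKb.trans hbc.reachable
    obtain ⟨x, x', hz⟩ := h2 V H (fun v => ¬ H.Reachable a v) a b c u0 v0 hT
      (fun u v h1 h3 h4 => h1 (hcloseK v u h4 h3.symm))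
      (fun h => h (SimpleGraph.Reachable.refl a)) (fun h => h hKb) (fun h => h hKc)
      hab hac.symm hbc.ne' (fun h => hnac (h.2 hbc)) hu hv hne
    exact ⟨x, x', a, b, hz⟩

end Pool.Agent.Work.MP_12b649_co.Even

end

section

/-!
# Triangle-free graphs of maximal degree two (item TCYC)
-/

namespace Pool.Agent.Work.MP_12b649_co.Even

namespace ITCYC

/-- A closed cycle embeds in the Petersen graph. -/
lemma pet {T : Type} (H : SimpleGraph T) (hc : Conn H) {k : ℕ} [NeZero k] (e : Fin k → T)
    (g : Fin k → Fin 10) (he : Function.Injective e) (hg : Function.Injective g)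
    (hN : ∀ i v, H.Adj (e i) v ↔ (v = e (i + 1) ∨ v = e (i - 1)))
    (hp : ∀ i j, petAdj (g i) (g j) = true ↔ (j = i + 1 ∨ j = i - 1)) : PetE H := by
  have hs : Function.Surjective e := by
    apply hc (fun v => ∃ i, e i = v) ⟨e 0, 0, rfl⟩
    rintro u v ⟨i, rfl⟩ h
    rcases (hN i v).1 h with h | h
    · exact ⟨i + 1, h.symm⟩
    · exact ⟨i - 1, h.symm⟩
  let E := Equiv.ofBijective e ⟨he, hs⟩
  refine ⟨fun v => g (E.symm v), hg.comp E.symm.injective, fun u v => ?_⟩
  obtain ⟨i, rfl⟩ := hs u
  obtain ⟨j, rfl⟩ := hs v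
  have h1 : E.symm (e i) = i := E.symm_apply_apply i
  have h2 : E.symm (e j) = j := E.symm_apply_apply j
  change H.Adj (e i) (e j) ↔ petAdj (g (E.symm (e i))) (g (E.symm (e j))) = true
  rw [h1, h2, hp, hN, he.eq_iff, he.eq_iff]

end ITCYC

theorem pr_TCYC : S_TCYC := by
  classical
  intro T H hc hn h4 _ htri h3 hxy
  have nb2 : ∀ u a b, H.Adj u a → H.Adj u b → a ≠ b → ∀ v, H.Adj u v ↔ (v = a ∨ v = b) := by
    intro u a b ha hb hab v
    constructor
    · intro hv
      by_contra h
      rw [not_or] at h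
      exact h3 u a b v ha hb hv hab (Ne.symm h.1) (Ne.symm h.2)
    · rintro (rfl | rfl)
      · exact ha
      · exact hb
  have niso : ∀ u, ∃ v, H.Adj u v := by
    intro u
    by_contra hu
    rw [not_exists] at hu
    have h1 := hc (fun v => v = u) ⟨u, rfl⟩ (by
      rintro a b rfl hab
      exact absurd hab (hu b))
    obtain ⟨x, y, hne⟩ := hxy
    exact hne ((h1 x).trans (h1 y).symm)
  by_cases hl : ∃ z b, H.Adj z b ∧ ∀ w, H.Adj z w → w = b
  · left
    obtain ⟨z, b, hzb, hz⟩ := hl
    by_cases hv : ∃ v, H.Adj b v ∧ v ≠ z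
    · obtain ⟨v, hv1, hv2⟩ := hv
      refine ⟨z, b, v, hv2.symm, fun w => ⟨hz w, ?_⟩, nb2 b z v hzb.symm hv1 hv2.symm⟩
      rintro rfl
      exact hzb
    · exfalso
      have hv' : ∀ v, H.Adj b v → v = z := by
        intro v h1
        by_contra h2
        exact hv ⟨v, h1, h2⟩
      have h1 := hc (fun v => v = z ∨ v = b) ⟨z, Or.inl rfl⟩ (by
        rintro u v (rfl | rfl) huv
        · exact Or.inr (hz v huv)
        · exact Or.inl (hv' v huv))
      rename_i htw
      apply htw z b
      refine ⟨hzb, fun w hw1 hw2 => ?_⟩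
      rcases h1 w with h | h
      · exact absurd h hw1
      · exact absurd h hw2
  · right
    have h2 : ∀ z b, H.Adj z b → ∃ w, H.Adj z w ∧ w ≠ b := by
      intro z b hzb
      by_contra h
      apply hl
      refine ⟨z, b, hzb, fun w hw => ?_⟩
      by_contra hwb
      exact h ⟨w, hw, hwb⟩
    obtain ⟨P, _, _⟩ := hxy
    obtain ⟨q1, hPq1⟩ := niso P
    obtain ⟨q2, hPq2, hq21⟩ := h2 P q1 hPq1
    obtain ⟨w1, hqw1, hw1P⟩ := h2 q1 P hPq1.symm
    obtain ⟨w2, hqw2, hw2P⟩ := h2 q2 P hPq2.symm
    have nq : ¬ H.Adj q1 q2 := fun h => htri P q1 q2 hPq1 hPq2 h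
    have nPw1 : ¬ H.Adj P w1 := fun h => htri P q1 w1 hPq1 h hqw1
    have nPw2 : ¬ H.Adj P w2 := fun h => htri P q2 w2 hPq2 h hqw2
    have hw12 : w1 ≠ w2 := by
      rintro rfl
      rcases h4 P q1 w1 q2 hPq1 hqw1 hqw2.symm hPq2.symm hw1P.symm hq21.symm with h | h
      · exact nPw1 h
      · exact nq h
    have hw1q2 : w1 ≠ q2 := fun h => nq (h ▸ hqw1)
    have hw2q1 : w2 ≠ q1 := fun h => nq (h ▸ hqw2).symm
    by_cases hw : H.Adj w1 w2
    · have h1 := hPq1.ne
      have h1' := hPq2.ne
      have h5 := hqw1.ne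
      have h6 := hqw2.ne
      refine ITCYC.pet H hc (k := 5) ![P, q1, w1, w2, q2] ![0, 1, 2, 3, 4] ?_ (by decide) ?_
        (by decide)
      · intro i j hij
        fin_cases i <;> fin_cases j <;> first
          | rfl
          | (exfalso; simp at hij; first
              | exact absurd hij (by assumption)
              | exact absurd hij.symm (by assumption))
      · intro i v
        fin_cases i
        · exact nb2 P q1 q2 hPq1 hPq2 hq21.symm v
        · exact nb2 q1 w1 P hqw1 hPq1.symm hw1P v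
        · exact nb2 w1 w2 q1 hw hqw1.symm hw2q1 v
        · exact nb2 w2 q2 w1 hqw2.symm hw.symm hw1q2.symm v
        · exact nb2 q2 P w2 hPq2.symm hqw2 hw2P.symm v
    · obtain ⟨r, hw1r, hrq1⟩ := h2 w1 q1 hqw1.symm
      have hrP : r ≠ P := fun h => nPw1 (h ▸ hw1r).symm
      have hrw2 : r ≠ w2 := fun h => hw (h ▸ hw1r)
      have nw1q2 : ¬ H.Adj w1 q2 := fun h =>
        h3 q2 P w2 w1 hPq2.symm hqw2 h.symm hw2P.symm hw1P.symm hw12.symm
      have hrq2 : r ≠ q2 := fun h => nw1q2 (h ▸ hw1r)
      have nrP : ¬ H.Adj r P := fun h => h3 P q1 q2 r hPq1 hPq2 h.symm hq21.symm hrq1.symm hrq2.symm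
      have nrq2 : ¬ H.Adj r q2 := fun h =>
        h3 q2 P w2 r hPq2.symm hqw2 h.symm hw2P.symm hrP.symm hrw2.symm
      have nrq1 : ¬ H.Adj r q1 := fun h => htri w1 r q1 hw1r hqw1.symm h
      have key := e2k2 (v := w2) (w1 := q1) (w2 := q1) hn hw1r hPq2 (fun h => nPw1 h.symm) nw1q2
        nrP nrq2 hqw1.ne hrq1.symm (by
          intro h
          exact nrq1 (h.1 hqw1.symm)) hPq1.ne' hq21.symm (by
          intro h
          exact nq (h.1 hPq1).symm) hw12.symm hrw2.symm hw2P hqw2.ne'
      have hd : Dd H P q2 w2 := fun h => nPw2 (h.2 hqw2)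
      have hd' := key.2 hd
      have hrw : H.Adj r w2 := by
        by_contra h
        exact hd' (iff_of_false hw h)
      have h1 := hPq1.ne
      have h1' := hPq2.ne
      have h5 := hqw1.ne
      have h6 := hqw2.ne
      have h7 := hw1r.ne
      refine ITCYC.pet H hc (k := 6) ![P, q1, w1, r, w2, q2] ![2, 3, 8, 6, 9, 7] ?_ (by decide) ?_
        (by decide)
      · intro i j hij
        fin_cases i <;> fin_cases j <;> first
          | rfl
          | (exfalso; simp at hij; first
              | exact absurd hij (by assumption)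
              | exact absurd hij.symm (by assumption))
      · intro i v
        fin_cases i
        · exact nb2 P q1 q2 hPq1 hPq2 hq21.symm v
        · exact nb2 q1 w1 P hqw1 hPq1.symm hw1P v
        · exact nb2 w1 r q1 hw1r hqw1.symm hrq1 v
        · exact nb2 r w2 w1 hrw hw1r.symm hw12.symm v
        · exact nb2 w2 q2 r hqw2.symm hrw.symm hrq2.symm v
        · exact nb2 q2 P w2 hPq2.symm hqw2 hw2P.symm v

end Pool.Agent.Work.MP_12b649_co.Even

end

section

/-!
# TD3: triangle-free with a vertex of degree three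
-/

namespace Pool.Agent.Work.MP_12b649_co.Even

namespace TD3

lemma key {T : Type} {H : SimpleGraph T} (hn : NoT2 H) (hc4 : NoC4 H)
    (htw : ∀ u v, ¬ Tw H u v) (htf : ∀ a b c, H.Adj a b → H.Adj a c → H.Adj b c → False)
    {P q q' y u x : T} (hq : H.Adj P q) (hq' : H.Adj P q') (hqq : q ≠ q') (hy : H.Adj P y)
    (hyu : H.Adj y u) (hqy : q ≠ y) (hqy' : q' ≠ y) (hux : H.Adj u x) (huP : u ≠ P)
    (hPu : ¬ H.Adj P u) (hPx : ¬ H.Adj P x) (hxn : ∀ z, H.Adj P z → ¬ H.Adj z x) : False := by
  have huq : ∀ r, H.Adj P r → r ≠ y → ¬ H.Adj u r := by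
    intro r hr hry hur
    rcases hc4 P y u r hy hyu hur hr.symm huP.symm hry.symm with h | h
    · exact hPu h
    · exact htf P y r hy hr h
  have nxq : ∀ r, H.Adj P r → ¬ H.Adj x r := fun r hr h => hxn r hr h.symm
  obtain ⟨w1, w11, w12, w1d⟩ := nt_of hux.symm (htw x u)
  obtain ⟨w2, w21, w22, w2d⟩ := nt_of hq (htw P q)
  have key := e2k2 hn (p1 := x) (q1 := u) (p2 := P) (q2 := q) (v := q') hux.symm hq
    (fun h => hPx h.symm) (nxq q hq) (fun h => hPu h.symm) (huq q hq hqy)
    w11 w12 w1d w21 w22 w2d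
    (fun h => hPx (h ▸ hq')) (fun h => hPu (h ▸ hq')) hq'.ne' hqq.symm
  have e1 : ¬ Dd H x u q' := by
    simp only [Dd, nxq q' hq', huq q' hq' hqy', not_true_eq_false, not_false_eq_true]
  have e2 : Dd H P q q' := by
    intro h
    exact htf P q q' hq hq' (h.mp hq')
  exact e1 (key.mpr e2)

end TD3

theorem pr_TD3 : S_TD3 := by
  intro T H hcon hn hc4 htw htf P q1 q2 q3 h1 h2 h3 n12 n13 n23
  refine hcon (fun x => x = P ∨ H.Adj P x ∨ ∃ y, H.Adj P y ∧ H.Adj y x) ⟨P, Or.inl rfl⟩ ?_
  intro u x hu hux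
  rcases hu with rfl | hu | ⟨y, hy, hyu⟩
  · exact Or.inr (Or.inl hux)
  · exact Or.inr (Or.inr ⟨u, hu, hux⟩)
  · by_cases huP : u = P
    · subst huP; exact Or.inr (Or.inl hux)
    by_cases hPu : H.Adj P u
    · exact Or.inr (Or.inr ⟨u, hPu, hux⟩)
    by_contra hcon'
    push Not at hcon'
    obtain ⟨_, c2, c3⟩ := hcon'
    have c3' : ∀ z, H.Adj P z → ¬ H.Adj z x := c3
    have main : ∀ q q', H.Adj P q → H.Adj P q' → q ≠ q' → q ≠ y → q' ≠ y → False :=
      fun q q' hq hq' hqq hqy hqy' =>
        TD3.key hn hc4 htw htf hq hq' hqq hy hyu hqy hqy' hux huP hPu c2 c3'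
    by_cases e1 : q1 = y
    · exact main q2 q3 h2 h3 n23 (fun h => n12 (e1.trans h.symm)) (fun h => n13 (e1.trans h.symm))
    · by_cases e2 : q2 = y
      · exact main q1 q3 h1 h3 n13 e1 (fun h => n23 (e2.trans h.symm))
      · exact main q1 q2 h1 h2 n12 e1 e2

end Pool.Agent.Work.MP_12b649_co.Even

end

section

/-!
# TD4: triangle-free with a vertex of degree at least four
-/

namespace Pool.Agent.Work.MP_12b649_co.Even

/-- Two further elements among four distinct ones. -/
lemma two_of_four {T : Type} (q1 q2 q3 q4 a b : T) (P : T → Prop) (h1 : P q1) (h2 : P q2)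
    (h3 : P q3) (h4 : P q4) (n12 : q1 ≠ q2) (n13 : q1 ≠ q3) (n14 : q1 ≠ q4) (n23 : q2 ≠ q3)
    (n24 : q2 ≠ q4) (n34 : q3 ≠ q4) :
    ∃ r r', P r ∧ P r' ∧ r ≠ r' ∧ r ≠ a ∧ r ≠ b ∧ r' ≠ a ∧ r' ≠ b := by
  classical
  by_contra hc
  push Not at hc
  have key : ∀ r r', P r → P r' → r ≠ r' → r = a ∨ r = b ∨ r' = a ∨ r' = b := by
    intro r r' hr hr' hne
    by_contra hx
    push Not at hx
    exact hx.2.2.2 (hc r r' hr hr' hne hx.1 hx.2.1 hx.2.2.1)
  have e12 := key q1 q2 h1 h2 n12
  have e13 := key q1 q3 h1 h3 n13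
  have e14 := key q1 q4 h1 h4 n14
  have e23 := key q2 q3 h2 h3 n23
  have e24 := key q2 q4 h2 h4 n24
  have e34 := key q3 q4 h3 h4 n34
  clear key hc
  grind

theorem pr_TD4 (h : S_TD3) : S_TD4 := by
  intro T H hconn hT2 hC4 hTw hTri P q1 q2 q3 q4 a1 a2 a3 a4 n12 n13 n14 n23 n24 n34
  -- every vertex at distance two is a leaf
  have leaf : ∀ w q, H.Adj P q → H.Adj q w → w ≠ P → ∀ v, H.Adj w v ↔ v = q := by
    intro w q hPq hqw hwP
    have hPw : ¬ H.Adj P w := fun hh => hTri q P w hPq.symm hqw hh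
    intro x
    constructor
    · intro hwx
      by_contra hxq
      have hxq' : ¬ H.Adj x q := fun hh => hTri q w x hqw hh.symm hwx
      have hxP : x ≠ P := by
        rintro rfl; exact hPw hwx.symm
      have hPx : ¬ H.Adj P x := by
        intro hh
        rcases hC4 P x w q hh hwx.symm hqw.symm hPq.symm hwP.symm hxq with h1 | h1
        · exact hPw h1
        · exact hxq' h1
      have hy : ∃ y, H.Adj P y ∧ H.Adj y x := by
        rcases h T H hconn hT2 hC4 hTw hTri P q1 q2 q3 a1 a2 a3 n12 n13 n23 x with h1 | h1 | h1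
        · exact absurd h1 hxP
        · exact absurd h1 hPx
        · exact h1
      obtain ⟨y, hPy, hyx⟩ := hy
      have key : ∀ r, H.Adj P r → r ≠ q → ¬ H.Adj w r := by
        intro r hPr hrq hwr
        rcases hC4 P r w q hPr hwr.symm hqw.symm hPq.symm hwP.symm hrq with h1 | h1
        · exact hPw h1
        · exact hTri P r q hPr hPq h1
      have key' : ∀ r, H.Adj P r → r ≠ y → ¬ H.Adj x r := by
        intro r hPr hrq hwr
        rcases hC4 P r x y hPr hwr.symm hyx.symm hPy.symm hxP.symm hrq with h1 | h1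
        · exact hPx h1
        · exact hTri P r y hPr hPy h1
      obtain ⟨r, r', hr, hr', hrr', hra, hrb, hra', hrb'⟩ :=
        two_of_four q1 q2 q3 q4 q y (fun z => H.Adj P z) a1 a2 a3 a4 n12 n13 n14 n23 n24 n34
      have hr : H.Adj P r := hr
      have hr' : H.Adj P r' := hr'
      have hrr : ¬ H.Adj r r' := fun hh => hTri P r r' hr hr' hh
      have e := e2k2 hT2 (p1 := w) (q1 := x) (p2 := P) (q2 := r) (v := r') (w1 := q) (w2 := r')
        hwx hr (fun hh => hPw hh.symm) (key r hr hra) (fun hh => hPx hh.symm) (key' r hr hrb)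
        hqw.ne (fun hh => hxq hh.symm) (by
          intro hh
          exact hxq' (hh.1 hqw.symm)) hr'.ne' (fun hh => hrr' hh.symm)
        (fun hh => hrr (hh.1 hr')) (by rintro rfl; exact hPw hr') (by rintro rfl; exact hPx hr')
        hr'.ne' (fun hh => hrr' hh.symm)
      have e2 : Dd H P r r' := fun hh => hrr (hh.1 hr')
      have e1 : ¬ Dd H w x r' := by
        intro hh
        apply hh
        constructor
        · intro h1; exact absurd h1 (key r' hr' hra')
        · intro h1; exact absurd h1 (key' r' hr' hrb')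
      exact e1 (e.2 e2)
    · rintro rfl
      exact hqw.symm
  by_cases c1 : ∃ q w w', H.Adj P q ∧ H.Adj q w ∧ H.Adj q w' ∧ w ≠ P ∧ w' ≠ P ∧ w ≠ w'
  · obtain ⟨q, w, w', hq, hw, hw', hwP, hwP', hne⟩ := c1
    exact Or.inl ⟨w, w', q, hne, leaf w q hq hw hwP, leaf w' q hq hw' hwP'⟩
  by_cases c2 : ∃ q w, H.Adj P q ∧ H.Adj q w ∧ w ≠ P
  · obtain ⟨q, w, hq, hw, hwP⟩ := c2
    refine Or.inr ⟨w, q, P, hwP, leaf w q hq hw hwP, ?_⟩
    intro u
    constructor
    · intro hu
      by_cases huP : u = P
      · exact Or.inr huP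
      · left
        by_contra hne
        exact c1 ⟨q, w, u, hq, hw, hu, hwP, huP, fun hh => hne hh.symm⟩
    · rintro (rfl | rfl)
      · exact hw
      · exact hq.symm
  · refine Or.inl ⟨q1, q2, P, n12, ?_, ?_⟩
    · intro v
      constructor
      · intro hv
        by_contra hne
        exact c2 ⟨q1, v, a1, hv, hne⟩
      · rintro rfl; exact a1.symm
    · intro v
      constructor
      · intro hv
        by_contra hne
        exact c2 ⟨q2, v, a2, hv, hne⟩
      · rintro rfl; exact a2.symm

end Pool.Agent.Work.MP_12b649_co.Even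

end

section

/-!
# Derangement representations, even order: item TDIA (a diamond in a twin-free graph)
-/

namespace Pool.Agent.Work.MP_12b649_co.Even

/-- A diamond. -/
structure TDia {T : Type} (H : SimpleGraph T) (a c b v : T) : Prop where
  ac : H.Adj a c
  ab : H.Adj a b
  cb : H.Adj c b
  av : H.Adj a v
  cv : H.Adj c v
  ne : b ≠ v
  nbv : ¬ H.Adj b v

variable {T : Type} {H : SimpleGraph T}

lemma TDia.sw {a c b v : T} (D : TDia H a c b v) : TDia H c a b v :=
  ⟨D.ac.symm, D.cb, D.ab, D.cv, D.av, D.ne, D.nbv⟩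

lemma TDia.sw2 {a c b v : T} (D : TDia H a c b v) : TDia H a c v b :=
  ⟨D.ac, D.av, D.cv, D.ab, D.cb, D.ne.symm, fun h => D.nbv h.symm⟩

lemma tdia_one (hn : NoT2 H) (h4 : NoC4 H) {a c b v x : T} (D : TDia H a c b v)
    (_xa : x ≠ a) (xc : x ≠ c) (xb : x ≠ b) (xv : x ≠ v) (ha : H.Adj x a)
    (hc : ¬ H.Adj x c) : ¬ (H.Adj x b ↔ H.Adj x v) := by
  intro hbv
  by_cases hb : H.Adj x b
  · have hv := hbv.1 hb
    rcases h4 x b c v hb D.cb.symm D.cv hv.symm xc D.ne with h | h
    · exact hc h
    · exact D.nbv h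
  · have hv : ¬ H.Adj x v := fun h => hb (hbv.2 h)
    have hvd : Dd H b c v := fun h => D.nbv (h.2 D.cv)
    refine opaw hn (p1 := b) (q1 := c) (p2 := a) (q2 := x) (v := v) (w1 := v) D.cb.symm ha.symm
      D.ab.symm D.ac.symm (fun h => hb h.symm) (fun h => hc h.symm) xb.symm xc.symm
      D.ne.symm D.cv.ne' hvd D.ne.symm D.cv.ne' D.av.ne' xv.symm ?_
    constructor
    · intro _ h
      exact hv (h.1 D.av)
    · intro _
      exact hvd

lemma tdia_one' (hn : NoT2 H) (h4 : NoC4 H) {a c b v x : T} (D : TDia H a c b v)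
    (xa : x ≠ a) (xc : x ≠ c) (xb : x ≠ b) (xv : x ≠ v) (h : ¬ (H.Adj x a ↔ H.Adj x c)) :
    ¬ (H.Adj x b ↔ H.Adj x v) := by
  by_cases ha : H.Adj x a
  · exact tdia_one hn h4 D xa xc xb xv ha (fun hc => h ⟨fun _ => hc, fun _ => ha⟩)
  · have hc : H.Adj x c := by
      by_contra hc
      exact h ⟨fun h' => absurd h' ha, fun h' => absurd h' hc⟩
    exact tdia_one hn h4 D.sw xc xa xb xv hc ha

lemma tdia_none1 (hn : NoT2 H) (h4 : NoC4 H) (ht : ∀ u v, ¬ Tw H u v) {a c b v x : T}
    (D : TDia H a c b v) (xa : x ≠ a) (xc : x ≠ c) (_xb : x ≠ b) (xv : x ≠ v)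
    (ha : ¬ H.Adj x a) (hc : ¬ H.Adj x c) : ¬ H.Adj x b := by
  intro hb
  by_cases hv : H.Adj x v
  · rcases h4 x b a v hb D.ab.symm D.av hv.symm xa D.ne with h | h
    · exact ha h
    · exact D.nbv h
  · obtain ⟨w, w1, w2, wd⟩ := nt_of D.ac (ht a c)
    refine opaw hn (p1 := a) (q1 := c) (p2 := b) (q2 := x) (v := v) (w1 := w) D.ac hb.symm
      D.ab D.cb (fun h => ha h.symm) (fun h => hc h.symm) xa.symm xc.symm w1 w2 wd
      D.av.ne' D.cv.ne' D.ne.symm xv.symm ?_
    constructor
    · intro h
      exact absurd ⟨fun _ => D.cv, fun _ => D.av⟩ h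
    · intro h
      exact absurd ⟨fun h' => absurd h' D.nbv, fun h' => absurd h' hv⟩ h

lemma tdia_none (hn : NoT2 H) (h4 : NoC4 H) (ht : ∀ u v, ¬ Tw H u v) {a c b v x : T}
    (D : TDia H a c b v) (xa : x ≠ a) (xc : x ≠ c) (xb : x ≠ b) (xv : x ≠ v)
    (ha : ¬ H.Adj x a) (hc : ¬ H.Adj x c) : ¬ H.Adj x b ∧ ¬ H.Adj x v :=
  ⟨tdia_none1 hn h4 ht D xa xc xb xv ha hc, tdia_none1 hn h4 ht D.sw2 xa xc xv xb ha hc⟩

/-- a vertex which sees exactly one of `a, c` and one of `b, v`: the good choice of names -/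
lemma tdia_names (hn : NoT2 H) (h4 : NoC4 H) {a c b v x : T} (D : TDia H a c b v)
    (xa : x ≠ a) (xc : x ≠ c) (xb : x ≠ b) (xv : x ≠ v) (h : ¬ (H.Adj x a ↔ H.Adj x c)) :
    ∃ α γ β δ : T, TDia H α γ β δ ∧ H.Adj x α ∧ ¬ H.Adj x γ ∧ H.Adj x δ ∧ ¬ H.Adj x β ∧
      ((α = a ∧ γ = c) ∨ (α = c ∧ γ = a)) ∧ ((β = b ∧ δ = v) ∨ (β = v ∧ δ = b)) := by
  have h' := tdia_one' hn h4 D xa xc xb xv h
  by_cases ha : H.Adj x a
  · have hc : ¬ H.Adj x c := fun hc => h ⟨fun _ => hc, fun _ => ha⟩
    by_cases hv : H.Adj x v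
    · exact ⟨a, c, b, v, D, ha, hc, hv, fun hb => h' ⟨fun _ => hv, fun _ => hb⟩,
        Or.inl ⟨rfl, rfl⟩, Or.inl ⟨rfl, rfl⟩⟩
    · have hb : H.Adj x b := by
        by_contra hb
        exact h' ⟨fun h' => absurd h' hb, fun h' => absurd h' hv⟩
      exact ⟨a, c, v, b, D.sw2, ha, hc, hb, hv, Or.inl ⟨rfl, rfl⟩, Or.inr ⟨rfl, rfl⟩⟩
  · have hc : H.Adj x c := by
      by_contra hc
      exact h ⟨fun h' => absurd h' ha, fun h' => absurd h' hc⟩
    by_cases hv : H.Adj x v
    · exact ⟨c, a, b, v, D.sw, hc, ha, hv, fun hb => h' ⟨fun _ => hv, fun _ => hb⟩,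
        Or.inr ⟨rfl, rfl⟩, Or.inl ⟨rfl, rfl⟩⟩
    · have hb : H.Adj x b := by
        by_contra hb
        exact h' ⟨fun h' => absurd h' hb, fun h' => absurd h' hv⟩
      exact ⟨c, a, v, b, D.sw.sw2, hc, ha, hb, hv, Or.inr ⟨rfl, rfl⟩, Or.inr ⟨rfl, rfl⟩⟩

theorem pr_TDIA (hK : S_TK4) : S_TDIA := by
  intro T H hconn hn h4 ht a c b v hac hab hcb hav hcv hbv hnbv
  have D : TDia H a c b v := ⟨hac, hab, hcb, hav, hcv, hbv, hnbv⟩
  -- (3)
  have h3 : ∀ x, H.Adj x a → H.Adj x c → ¬ H.Adj x b ∧ ¬ H.Adj x v := by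
    intro x xa xc
    constructor
    · intro xb
      exact hK T H hn ht a c b x hac hab xa.symm hcb xc.symm xb.symm
    · intro xv
      exact hK T H hn ht a c v x hac hav xa.symm hcv xc.symm xv.symm
  -- every vertex is in the diamond or sees it
  have hall : ∀ y, (y = a ∨ y = c ∨ y = b ∨ y = v) ∨
      (H.Adj y a ∨ H.Adj y c ∨ H.Adj y b ∨ H.Adj y v) := by
    apply hconn (fun y => (y = a ∨ y = c ∨ y = b ∨ y = v) ∨
      (H.Adj y a ∨ H.Adj y c ∨ H.Adj y b ∨ H.Adj y v)) ⟨a, Or.inl (Or.inl rfl)⟩
    intro u y hu huy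
    by_contra hy
    rw [not_or] at hy
    obtain ⟨hy1, hy2⟩ := hy
    simp only [not_or] at hy1 hy2
    obtain ⟨ya, yc, yb, yv⟩ := hy1
    obtain ⟨yna, ync, ynb, ynv⟩ := hy2
    by_cases ua : u = a
    · subst ua; exact yna huy.symm
    by_cases uc : u = c
    · subst uc; exact ync huy.symm
    by_cases ub : u = b
    · subst ub; exact ynb huy.symm
    by_cases uv : u = v
    · subst uv; exact ynv huy.symm
    have hu' : H.Adj u a ∨ H.Adj u c ∨ H.Adj u b ∨ H.Adj u v := by
      rcases hu with h | h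
      · rcases h with h | h | h | h
        · exact absurd h ua
        · exact absurd h uc
        · exact absurd h ub
        · exact absurd h uv
      · exact h
    by_cases hx : H.Adj u a ↔ H.Adj u c
    · by_cases hua : H.Adj u a
      · have huc := hx.1 hua
        obtain ⟨hub, -⟩ := h3 u hua huc
        obtain ⟨w, w1, w2, wd⟩ := nt_of hac (ht a c)
        refine opaw hn (p1 := a) (q1 := c) (p2 := u) (q2 := y) (v := b) (w1 := w) hac huy
          hua.symm huc.symm (fun h => yna h.symm) (fun h => ync h.symm) (Ne.symm ya)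
          (Ne.symm yc) w1 w2 wd hab.ne' hcb.ne' (Ne.symm ub) (Ne.symm yb) ?_
        constructor
        · intro h
          exact absurd ⟨fun _ => hcb, fun _ => hab⟩ h
        · intro h
          exact absurd ⟨fun h' => absurd h' hub, fun h' => absurd h' ynb⟩ h
      · have huc : ¬ H.Adj u c := fun h => hua (hx.2 h)
        obtain ⟨h1, h2⟩ := tdia_none hn h4 ht D ua uc ub uv hua huc
        rcases hu' with h | h | h | h
        · exact hua h
        · exact huc h
        · exact h1 h
        · exact h2 h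
    · obtain ⟨α, γ, β, δ, D', uα, uγ, uδ, uβ, e1, e2⟩ := tdia_names hn h4 D ua uc ub uv hx
      have uneγ : u ≠ γ := by
        rcases e1 with ⟨_, e⟩ | ⟨_, e⟩
        · rw [e]; exact uc
        · rw [e]; exact ua
      have D2 : TDia H α δ u γ :=
        ⟨D'.av, uα.symm, uδ.symm, D'.ac, D'.cv.symm, uneγ, uγ⟩
      have yα : y ≠ α ∧ ¬ H.Adj y α := by
        rcases e1 with ⟨e, _⟩ | ⟨e, _⟩
        · rw [e]; exact ⟨ya, yna⟩
        · rw [e]; exact ⟨yc, ync⟩
      have yδ : y ≠ δ ∧ ¬ H.Adj y δ := by
        rcases e2 with ⟨_, e⟩ | ⟨_, e⟩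
        · rw [e]; exact ⟨yv, ynv⟩
        · rw [e]; exact ⟨yb, ynb⟩
      have yγ : y ≠ γ := by
        rcases e1 with ⟨_, e⟩ | ⟨_, e⟩
        · rw [e]; exact yc
        · rw [e]; exact ya
      exact (tdia_none hn h4 ht D2 yα.1 yδ.1 huy.ne' yγ yα.2 yδ.2).1 huy.symm
  -- no vertex sees both a and c
  have hboth : ∀ x, x ≠ a → x ≠ c → x ≠ b → x ≠ v → H.Adj x a → H.Adj x c → False := by
    intro x xa xc xb xv hxa hxc
    obtain ⟨hxb, hxv⟩ := h3 x hxa hxc
    obtain ⟨w, w1, w2, wd⟩ := nt_of hac (ht a c)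
    have wd' : ¬ (H.Adj w a ↔ H.Adj w c) := by
      intro h
      apply wd
      rw [H.adj_comm a w, H.adj_comm c w]
      exact h
    have wb : w ≠ b := by
      rintro rfl
      exact wd' ⟨fun _ => hcb.symm, fun _ => hab.symm⟩
    have wv : w ≠ v := by
      rintro rfl
      exact wd' ⟨fun _ => hcv.symm, fun _ => hav.symm⟩
    have wx : w ≠ x := by
      rintro rfl
      exact wd' ⟨fun _ => hxc, fun _ => hxa⟩
    have t1 := tdia_one' hn h4 D w1 w2 wb wv wd'
    have D1 : TDia H a c x v := ⟨hac, hxa.symm, hxc.symm, hav, hcv, xv, hxv⟩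
    have t2 := tdia_one' hn h4 D1 w1 w2 wx wv wd'
    have D2 : TDia H a c b x := ⟨hac, hab, hcb, hxa.symm, hxc.symm, Ne.symm xb,
      fun h => hxb h.symm⟩
    have t3 := tdia_one' hn h4 D2 w1 w2 wb wx wd'
    tauto
  intro x xa xc xb xv
  have key : ¬ (H.Adj x a ↔ H.Adj x c) := by
    intro h
    by_cases hxa : H.Adj x a
    · exact hboth x xa xc xb xv hxa (h.1 hxa)
    · have hxc : ¬ H.Adj x c := fun h' => hxa (h.2 h')
      obtain ⟨h1, h2⟩ := tdia_none hn h4 ht D xa xc xb xv hxa hxc
      rcases hall x with h' | h'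
      · rcases h' with h' | h' | h' | h'
        · exact xa h'
        · exact xc h'
        · exact xb h'
        · exact xv h'
      · rcases h' with h' | h' | h' | h'
        · exact hxa h'
        · exact hxc h'
        · exact h1 h'
        · exact h2 h'
  exact ⟨key, tdia_one' hn h4 D xa xc xb xv key⟩

end Pool.Agent.Work.MP_12b649_co.Even

end

section

/-!
# TDIA2: with a diamond a twin-free graph has at most six vertices
-/

namespace Pool.Agent.Work.MP_12b649_co.Even

/-- At most one vertex of each type. -/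
theorem TDIA2_same (hK : S_TK4) {T : Type} {H : SimpleGraph T} (hn : NoT2 H)
    (ht : ∀ u v, ¬ Tw H u v) {a c b v w w' : T} (_hac : H.Adj a c) (hab : H.Adj a b)
    (hav : H.Adj a v) (hcv : H.Adj c v) (hbv : b ≠ v) (nbv : ¬ H.Adj b v)
    (h1 : H.Adj w a) (h2 : H.Adj w v) (h3 : ¬ H.Adj w c) (h4 : ¬ H.Adj w b)
    (g1 : H.Adj w' a) (g2 : H.Adj w' v) (g4 : ¬ H.Adj w' b)
    (hwb : w ≠ b) (hwc : w ≠ c) (hwb' : w' ≠ b) (hne : w ≠ w') : False := by
  by_cases hww : H.Adj w w'
  · exact hK T H hn ht a v w w' hav h1.symm g1.symm h2.symm g2.symm hww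
  · have h := opaw hn (p1 := v) (q1 := w) (p2 := a) (q2 := b) (v := w') (w1 := c)
      h2.symm hab hav.symm h1 (fun h => nbv h.symm) h4 hbv.symm hwb hcv.ne hwc.symm
      (by
        intro hh
        exact h3 (hh.1 hcv.symm))
      g2.ne hne.symm g1.ne hwb'
    apply h
    constructor
    · intro _ hh
      exact g4 (hh.1 g1.symm).symm
    · intro _ hh
      exact hww (hh.1 g2.symm)

/-- Complementary types exclude each other. -/
theorem TDIA2_compl (hD : S_TDIA) {T : Type} {H : SimpleGraph T} (hc : Conn H) (hn : NoT2 H)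
    (hq : NoC4 H) (ht : ∀ u v, ¬ Tw H u v) {a c v w w3 : T} (hac : H.Adj a c)
    (hav : H.Adj a v) (hcv : H.Adj c v)
    (h1 : H.Adj w a) (h2 : H.Adj w v) (h3 : ¬ H.Adj w c)
    (g1 : ¬ H.Adj w3 a) (g2 : ¬ H.Adj w3 v) (g3 : H.Adj w3 c)
    (hwc : w ≠ c) (n1 : w3 ≠ a) (n2 : w3 ≠ v) : False := by
  have n3 : w3 ≠ w := by
    rintro rfl
    exact g1 h1
  have h := (hD T H hc hn hq ht a v w c hav h1.symm h2.symm hac hcv.symm hwc h3 w3 n1 n2 n3
    g3.ne).1
  apply h
  exact ⟨fun h => absurd h g1, fun h => absurd h g2⟩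

theorem TDIA2_par (A B C P Q R : Prop) (h1 : (A ↔ B) ↔ ¬ (P ↔ Q)) (h2 : (A ↔ C) ↔ ¬ (P ↔ R))
    (h3 : (B ↔ C) ↔ ¬ (Q ↔ R)) : False := by
  by_cases a : A <;> by_cases b : B <;> by_cases c : C <;> by_cases p : P <;> by_cases q : Q <;>
    by_cases r : R <;> simp only [a, b, c, p, q, r] at h1 h2 h3 <;> simp at h1 h2 h3

theorem pr_TDIA2 (hD : S_TDIA) (hK : S_TK4) : S_TDIA2 := by
  intro T _ H hc hn hq ht a c b v hac hab hcb hav hcv hbv nbv
  classical
  have nvb : ¬ H.Adj v b := fun h => nbv h.symm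
  have key := hD T H hc hn hq ht a c b v hac hab hcb hav hcv hbv nbv
  have pair : ∀ x y, x ≠ y → (x ≠ a ∧ x ≠ c ∧ x ≠ b ∧ x ≠ v) → (y ≠ a ∧ y ≠ c ∧ y ≠ b ∧ y ≠ v) →
      ((H.Adj x a ↔ H.Adj y a) ↔ ¬ (H.Adj x b ↔ H.Adj y b)) := by
    rintro x y hxy ⟨x1, x2, x3, x4⟩ ⟨y1, y2, y3, y4⟩
    obtain ⟨kx1, kx2⟩ := key x x1 x2 x3 x4
    obtain ⟨ky1, ky2⟩ := key y y1 y2 y3 y4
    by_cases xa : H.Adj x a
    · have xc : ¬ H.Adj x c := fun h => kx1 ⟨fun _ => h, fun _ => xa⟩
      by_cases xb : H.Adj x b
      · have xv : ¬ H.Adj x v := fun h => kx2 ⟨fun _ => h, fun _ => xb⟩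
        by_cases ya : H.Adj y a
        · by_cases yb : H.Adj y b
          · have yv : ¬ H.Adj y v := fun h => ky2 ⟨fun _ => h, fun _ => yb⟩
            exact (TDIA2_same hK hn ht hac hav hab hcb hbv.symm nvb xa xb xc xv ya yb yv
              x4 x2 y4 hxy).elim
          · tauto
        · have yc : H.Adj y c := by
            by_contra h
            exact ky1 ⟨fun h' => absurd h' ya, fun h' => absurd h' h⟩
          by_cases yb : H.Adj y b
          · tauto
          · exact (TDIA2_compl hD hc hn hq ht hac hab hcb xa xb xc ya yb yc x2 y1 y3).elim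
      · have xv : H.Adj x v := by
          by_contra h
          exact kx2 ⟨fun h' => absurd h' xb, fun h' => absurd h' h⟩
        by_cases ya : H.Adj y a
        · by_cases yb : H.Adj y b
          · tauto
          · have yv : H.Adj y v := by
              by_contra h
              exact ky2 ⟨fun h' => absurd h' yb, fun h' => absurd h' h⟩
            exact (TDIA2_same hK hn ht hac hab hav hcv hbv nbv xa xv xc xb ya yv yb
              x3 x2 y3 hxy).elim
        · have yc : H.Adj y c := by
            by_contra h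
            exact ky1 ⟨fun h' => absurd h' ya, fun h' => absurd h' h⟩
          by_cases yb : H.Adj y b
          · have yv : ¬ H.Adj y v := fun h => ky2 ⟨fun _ => h, fun _ => yb⟩
            exact (TDIA2_compl hD hc hn hq ht hac hav hcv xa xv xc ya yv yc x2 y1 y4).elim
          · tauto
    · have xc : H.Adj x c := by
        by_contra h
        exact kx1 ⟨fun h' => absurd h' xa, fun h' => absurd h' h⟩
      by_cases xb : H.Adj x b
      · have xv : ¬ H.Adj x v := fun h => kx2 ⟨fun _ => h, fun _ => xb⟩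
        by_cases ya : H.Adj y a
        · have yc : ¬ H.Adj y c := fun h => ky1 ⟨fun _ => h, fun _ => ya⟩
          by_cases yb : H.Adj y b
          · tauto
          · exact (TDIA2_compl hD hc hn hq ht hac.symm hcb hab xc xb xa yc yb ya x1 y2 y3).elim
        · have yc : H.Adj y c := by
            by_contra h
            exact ky1 ⟨fun h' => absurd h' ya, fun h' => absurd h' h⟩
          by_cases yb : H.Adj y b
          · have yv : ¬ H.Adj y v := fun h => ky2 ⟨fun _ => h, fun _ => yb⟩
            exact (TDIA2_same hK hn ht hac.symm hcv hcb hab hbv.symm nvb xc xb xa xv yc yb yv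
              x4 x1 y4 hxy).elim
          · tauto
      · have xv : H.Adj x v := by
          by_contra h
          exact kx2 ⟨fun h' => absurd h' xb, fun h' => absurd h' h⟩
        by_cases ya : H.Adj y a
        · have yc : ¬ H.Adj y c := fun h => ky1 ⟨fun _ => h, fun _ => ya⟩
          by_cases yb : H.Adj y b
          · have yv : ¬ H.Adj y v := fun h => ky2 ⟨fun _ => h, fun _ => yb⟩
            exact (TDIA2_compl hD hc hn hq ht hac.symm hcv hav xc xv xa yc yv ya x1 y2 y4).elim
          · tauto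
        · have yc : H.Adj y c := by
            by_contra h
            exact ky1 ⟨fun h' => absurd h' ya, fun h' => absurd h' h⟩
          by_cases yb : H.Adj y b
          · tauto
          · have yv : H.Adj y v := by
              by_contra h
              exact ky2 ⟨fun h' => absurd h' yb, fun h' => absurd h' h⟩
            exact (TDIA2_same hK hn ht hac.symm hcb hcv hav hbv nbv xc xv xa xb yc yv yb
              x3 x1 y3 hxy).elim
  constructor
  · let S : Finset T := Finset.univ.filter fun x => x ≠ a ∧ x ≠ c ∧ x ≠ b ∧ x ≠ v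
    have hS : S.card ≤ 2 := by
      by_contra h
      rw [not_le, Finset.two_lt_card] at h
      obtain ⟨x, hx, y, hy, z, hz, hxy, hxz, hyz⟩ := h
      have kx := (Finset.mem_filter.1 hx).2
      have ky := (Finset.mem_filter.1 hy).2
      have kz := (Finset.mem_filter.1 hz).2
      have p1 := pair x y hxy kx ky
      have p2 := pair x z hxz kx kz
      have p3 := pair y z hyz ky kz
      exact TDIA2_par _ _ _ _ _ _ p1 p2 p3
    have hun : (Finset.univ : Finset T) ⊆ ({a, c, b, v} : Finset T) ∪ S := by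
      intro x _
      rw [Finset.mem_union]
      by_cases hx : x = a ∨ x = c ∨ x = b ∨ x = v
      · left
        simpa using hx
      · right
        refine Finset.mem_filter.2 ⟨Finset.mem_univ _, ?_⟩
        tauto
    have h4 : ({a, c, b, v} : Finset T).card ≤ 4 := Finset.card_le_four
    calc Fintype.card T = (Finset.univ : Finset T).card := (Finset.card_univ).symm
      _ ≤ (({a, c, b, v} : Finset T) ∪ S).card := Finset.card_le_card hun
      _ ≤ ({a, c, b, v} : Finset T).card + S.card := Finset.card_union_le _ _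
      _ ≤ 4 + 2 := Nat.add_le_add h4 hS
      _ = 6 := rfl
  · intro x
    by_cases h1 : x = a
    · subst h1
      exact ⟨c, b, hac, hab, hcb⟩
    by_cases h2 : x = c
    · subst h2
      exact ⟨a, b, hac.symm, hcb, hab⟩
    by_cases h3 : x = b
    · subst h3
      exact ⟨a, c, hab.symm, hcb.symm, hac⟩
    by_cases h4 : x = v
    · subst h4
      exact ⟨a, c, hav.symm, hcv.symm, hac⟩
    obtain ⟨k1, k2⟩ := key x h1 h2 h3 h4
    by_cases xa : H.Adj x a
    · by_cases xb : H.Adj x b
      · exact ⟨a, b, xa, xb, hab⟩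
      · have xv : H.Adj x v := by
          by_contra h
          exact k2 ⟨fun h' => absurd h' xb, fun h' => absurd h' h⟩
        exact ⟨a, v, xa, xv, hav⟩
    · have xc : H.Adj x c := by
        by_contra h
        exact k1 ⟨fun h' => absurd h' xa, fun h' => absurd h' h⟩
      by_cases xb : H.Adj x b
      · exact ⟨c, b, xc, xb, hcb⟩
      · have xv : H.Adj x v := by
          by_contra h
          exact k2 ⟨fun h' => absurd h' xb, fun h' => absurd h' h⟩
        exact ⟨c, v, xc, xv, hcv⟩

end Pool.Agent.Work.MP_12b649_co.Even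

end

section

/-!
# TF: summary for triangle-free twin-free graphs
-/

namespace Pool.Agent.Work.MP_12b649_co.Even

theorem pr_TF (h1 : S_TD4) (h2 : S_TPET) (h3 : S_TCYC) : S_TF := by
  intro T H hcon hn hc4 htw htf hne
  by_cases c4 : ∀ P q1 q2 q3 q4, H.Adj P q1 → H.Adj P q2 → H.Adj P q3 → H.Adj P q4 → q1 ≠ q2 →
      q1 ≠ q3 → q1 ≠ q4 → q2 ≠ q3 → q2 ≠ q4 → q3 ≠ q4 → False
  · by_cases c3 : ∀ P q1 q2 q3, H.Adj P q1 → H.Adj P q2 → H.Adj P q3 → q1 ≠ q2 → q1 ≠ q3 →
        q2 ≠ q3 → False
    · rcases h3 T H hcon hn hc4 htw htf c3 hne with h | h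
      · exact Or.inr (Or.inl h)
      · exact Or.inr (Or.inr h)
    · simp only [not_forall, exists_prop, not_false_eq_true, and_true] at c3
      obtain ⟨P, q1, q2, q3, a1, a2, a3, n1, n2, n3⟩ := c3
      rcases h2 T H hcon hn hc4 htw htf c4 P q1 q2 q3 a1 a2 a3 n1 n2 n3 with h | h
      · exact Or.inl h
      · exact Or.inr (Or.inr h)
  · simp only [not_forall, exists_prop, not_false_eq_true, and_true] at c4
    obtain ⟨P, q1, q2, q3, q4, a1, a2, a3, a4, n1, n2, n3, n4, n5, n6⟩ := c4
    rcases h1 T H hcon hn hc4 htw htf P q1 q2 q3 q4 a1 a2 a3 a4 n1 n2 n3 n4 n5 n6 with h | h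
    · exact Or.inl h
    · exact Or.inr (Or.inl h)

end Pool.Agent.Work.MP_12b649_co.Even

end

section

namespace Pool.Agent.Work.MP_12b649_co.Even

theorem pr_TK4 : S_TK4 := by
  intro T H hn htf
  have key : ∀ a b c d w, H.Adj a b → H.Adj a c → H.Adj a d → H.Adj b c → H.Adj b d →
      H.Adj c d → H.Adj w a → H.Adj w c → ¬ H.Adj w b → ¬ H.Adj w d → False := by
    intro a b c d w hab hac had hbc hbd hcd wa wc wb wd
    obtain ⟨w1, h1, h2, h3⟩ := nt_of hbd (htf b d)
    have n1 : b ≠ w := by rintro rfl; exact wd hbd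
    have n2 : d ≠ w := by rintro rfl; exact wb hbd.symm
    refine opaw hn (p1 := b) (q1 := d) (p2 := a) (q2 := w) (v := c) (w1 := w1) hbd wa.symm
      hab.symm had.symm (fun h => wb h.symm) (fun h => wd h.symm) n1 n2 h1 h2 h3 hbc.ne'
      hcd.ne hac.ne' wc.ne' ?_
    have e1 : ¬ Dd H b d c := fun h => h ⟨fun _ => hcd.symm, fun _ => hbc⟩
    have e2 : ¬ Dd H a w c := fun h => h ⟨fun _ => wc, fun _ => hac⟩
    exact ⟨fun h => absurd h e1, fun h => absurd h e2⟩
  intro a b c d hab hac had hbc hbd hcd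
  obtain ⟨w, wa, wb, hw⟩ := nt_of hab (htf a b)
  obtain ⟨w2, h1, h2, h3⟩ := nt_of hcd (htf c d)
  have wc : w ≠ c := by rintro rfl; exact hw ⟨fun _ => hbc, fun _ => hac⟩
  have wd : w ≠ d := by rintro rfl; exact hw ⟨fun _ => hbd, fun _ => had⟩
  have hw2 : Dd H c d w :=
    (ek4 hn hab hcd hac had hbc hbd wa wb hw h1 h2 h3 wa wb wc wd).1 hw
  by_cases ea : H.Adj a w
  · have eb : ¬ H.Adj b w := fun h => hw ⟨fun _ => h, fun _ => ea⟩
    by_cases ec : H.Adj c w
    · have ed : ¬ H.Adj d w := fun h => hw2 ⟨fun _ => h, fun _ => ec⟩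
      exact key a b c d w hab hac had hbc hbd hcd ea.symm ec.symm (fun h => eb h.symm)
        (fun h => ed h.symm)
    · have ed : H.Adj d w := by
        by_contra h
        exact hw2 ⟨fun h' => absurd h' ec, fun h' => absurd h' h⟩
      exact key a b d c w hab had hac hbd hbc hcd.symm ea.symm ed.symm (fun h => eb h.symm)
        (fun h => ec h.symm)
  · have eb : H.Adj b w := by
      by_contra h
      exact hw ⟨fun h' => absurd h' ea, fun h' => absurd h' h⟩
    by_cases ec : H.Adj c w
    · have ed : ¬ H.Adj d w := fun h => hw2 ⟨fun _ => h, fun _ => ec⟩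
      exact key b a c d w hab.symm hbc hbd hac had hcd eb.symm ec.symm (fun h => ea h.symm)
        (fun h => ed h.symm)
    · have ed : H.Adj d w := by
        by_contra h
        exact hw2 ⟨fun h' => absurd h' ec, fun h' => absurd h' h⟩
      exact key b a d c w hab.symm hbd hbc had hac hcd.symm eb.symm ed.symm (fun h => ea h.symm)
        (fun h => ec h.symm)

end Pool.Agent.Work.MP_12b649_co.Even

end
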