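import Mathlib
import Pool.Agent.Work.MP_12b649_co.Even.StmtsB
import Pool.Agent.Work.MP_12b649_co.OddStmts
import Pool.Agent.Work.MP_12b649_co.Bd.B01
import Pool.Agent.Work.MP_12b649_co.Ev.Defs
import Pool.Agent.Work.MP_12b649_co.Bd.B02
import Pool.Agent.Work.MP_12b649_co.Even.Stmts

/-! Bundle of small proof modules (one section per former module). -/

section

namespace Pool.Agent.Work.MP_12b649_co.Even

lemma tpen_key {V : Type} {H : SimpleGraph V} (hn : NoT2 H) (ht : ∀ u v, ¬ Tw H u v)
    (hd : ∀ a c b v, H.Adj a c → H.Adj a b → H.Adj c b → H.Adj a v →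
      H.Adj c v → b ≠ v → False)
    {d e f x0 : V} (hde : H.Adj d e) (hdf : H.Adj d f) (hef : H.Adj e f)
    (xe : x0 ≠ e) (xf : x0 ≠ f) (hx : H.Adj x0 d) :
    (∀ y, H.Adj x0 y ↔ y = d) ∧
      ∀ y, y ≠ d → y ≠ e → y ≠ f → y ≠ x0 → (H.Adj y d ∨ H.Adj y e ∨ H.Adj y f) := by
  obtain ⟨w1, w11, w12, w1d⟩ := nt_of hef (ht e f)
  have hxe : ¬ H.Adj x0 e := fun h => hd d e f x0 hde hdf hef hx.symm h.symm xf.symm
  have hxf : ¬ H.Adj x0 f := fun h => hd d f e x0 hdf hde hef.symm hx.symm h.symm xe.symm
  have main : ∀ y, y ≠ d → y ≠ e → y ≠ f → y ≠ x0 →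
      ¬ H.Adj y x0 ∧ (H.Adj y d ∨ H.Adj y e ∨ H.Adj y f) := by
    intro y yd ye yf yx
    have h1 := opaw hn (v := y) (w1 := w1) hef hx.symm hde.symm hdf.symm
      (fun h => hxe h.symm) (fun h => hxf h.symm) xe.symm xf.symm w11 w12 w1d ye yf yd yx
    by_cases yd' : H.Adj y d
    · have ye' : ¬ H.Adj y e := fun h => hd d e f y hde hdf hef yd'.symm h.symm yf.symm
      have yf' : ¬ H.Adj y f := fun h => hd d f e y hdf hde hef.symm yd'.symm h.symm ye.symm
      refine ⟨?_, Or.inl yd'⟩
      intro hyx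
      apply h1
      have a1 : ¬ H.Adj e y := fun h => ye' h.symm
      have a2 : ¬ H.Adj f y := fun h => yf' h.symm
      simp only [Dd, a1, a2, yd'.symm, hyx.symm]
    · by_cases ye' : H.Adj y e
      · have yf' : ¬ H.Adj y f := fun h => hd e f d y hef hde.symm hdf.symm ye'.symm h.symm yd.symm
        refine ⟨?_, Or.inr (Or.inl ye')⟩
        intro hyx
        apply h1
        have a1 : ¬ H.Adj d y := fun h => yd' h.symm
        have a2 : ¬ H.Adj f y := fun h => yf' h.symm
        simp only [Dd, a1, a2, ye'.symm, hyx.symm, iff_false, iff_true, false_iff, true_iff,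
          not_true_eq_false, not_false_eq_true]
      · by_cases yf' : H.Adj y f
        · refine ⟨?_, Or.inr (Or.inr yf')⟩
          intro hyx
          apply h1
          have a1 : ¬ H.Adj d y := fun h => yd' h.symm
          have a2 : ¬ H.Adj e y := fun h => ye' h.symm
          simp only [Dd, a1, a2, yf'.symm, hyx.symm, iff_false, iff_true, false_iff, true_iff,
            not_true_eq_false, not_false_eq_true]
        · exfalso
          have a0 : ¬ H.Adj d y := fun h => yd' h.symm
          have a1 : ¬ H.Adj e y := fun h => ye' h.symm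
          have a2 : ¬ H.Adj f y := fun h => yf' h.symm
          have hyx : H.Adj y x0 := by
            by_contra hc
            apply h1
            have a3 : ¬ H.Adj x0 y := fun h => hc h.symm
            simp only [Dd, a0, a1, a2, a3]
          obtain ⟨w2, w21, w22, w2d⟩ := nt_of hyx (ht y x0)
          have h2 := e2k2 hn (v := d) (w1 := w2) (w2 := w1) hyx hef ye' yf' hxe hxf
            w21 w22 w2d w11 w12 w1d yd.symm hx.ne.symm hde.ne hdf.ne
          have b1 : Dd H y x0 d := by
            simp only [Dd, yd', hx, iff_true, not_false_eq_true]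
          have b2 : ¬ Dd H e f d := by
            simp only [Dd, hde.symm, hdf.symm, not_true_eq_false, not_false_eq_true]
          exact b2 (h2.1 b1)
  refine ⟨fun y => ⟨fun h => ?_, fun h => h ▸ hx⟩, fun y h1 h2 h3 h4 => (main y h1 h2 h3 h4).2⟩
  by_contra hyd
  rcases eq_or_ne y e with rfl | ye
  · exact hxe h
  rcases eq_or_ne y f with rfl | yf
  · exact hxf h
  exact (main y hyd ye yf h.ne').1 h.symm

theorem pr_TPEN : S_TPEN := by
  intro T H hn ht hd a b c hab hac hbc x xa xb xc
  -- a vertex outside seeing some vertex of the triangle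
  have fin : ∀ x, x ≠ a → x ≠ b → x ≠ c → (H.Adj x a ∨ H.Adj x b ∨ H.Adj x c) →
      (∃ d, (d = a ∨ d = b ∨ d = c) ∧ ∀ y, H.Adj x y ↔ y = d) ∧
      ∀ y, y ≠ a → y ≠ b → y ≠ c → y ≠ x → (H.Adj y a ∨ H.Adj y b ∨ H.Adj y c) := by
    intro x xa xb xc h
    rcases h with h | h | h
    · have := tpen_key hn ht hd hab hac hbc xb xc h
      exact ⟨⟨a, Or.inl rfl, this.1⟩, this.2⟩
    · have := tpen_key hn ht hd hab.symm hbc hac xa xc h
      refine ⟨⟨b, Or.inr (Or.inl rfl), this.1⟩, fun y h1 h2 h3 h4 => ?_⟩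
      have := this.2 y h2 h1 h3 h4
      tauto
    · have := tpen_key hn ht hd hac.symm hbc.symm hab xa xb h
      refine ⟨⟨c, Or.inr (Or.inr rfl), this.1⟩, fun y h1 h2 h3 h4 => ?_⟩
      have := this.2 y h3 h1 h2 h4
      tauto
  obtain ⟨v0, v0a, v0b, hv0⟩ := nt_of hab (ht a b)
  have v0c : v0 ≠ c := by
    rintro rfl
    exact hv0 (by simp only [hac, hbc])
  have hv0' : H.Adj v0 a ∨ H.Adj v0 b ∨ H.Adj v0 c := by
    by_contra hc
    push Not at hc
    apply hv0
    have a1 : ¬ H.Adj a v0 := fun h => hc.1 h.symm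
    have a2 : ¬ H.Adj b v0 := fun h => hc.2.1 h.symm
    simp only [a1, a2]
  have h0 := fin v0 v0a v0b v0c hv0'
  rcases eq_or_ne x v0 with rfl | hxv
  · exact h0.1
  · exact (fin x xa xb xc (h0.2 x xa xb xc hxv)).1

end Pool.Agent.Work.MP_12b649_co.Even

end

section

/-!
# TPROP: properties of the twin-free quotient
-/

namespace Pool.Agent.Work.MP_12b649_co.Even

variable {V : Type} {H : SimpleGraph V} {rep : V → V} {K : V → Prop}

private lemma K_rep (su : Su H rep K) {v : V} (hv : K v) : K (rep v) := by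
  rcases (su.cls (rep v) v).1 (su.idem v) with h | h
  · rw [h]; exact hv
  · exact su.closed v (rep v) hv h.1.symm

private lemma tprop_tw_of (su : Su H rep K) (u v : TT rep K) (ht : Tw (TG H rep K) u v) :
    Tw H u.val v.val := by
  have huv : H.Adj u.val v.val := ht.1
  have hne : u.val ≠ v.val := huv.ne
  have hu := u.2.1
  have hv := v.2.1
  refine ⟨huv, fun w hwu hwv => ?_⟩
  by_cases hK : K w
  · by_cases h1 : rep w = u.val
    · have a1 : H.Adj u.val w := (su.adj _ _).2 (Or.inl ⟨by rw [hu, h1], hwu.symm⟩)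
      have a2 : H.Adj v.val w := by
        refine (su.adj _ _).2 (Or.inr ⟨?_, ?_⟩)
        · rw [hv, h1]; exact hne.symm
        · rw [hv, h1]; exact huv.symm
      exact ⟨fun _ => a2, fun _ => a1⟩
    · by_cases h2 : rep w = v.val
      · have a1 : H.Adj v.val w := (su.adj _ _).2 (Or.inl ⟨by rw [hv, h2], hwv.symm⟩)
        have a2 : H.Adj u.val w := by
          refine (su.adj _ _).2 (Or.inr ⟨?_, ?_⟩)
          · rw [hu, h2]; exact hne
          · rw [hu, h2]; exact huv
        exact ⟨fun _ => a1, fun _ => a2⟩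
      · have e1 : H.Adj u.val w ↔ H.Adj u.val (rep w) := by
          rw [su.adj u.val w, hu]
          constructor
          · rintro (⟨h, _⟩ | ⟨_, h⟩)
            · exact absurd h.symm h1
            · exact h
          · intro h
            exact Or.inr ⟨fun h' => h1 h'.symm, h⟩
        have e2 : H.Adj v.val w ↔ H.Adj v.val (rep w) := by
          rw [su.adj v.val w, hv]
          constructor
          · rintro (⟨h, _⟩ | ⟨_, h⟩)
            · exact absurd h.symm h2
            · exact h
          · intro h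
            exact Or.inr ⟨fun h' => h2 h'.symm, h⟩
        rw [e1, e2]
        have hr : rep (rep w) = rep w ∧ K (rep w) := ⟨su.idem w, K_rep su hK⟩
        exact ht.2 ⟨rep w, hr⟩ (fun h => h1 (congrArg Subtype.val h))
          (fun h => h2 (congrArg Subtype.val h))
  · constructor
    · intro h
      exact absurd h.symm (su.iso w u.val hK)
    · intro h
      exact absurd h.symm (su.iso w v.val hK)

theorem pr_TPROP : S_TPROP := by
  intro V H rep K su
  refine ⟨?_, ?_, ?_, ?_, ?_⟩
  · intro S ⟨s, hs⟩ hcl v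
    have key := su.conn (fun v => ∃ x : TT rep K, x.val = rep v ∧ S x)
      ⟨s.val, s.2.2, s, s.2.1.symm, hs⟩ (by
        rintro a b ⟨x, hx, hSx⟩ hab
        rcases (su.adj a b).1 hab with ⟨h, _⟩ | ⟨_, h⟩
        · exact ⟨x, by rw [hx, h], hSx⟩
        · have hKb : K (rep b) := su.closed (rep a) (rep b) (hx ▸ x.2.2) h
          refine ⟨⟨rep b, su.idem b, hKb⟩, rfl, hcl x _ hSx ?_⟩
          change H.Adj x.val (rep b)
          rw [hx]; exact h) v.val v.2.2
    obtain ⟨x, hx, hSx⟩ := key
    have : x = v := Subtype.ext (by rw [hx, v.2.1])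
    rw [← this]; exact hSx
  · intro p1 q1 p2 q2 v h
    refine su.noT2 p1.val q1.val p2.val q2.val v.val ?_
    obtain ⟨w1, w11, w12, w1d⟩ := h.nt1
    obtain ⟨w2, w21, w22, w2d⟩ := h.nt2
    exact ⟨h.adj1, h.adj2, fun e => h.n1 (Subtype.ext e), fun e => h.n2 (Subtype.ext e),
      fun e => h.n3 (Subtype.ext e), fun e => h.n4 (Subtype.ext e),
      fun e => h.v1 (Subtype.ext e), fun e => h.v2 (Subtype.ext e),
      fun e => h.v3 (Subtype.ext e), fun e => h.v4 (Subtype.ext e), h.cross,
      ⟨w1.val, fun e => w11 (Subtype.ext e), fun e => w12 (Subtype.ext e), w1d⟩,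
      ⟨w2.val, fun e => w21 (Subtype.ext e), fun e => w22 (Subtype.ext e), w2d⟩, h.bad⟩
  · intro a b c d h1 h2 h3 h4 n1 n2
    exact su.noC4 a.val b.val c.val d.val h1 h2 h3 h4 (fun e => n1 (Subtype.ext e))
      (fun e => n2 (Subtype.ext e))
  · intro u v ht
    have h := tprop_tw_of su u v ht
    have : rep u.val = rep v.val := (su.cls _ _).2 (Or.inr h)
    rw [u.2.1, v.2.1] at this
    exact h.1.ne this
  · obtain ⟨a, b, c, hKa, hab, hbc, hac, hnac⟩ := su.ncl
    have hKb : K b := su.closed a b hKa hab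
    have hKc : K c := su.closed b c hKb hbc
    have tw_eq : ∀ x y : V, rep x = rep y → x ≠ y → ∀ z, z ≠ x → z ≠ y →
        (H.Adj x z ↔ H.Adj y z) := by
      intro x y h hne z hzx hzy
      rcases (su.cls x y).1 h with h' | h'
      · exact absurd h' hne
      · exact h'.2 z hzx hzy
    have nab : rep a ≠ rep b := fun h =>
      hnac ((tw_eq a b h hab.ne c hac.symm hbc.ne').2 hbc)
    have nbc : rep b ≠ rep c := fun h =>
      hnac ((tw_eq b c h hbc.ne a hab.ne hac).1 hab.symm).symm
    have nac : rep a ≠ rep c := fun h =>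
      hnac ((su.adj a c).2 (Or.inl ⟨h, hac⟩))
    have rab : H.Adj (rep a) (rep b) := by
      rcases (su.adj a b).1 hab with ⟨h, _⟩ | ⟨_, h⟩
      · exact absurd h nab
      · exact h
    have rbc : H.Adj (rep b) (rep c) := by
      rcases (su.adj b c).1 hbc with ⟨h, _⟩ | ⟨_, h⟩
      · exact absurd h nbc
      · exact h
    refine ⟨⟨rep a, su.idem a, K_rep su hKa⟩, ⟨rep b, su.idem b, K_rep su hKb⟩,
      ⟨rep c, su.idem c, K_rep su hKc⟩, rab, rbc, fun h => nac (congrArg Subtype.val h), ?_⟩
    intro h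
    exact hnac ((su.adj a c).2 (Or.inr ⟨nac, h⟩))

end Pool.Agent.Work.MP_12b649_co.Even

end

section

/-!
# TTRI: twin-free graphs with a triangle
-/

namespace Pool.Agent.Work.MP_12b649_co.Even

theorem pr_TTRI (h1 : S_TK4) (h2 : S_TDIA2) (h3 : S_TPEN) : S_TTRI := by
  classical
  intro T _ H hc hn hq ht htri
  by_cases hdia : ∃ a c b v, H.Adj a c ∧ H.Adj a b ∧ H.Adj c b ∧ H.Adj a v ∧ H.Adj c v ∧ b ≠ v
  · obtain ⟨a, c, b, v, hac, hab, hcb, hav, hcv, hbv⟩ := hdia
    by_cases hb : H.Adj b v
    · exact (h1 T H hn ht a c b v hac hab hav hcb hcv hb).elim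
    · obtain ⟨hcard, hx⟩ := h2 T H hc hn hq ht a c b v hac hab hcb hav hcv hbv hb
      exact Or.inr ⟨hcard, fun x => Or.inl (hx x)⟩
  · obtain ⟨a, b, c, hab, hac, hbc⟩ := htri
    have hno : ∀ a c b v, H.Adj a c → H.Adj a b → H.Adj c b → H.Adj a v → H.Adj c v →
        b ≠ v → False := fun a c b v e1 e2 e3 e4 e5 e6 => hdia ⟨a, c, b, v, e1, e2, e3, e4, e5, e6⟩
    have hpen := h3 T H hn ht hno a b c hab hac hbc
    by_cases hO : ∃ z z' a, O1 H z z' a
    · exact Or.inl hO
    · refine Or.inr ⟨?_, ?_⟩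
      · let S : Finset T := Finset.univ.filter fun x => x ≠ a ∧ x ≠ b ∧ x ≠ c
        have hS : ∀ x ∈ S, ∃ d, (d = a ∨ d = b ∨ d = c) ∧ ∀ y, H.Adj x y ↔ y = d := by
          intro x hx
          have hx' := (Finset.mem_filter.mp hx).2
          exact hpen x hx'.1 hx'.2.1 hx'.2.2
        choose! d hd1 hd2 using hS
        have hle : S.card ≤ ({a, b, c} : Finset T).card := by
          refine Finset.card_le_card_of_injOn d ?_ ?_
          · intro x hx
            have := hd1 x hx
            simp only [Finset.coe_insert, Finset.coe_singleton, Set.mem_insert_iff,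
              Set.mem_singleton_iff]
            exact this
          · intro x hx y hy hxy
            by_contra hne
            refine hO ⟨x, y, d x, hne, hd2 x hx, ?_⟩
            intro v
            rw [hxy]
            exact hd2 y hy v
        have h3' : ({a, b, c} : Finset T).card ≤ 3 := Finset.card_le_three
        have hcov : (Finset.univ : Finset T) ⊆ S ∪ {a, b, c} := by
          intro x _
          by_cases hx : x ≠ a ∧ x ≠ b ∧ x ≠ c
          · exact Finset.mem_union_left _ (Finset.mem_filter.mpr ⟨Finset.mem_univ x, hx⟩)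
          · apply Finset.mem_union_right
            simp only [Finset.mem_insert, Finset.mem_singleton]
            tauto
        have := Finset.card_le_card hcov
        have := Finset.card_union_le S ({a, b, c} : Finset T)
        rw [Finset.card_univ] at *
        omega
      · intro x
        by_cases hxa : x = a
        · subst hxa; exact Or.inl ⟨b, c, hab, hac, hbc⟩
        by_cases hxb : x = b
        · subst hxb; exact Or.inl ⟨a, c, hab.symm, hbc, hac⟩
        by_cases hxc : x = c
        · subst hxc; exact Or.inl ⟨a, b, hac.symm, hbc.symm, hab⟩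
        obtain ⟨d, hd, hdy⟩ := hpen x hxa hxb hxc
        right
        rcases hd with rfl | rfl | rfl
        · exact ⟨d, b, c, (hdy d).2 rfl, hab, hac, hbc, fun h => hab.ne' ((hdy b).1 h),
            fun h => hac.ne' ((hdy c).1 h)⟩
        · exact ⟨d, a, c, (hdy d).2 rfl, hab.symm, hbc, hac, fun h => hab.ne ((hdy a).1 h),
            fun h => hbc.ne' ((hdy c).1 h)⟩
        · exact ⟨d, a, b, (hdy d).2 rfl, hac.symm, hbc.symm, hab, fun h => hac.ne ((hdy a).1 h),
            fun h => hbc.ne ((hdy b).1 h)⟩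

end Pool.Agent.Work.MP_12b649_co.Even

end

section

/-!
BLOCK: three permutations of `ZMod n`.
-/

namespace Pool.Agent.Work.MP_12b649_co.Odd

/-- A permutation of `ZMod n` from a map of the naturals below `n` with displacements `0, 1, 2`. -/
theorem block_perm (n : ℕ) (hn : 0 < n) (f : ℕ → ℕ) (h1 : ∀ x, x < n → f x < n)
    (h2 : ∀ x y, x < n → y < n → f x = f y → x = y)
    (h3 : ∀ x, x < n → f x = x ∨ f x = x + 1 ∨ f x = x + 2 ∨ f x + n = x + 1 ∨ f x + n = x + 2) :
    ∃ a : Equiv.Perm (ZMod n), (∀ x, a x = ((f x.val : ℕ) : ZMod n)) ∧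
      (∀ x, (a x).val = f x.val) ∧ (∀ x, a x = x ∨ a x = x + 1 ∨ a x = x + 2) := by
  have : NeZero n := ⟨hn.ne'⟩
  have hval : ∀ x : ZMod n, (((f x.val : ℕ) : ZMod n)).val = f x.val := fun x =>
    ZMod.val_natCast_of_lt (h1 _ (ZMod.val_lt x))
  have hinj : Function.Injective (fun x : ZMod n => ((f x.val : ℕ) : ZMod n)) := by
    intro x y hxy
    have h4 : (((f x.val : ℕ) : ZMod n)).val = (((f y.val : ℕ) : ZMod n)).val :=
      congrArg ZMod.val hxy
    rw [hval, hval] at h4
    exact ZMod.val_injective n (h2 _ _ (ZMod.val_lt x) (ZMod.val_lt y) h4)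
  refine ⟨Equiv.ofBijective _ (Finite.injective_iff_bijective.1 hinj), fun x => rfl, hval, ?_⟩
  intro x
  change ((f x.val : ℕ) : ZMod n) = x ∨ ((f x.val : ℕ) : ZMod n) = x + 1 ∨
    ((f x.val : ℕ) : ZMod n) = x + 2
  have hx : ((x.val : ℕ) : ZMod n) = x := ZMod.natCast_zmod_val x
  rcases h3 x.val (ZMod.val_lt x) with h | h | h | h | h
  · left
    rw [h, hx]
  · right; left
    rw [h]
    push_cast
    rw [hx]
  · right; right
    rw [h]
    push_cast
    rw [hx]
  · right; left
    have h5 : ((f x.val + n : ℕ) : ZMod n) = ((x.val + 1 : ℕ) : ZMod n) := by rw [h]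
    rw [Nat.cast_add, ZMod.natCast_self, add_zero] at h5
    rw [h5]
    push_cast
    rw [hx]
  · right; right
    have h5 : ((f x.val + n : ℕ) : ZMod n) = ((x.val + 2 : ℕ) : ZMod n) := by rw [h]
    rw [Nat.cast_add, ZMod.natCast_self, add_zero] at h5
    rw [h5]
    push_cast
    rw [hx]

theorem block_three (n : ℕ) (hn : 5 ≤ n) : (3 : ZMod n).val = 3 := by
  have := ZMod.val_natCast_of_lt (n := n) (a := 3) (by omega)
  simpa using this

theorem block_five (n m : ℕ) (hn : 5 ≤ n) (hm : m = 3 ∨ m = 4) :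
    ((m : ℕ) : ZMod n) ≠ 3 + 2 := by
  intro h
  have h1 : ((m : ℕ) : ZMod n) = ((5 : ℕ) : ZMod n) := by
    rw [h]
    push_cast
    norm_num
  rw [ZMod.natCast_eq_natCast_iff] at h1
  have h2 : m ≡ 5 [MOD n] := h1
  have h3 := (Nat.modEq_iff_dvd' (by omega : m ≤ 5)).1 h2
  have h4 := Nat.le_of_dvd (by omega) h3
  omega

theorem block_assemble (n : ℕ) (hn : 5 ≤ n) (f f' g : ℕ → ℕ)
    (h1 : ∀ x, x < n → f x < n)
    (h2 : ∀ x y, x < n → y < n → f x = f y → x = y)
    (h3 : ∀ x, x < n → f x = x ∨ f x = x + 1 ∨ f x = x + 2 ∨ f x + n = x + 1 ∨ f x + n = x + 2)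
    (h1' : ∀ x, x < n → f' x < n)
    (h2' : ∀ x y, x < n → y < n → f' x = f' y → x = y)
    (h3' : ∀ x, x < n →
      f' x = x ∨ f' x = x + 1 ∨ f' x = x + 2 ∨ f' x + n = x + 1 ∨ f' x + n = x + 2)
    (g1 : ∀ x, x < n → g x < n)
    (g2 : ∀ x y, x < n → y < n → g x = g y → x = y)
    (g3 : ∀ x, x < n → g x = x ∨ g x = x + 1 ∨ g x = x + 2 ∨ g x + n = x + 1 ∨ g x + n = x + 2)
    (hfg : ∀ x, x < n → f x ≠ g x) (hfg' : ∀ x, x < n → f' x ≠ g x)
    (hne : ∃ x, x < n ∧ f x ≠ f' x) (heq : ∃ x, x < n ∧ f x = f' x)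
    (hf3 : f 3 = 3 ∨ f 3 = 4) (hf3' : f' 3 = 3 ∨ f' 3 = 4) (hg3 : g 3 = 3 ∨ g 3 = 4) :
    ∃ a a' b : Equiv.Perm (ZMod n),
    (∀ x, a x = x ∨ a x = x + 1 ∨ a x = x + 2) ∧
    (∀ x, a' x = x ∨ a' x = x + 1 ∨ a' x = x + 2) ∧
    (∀ x, b x = x ∨ b x = x + 1 ∨ b x = x + 2) ∧
    (∀ x, a x ≠ b x) ∧ (∀ x, a' x ≠ b x) ∧ a ≠ a' ∧ (∃ x, a x = a' x) ∧
    a 3 ≠ 3 + 2 ∧ a' 3 ≠ 3 + 2 ∧ b 3 ≠ 3 + 2 := by
  have hn0 : 0 < n := by omega
  have : NeZero n := ⟨hn0.ne'⟩
  obtain ⟨a, ha, hav, had⟩ := block_perm n hn0 f h1 h2 h3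
  obtain ⟨a', ha', hav', had'⟩ := block_perm n hn0 f' h1' h2' h3'
  obtain ⟨b, hb, hbv, hbd⟩ := block_perm n hn0 g g1 g2 g3
  refine ⟨a, a', b, had, had', hbd, ?_, ?_, ?_, ?_, ?_, ?_, ?_⟩
  · intro x h
    have := congrArg ZMod.val h
    rw [hav, hbv] at this
    exact hfg _ (ZMod.val_lt x) this
  · intro x h
    have := congrArg ZMod.val h
    rw [hav', hbv] at this
    exact hfg' _ (ZMod.val_lt x) this
  · obtain ⟨x, hx, hxne⟩ := hne
    intro h
    have h4 := congrArg (fun e : Equiv.Perm (ZMod n) => (e ((x : ℕ) : ZMod n)).val) h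
    rw [hav, hav', ZMod.val_natCast_of_lt hx] at h4
    exact hxne h4
  · obtain ⟨x, hx, hxe⟩ := heq
    refine ⟨((x : ℕ) : ZMod n), ?_⟩
    rw [ha, ha', ZMod.val_natCast_of_lt hx, hxe]
  · rw [ha, block_three n hn]
    exact block_five n _ hn hf3
  · rw [ha', block_three n hn]
    exact block_five n _ hn hf3'
  · rw [hb, block_three n hn]
    exact block_five n _ hn hg3

theorem thm_block : ClaimBlock := by
  intro n hn
  by_cases hpar : n % 2 = 0
  · refine block_assemble n hn (fun x => x)
      (fun x => if x % 2 = 0 then (if x + 2 = n then 0 else x + 2) else x)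
      (fun x => if x + 1 = n then 0 else x + 1) ?_ ?_ ?_ ?_ ?_ ?_ ?_ ?_ ?_ ?_ ?_ ?_ ?_ ?_ ?_ ?_
    · intro x hx
      exact hx
    · intro x y _ _ h
      exact h
    · intro x _
      left
      rfl
    · intro x hx
      split_ifs <;> omega
    · intro x y hx hy h
      split_ifs at h <;> omega
    · intro x hx
      split_ifs <;> omega
    · intro x hx
      split_ifs <;> omega
    · intro x y hx hy h
      split_ifs at h <;> omega
    · intro x hx
      split_ifs <;> omega
    · intro x hx
      split_ifs <;> omega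
    · intro x hx
      split_ifs <;> omega
    · refine ⟨0, by omega, ?_⟩
      split_ifs <;> omega
    · exact ⟨1, by omega, by simp⟩
    · left
      rfl
    · left
      rfl
    · right
      split_ifs <;> omega
  · refine block_assemble n hn
      (fun x => if x = 0 then 0 else if x < 4 then x + 1 else
        if x % 2 = 0 then (if x + 1 = n then 1 else x + 2) else x)
      (fun x => if x = 0 then 0 else if x = 1 then 3 else if x = 2 then 2 else if x < 4 then x + 1
        else if x % 2 = 0 then (if x + 1 = n then 1 else x + 2) else x)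
      (fun x => if x = 0 then 2 else if x = 1 then 1 else if x = 2 then 4 else if x = 3 then 3 else
        if x + 1 = n then 0 else x + 1) ?_ ?_ ?_ ?_ ?_ ?_ ?_ ?_ ?_ ?_ ?_ ?_ ?_ ?_ ?_ ?_
    · intro x hx
      split_ifs <;> omega
    · intro x y hx hy h
      split_ifs at h <;> omega
    · intro x hx
      split_ifs <;> omega
    · intro x hx
      split_ifs <;> omega
    · intro x y hx hy h
      split_ifs at h <;> omega
    · intro x hx
      split_ifs <;> omega
    · intro x hx
      split_ifs <;> omega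
    · intro x y hx hy h
      split_ifs at h <;> omega
    · intro x hx
      split_ifs <;> omega
    · intro x hx
      split_ifs <;> omega
    · intro x hx
      split_ifs <;> omega
    · exact ⟨1, by omega, by simp⟩
    · exact ⟨0, by omega, by simp⟩
    · right
      simp
    · right
      simp
    · left
      simp

end Pool.Agent.Work.MP_12b649_co.Odd

end

section

/-!
# Graphs of odd order which are not complete multipartite (item FAT)
-/

namespace Pool.Agent.Work.MP_12b649_co.Odd

open Pool.Agent.Work.MP_12b649_co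

namespace Fat

/-- For a cyclic permutation `f` and any set of steps `h`, there is a two-colouring that changes
exactly at the steps in `h`, except possibly at the step that returns to `o`. -/
lemma exists_sign {W : Type} [Finite W] (f : Equiv.Perm W) (o : W)
    (hf : ∀ v, f.SameCycle o v) (h : W → Prop) :
    ∃ τ : W → Bool, ∀ u, f u ≠ o → (τ u ≠ τ (f u) ↔ h u) := by
  classical
  have hex : ∀ v, ∃ k : ℕ, (f ^ k) o = v := fun v => (hf v).exists_nat_pow_eq
  let pos : W → ℕ := fun v => Nat.find (hex v)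
  have hpos : ∀ v, (f ^ pos v) o = v := fun v => Nat.find_spec (hex v)
  have hmin : ∀ v k, (f ^ k) o = v → pos v ≤ k := fun v k hk => Nat.find_min' (hex v) hk
  have hsucc : ∀ u, f u ≠ o → pos (f u) = pos u + 1 := by
    intro u hu
    apply le_antisymm
    · apply hmin
      rw [pow_succ', Equiv.Perm.mul_apply, hpos]
    · have h0 : pos (f u) ≠ 0 := by
        intro h0
        have := hpos (f u)
        rw [h0, pow_zero, Equiv.Perm.one_apply] at this
        exact hu this.symm
      obtain ⟨k, hk⟩ := Nat.exists_eq_succ_of_ne_zero h0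
      have h1 := hpos (f u)
      rw [hk, pow_succ', Equiv.Perm.mul_apply] at h1
      have h2 := hmin u k (f.injective h1)
      omega
  let cnt : ℕ → ℕ := fun n => ((Finset.range n).filter (fun i => h ((f ^ i) o))).card
  have cnt_succ : ∀ n, cnt (n + 1) = cnt n + if h ((f ^ n) o) then 1 else 0 := by
    intro n
    simp only [cnt]
    rw [Finset.range_add_one, Finset.filter_insert]
    split_ifs with h1
    · rw [Finset.card_insert_of_notMem (by simp)]
    · rfl
  refine ⟨fun v => decide (Even (cnt (pos v))), fun u hu => ?_⟩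
  simp only []
  rw [hsucc u hu, cnt_succ, hpos]
  by_cases h1 : h u
  · simp only [h1, if_true, iff_true, ne_eq, decide_eq_decide, Nat.even_add_one]
    tauto
  · simp [h1]

/-- The positions of the vertices: `p` and `q` share a position. -/
lemma exists_phi {n : ℕ} (K : Kotzig n) (p q r : Fin n) (hpq : p ≠ q) (hrp : r ≠ p) (hrq : r ≠ q)
    (δ : Fin n → Prop) :
    ∃ (φ : Fin n → K.V) (w o : K.V) (ε : K.J → Bool), φ p = w ∧ φ q = w ∧ (∀ v, φ v ≠ o) ∧
      (∀ u v, φ u = φ v → u ≠ v → (u = p ∧ v = q) ∨ (u = q ∧ v = p)) ∧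
      ∀ j v, v ≠ p → v ≠ q → (K.f j w = φ v ∨ K.f j (φ v) = w) → (δ v ↔ ε j = true) := by
  classical
  have fV : Fintype K.V := Fintype.ofFinite _
  have fJ : Fintype K.J := Fintype.ofFinite _
  have hn : 3 ≤ n := by
    have h1 := p.2
    have h2 := q.2
    have h3 := r.2
    have h4 : p.1 ≠ q.1 := fun h => hpq (Fin.ext h)
    have h5 : r.1 ≠ p.1 := fun h => hrp (Fin.ext h)
    have h6 : r.1 ≠ q.1 := fun h => hrq (Fin.ext h)
    omega
  have hcJ : 2 * Fintype.card K.J + 1 = n := by
    have := K.cardJ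
    rwa [Nat.card_eq_fintype_card] at this
  have hVne : Nonempty K.V := by
    have : 0 < Nat.card K.V := by rw [K.cardV]; omega
    exact (Nat.card_pos_iff.mp this).1
  have hJne : Nonempty K.J := by
    have : 0 < Fintype.card K.J := by omega
    exact Fintype.card_pos_iff.mp this
  obtain ⟨w⟩ := hVne
  obtain ⟨j0⟩ := hJne
  set A : Finset (Fin n) := (Finset.univ.erase p).erase q with hA
  have hAc : A.card = n - 2 := by
    rw [hA, Finset.card_erase_of_mem (by simp [hpq.symm]), Finset.card_erase_of_mem (by simp),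
      Finset.card_univ, Fintype.card_fin]
    omega
  have hAm : ∀ v, v ∈ A ↔ v ≠ p ∧ v ≠ q := by
    intro v
    simp only [hA, Finset.mem_erase, Finset.mem_univ, and_true]
    tauto
  set D : ℕ := (A.filter δ).card with hD
  have hDle : D ≤ n - 2 := by
    rw [← hAc]
    exact Finset.card_filter_le _ _
  have hodd : n % 2 = 1 := by omega
  obtain ⟨T, hT, hTc⟩ := Finset.exists_subset_card_eq
    (s := (Finset.univ.erase j0 : Finset K.J)) (n := D / 2) (by
      rw [Finset.card_erase_of_mem (by simp), Finset.card_univ]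
      omega)
  have hj0T : j0 ∉ T := fun h => by simpa using hT h
  let ε : K.J → Bool := fun j => decide (j ∈ T ∨ (j = j0 ∧ D % 2 = 1))
  have hε : ∀ j, ε j = true ↔ (j ∈ T ∨ (j = j0 ∧ D % 2 = 1)) := fun j => by simp [ε]
  set X : Finset (K.J × Bool) := Finset.univ.erase (j0, true) with hX
  have hXc : X.card = n - 2 := by
    rw [hX, Finset.card_erase_of_mem (by simp), Finset.card_univ, Fintype.card_prod,
      Fintype.card_bool]
    omega
  have hXε : (X.filter (fun x => ε x.1 = true)).card = D := by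
    have h1 : X.filter (fun x => ε x.1 = true) =
        (T ×ˢ (Finset.univ : Finset Bool)) ∪ (if D % 2 = 1 then {(j0, false)} else ∅) := by
      ext ⟨j, b⟩
      simp only [hX, Finset.mem_filter, Finset.mem_erase, Finset.mem_univ, and_true, hε,
        Finset.mem_union, Finset.mem_product]
      by_cases hj : j = j0
      · subst hj
        by_cases hd : D % 2 = 1
        · simp only [hd, if_true, Finset.mem_singleton]
          cases b <;> simp [hj0T]
        · simp [hd, hj0T]
      · have : (if D % 2 = 1 then ({(j0, false)} : Finset (K.J × Bool)) else ∅) ⊆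
            {(j0, false)} := by
          split_ifs <;> simp
        constructor
        · rintro ⟨-, h | h⟩
          · exact Or.inl h
          · exact absurd h.1 hj
        · rintro (h | h)
          · refine ⟨?_, Or.inl h⟩
            intro h'
            exact hj (congrArg Prod.fst h')
          · have := this h
            simp at this
            exact absurd this.1 hj
    rw [h1, Finset.card_union_of_disjoint]
    · rw [Finset.card_product, hTc, Finset.card_univ, Fintype.card_bool]
      split_ifs with h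
      · rw [Finset.card_singleton]
        omega
      · rw [Finset.card_empty]
        omega
    · rw [Finset.disjoint_left]
      rintro ⟨j, b⟩ h2 h3
      have h4 : j = j0 := by
        split_ifs at h3
        · simp at h3
          exact h3.1
        · simp at h3
      rw [Finset.mem_product] at h2
      exact hj0T (h4 ▸ h2.1)
  have hc1 : (A.filter δ).card = (X.filter (fun x => ε x.1 = true)).card := by rw [hXε]
  have hc2 : (A.filter (fun v => ¬ δ v)).card = (X.filter (fun x => ¬ ε x.1 = true)).card := by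
    have h1 := Finset.card_filter_add_card_filter_not (s := A) δ
    have h2 := Finset.card_filter_add_card_filter_not (s := X) (fun x => ε x.1 = true)
    omega
  let E1 := Finset.equivOfCardEq hc1
  let E2 := Finset.equivOfCardEq hc2
  let e : Fin n → K.J × Bool := fun v =>
    if h : v ∈ A.filter δ then (E1 ⟨v, h⟩ : K.J × Bool)
    else if h : v ∈ A.filter (fun v => ¬ δ v) then (E2 ⟨v, h⟩ : K.J × Bool) else (j0, true)
  have he1 : ∀ v (h : v ∈ A.filter δ), e v = (E1 ⟨v, h⟩ : K.J × Bool) := by
    intro v h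
    simp only [e, dif_pos h]
  have he2 : ∀ v (h : v ∈ A.filter (fun v => ¬ δ v)), e v = (E2 ⟨v, h⟩ : K.J × Bool) := by
    intro v h
    have h' : v ∉ A.filter δ := by
      intro h'
      exact (Finset.mem_filter.1 h).2 (Finset.mem_filter.1 h').2
    simp only [e, dif_neg h', dif_pos h]
  have heA : ∀ v ∈ A, e v ∈ X ∧ (δ v ↔ ε (e v).1 = true) := by
    intro v hv
    by_cases hd : δ v
    · have h1 : v ∈ A.filter δ := Finset.mem_filter.2 ⟨hv, hd⟩
      have h2 := Finset.mem_filter.1 (E1 ⟨v, h1⟩).2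
      rw [he1 v h1]
      exact ⟨h2.1, iff_of_true hd h2.2⟩
    · have h1 : v ∈ A.filter (fun v => ¬ δ v) := Finset.mem_filter.2 ⟨hv, hd⟩
      have h2 := Finset.mem_filter.1 (E2 ⟨v, h1⟩).2
      rw [he2 v h1]
      exact ⟨h2.1, iff_of_false hd h2.2⟩
  have heinj : ∀ u ∈ A, ∀ v ∈ A, e u = e v → u = v := by
    intro u hu v hv h
    have h1 := (heA u hu).2
    have h2 := (heA v hv).2
    rw [h, ← h2] at h1
    by_cases hd : δ v
    · have a1 : u ∈ A.filter δ := Finset.mem_filter.2 ⟨hu, h1.2 hd⟩
      have a2 : v ∈ A.filter δ := Finset.mem_filter.2 ⟨hv, hd⟩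
      rw [he1 u a1, he1 v a2] at h
      have := E1.injective (Subtype.ext h)
      exact congrArg Subtype.val this
    · have a1 : u ∈ A.filter (fun v => ¬ δ v) := Finset.mem_filter.2 ⟨hu, fun h' => hd (h1.1 h')⟩
      have a2 : v ∈ A.filter (fun v => ¬ δ v) := Finset.mem_filter.2 ⟨hv, hd⟩
      rw [he2 u a1, he2 v a2] at h
      have := E2.injective (Subtype.ext h)
      exact congrArg Subtype.val this
  let φ : Fin n → K.V := fun v => if v = p ∨ v = q then w else K.nb w (e v)
  have hφ1 : ∀ v, v = p ∨ v = q → φ v = w := fun v h => by simp only [φ, if_pos h]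
  have hφ2 : ∀ v, v ≠ p → v ≠ q → φ v = K.nb w (e v) := fun v h h' => by
    simp only [φ, if_neg (not_or.2 ⟨h, h'⟩)]
  refine ⟨φ, w, K.nb w (j0, true), ε, hφ1 p (Or.inl rfl), hφ1 q (Or.inr rfl), ?_, ?_, ?_⟩
  · intro v
    by_cases hv : v = p ∨ v = q
    · rw [hφ1 v hv]
      exact (K.nb_ne _ _).symm
    · rw [not_or] at hv
      rw [hφ2 v hv.1 hv.2]
      intro h
      have h1 := K.nb_injective w h
      have h2 := (heA v ((hAm v).2 hv)).1
      rw [h1] at h2
      simp [hX] at h2
  · intro u v h huv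
    by_cases hu : u = p ∨ u = q
    · by_cases hv : v = p ∨ v = q
      · rcases hu with rfl | rfl
        · rcases hv with rfl | rfl
          · exact absurd rfl huv
          · exact Or.inl ⟨rfl, rfl⟩
        · rcases hv with rfl | rfl
          · exact Or.inr ⟨rfl, rfl⟩
          · exact absurd rfl huv
      · rw [not_or] at hv
        rw [hφ1 u hu, hφ2 v hv.1 hv.2] at h
        exact absurd h.symm (K.nb_ne _ _)
    · rw [not_or] at hu
      by_cases hv : v = p ∨ v = q
      · rw [hφ1 v hv, hφ2 u hu.1 hu.2] at h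
        exact absurd h (K.nb_ne _ _)
      · rw [not_or] at hv
        rw [hφ2 u hu.1 hu.2, hφ2 v hv.1 hv.2] at h
        exact absurd (heinj u ((hAm u).2 hu) v ((hAm v).2 hv) (K.nb_injective w h)) huv
  · intro j v hvp hvq h
    rw [hφ2 v hvp hvq] at h
    have h1 := (heA v ((hAm v).2 ⟨hvp, hvq⟩)).2
    rcases h with h | h
    · have h2 : K.nb w (j, true) = K.nb w (e v) := by
        rw [← h]
        simp [Kotzig.nb]
      rw [← K.nb_injective w h2] at h1
      exact h1
    · have h2 : K.nb w (j, false) = K.nb w (e v) := by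
        rw [← (K.f j).symm_apply_apply (K.nb w (e v)), h]
        simp [Kotzig.nb]
      rw [← K.nb_injective w h2] at h1
      exact h1

/-- The representation. -/
lemma exists_rep {n : ℕ} (G : SimpleGraph (Fin n)) (K : Kotzig n) (p q r : Fin n) (hpq : p ≠ q)
    (hrp : r ≠ p) (hrq : r ≠ q) (h1 : ¬ G.Adj p q) (h2 : ¬ G.Adj q r) (h3 : G.Adj p r) :
    ∃ π : Fin n → Equiv.Perm (Fin n), IsRep G π := by
  classical
  let H : Fin n → Fin n → Prop := fun u v => u ≠ v ∧ ¬ G.Adj u v
  have Hsymm : ∀ u v, H u v → H v u := fun u v h => ⟨h.1.symm, fun h' => h.2 h'.symm⟩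
  have hHpq : H p q := ⟨hpq, h1⟩
  let δ : Fin n → Prop := fun v => ¬ (H p v ↔ H q v)
  have hδr : δ r := by
    intro h
    exact (h.2 ⟨hrq.symm, h2⟩).2 h3
  obtain ⟨φ, w, o, ε, hφp, hφq, hφo, hφi, hδ⟩ := exists_phi K p q r hpq hrp hrq δ
  let Hp : K.V → K.V → Prop := fun x y => ∃ a b : Fin n, a ≠ q ∧ b ≠ q ∧ H a b ∧ φ a = x ∧ φ b = y
  have hφi' : ∀ a b, a ≠ q → b ≠ q → φ a = φ b → a = b := by
    intro a b ha hb h
    by_contra hab
    rcases hφi a b h hab with h' | h'
    · exact hb h'.2
    · exact ha h'.1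
  have hHp : ∀ a b, a ≠ q → b ≠ q → (Hp (φ a) (φ b) ↔ H a b) := by
    intro a b ha hb
    constructor
    · rintro ⟨a', b', ha', hb', h, e1, e2⟩
      rw [hφi' a' a ha' ha e1, hφi' b' b hb' hb e2] at h
      exact h
    · intro h
      exact ⟨a, b, ha, hb, h, rfl, rfl⟩
  have hsign : ∀ j, ∃ σ : K.V → Bool, ∀ u, K.f j u ≠ o → (σ u ≠ σ (K.f j u) ↔ Hp u (K.f j u)) :=
    fun j => exists_sign (K.f j) o (fun v => K.trans j o v) (fun u => Hp u (K.f j u))
  choose σ hσ using hsign
  let τ : K.J → Fin n → Bool := fun j v => if v = q then xor (σ j w) (ε j) else σ j (φ v)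
  have hτq : ∀ j, τ j q = xor (σ j w) (ε j) := fun j => by simp only [τ, if_true]
  have hτ' : ∀ j v, v ≠ q → τ j v = σ j (φ v) := fun j v hv => by simp only [τ, if_neg hv]
  -- the signs of all vertices
  have hτ : ∀ j u v, K.f j (φ u) = φ v → (τ j u ≠ τ j v ↔ H u v) := by
    intro j u v huv
    by_cases hu : u = q
    · by_cases hv : v = q
      · subst hu
        subst hv
        exact absurd huv (K.f_ne _ _)
      · -- `u = q`
        have hvp : v ≠ p := by
          intro h
          rw [h, hu, hφp, hφq] at huv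
          exact K.f_ne _ _ huv
        rw [hu, hφq] at huv
        have a1 := hδ j v hvp hv (Or.inl huv)
        have a2 := hσ j w (by rw [huv]; exact hφo v)
        rw [huv, ← hφp, hHp p v hpq hv, hφp] at a2
        rw [hu, hτq, hτ' j v hv]
        simp only [δ] at a1
        by_cases b1 : H p v <;> by_cases b2 : H q v <;>
          simp only [b1, b2, iff_true, iff_false, not_true_eq_false, not_false_eq_true, iff_self,
            true_iff, false_iff, ne_eq] at a1 a2 ⊢ <;>
          (revert a1 a2; cases σ j w <;> cases σ j (φ v) <;> cases ε j <;> simp)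
    · by_cases hv : v = q
      · have hup : u ≠ p := by
          intro h
          rw [h, hv, hφp, hφq] at huv
          exact K.f_ne _ _ huv
        rw [hv, hφq] at huv
        have a1 := hδ j u hup hu (Or.inr huv)
        have hwo : w ≠ o := by rw [← hφq]; exact hφo q
        have a2 := hσ j (φ u) (by rw [huv]; exact hwo)
        rw [huv, ← hφp, hHp u p hu hpq, hφp] at a2
        rw [hv, hτq, hτ' j u hu]
        simp only [δ] at a1
        have s1 : H p u ↔ H u p := ⟨Hsymm _ _, Hsymm _ _⟩
        have s2 : H q u ↔ H u q := ⟨Hsymm _ _, Hsymm _ _⟩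
        rw [s1, s2] at a1
        by_cases b1 : H u p <;> by_cases b2 : H u q <;>
          simp only [b1, b2, iff_true, iff_false, not_true_eq_false, not_false_eq_true, iff_self,
            true_iff, false_iff, ne_eq] at a1 a2 ⊢ <;>
          (revert a1 a2; cases σ j w <;> cases σ j (φ u) <;> cases ε j <;> simp)
      · rw [hτ' j u hu, hτ' j v hv, ← huv]
        rw [hσ j (φ u) (by rw [huv]; exact hφo v), huv, hHp u v hu hv]
  have hφH : ∀ u v, u ≠ v → φ u = φ v → H u v := by
    intro u v huv h
    rcases hφi u v h huv with ⟨rfl, rfl⟩ | ⟨rfl, rfl⟩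
    · exact hHpq
    · exact Hsymm _ _ hHpq
  -- rows
  let row : Fin n → Option (K.J × Bool) → K.C := fun u s =>
    match s with
    | none => K.col (φ u) (φ u)
    | some p => K.col (φ u) (K.nb (φ u) (p.1, decide (p.2 = τ p.1 u)))
  have row_none : ∀ u, row u none = K.col (φ u) (φ u) := fun u => rfl
  have row_some : ∀ u j b, row u (some (j, b)) =
      K.col (φ u) (K.nb (φ u) (j, decide (b = τ j u))) := fun u j b => rfl
  have row_inj : ∀ u, Function.Injective (row u) := by
    intro u s s' h
    rcases s with _ | ⟨j, b⟩ <;> rcases s' with _ | ⟨j', b'⟩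
    · rfl
    · rw [row_none, row_some] at h
      exact absurd (K.col_inj _ h).symm (K.nb_ne _ _)
    · rw [row_none, row_some] at h
      exact absurd (K.col_inj _ h) (K.nb_ne _ _)
    · rw [row_some, row_some] at h
      have h1 := K.nb_injective _ (K.col_inj _ h)
      simp only [Prod.mk.injEq, decide_eq_decide] at h1
      obtain ⟨h2, h3⟩ := h1
      subst h2
      have : b = b' := by
        cases b <;> cases b' <;> cases hh : τ j u <;> simp_all
      rw [this]
  -- agreements
  have agree1 : ∀ u v, u ≠ v → ∀ s, row u s = row v s → H u v := by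
    intro u v huv s hs
    rcases s with _ | ⟨j, b⟩
    · rw [row_none, row_none] at hs
      exact hφH u v huv (K.diag_inj hs)
    · rw [row_some, row_some] at hs
      unfold Kotzig.nb at hs
      by_cases h1 : b = τ j u <;> by_cases h2 : b = τ j v
      · simp only [decide_eq_true h1, decide_eq_true h2, if_true] at hs
        exact hφH u v huv (K.orth j hs)
      · simp only [decide_eq_true h1, decide_eq_false h2, if_true, Bool.false_eq_true,
          if_false] at hs
        rw [K.col_comm (φ v)] at hs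
        have h3 : K.col (φ u) (K.f j (φ u)) =
            K.col ((K.f j).symm (φ v)) (K.f j ((K.f j).symm (φ v))) := by
          rw [hs, Equiv.apply_symm_apply]
        have h4 : φ u = (K.f j).symm (φ v) := K.orth j h3
        have h5 : K.f j (φ u) = φ v := by rw [h4, Equiv.apply_symm_apply]
        exact (hτ j u v h5).1 (by rw [← h1]; exact h2)
      · simp only [decide_eq_false h1, decide_eq_true h2, if_true, Bool.false_eq_true,
          if_false] at hs
        rw [K.col_comm (φ u)] at hs
        have h3 : K.col ((K.f j).symm (φ u)) (K.f j ((K.f j).symm (φ u))) =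
            K.col (φ v) (K.f j (φ v)) := by
          rw [← hs, Equiv.apply_symm_apply]
        have h4 : (K.f j).symm (φ u) = φ v := K.orth j h3
        have h5 : K.f j (φ v) = φ u := by rw [← h4, Equiv.apply_symm_apply]
        exact Hsymm _ _ ((hτ j v u h5).1 (by rw [← h2]; exact h1))
      · simp only [decide_eq_false h1, decide_eq_false h2, Bool.false_eq_true, if_false] at hs
        rw [K.col_comm (φ u), K.col_comm (φ v)] at hs
        have h3 : K.col ((K.f j).symm (φ u)) (K.f j ((K.f j).symm (φ u))) =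
            K.col ((K.f j).symm (φ v)) (K.f j ((K.f j).symm (φ v))) := by
          rw [Equiv.apply_symm_apply, Equiv.apply_symm_apply]
          exact hs
        exact hφH u v huv ((K.f j).symm.injective (K.orth j h3))
  have agree2' : ∀ u v j, K.f j (φ u) = φ v → H u v → ∃ s, row u s = row v s := by
    intro u v j hj hH'
    have h1 := (hτ j u v hj).2 hH'
    refine ⟨some (j, τ j u), ?_⟩
    rw [row_some, row_some]
    unfold Kotzig.nb
    simp only [decide_true, decide_eq_false h1, if_true, Bool.false_eq_true, if_false]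
    rw [hj, K.col_comm (φ v)]
    congr 1
    rw [← hj, Equiv.symm_apply_apply]
  have agree2 : ∀ u v, u ≠ v → H u v → ∃ s, row u s = row v s := by
    intro u v huv hH'
    by_cases hφ : φ u = φ v
    · exact ⟨none, by rw [row_none, row_none, hφ]⟩
    · obtain ⟨j, h | h⟩ := K.cover _ _ hφ
      · exact agree2' u v j h hH'
      · obtain ⟨s, hs⟩ := agree2' v u j h (Hsymm _ _ hH')
        exact ⟨s, hs.symm⟩
  -- the permutations
  have hcardS : Nat.card (Option (K.J × Bool)) = n := by
    rw [Finite.card_option, Nat.card_prod, Nat.card_eq_fintype_card (α := Bool),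
      Fintype.card_bool]
    have := K.cardJ
    omega
  let eS : Option (K.J × Bool) ≃ Fin n := Finite.equivFinOfCardEq hcardS
  let eC : K.C ≃ Fin n := Finite.equivFinOfCardEq K.cardC
  have row_bij : ∀ u, Function.Bijective (row u) := by
    intro u
    rw [Nat.bijective_iff_injective_and_card]
    exact ⟨row_inj u, by rw [hcardS, K.cardC]⟩
  let π : Fin n → Equiv.Perm (Fin n) := fun a =>
    eS.symm.trans ((Equiv.ofBijective _ (row_bij a)).trans eC)
  have hπ : ∀ a i, π a i = eC (row a (eS.symm i)) := fun a i => rfl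
  have hrow : ∀ a b, π a = π b → ∀ s, row a s = row b s := by
    intro a b hab s
    have h1 : π a (eS s) = π b (eS s) := by rw [hab]
    rw [hπ, hπ, Equiv.symm_apply_apply] at h1
    exact eC.injective h1
  have hpqrow : ¬ ∀ s, row p s = row q s := by
    intro h
    have hwr : w ≠ φ r := by
      intro h'
      rw [← hφp] at h'
      rcases hφi p r h' hrp.symm with h'' | h''
      · exact hrq h''.2
      · exact hpq h''.1
    obtain ⟨j, hj⟩ := K.cover w (φ r) hwr
    have h4 : ε j = true := (hδ j r hrp hrq hj).1 hδr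
    have h5 := h (some (j, true))
    rw [row_some, row_some, hφp, hφq] at h5
    have h6 := K.nb_injective _ (K.col_inj _ h5)
    simp only [Prod.mk.injEq, decide_eq_decide, true_and] at h6
    rw [hτq, hτ' j p hpq, hφp, h4] at h6
    cases hh : σ j w <;> simp [hh] at h6
  refine ⟨π, ?_, ?_⟩
  · intro a b hab
    by_contra hne
    have h4 := hrow a b hab
    have h5 := h4 none
    rw [row_none, row_none] at h5
    rcases hφi a b (K.diag_inj h5) hne with ⟨rfl, rfl⟩ | ⟨rfl, rfl⟩
    · exact hpqrow h4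
    · exact hpqrow fun s => (h4 s).symm
  · intro a b hab
    constructor
    · intro h i hi
      rw [hπ, hπ] at hi
      exact (agree1 _ _ hab _ (eC.injective hi)).2 h
    · intro h
      by_contra hadj
      obtain ⟨s, hs⟩ := agree2 a b hab ⟨hab, hadj⟩
      apply h (eS s)
      rw [hπ, hπ, Equiv.symm_apply_apply, hs]

end Fat

theorem thm_fat : ClaimFat := by
  intro n G hn hnt
  push Not at hnt
  obtain ⟨a, b, c, h1, h2, h3⟩ := hnt
  obtain ⟨K⟩ := exists_kotzig n hn
  have hab : a ≠ b := by
    rintro rfl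
    exact h2 h3
  have hca : c ≠ a := h3.ne'
  have hcb : c ≠ b := by
    rintro rfl
    exact h1 h3
  exact Fat.exists_rep G K a b c hab hca hcb h1 h2 h3

end Pool.Agent.Work.MP_12b649_co.Odd

end

section

/-!
# Complete multipartite graphs
-/

namespace Pool.Agent.Work.MP_12b649_co.Odd

section perms

variable {n : ℕ}

/-- Shift by `c`, possibly composed with the transposition of `k` and `k + 1`. -/
def tau (c : ℕ) (o : Option (ZMod n)) : Equiv.Perm (ZMod n) :=
  match o with
  | none => Equiv.addRight (c : ZMod n)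
  | some k => (Equiv.swap k (k + 1)).trans (Equiv.addRight (c : ZMod n))

lemma tau_none (c : ℕ) (x : ZMod n) : tau c none x = x + c := rfl

lemma tau_some (c : ℕ) (k x : ZMod n) : tau c (some k) x = Equiv.swap k (k + 1) x + c := rfl

lemma tau_left (c : ℕ) (k : ZMod n) : tau c (some k) k = k + 1 + c := by
  rw [tau_some, Equiv.swap_apply_left]

lemma tau_right (c : ℕ) (k : ZMod n) : tau c (some k) (k + 1) = k + c := by
  rw [tau_some, Equiv.swap_apply_right]

lemma tau_other (c : ℕ) (k x : ZMod n) (h1 : x ≠ k) (h2 : x ≠ k + 1) :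
    tau c (some k) x = x + c := by
  rw [tau_some, Equiv.swap_apply_of_ne_of_ne h1 h2]

/-- The displacement of `tau`. -/
lemma tau_disp (c : ℕ) (o : Option (ZMod n)) (x : ZMod n) :
    ∃ δ : ℤ, tau c o x = x + (((c : ℤ) + δ : ℤ) : ZMod n) ∧
      (δ = 0 ∨ (δ = 1 ∧ ∃ k, o = some k ∧ x = k) ∨ (δ = -1 ∧ ∃ k, o = some k ∧ x = k + 1)) := by
  rcases o with _ | k
  · refine ⟨0, ?_, Or.inl rfl⟩
    rw [tau_none]; push_cast; ring
  · by_cases h1 : x = k
    · refine ⟨1, ?_, Or.inr (Or.inl ⟨rfl, k, rfl, h1⟩)⟩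
      rw [h1, tau_left]; push_cast; ring
    · by_cases h2 : x = k + 1
      · refine ⟨-1, ?_, Or.inr (Or.inr ⟨rfl, k, rfl, h2⟩)⟩
        rw [h2, tau_right]; push_cast; ring
      · refine ⟨0, ?_, Or.inl rfl⟩
        rw [tau_other c k x h1 h2]; push_cast; ring

lemma small_eq (a b : ℤ) (h : ((a : ℤ) : ZMod n) = ((b : ℤ) : ZMod n))
    (h1 : a - b < 2 * n) (h2 : b - a < 2 * n) : a = b ∨ a = b + n ∨ b = a + n := by
  have h3 : (n : ℤ) ∣ b - a := (ZMod.intCast_eq_intCast_iff_dvd_sub a b n).mp h
  obtain ⟨t, ht⟩ := h3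
  have h4 : (0 : ℤ) ≤ n := Int.natCast_nonneg n
  have h5 : t < 2 := by
    by_contra h'
    have : (n : ℤ) * 2 ≤ n * t := mul_le_mul_of_nonneg_left (by omega) h4
    omega
  have h6 : -2 < t := by
    by_contra h'
    have : (n : ℤ) * t ≤ n * (-2) := mul_le_mul_of_nonneg_left (by omega) h4
    omega
  have h7 : t = -1 ∨ t = 0 ∨ t = 1 := by omega
  rcases h7 with h7 | h7 | h7
  · subst h7
    right; left
    omega
  · subst h7
    left
    omega
  · subst h7
    right; right
    omega

/-- Separation of two permutations of different classes. -/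
lemma sep (hn : 5 ≤ n) (c c' : ℕ) (hc : c < n) (hc' : c' < n) (h0 : c ≠ c')
    (o o' : Option (ZMod n))
    (h2 : (o ≠ none ∨ o' ≠ none) →
      (c + 2 ≤ c' ∧ c' + 2 ≤ c + n) ∨ (c' + 2 ≤ c ∧ c + 2 ≤ c' + n))
    (hk : ∀ k k', o = some k → o' = some k' →
      ((c' = c + 2 ∨ c + 2 = c' + n) → k ≠ k' + 1) ∧
      ((c = c' + 2 ∨ c' + 2 = c + n) → k' ≠ k + 1)) (x : ZMod n) :
    tau c o x ≠ tau c' o' x := by
  intro hx
  obtain ⟨δ, h3, h4⟩ := tau_disp c o x
  obtain ⟨δ', h3', h4'⟩ := tau_disp c' o' x
  rw [h3, h3'] at hx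
  have hx' := add_left_cancel hx
  have hb : δ = 0 ∨ δ = 1 ∨ δ = -1 := by
    rcases h4 with h | h | h
    · exact Or.inl h
    · exact Or.inr (Or.inl h.1)
    · exact Or.inr (Or.inr h.1)
  have hb' : δ' = 0 ∨ δ' = 1 ∨ δ' = -1 := by
    rcases h4' with h | h | h
    · exact Or.inl h
    · exact Or.inr (Or.inl h.1)
    · exact Or.inr (Or.inr h.1)
  have h5 := small_eq _ _ hx' (by omega) (by omega)
  rcases h4 with h4 | ⟨h4, k, hk1, hk2⟩ | ⟨h4, k, hk1, hk2⟩ <;>
    rcases h4' with h4' | ⟨h4', k', hk1', hk2'⟩ | ⟨h4', k', hk1', hk2'⟩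
  · omega
  · have := h2 (Or.inr (by rw [hk1']; simp))
    omega
  · have := h2 (Or.inr (by rw [hk1']; simp))
    omega
  · have := h2 (Or.inl (by rw [hk1]; simp))
    omega
  · have := h2 (Or.inl (by rw [hk1]; simp))
    omega
  · -- `δ = 1`, `δ' = -1`
    have := h2 (Or.inl (by rw [hk1]; simp))
    have h6 := (hk k k' hk1 hk1').1
    have h7 : c' = c + 2 ∨ c + 2 = c' + n := by omega
    exact h6 h7 (by rw [← hk2, hk2'])
  · have := h2 (Or.inl (by rw [hk1]; simp))
    omega
  · -- `δ = -1`, `δ' = 1`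
    have := h2 (Or.inl (by rw [hk1]; simp))
    have h6 := (hk k k' hk1 hk1').2
    have h7 : c = c' + 2 ∨ c' + 2 = c + n := by omega
    exact h6 h7 (by rw [← hk2', hk2])
  · have := h2 (Or.inl (by rw [hk1]; simp))
    omega

lemma natCast_ne (hn : 5 ≤ n) (a b : ℕ) (hab : a ≠ b) (ha : a < n) (hb : b < n) :
    (a : ZMod n) ≠ b := by
  intro h
  have h1 : ((a : ℤ) : ZMod n) = ((b : ℤ) : ZMod n) := by exact_mod_cast h
  have := small_eq (a : ℤ) (b : ℤ) h1 (by omega) (by omega)
  omega

lemma one_ne (hn : 5 ≤ n) : (1 : ZMod n) ≠ 0 := by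
  have := natCast_ne hn 1 0 (by omega) (by omega) (by omega)
  simpa using this

lemma two_ne (hn : 5 ≤ n) : (2 : ZMod n) ≠ 0 := by
  have := natCast_ne hn 2 0 (by omega) (by omega) (by omega)
  simpa using this

lemma two_ne_three (hn : 5 ≤ n) : (2 : ZMod n) ≠ 2 + 1 := by
  intro h
  exact one_ne hn (by linear_combination -h)

lemma k_ne (hn : 5 ≤ n) (k : ZMod n) : k ≠ k + 1 := by
  intro h
  exact one_ne hn (by linear_combination -h)

/-- Two permutations of one class agree somewhere. -/
lemma meet (hn : 5 ≤ n) (c : ℕ) (o o' : Option (ZMod n)) : ∃ x, tau c o x = tau c o' x := by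
  have : NeZero n := ⟨by omega⟩
  have key : ∀ S : Finset (ZMod n), S.card ≤ 4 → ∃ x, x ∉ S := by
    intro S hS
    by_contra hcon
    push Not at hcon
    have h1 : S = Finset.univ := Finset.eq_univ_of_forall hcon
    have h2 : S.card = n := by rw [h1, Finset.card_univ, ZMod.card]
    omega
  rcases o with _ | k <;> rcases o' with _ | k'
  · exact ⟨0, rfl⟩
  · obtain ⟨x, hx⟩ := key {k', k' + 1} (Finset.card_le_two.trans (by omega))
    simp only [Finset.mem_insert, Finset.mem_singleton, not_or] at hx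
    exact ⟨x, by rw [tau_other c k' x hx.1 hx.2]; rfl⟩
  · obtain ⟨x, hx⟩ := key {k, k + 1} (Finset.card_le_two.trans (by omega))
    simp only [Finset.mem_insert, Finset.mem_singleton, not_or] at hx
    exact ⟨x, by rw [tau_other c k x hx.1 hx.2]; rfl⟩
  · obtain ⟨x, hx⟩ := key {k, k + 1, k', k' + 1} Finset.card_le_four
    simp only [Finset.mem_insert, Finset.mem_singleton, not_or] at hx
    exact ⟨x, by rw [tau_other c k x hx.1 hx.2.1, tau_other c k' x hx.2.2.1 hx.2.2.2]⟩

/-- Different permutations of one class. -/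
lemma tau_inj (hn : 5 ≤ n) (c : ℕ) (o o' : Option (ZMod n)) (h : tau c o = tau c o') : o = o' := by
  have key : ∀ (k : ZMod n) (o : Option (ZMod n)), tau c (some k) = tau c o → o = some k := by
    intro k o h
    have h1 : tau c (some k) k = tau c o k := by rw [h]
    rw [tau_left] at h1
    rcases o with _ | k'
    · rw [tau_none] at h1
      exact absurd (by linear_combination h1) (one_ne hn)
    · by_cases h2 : k = k'
      · rw [h2]
      · by_cases h3 : k = k' + 1
        · rw [h3, tau_right] at h1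
          exact absurd (by linear_combination h1) (two_ne hn)
        · rw [tau_other c k' k h2 h3] at h1
          exact absurd (by linear_combination h1) (one_ne hn)
  rcases o with _ | k
  · rcases o' with _ | k'
    · rfl
    · exact (key k' none h.symm)
  · exact (key k o' h).symm

/-- The position of the swap for the vertex number `i` of a class. -/
def kap (n i : ℕ) : Option (ZMod n) := if i = 0 then none else if i = 1 then some 2 else
  some ((i : ZMod n) + 2)

lemma kap_inj (hn : 5 ≤ n) {i j : ℕ} (hi : i < n) (hj : j < n) (h : kap n i = kap n j) : i = j := by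
  unfold kap at h
  split_ifs at h with h1 h2 h3 h4 h5 h6 h7 h8
  · omega
  · omega
  · simp only [Option.some.injEq] at h
    exact absurd (by
      have : ((j : ZMod n)) = ((0 : ℕ) : ZMod n) := by push_cast; linear_combination -h
      exact this) (natCast_ne hn j 0 (by omega) hj (by omega))
  · simp only [Option.some.injEq] at h
    exact absurd (by
      have : ((i : ZMod n)) = ((0 : ℕ) : ZMod n) := by push_cast; linear_combination h
      exact this) (natCast_ne hn i 0 (by omega) hi (by omega))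
  · simp only [Option.some.injEq, add_left_inj] at h
    by_contra hij
    exact natCast_ne hn i j hij hi hj h

lemma kap_one (n : ℕ) : kap n 1 = some 2 := by simp [kap]
lemma kap_zero (n : ℕ) : kap n 0 = none := by simp [kap]

lemma kap_ne_three (hn : 5 ≤ n) {i : ℕ} (hi : i < n) (k : ZMod n) (h : kap n i = some k) :
    k ≠ 2 + 1 := by
  unfold kap at h
  split_ifs at h with h1 h2
  · simp only [Option.some.injEq] at h
    rw [← h]
    exact two_ne_three hn
  · simp only [Option.some.injEq] at h
    rw [← h]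
    intro h3
    exact absurd (by
      have : ((i : ZMod n)) = ((1 : ℕ) : ZMod n) := by push_cast; linear_combination h3
      exact this) (natCast_ne hn i 1 (by omega) hi (by omega))

/-- Separation from the block. -/
lemma block_sep (hn : 5 ≤ n) (f : Equiv.Perm (ZMod n))
    (hf : ∀ x, f x = x ∨ f x = x + 1 ∨ f x = x + 2) (hf3 : f 3 ≠ 3 + 2) (c : ℕ)
    (o : Option (ZMod n)) (hc3 : 3 ≤ c) (hc : c < n)
    (ho : o = none ∨ (o = some 2 ∧ c + 2 ≤ n)) (x : ZMod n) : f x ≠ tau c o x := by
  intro hx
  obtain ⟨δ, h3, h4⟩ := tau_disp c o x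
  rw [h3] at hx
  obtain ⟨e, he, he2⟩ : ∃ e : ℤ, f x = x + ((e : ℤ) : ZMod n) ∧ (e = 0 ∨ e = 1 ∨ e = 2) := by
    rcases hf x with h | h | h
    · exact ⟨0, by rw [h]; simp, by omega⟩
    · exact ⟨1, by rw [h]; simp, by omega⟩
    · exact ⟨2, by rw [h]; simp, by omega⟩
  rw [he] at hx
  have hx' := add_left_cancel hx
  have hb : δ = 0 ∨ δ = 1 ∨ δ = -1 := by
    rcases h4 with h | h | h
    · exact Or.inl h
    · exact Or.inr (Or.inl h.1)
    · exact Or.inr (Or.inr h.1)
  have h5 := small_eq _ _ hx' (by omega) (by omega)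
  rcases h4 with h4 | ⟨h4, k, hk1, hk2⟩ | ⟨h4, k, hk1, hk2⟩
  · omega
  · rcases ho with ho | ⟨ho, ho2⟩
    · rw [ho] at hk1; simp at hk1
    · omega
  · rcases ho with ho | ⟨ho, ho2⟩
    · rw [ho] at hk1; simp at hk1
    · have hk : k = 2 := by
        rw [ho] at hk1
        simpa using hk1.symm
      have he3 : e = 2 := by omega
      apply hf3
      have hx3 : x = 3 := by rw [hk2, hk]; ring
      rw [← hx3, he, he3]
      norm_num

end perms

/-- The classes of a complete multipartite graph. -/
lemma classes {n : ℕ} (G : SimpleGraph (Fin n))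
    (hT : ∀ a b c, ¬ G.Adj a b → ¬ G.Adj b c → ¬ G.Adj a c) :
    ∃ (Q : Type) (_ : Fintype Q) (cl : Fin n → Q) (idx : Fin n → ℕ) (m : Q → ℕ),
      (∀ u v, cl u = cl v ↔ ¬ G.Adj u v) ∧ (∀ v, idx v < m (cl v)) ∧
      (∀ u v, cl u = cl v → idx u = idx v → u = v) ∧ (∀ q, 1 ≤ m q) ∧ ∑ q, m q = n := by
  classical
  let S : Setoid (Fin n) :=
    { r := fun a b => ¬ G.Adj a b
      iseqv := ⟨fun a => G.irrefl, fun {a b} h h' => h h'.symm, fun {a b c} h h' => hT a b c h h'⟩ }
  let cl : Fin n → Quotient S := fun v => Quotient.mk S v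
  have hcl : ∀ u v, cl u = cl v ↔ ¬ G.Adj u v := fun u v => Quotient.eq (r := S)
  refine ⟨Quotient S, inferInstance, cl,
    fun v => (Finset.univ.filter (fun u => u < v ∧ cl u = cl v)).card,
    fun q => (Finset.univ.filter (fun v => cl v = q)).card, hcl, ?_, ?_, ?_, ?_⟩
  · intro v
    apply Finset.card_lt_card
    rw [Finset.ssubset_iff_of_subset]
    · exact ⟨v, by simp, by simp⟩
    · intro u hu
      simp only [Finset.mem_filter, Finset.mem_univ, true_and] at hu ⊢
      exact hu.2
  · have key : ∀ u v, u < v → cl u = cl v →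
        (Finset.univ.filter (fun x => x < u ∧ cl x = cl u)).card <
        (Finset.univ.filter (fun x => x < v ∧ cl x = cl v)).card := by
      intro u v huv hc
      apply Finset.card_lt_card
      rw [Finset.ssubset_iff_of_subset]
      · exact ⟨u, by simp [huv, hc], by simp⟩
      · intro x hx
        simp only [Finset.mem_filter, Finset.mem_univ, true_and] at hx ⊢
        exact ⟨hx.1.trans huv, hx.2.trans hc⟩
    intro u v hc hi
    rcases lt_trichotomy u v with h | h | h
    · have := key u v h hc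
      dsimp only at hi
      omega
    · exact h
    · have := key v u h hc.symm
      dsimp only at hi
      omega
  · intro q
    obtain ⟨v, hv⟩ := Quotient.exists_rep q
    apply Finset.card_pos.mpr
    exact ⟨v, by simp only [Finset.mem_filter, Finset.mem_univ, true_and]; exact hv⟩
  · have := Finset.card_eq_sum_card_fiberwise (s := (Finset.univ : Finset (Fin n)))
      (t := (Finset.univ : Finset (Quotient S))) (f := cl) (fun x _ => Finset.mem_univ _)
    rw [← this, Finset.card_univ, Fintype.card_fin]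

/-- From permutations of `ZMod n` to a representation. -/
lemma rep_of {n : ℕ} (hn : 5 ≤ n) (G : SimpleGraph (Fin n)) (σ : Fin n → Equiv.Perm (ZMod n))
    (h1 : ∀ u v, u ≠ v → ¬ G.Adj u v → (∃ x, σ u x = σ v x) ∧ σ u ≠ σ v)
    (h2 : ∀ u v, G.Adj u v → ∀ x, σ u x ≠ σ v x) :
    ∃ π : Fin n → Equiv.Perm (Fin n), IsRep G π := by
  have : NeZero n := ⟨by omega⟩
  let e : ZMod n ≃ Fin n := Fintype.equivOfCardEq (by rw [ZMod.card, Fintype.card_fin])
  refine ⟨fun v => e.symm.trans ((σ v).trans e), ?_, ?_⟩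
  · intro u v huv
    by_contra hne
    have h3 : ∀ x, σ u x = σ v x := by
      intro x
      have : (e.symm.trans ((σ u).trans e)) (e x) = (e.symm.trans ((σ v).trans e)) (e x) := by
        have huv' : e.symm.trans ((σ u).trans e) = e.symm.trans ((σ v).trans e) := huv
        rw [huv']
      simpa using this
    by_cases hadj : G.Adj u v
    · exact h2 u v hadj 0 (h3 0)
    · exact (h1 u v hne hadj).2 (Equiv.ext h3)
  · intro u v huv
    constructor
    · intro hadj i
      have := h2 u v hadj (e.symm i)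
      simpa using this
    · intro h
      by_contra hadj
      obtain ⟨x, hx⟩ := (h1 u v huv hadj).1
      apply h (e x)
      simpa using hx

theorem thm_multi (hP : ClaimPack) (hB : ClaimBlock) : ClaimMulti := by
  classical
  intro n G hn hT
  obtain ⟨Q, _, cl, idx, m, hcl, hidx, hidx2, hm1, hmn⟩ := classes G hT
  have hmle : ∀ q, m q ≤ n := by
    intro q
    rw [← hmn]
    exact Finset.single_le_sum (f := m) (fun _ _ => Nat.zero_le _) (Finset.mem_univ q)
  have hidxn : ∀ v, idx v < n := fun v => (hidx v).trans_le (hmle _)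
  have hkap0 : ∀ v, kap n (idx v) ≠ none → 2 ≤ m (cl v) := by
    intro v hv
    have h1 : idx v ≠ 0 := by
      intro h
      rw [h, kap_zero] at hv
      exact hv rfl
    have := hidx v
    omega
  have hkap2 : ∀ v, m (cl v) ≤ 2 → kap n (idx v) = none ∨ kap n (idx v) = some 2 := by
    intro v hv
    have := hidx v
    have h1 : idx v = 0 ∨ idx v = 1 := by omega
    rcases h1 with h1 | h1
    · left; rw [h1, kap_zero]
    · right; rw [h1, kap_one]
  by_cases hS : (∀ q, m q ≤ 2) ∧ (∃ q, m q = 1) ∧ ∃ q, m q = 2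
  · -- the special case
    obtain ⟨hm2, ⟨q1, hq1⟩, ⟨q2, hq2⟩⟩ := hS
    have hq12 : q1 ≠ q2 := by
      intro h
      rw [h] at hq1
      omega
    obtain ⟨a, a', b, ha, ha', hb, hab, ha'b, haa', hex, ha3, ha'3, hb3⟩ := hB n hn
    let w : Q → ℕ := fun q => if q = q1 ∨ q = q2 then 0 else m q
    have hsum : 3 + ∑ q, w q = n := by
      have h1 : ∀ q, m q = w q + ((if q = q1 then 1 else 0) + (if q = q2 then 2 else 0)) := by
        intro q
        by_cases h1 : q = q1
        · subst h1
          simp [w, hq12, hq1]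
        · by_cases h2 : q = q2
          · subst h2
            simp [w, h1, hq2]
          · simp [w, h1, h2]
      have h2 : ∑ q, m q = ∑ q, (w q + ((if q = q1 then 1 else 0) + (if q = q2 then 2 else 0))) :=
        Finset.sum_congr rfl fun q _ => h1 q
      rw [Finset.sum_add_distrib, Finset.sum_add_distrib, Finset.sum_ite_eq',
        Finset.sum_ite_eq'] at h2
      simp only [Finset.mem_univ, if_true] at h2
      omega
    obtain ⟨s, hs1, hs2, hs3⟩ := hP Q w 3 n hsum.le
    have hw : ∀ q, q ≠ q1 → q ≠ q2 → w q = m q := fun q h1 h2 => by simp [w, h1, h2]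
    let σ : Fin n → Equiv.Perm (ZMod n) := fun v =>
      if cl v = q1 then b else if cl v = q2 then (if idx v = 0 then a else a') else
        tau (s (cl v)) (kap n (idx v))
    have hσ1 : ∀ v, cl v = q1 → σ v = b := fun v h => by simp [σ, h]
    have hσ2 : ∀ v, cl v = q2 → σ v = if idx v = 0 then a else a' := fun v h => by
      simp [σ, h, hq12.symm]
    have hσ3 : ∀ v, cl v ≠ q1 → cl v ≠ q2 → σ v = tau (s (cl v)) (kap n (idx v)) := fun v h h' => by
      simp [σ, h, h']
    have hblock : ∀ v, (cl v = q1 ∨ cl v = q2) →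
        (∀ x, σ v x = x ∨ σ v x = x + 1 ∨ σ v x = x + 2) ∧ σ v 3 ≠ 3 + 2 := by
      intro v hv
      rcases hv with hv | hv
      · rw [hσ1 v hv]; exact ⟨hb, hb3⟩
      · rw [hσ2 v hv]
        split_ifs
        · exact ⟨ha, ha3⟩
        · exact ⟨ha', ha'3⟩
    have hreg : ∀ v, cl v ≠ q1 → cl v ≠ q2 → 3 ≤ s (cl v) ∧ s (cl v) < n ∧
        (kap n (idx v) = none ∨ (kap n (idx v) = some 2 ∧ s (cl v) + 2 ≤ n)) := by
      intro v h1 h2
      have h3 := hs1 (cl v)
      rw [hw _ h1 h2] at h3
      have h4 := hm1 (cl v)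
      refine ⟨h3.1, by omega, ?_⟩
      rcases hkap2 v (hm2 _) with h5 | h5
      · exact Or.inl h5
      · right
        have := hkap0 v (by rw [h5]; simp)
        exact ⟨h5, by omega⟩
    -- separation of different classes
    have hsep : ∀ u v, cl u ≠ cl v → ∀ x, σ u x ≠ σ v x := by
      have hbr : ∀ u v, (cl u = q1 ∨ cl u = q2) → cl v ≠ q1 → cl v ≠ q2 →
          ∀ x, σ u x ≠ σ v x := by
        intro u v hu h1 h2 x
        obtain ⟨h3, h4⟩ := hblock u hu
        obtain ⟨h5, h6, h7⟩ := hreg v h1 h2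
        rw [hσ3 v h1 h2]
        exact block_sep hn (σ u) h3 h4 _ _ h5 h6 h7 x
      have hbb : ∀ u v, cl u = q1 → cl v = q2 → ∀ x, σ u x ≠ σ v x := by
        intro u v hu hv x
        rw [hσ1 u hu, hσ2 v hv]
        split_ifs
        · exact (hab x).symm
        · exact (ha'b x).symm
      intro u v huv x
      by_cases hu1 : cl u = q1
      · by_cases hv2 : cl v = q2
        · exact hbb u v hu1 hv2 x
        · exact hbr u v (Or.inl hu1) (fun h => huv (hu1.trans h.symm)) hv2 x
      · by_cases hu2 : cl u = q2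
        · by_cases hv1 : cl v = q1
          · exact (hbb v u hv1 hu2 x).symm
          · exact hbr u v (Or.inr hu2) hv1 (fun h => huv (hu2.trans h.symm)) x
        · by_cases hv1 : cl v = q1
          · exact (hbr v u (Or.inl hv1) hu1 hu2 x).symm
          · by_cases hv2 : cl v = q2
            · exact (hbr v u (Or.inr hv2) hu1 hu2 x).symm
            · obtain ⟨h5, h6, h7⟩ := hreg u hu1 hu2
              obtain ⟨h5', h6', h7'⟩ := hreg v hv1 hv2
              have d1 := hs1 (cl u)
              have d2 := hs1 (cl v)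
              have d3 := hs2 (cl u) (cl v) huv
              have d4 := hs3 (cl u) (cl v)
              have d5 := hs3 (cl v) (cl u)
              rw [hw _ hu1 hu2] at d1 d3 d4 d5
              rw [hw _ hv1 hv2] at d2 d3 d4 d5
              have e1 := hm1 (cl u)
              have e2 := hm1 (cl v)
              have e3 := hm2 (cl u)
              have e4 := hm2 (cl v)
              rw [hσ3 u hu1 hu2, hσ3 v hv1 hv2]
              apply sep hn _ _ h6 h6' (by omega)
              · intro h
                rcases h with h | h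
                · have := hkap0 u h
                  omega
                · have := hkap0 v h
                  omega
              · intro k k' hk hk'
                have hk2 : k = 2 := by
                  rcases h7 with h7 | h7
                  · rw [h7] at hk; simp at hk
                  · rw [h7.1] at hk; simpa using hk.symm
                have hk2' : k' = 2 := by
                  rcases h7' with h7' | h7'
                  · rw [h7'] at hk'; simp at hk'
                  · rw [h7'.1] at hk'; simpa using hk'.symm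
                rw [hk2, hk2']
                exact ⟨fun _ => two_ne_three hn, fun _ => two_ne_three hn⟩
    apply rep_of hn G σ
    · intro u v huv hadj
      have hc : cl u = cl v := (hcl u v).2 hadj
      by_cases h1 : cl u = q1
      · exfalso
        have h3 := hidx u
        have h4 := hidx v
        rw [← hc] at h4
        rw [h1, hq1] at h3 h4
        exact huv (hidx2 u v hc (by omega))
      · by_cases h2 : cl u = q2
        · have h3 := hidx u
          have h4 := hidx v
          rw [← hc] at h4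
          rw [h2, hq2] at h3 h4
          have h5 : idx u ≠ idx v := fun h => huv (hidx2 u v hc h)
          rw [hσ2 u h2, hσ2 v (hc ▸ h2)]
          obtain ⟨x, hx⟩ := hex
          by_cases h6 : idx u = 0
          · have h7 : idx v ≠ 0 := by omega
            rw [if_pos h6, if_neg h7]
            exact ⟨⟨x, hx⟩, haa'⟩
          · have h7 : idx v = 0 := by omega
            rw [if_neg h6, if_pos h7]
            exact ⟨⟨x, hx.symm⟩, haa'.symm⟩
        · rw [hσ3 u h1 h2, hσ3 v (hc ▸ h1) (hc ▸ h2), ← hc]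
          refine ⟨meet hn _ _ _, fun h => ?_⟩
          have := tau_inj hn _ _ _ h
          exact huv (hidx2 u v hc (kap_inj hn (hidxn u) (hidxn v) this))
    · intro u v hadj
      exact hsep u v (fun h => (hcl u v).1 h hadj)
  · -- the general case
    have hbig : ∀ q q', m q = 1 → m q' = 2 → ∃ q'', 3 ≤ m q'' := by
      intro q q' h1 h2
      by_contra hcon
      push Not at hcon
      exact hS ⟨fun q => by have := hcon q; omega, ⟨q, h1⟩, ⟨q', h2⟩⟩
    obtain ⟨s, hs1, hs2, hs3⟩ := hP Q (fun q => min (m q) 3) 0 n (by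
      rw [← hmn, zero_add]
      exact Finset.sum_le_sum fun q _ => min_le_left _ _)
    let c : Q → ℕ := fun q => if m q ≤ 2 then s q else s q + 1
    have hc2 : ∀ q, m q ≤ 2 → c q = s q := fun q h => by simp [c, h]
    have hc3 : ∀ q, 3 ≤ m q → c q = s q + 1 := fun q h => by
      have : ¬ m q ≤ 2 := by omega
      simp [c, this]
    have hcn : ∀ q, c q < n := by
      intro q
      have h1 := hs1 q
      have h2 := hm1 q
      rcases Nat.lt_or_ge 2 (m q) with h | h
      · rw [hc3 q h]
        have : min (m q) 3 = 3 := by omega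
        omega
      · rw [hc2 q h]
        omega
    -- numerical facts
    have hnum : ∀ q q', q ≠ q' →
        c q ≠ c q' ∧
        ((2 ≤ m q ∨ 2 ≤ m q') →
          (c q + 2 ≤ c q' ∧ c q' + 2 ≤ c q + n) ∨ (c q' + 2 ≤ c q ∧ c q + 2 ≤ c q' + n)) ∧
        (3 ≤ m q' → 2 ≤ m q → ¬ (c q' = c q + 2 ∨ c q + 2 = c q' + n)) := by
      intro q q' hqq
      have h1 := hs1 q
      have h1' := hs1 q'
      have h2 := hs2 q q' hqq
      have h3 := hs3 q q'
      have h3' := hs3 q' q
      have h4 := hm1 q
      have h4' := hm1 q'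
      have h5 : m q = 1 → m q' = 2 → 3 ≤ s q' := by
        intro e1 e2
        obtain ⟨q'', hq''⟩ := hbig q q' e1 e2
        have := hs3 q'' q'
        omega
      have h5' : m q' = 1 → m q = 2 → 3 ≤ s q := by
        intro e1 e2
        obtain ⟨q'', hq''⟩ := hbig q' q e1 e2
        have := hs3 q'' q
        omega
      have hcq : (m q ≤ 2 ∧ c q = s q) ∨ (3 ≤ m q ∧ c q = s q + 1) := by
        rcases Nat.lt_or_ge 2 (m q) with h | h
        · exact Or.inr ⟨h, hc3 q h⟩
        · exact Or.inl ⟨h, hc2 q h⟩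
      have hcq' : (m q' ≤ 2 ∧ c q' = s q') ∨ (3 ≤ m q' ∧ c q' = s q' + 1) := by
        rcases Nat.lt_or_ge 2 (m q') with h | h
        · exact Or.inr ⟨h, hc3 q' h⟩
        · exact Or.inl ⟨h, hc2 q' h⟩
      refine ⟨?_, ?_, ?_⟩
      · omega
      · intro _
        omega
      · intro _ _ _
        omega
    let σ : Fin n → Equiv.Perm (ZMod n) := fun v => tau (c (cl v)) (kap n (idx v))
    have hsep : ∀ u v, cl u ≠ cl v → ∀ x, σ u x ≠ σ v x := by
      intro u v huv x
      obtain ⟨e1, e2, e3⟩ := hnum (cl u) (cl v) huv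
      obtain ⟨-, -, e3'⟩ := hnum (cl v) (cl u) huv.symm
      apply sep hn _ _ (hcn _) (hcn _) e1
      · intro h
        apply e2
        rcases h with h | h
        · exact Or.inl (hkap0 u h)
        · exact Or.inr (hkap0 v h)
      · intro k k' hk hk'
        have hu2 := hkap0 u (by rw [hk]; simp)
        have hv2 := hkap0 v (by rw [hk']; simp)
        constructor
        · intro h
          rcases Nat.lt_or_ge 2 (m (cl v)) with h3 | h3
          · exact absurd h (e3 h3 hu2)
          · have hk2' : k' = 2 := by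
              rcases hkap2 v h3 with h4 | h4
              · rw [h4] at hk'; simp at hk'
              · rw [h4] at hk'; simpa using hk'.symm
            rw [hk2']
            exact kap_ne_three hn (hidxn u) k hk
        · intro h
          rcases Nat.lt_or_ge 2 (m (cl u)) with h3 | h3
          · exact absurd h (e3' h3 hv2)
          · have hk2 : k = 2 := by
              rcases hkap2 u h3 with h4 | h4
              · rw [h4] at hk; simp at hk
              · rw [h4] at hk; simpa using hk.symm
            rw [hk2]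
            exact kap_ne_three hn (hidxn v) k' hk'
    apply rep_of hn G σ
    · intro u v huv hadj
      have hc : cl u = cl v := (hcl u v).2 hadj
      show (∃ x, tau (c (cl u)) (kap n (idx u)) x = tau (c (cl v)) (kap n (idx v)) x) ∧
        tau (c (cl u)) (kap n (idx u)) ≠ tau (c (cl v)) (kap n (idx v))
      rw [← hc]
      refine ⟨meet hn _ _ _, fun h => ?_⟩
      have := tau_inj hn _ _ _ h
      exact huv (hidx2 u v hc (kap_inj hn (hidxn u) (hidxn v) this))
    · intro u v hadj
      exact hsep u v (fun h => (hcl u v).1 h hadj)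

end Pool.Agent.Work.MP_12b649_co.Odd

end

section

/-!
# PACK: packing of intervals, the long ones first
-/

namespace Pool.Agent.Work.MP_12b649_co.Odd

theorem thm_pack : ClaimPack := by
  classical
  intro Q _ w s0 n hn
  set idx : Q ≃ Fin (Fintype.card Q) := Fintype.equivFin Q with hidx
  -- `R a b`: `a` comes before `b`
  let R : Q → Q → Prop := fun a b => w b < w a ∨ (w a = w b ∧ idx a < idx b)
  have hirr : ∀ a, ¬ R a a := by
    intro a h
    rcases h with h | h
    · exact lt_irrefl _ h
    · exact lt_irrefl _ h.2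
  have htrans : ∀ a b c, R a b → R b c → R a c := by
    intro a b c h1 h2
    rcases h1 with h1 | ⟨h1, h1'⟩ <;> rcases h2 with h2 | ⟨h2, h2'⟩
    · exact Or.inl (h2.trans h1)
    · exact Or.inl (h2 ▸ h1)
    · exact Or.inl (h1 ▸ h2)
    · exact Or.inr ⟨h1.trans h2, h1'.trans h2'⟩
  have htot : ∀ a b, a ≠ b → R a b ∨ R b a := by
    intro a b hab
    rcases lt_trichotomy (w a) (w b) with h | h | h
    · exact Or.inr (Or.inl h)
    · rcases lt_trichotomy (idx a) (idx b) with h' | h' | h'
      · exact Or.inl (Or.inr ⟨h, h'⟩)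
      · exact absurd (idx.injective h') hab
      · exact Or.inr (Or.inr ⟨h.symm, h'⟩)
    · exact Or.inl (Or.inl h)
  let A : Q → Finset Q := fun q => Finset.univ.filter (fun q' => R q' q)
  have hsum : ∀ q (S : Finset Q), insert q (A q) ⊆ S → (∑ x ∈ A q, w x) + w q ≤ ∑ x ∈ S, w x := by
    intro q S hS
    have hq : q ∉ A q := by
      simp only [A, Finset.mem_filter, not_and]
      exact fun _ => hirr q
    calc (∑ x ∈ A q, w x) + w q = ∑ x ∈ insert q (A q), w x := by
          rw [Finset.sum_insert hq, add_comm]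
      _ ≤ ∑ x ∈ S, w x := Finset.sum_le_sum_of_subset hS
  have hR : ∀ q q', R q q' → s0 + (∑ x ∈ A q, w x) + w q ≤ s0 + ∑ x ∈ A q', w x := by
    intro q q' h
    rw [add_assoc]
    refine Nat.add_le_add_left (hsum q (A q') ?_) s0
    intro x hx
    rw [Finset.mem_insert] at hx
    simp only [A, Finset.mem_filter, Finset.mem_univ, true_and] at hx ⊢
    rcases hx with rfl | hx
    · exact h
    · exact htrans _ _ _ hx h
  refine ⟨fun q => s0 + ∑ x ∈ A q, w x, fun q => ⟨Nat.le_add_right _ _, ?_⟩, ?_, ?_⟩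
  · show s0 + (∑ x ∈ A q, w x) + w q ≤ n
    rw [add_assoc]
    exact (Nat.add_le_add_left (hsum q Finset.univ (Finset.subset_univ _)) s0).trans hn
  · intro q q' hqq
    rcases htot q q' hqq with h | h
    · exact Or.inl (hR q q' h)
    · exact Or.inr (hR q' q h)
  · intro q q' h
    exact hR q q' (Or.inl h)

end Pool.Agent.Work.MP_12b649_co.Odd

end

section

/-!
# Complete multipartite graphs of order at most 4
-/

namespace Pool.Agent.Work.MP_12b649_co.Odd

/-- Representations of the 15 complete multipartite graphs on `Fin 4`. -/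
def tab (code : ℕ) : List (List ℕ) :=
  match code with
  | 0 => [[0, 1, 2, 3], [0, 1, 3, 2], [0, 2, 1, 3], [0, 2, 3, 1]]
  | 7 => [[0, 1, 2, 3], [1, 0, 3, 2], [1, 2, 3, 0], [1, 3, 0, 2]]
  | 25 => [[0, 1, 2, 3], [1, 0, 3, 2], [0, 2, 1, 3], [0, 3, 2, 1]]
  | 30 => [[0, 1, 2, 3], [0, 1, 3, 2], [2, 3, 0, 1], [2, 3, 1, 0]]
  | 31 => [[0, 1, 2, 3], [1, 0, 3, 2], [2, 3, 0, 1], [2, 3, 1, 0]]
  | 42 => [[0, 1, 2, 3], [0, 1, 3, 2], [2, 3, 0, 1], [0, 2, 1, 3]]
  | 45 => [[0, 1, 2, 3], [1, 0, 3, 2], [0, 2, 1, 3], [1, 3, 0, 2]]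
  | 47 => [[0, 1, 2, 3], [1, 0, 3, 2], [2, 3, 0, 1], [1, 2, 3, 0]]
  | 51 => [[0, 1, 2, 3], [1, 0, 3, 2], [1, 2, 3, 0], [0, 3, 2, 1]]
  | 52 => [[0, 1, 2, 3], [0, 1, 3, 2], [0, 2, 1, 3], [2, 3, 0, 1]]
  | 55 => [[0, 1, 2, 3], [1, 0, 3, 2], [1, 2, 3, 0], [2, 3, 0, 1]]
  | 59 => [[0, 1, 2, 3], [1, 0, 3, 2], [2, 3, 0, 1], [0, 2, 1, 3]]
  | 61 => [[0, 1, 2, 3], [1, 0, 3, 2], [0, 2, 1, 3], [2, 3, 0, 1]]
  | 62 => [[0, 1, 2, 3], [0, 1, 3, 2], [2, 3, 0, 1], [3, 2, 1, 0]]
  | 63 => [[0, 1, 2, 3], [1, 0, 3, 2], [2, 3, 0, 1], [3, 2, 1, 0]]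
  | _ => []

/-- The representation of the graph with code `code`. -/
def w4 (code : ℕ) (u i : Fin 4) : Fin 4 :=
  Fin.ofNat 4 (((tab code).getD u []).getD i 0)

/-- The adjacency function with the given values. -/
def adj4 (b01 b02 b03 b12 b13 b23 : Bool) (u v : Fin 4) : Bool :=
  if u = v then false else
  if (u = 0 ∧ v = 1) ∨ (u = 1 ∧ v = 0) then b01 else
  if (u = 0 ∧ v = 2) ∨ (u = 2 ∧ v = 0) then b02 else
  if (u = 0 ∧ v = 3) ∨ (u = 3 ∧ v = 0) then b03 else
  if (u = 1 ∧ v = 2) ∨ (u = 2 ∧ v = 1) then b12 else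
  if (u = 1 ∧ v = 3) ∨ (u = 3 ∧ v = 1) then b13 else b23

/-- The code of a graph. -/
def code4 (b01 b02 b03 b12 b13 b23 : Bool) : ℕ :=
  b01.toNat + 2 * b02.toNat + 4 * b03.toNat + 8 * b12.toNat + 16 * b13.toNat + 32 * b23.toNat

set_option maxRecDepth 100000 in
theorem key4 : ∀ b01 b02 b03 b12 b13 b23 : Bool,
    (∀ a b c, adj4 b01 b02 b03 b12 b13 b23 a b = false →
      adj4 b01 b02 b03 b12 b13 b23 b c = false → adj4 b01 b02 b03 b12 b13 b23 a c = false) →
    (∀ u v, u ≠ v → (adj4 b01 b02 b03 b12 b13 b23 u v = true ↔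
      ∀ i, w4 (code4 b01 b02 b03 b12 b13 b23) u i ≠ w4 (code4 b01 b02 b03 b12 b13 b23) v i)) ∧
    (∀ u i j, w4 (code4 b01 b02 b03 b12 b13 b23) u i = w4 (code4 b01 b02 b03 b12 b13 b23) u j →
      i = j) ∧
    (∀ u v, (∀ i, w4 (code4 b01 b02 b03 b12 b13 b23) u i =
      w4 (code4 b01 b02 b03 b12 b13 b23) v i) → u = v) := by
  decide

theorem small4 (G : SimpleGraph (Fin 4))
    (hT : ∀ a b c, ¬ G.Adj a b → ¬ G.Adj b c → ¬ G.Adj a c) :
    ∃ π : Fin 4 → Equiv.Perm (Fin 4), IsRep G π := by
  classical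
  have hadj : ∀ u v, adj4 (decide (G.Adj 0 1)) (decide (G.Adj 0 2)) (decide (G.Adj 0 3))
      (decide (G.Adj 1 2)) (decide (G.Adj 1 3)) (decide (G.Adj 2 3)) u v = decide (G.Adj u v) := by
    have c10 : G.Adj 1 0 = G.Adj 0 1 := propext (G.adj_comm _ _)
    have c20 : G.Adj 2 0 = G.Adj 0 2 := propext (G.adj_comm _ _)
    have c30 : G.Adj 3 0 = G.Adj 0 3 := propext (G.adj_comm _ _)
    have c21 : G.Adj 2 1 = G.Adj 1 2 := propext (G.adj_comm _ _)
    have c31 : G.Adj 3 1 = G.Adj 1 3 := propext (G.adj_comm _ _)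
    have c32 : G.Adj 3 2 = G.Adj 2 3 := propext (G.adj_comm _ _)
    intro u v
    fin_cases u <;> fin_cases v <;> simp [adj4, c10, c20, c30, c21, c31, c32]
  obtain ⟨h1, h2, h3⟩ := key4 (decide (G.Adj 0 1)) (decide (G.Adj 0 2)) (decide (G.Adj 0 3))
      (decide (G.Adj 1 2)) (decide (G.Adj 1 3)) (decide (G.Adj 2 3)) (by
    intro a b c
    rw [hadj, hadj, hadj]
    simpa using hT a b c)
  simp only [hadj, decide_eq_true_eq] at h1
  generalize code4 (decide (G.Adj 0 1)) (decide (G.Adj 0 2)) (decide (G.Adj 0 3))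
      (decide (G.Adj 1 2)) (decide (G.Adj 1 3)) (decide (G.Adj 2 3)) = k at h1 h2 h3
  refine ⟨fun u => Equiv.ofBijective (w4 k u)
    (Finite.injective_iff_bijective.mp fun i j h => h2 u i j h), ?_, ?_⟩
  · intro u v huv
    apply h3
    intro i
    exact DFunLike.congr_fun huv i
  · intro u v huv
    exact h1 u v huv

/-- Order 3. -/
theorem small3 (G : SimpleGraph (Fin 3))
    (hT : ∀ a b c, ¬ G.Adj a b → ¬ G.Adj b c → ¬ G.Adj a c)
    (h1 : ¬ Nonempty (G ≃g (⊥ : SimpleGraph (Fin 3))))
    (h2 : ¬ Nonempty (G ≃g SimpleGraph.pathGraph 3)) :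
    ∃ π : Fin 3 → Equiv.Perm (Fin 3), IsRep G π := by
  classical
  have hpath : ∀ (e : Fin 3 ≃ Fin 3), (∀ a b, G.Adj a b ↔ (SimpleGraph.pathGraph 3).Adj (e a) (e b)) →
      False := fun e he => h2 ⟨⟨e, fun {a b} => (he a b).symm⟩⟩
  have c10 : G.Adj 1 0 = G.Adj 0 1 := propext (G.adj_comm _ _)
  have c20 : G.Adj 2 0 = G.Adj 0 2 := propext (G.adj_comm _ _)
  have c21 : G.Adj 2 1 = G.Adj 1 2 := propext (G.adj_comm _ _)
  have s120 : (Equiv.swap (1 : Fin 3) 2) 0 = 0 := by decide
  have s010 : (Equiv.swap (0 : Fin 3) 1) 2 = 2 := by decide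
  have hall : G.Adj 0 1 ∧ G.Adj 0 2 ∧ G.Adj 1 2 := by
    by_cases e01 : G.Adj 0 1 <;> by_cases e02 : G.Adj 0 2 <;> by_cases e12 : G.Adj 1 2
    · exact ⟨e01, e02, e12⟩
    · exfalso
      apply hpath (Equiv.swap 0 1)
      intro a b
      fin_cases a <;> fin_cases b <;>
        simp [SimpleGraph.pathGraph_adj, c10, c20, c21, e01, e02, e12, s010]
    · exfalso
      apply hpath (Equiv.refl _)
      intro a b
      fin_cases a <;> fin_cases b <;>
        simp [SimpleGraph.pathGraph_adj, c10, c20, c21, e01, e02, e12]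
    · exact absurd e01 (hT 0 2 1 e02 (fun h => e12 h.symm))
    · exfalso
      apply hpath (Equiv.swap 1 2)
      intro a b
      fin_cases a <;> fin_cases b <;>
        simp [SimpleGraph.pathGraph_adj, c10, c20, c21, e01, e02, e12, s120]
    · exact absurd e02 (hT 0 1 2 e01 e12)
    · exact absurd e12 (hT 1 0 2 (fun h => e01 h.symm) e02)
    · exfalso
      apply h1
      refine ⟨⟨Equiv.refl _, fun {a b} => ?_⟩⟩
      fin_cases a <;> fin_cases b <;>
        simp [c10, c20, c21, e01, e02, e12]
  have hall' : ∀ u v, u ≠ v → G.Adj u v := by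
    intro u v huv
    fin_cases u <;> fin_cases v <;> simp_all
  refine ⟨fun u => Equiv.addRight u, ?_, ?_⟩
  · intro u v huv
    have := DFunLike.congr_fun huv 0
    simpa using this
  · intro u v huv
    refine ⟨fun _ i h => huv ?_, fun _ => hall' u v huv⟩
    simpa using h

/-- Order 2. -/
theorem small2 (G : SimpleGraph (Fin 2))
    (h1 : ¬ Nonempty (G ≃g (⊥ : SimpleGraph (Fin 2)))) :
    ∃ π : Fin 2 → Equiv.Perm (Fin 2), IsRep G π := by
  have c10 : G.Adj 1 0 = G.Adj 0 1 := propext (G.adj_comm _ _)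
  have e01 : G.Adj 0 1 := by
    by_contra e01
    apply h1
    refine ⟨⟨Equiv.refl _, fun {a b} => ?_⟩⟩
    fin_cases a <;> fin_cases b <;> simp [c10, e01]
  have hall' : ∀ u v, u ≠ v → G.Adj u v := by
    intro u v huv
    fin_cases u <;> fin_cases v <;> simp_all
  refine ⟨fun u => Equiv.addRight u, ?_, ?_⟩
  · intro u v huv
    have := DFunLike.congr_fun huv 0
    simpa using this
  · intro u v huv
    refine ⟨fun _ i h => huv ?_, fun _ => hall' u v huv⟩
    simpa using h

/-- Order 1. -/
theorem small1 (G : SimpleGraph (Fin 1)) : ∃ π : Fin 1 → Equiv.Perm (Fin 1), IsRep G π :=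
  ⟨fun _ => 1, fun _ _ _ => Subsingleton.elim _ _, fun _ _ h => absurd (Subsingleton.elim _ _) h⟩

/-- Complete multipartite graphs of order at most 4. -/
theorem small (n : ℕ) (hn : 1 ≤ n) (hn4 : n ≤ 4) (G : SimpleGraph (Fin n))
    (hT : ∀ a b c, ¬ G.Adj a b → ¬ G.Adj b c → ¬ G.Adj a c)
    (h0 : ¬ Nonempty (G ≃g (⊥ : SimpleGraph (Fin 2))))
    (h1 : ¬ Nonempty (G ≃g (⊥ : SimpleGraph (Fin 3))))
    (h2 : ¬ Nonempty (G ≃g SimpleGraph.pathGraph 3)) :
    ∃ π : Fin n → Equiv.Perm (Fin n), IsRep G π := by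
  have h : n = 1 ∨ n = 2 ∨ n = 3 ∨ n = 4 := by omega
  rcases h with h | h | h | h
  · subst h; exact small1 G
  · subst h; exact small2 G h0
  · subst h; exact small3 G hT h1 h2
  · subst h; exact small4 G hT

end Pool.Agent.Work.MP_12b649_co.Odd

end

section

/-!
# Graphs with fewer vertices than coordinates (helper87)
-/

namespace Pool.Agent.Work.MP_12b649_co.Odd

open Pool.Agent.Work.MP_12b649_co

universe u

/-- For a cyclic permutation `f` and any set of steps `h`, there is a two-colouring that changes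
exactly at the steps in `h`, except possibly at the step that returns to `o`. -/
lemma exists_sign {W : Type} [Finite W] (f : Equiv.Perm W) (o : W)
    (hf : ∀ v, f.SameCycle o v) (h : W → Prop) :
    ∃ τ : W → Bool, ∀ u, f u ≠ o → (τ u ≠ τ (f u) ↔ h u) := by
  classical
  have hex : ∀ v, ∃ k : ℕ, (f ^ k) o = v := fun v => (hf v).exists_nat_pow_eq
  let pos : W → ℕ := fun v => Nat.find (hex v)
  have hpos : ∀ v, (f ^ pos v) o = v := fun v => Nat.find_spec (hex v)
  have hmin : ∀ v k, (f ^ k) o = v → pos v ≤ k := fun v k hk => Nat.find_min' (hex v) hk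
  have hsucc : ∀ u, f u ≠ o → pos (f u) = pos u + 1 := by
    intro u hu
    apply le_antisymm
    · apply hmin
      rw [pow_succ', Equiv.Perm.mul_apply, hpos]
    · have h0 : pos (f u) ≠ 0 := by
        intro h0
        have := hpos (f u)
        rw [h0, pow_zero, Equiv.Perm.one_apply] at this
        exact hu this.symm
      obtain ⟨k, hk⟩ := Nat.exists_eq_succ_of_ne_zero h0
      have h1 := hpos (f u)
      rw [hk, pow_succ', Equiv.Perm.mul_apply] at h1
      have h2 := hmin u k (f.injective h1)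
      omega
  let cnt : ℕ → ℕ := fun n => ((Finset.range n).filter (fun i => h ((f ^ i) o))).card
  have cnt_succ : ∀ n, cnt (n + 1) = cnt n + if h ((f ^ n) o) then 1 else 0 := by
    intro n
    simp only [cnt]
    rw [Finset.range_add_one, Finset.filter_insert]
    split_ifs with h1
    · rw [Finset.card_insert_of_notMem (by simp)]
    · rfl
  refine ⟨fun v => decide (Even (cnt (pos v))), fun u hu => ?_⟩
  simp only []
  rw [hsucc u hu, cnt_succ, hpos]
  by_cases h1 : h u
  · simp only [h1, if_true, iff_true, ne_eq, decide_eq_decide, Nat.even_add_one]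
    tauto
  · simp [h1]

/-- If there is a Kotzig factorization of order `N` then every graph on fewer than `N` vertices has
a derangement `N`-representation. -/
lemma exists_rep {V : Type u} [Finite V] (G : SimpleGraph V) {N : ℕ} (K : Kotzig N)
    (hV : Nat.card V < N) : ∃ π : V → Equiv.Perm (Fin N), IsRep G π := by
  classical
  have hne : Nonempty K.V := by
    have : 0 < Nat.card K.V := by rw [K.cardV]; omega
    exact (Nat.card_pos_iff.mp this).1
  obtain ⟨o⟩ := hne
  -- embed the vertices
  have hemb : ∃ φ : V → K.V, Function.Injective φ ∧ ∀ a, φ a ≠ o := by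
    have : Fintype V := Fintype.ofFinite V
    have : Fintype K.V := Fintype.ofFinite K.V
    have hcard : Fintype.card V ≤ Fintype.card {v : K.V // v ≠ o} := by
      rw [Fintype.card_subtype_compl, Fintype.card_subtype_eq, ← Nat.card_eq_fintype_card,
        ← Nat.card_eq_fintype_card, K.cardV]
      omega
    obtain ⟨φ⟩ := Function.Embedding.nonempty_of_card_le hcard
    exact ⟨fun a => (φ a).1, fun a b h => φ.injective (Subtype.ext h), fun a => (φ a).2⟩
  obtain ⟨φ, hφ, hφo⟩ := hemb
  let H : K.V → K.V → Prop := fun x y => ∃ a b : V, a ≠ b ∧ ¬ G.Adj a b ∧ φ a = x ∧ φ b = y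
  have hH : ∀ x y, H x y → H y x := by
    rintro x y ⟨a, b, h1, h2, h3, h4⟩
    exact ⟨b, a, h1.symm, fun h => h2 h.symm, h4, h3⟩
  have hHφ : ∀ a b : V, a ≠ b → (H (φ a) (φ b) ↔ ¬ G.Adj a b) := by
    intro a b hab
    constructor
    · rintro ⟨a', b', _, h2, h3, h4⟩
      rw [hφ h3, hφ h4] at h2
      exact h2
    · intro h
      exact ⟨a, b, hab, h, rfl, rfl⟩
  -- signs
  have hsign : ∀ j, ∃ τ : K.V → Bool, ∀ u, K.f j u ≠ o → (τ u ≠ τ (K.f j u) ↔ H u (K.f j u)) :=
    fun j => exists_sign (K.f j) o (fun v => K.trans j o v) (fun u => H u (K.f j u))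
  choose τ hτ using hsign
  -- rows
  let row : K.V → Option (K.J × Bool) → K.C := fun u s =>
    match s with
    | none => K.col u u
    | some p => K.col u (K.nb u (p.1, decide (p.2 = τ p.1 u)))
  have row_none : ∀ u, row u none = K.col u u := fun u => rfl
  have row_some : ∀ u j b, row u (some (j, b)) = K.col u (K.nb u (j, decide (b = τ j u))) :=
    fun u j b => rfl
  have row_inj : ∀ u, Function.Injective (row u) := by
    intro u s s' h
    rcases s with _ | ⟨j, b⟩ <;> rcases s' with _ | ⟨j', b'⟩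
    · rfl
    · rw [row_none, row_some] at h
      exact absurd (K.col_inj u h).symm (K.nb_ne _ _)
    · rw [row_none, row_some] at h
      exact absurd (K.col_inj u h) (K.nb_ne _ _)
    · rw [row_some, row_some] at h
      have h1 := K.nb_injective u (K.col_inj u h)
      simp only [Prod.mk.injEq, decide_eq_decide] at h1
      obtain ⟨h2, h3⟩ := h1
      subst h2
      have : b = b' := by
        cases b <;> cases b' <;> cases hh : τ j u <;> simp_all
      rw [this]
  -- agreements
  have agree1 : ∀ u v, u ≠ v → u ≠ o → v ≠ o → ∀ s, row u s = row v s → H u v := by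
    intro u v huv huo hvo s hs
    rcases s with _ | ⟨j, b⟩
    · rw [row_none, row_none] at hs
      exact absurd (K.diag_inj hs) huv
    · rw [row_some, row_some] at hs
      unfold Kotzig.nb at hs
      by_cases h1 : b = τ j u <;> by_cases h2 : b = τ j v
      · simp only [decide_eq_true h1, decide_eq_true h2, if_true] at hs
        exact absurd (K.orth j hs) huv
      · simp only [decide_eq_true h1, decide_eq_false h2, if_true, Bool.false_eq_true,
          if_false] at hs
        rw [K.col_comm v] at hs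
        have h3 : K.col u (K.f j u) = K.col ((K.f j).symm v) (K.f j ((K.f j).symm v)) := by
          rw [hs, Equiv.apply_symm_apply]
        have h4 := K.orth j h3
        have h5 : K.f j u = v := by rw [h4, Equiv.apply_symm_apply]
        have h6 := (hτ j u (by rw [h5]; exact hvo)).mp (by
          rw [h5, ← h1]
          exact h2)
        rwa [h5] at h6
      · simp only [decide_eq_false h1, decide_eq_true h2, if_true, Bool.false_eq_true,
          if_false] at hs
        rw [K.col_comm u] at hs
        have h3 : K.col ((K.f j).symm u) (K.f j ((K.f j).symm u)) = K.col v (K.f j v) := by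
          rw [← hs, Equiv.apply_symm_apply]
        have h4 := K.orth j h3
        have h5 : K.f j v = u := by rw [← h4, Equiv.apply_symm_apply]
        have h6 := (hτ j v (by rw [h5]; exact huo)).mp (by
          rw [h5, ← h2]
          exact h1)
        rw [h5] at h6
        exact hH _ _ h6
      · simp only [decide_eq_false h1, decide_eq_false h2, Bool.false_eq_true, if_false] at hs
        rw [K.col_comm u, K.col_comm v] at hs
        have h3 : K.col ((K.f j).symm u) (K.f j ((K.f j).symm u)) =
            K.col ((K.f j).symm v) (K.f j ((K.f j).symm v)) := by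
          rw [Equiv.apply_symm_apply, Equiv.apply_symm_apply]
          exact hs
        exact absurd ((K.f j).symm.injective (K.orth j h3)) huv
  have agree2' : ∀ u v j, v ≠ o → K.f j u = v → H u v → ∃ s, row u s = row v s := by
    intro u v j hvo hj hH'
    have h1 := (hτ j u (by rw [hj]; exact hvo)).mpr (by rw [hj]; exact hH')
    rw [hj] at h1
    refine ⟨some (j, τ j u), ?_⟩
    rw [row_some, row_some]
    unfold Kotzig.nb
    simp only [decide_true, decide_eq_false h1, if_true, Bool.false_eq_true, if_false]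
    rw [hj, K.col_comm v]
    congr 1
    rw [← hj, Equiv.symm_apply_apply]
  have agree2 : ∀ u v, u ≠ v → u ≠ o → v ≠ o → H u v → ∃ s, row u s = row v s := by
    intro u v huv huo hvo hH'
    obtain ⟨j, h | h⟩ := K.cover u v huv
    · exact agree2' u v j hvo h hH'
    · obtain ⟨s, hs⟩ := agree2' v u j huo h (hH _ _ hH')
      exact ⟨s, hs.symm⟩
  -- the permutations
  have hcardS : Nat.card (Option (K.J × Bool)) = N := by
    rw [Finite.card_option, Nat.card_prod, Nat.card_eq_fintype_card (α := Bool),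
      Fintype.card_bool]
    have := K.cardJ
    omega
  let eS : Option (K.J × Bool) ≃ Fin N := Finite.equivFinOfCardEq hcardS
  let eC : K.C ≃ Fin N := Finite.equivFinOfCardEq K.cardC
  have row_bij : ∀ u, Function.Bijective (row u) := by
    intro u
    rw [Nat.bijective_iff_injective_and_card]
    exact ⟨row_inj u, by rw [hcardS, K.cardC]⟩
  let π : V → Equiv.Perm (Fin N) := fun a =>
    eS.symm.trans ((Equiv.ofBijective _ (row_bij (φ a))).trans eC)
  have hπ : ∀ a i, π a i = eC (row (φ a) (eS.symm i)) := fun a i => rfl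
  refine ⟨π, ?_, ?_⟩
  · intro a b hab
    have h1 : π a (eS none) = π b (eS none) := by rw [hab]
    rw [hπ, hπ, Equiv.symm_apply_apply] at h1
    exact hφ (K.diag_inj (eC.injective h1))
  · intro a b hab
    have hab' : φ a ≠ φ b := fun h => hab (hφ h)
    constructor
    · intro h i hi
      rw [hπ, hπ] at hi
      have := agree1 _ _ hab' (hφo a) (hφo b) _ (eC.injective hi)
      exact (hHφ a b hab).mp this h
    · intro h
      by_contra hadj
      obtain ⟨s, hs⟩ := agree2 _ _ hab' (hφo a) (hφo b) ((hHφ a b hab).mpr hadj)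
      apply h (eS s)
      rw [hπ, hπ, Equiv.symm_apply_apply, hs]


/-- Every finite graph `G` has a derangement `N`-representation for every odd `N > |V(G)|`. -/
theorem rep_of_lt (V : Type u) [Finite V] (G : SimpleGraph V) (N : ℕ) (hN : Odd N)
    (hlt : Nat.card V < N) : ∃ π : V → Equiv.Perm (Fin N), IsRep G π := by
  obtain ⟨K⟩ := exists_kotzig N hN
  exact exists_rep G K hlt

end Pool.Agent.Work.MP_12b649_co.Odd

end

section

/-!
# Standard rows: basic lemmas
-/

namespace Pool.Agent.Work.MP_12b649_co.Ev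

open Pool.Agent.Work.MP_12b649_co

variable {N : ℕ} (K : Kotzig N) {A : Type} (φ : A → K.V) (τ : K.J → A → Bool)

lemma srow_none (u : A) : srow K φ τ u none = K.col (φ u) (φ u) := rfl

lemma srow_some (u : A) (j : K.J) (b : Bool) :
    srow K φ τ u (some (j, b)) = K.col (φ u) (K.nb (φ u) (j, decide (b = τ j u))) := rfl

/-- The value `(j, τ j u)` is in the column of the edge leaving `φ u`. -/
lemma srow_out (u : A) (j : K.J) :
    srow K φ τ u (some (j, τ j u)) = K.col (φ u) (K.f j (φ u)) := by
  rw [srow_some]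
  simp [Kotzig.nb]

/-- The value `(j, !τ j u)` is in the column of the edge entering `φ u`. -/
lemma srow_in (u : A) (j : K.J) :
    srow K φ τ u (some (j, !τ j u)) = K.col (φ u) ((K.f j).symm (φ u)) := by
  rw [srow_some]
  cases τ j u <;> simp [Kotzig.nb]

/-- A row takes every value at most once. -/
lemma srow_inj (u : A) : Function.Injective (srow K φ τ u) := by
  intro s s' h
  rcases s with _ | ⟨j, b⟩ <;> rcases s' with _ | ⟨j', b'⟩
  · rfl
  · rw [srow_none, srow_some] at h
    exact absurd (K.col_inj _ h).symm (K.nb_ne _ _)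
  · rw [srow_none, srow_some] at h
    exact absurd (K.col_inj _ h) (K.nb_ne _ _)
  · rw [srow_some, srow_some] at h
    have h1 := K.nb_injective _ (K.col_inj _ h)
    simp only [Prod.mk.injEq, decide_eq_decide] at h1
    obtain ⟨h2, h3⟩ := h1
    subst h2
    have : b = b' := by
      cases b <;> cases b' <;> cases hh : τ j u <;> simp_all
    rw [this]

/-- In row `j` there is only one edge of a given colour. -/
lemma col_edge (j : K.J) {x y : K.V} (h : K.col x (K.f j x) = K.col y (K.f j y)) : x = y :=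
  K.orth j h

/-- Two vertices at different symbols can only agree at the column of the edge between the two
symbols, and they agree there iff the bits are different. -/
lemma srow_agree {u v : A} (huv : φ u ≠ φ v) {s : Option (K.J × Bool)}
    (h : srow K φ τ u s = srow K φ τ v s) :
    ∃ j b, s = some (j, b) ∧ srow K φ τ u s = K.col (φ u) (φ v) ∧
      ((K.f j (φ u) = φ v ∧ b = τ j u ∧ b ≠ τ j v) ∨
        (K.f j (φ v) = φ u ∧ b = τ j v ∧ b ≠ τ j u)) := by
  rcases s with _ | ⟨j, b⟩
  · rw [srow_none, srow_none] at h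
    exact absurd (K.diag_inj h) huv
  · refine ⟨j, b, rfl, ?_⟩
    by_cases h1 : b = τ j u <;> by_cases h2 : b = τ j v
    · rw [srow_some, srow_some] at h
      simp only [Kotzig.nb, decide_eq_true h1, decide_eq_true h2, if_true] at h
      exact absurd (K.orth j h) huv
    · have e1 : srow K φ τ u (some (j, b)) = K.col (φ u) (K.f j (φ u)) := by
        rw [h1]; exact srow_out K φ τ u j
      have e2 : srow K φ τ v (some (j, b)) = K.col (φ v) ((K.f j).symm (φ v)) := by
        have : b = !τ j v := by cases b <;> cases hh : τ j v <;> simp_all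
        rw [this]; exact srow_in K φ τ v j
      rw [e1, e2, K.col_comm (φ v)] at h
      have h3 : K.col (φ u) (K.f j (φ u)) =
          K.col ((K.f j).symm (φ v)) (K.f j ((K.f j).symm (φ v))) := by
        rw [h, Equiv.apply_symm_apply]
      have h4 : φ u = (K.f j).symm (φ v) := K.orth j h3
      have h5 : K.f j (φ u) = φ v := by rw [h4, Equiv.apply_symm_apply]
      exact ⟨by rw [e1, h5], Or.inl ⟨h5, h1, h2⟩⟩
    · have e1 : srow K φ τ v (some (j, b)) = K.col (φ v) (K.f j (φ v)) := by
        rw [h2]; exact srow_out K φ τ v j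
      have e2 : srow K φ τ u (some (j, b)) = K.col (φ u) ((K.f j).symm (φ u)) := by
        have : b = !τ j u := by cases b <;> cases hh : τ j u <;> simp_all
        rw [this]; exact srow_in K φ τ u j
      rw [e1, e2, K.col_comm (φ u)] at h
      have h3 : K.col ((K.f j).symm (φ u)) (K.f j ((K.f j).symm (φ u))) =
          K.col (φ v) (K.f j (φ v)) := by
        rw [← h, Equiv.apply_symm_apply]
      have h4 : (K.f j).symm (φ u) = φ v := K.orth j h3
      have h5 : K.f j (φ v) = φ u := by rw [← h4, Equiv.apply_symm_apply]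
      exact ⟨by rw [e2, h4], Or.inr ⟨h5, h2, h1⟩⟩
    · have e1 : srow K φ τ u (some (j, b)) = K.col (φ u) ((K.f j).symm (φ u)) := by
        have : b = !τ j u := by cases b <;> cases hh : τ j u <;> simp_all
        rw [this]; exact srow_in K φ τ u j
      have e2 : srow K φ τ v (some (j, b)) = K.col (φ v) ((K.f j).symm (φ v)) := by
        have : b = !τ j v := by cases b <;> cases hh : τ j v <;> simp_all
        rw [this]; exact srow_in K φ τ v j
      rw [e1, e2, K.col_comm (φ u), K.col_comm (φ v)] at h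
      have h3 : K.col ((K.f j).symm (φ u)) (K.f j ((K.f j).symm (φ u))) =
          K.col ((K.f j).symm (φ v)) (K.f j ((K.f j).symm (φ v))) := by
        rw [Equiv.apply_symm_apply, Equiv.apply_symm_apply]
        exact h
      exact absurd ((K.f j).symm.injective (K.orth j h3)) huv

/-- If the bits of `u` and `v` are different and `φ v` follows `φ u` in row `j`, then both have
the value `(j, τ j u)` in the column of the edge. -/
lemma srow_meet {u v : A} {j : K.J} (h : K.f j (φ u) = φ v) (ht : τ j u ≠ τ j v) :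
    srow K φ τ u (some (j, τ j u)) = K.col (φ u) (φ v) ∧
      srow K φ τ v (some (j, τ j u)) = K.col (φ u) (φ v) := by
  constructor
  · rw [srow_out, h]
  · have : τ j u = !τ j v := by cases h1 : τ j u <;> cases h2 : τ j v <;> simp_all
    rw [this, srow_in, ← h, Equiv.symm_apply_apply, K.col_comm]

/-- Two vertices at the same symbol with the same bits in row `j`. -/
lemma srow_same {u v : A} (h : φ u = φ v) {j : K.J} (ht : τ j u = τ j v) (b : Bool) :
    srow K φ τ u (some (j, b)) = srow K φ τ v (some (j, b)) := by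
  rw [srow_some, srow_some, h, ht]

/-- Two vertices at the same symbol with different bits in row `j` do not agree in row `j`. -/
lemma srow_diff {u v : A} (h : φ u = φ v) {j : K.J} (ht : τ j u ≠ τ j v) (b : Bool) :
    srow K φ τ u (some (j, b)) ≠ srow K φ τ v (some (j, b)) := by
  rw [srow_some, srow_some, h]
  intro h1
  have h2 := K.nb_injective _ (K.col_inj _ h1)
  simp only [Prod.mk.injEq, decide_eq_decide, true_and] at h2
  cases h3 : τ j u <;> cases h4 : τ j v <;> cases b <;> simp_all

/-- Two-colourings of the rows which change exactly at the steps in `h`, except possibly at the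
step that returns to `o`. -/
lemma signs (o : K.V) (h : K.J → K.V → Prop) :
    ∃ σ : K.J → K.V → Bool, ∀ j u, K.f j u ≠ o → (σ j u ≠ σ j (K.f j u) ↔ h j u) := by
  choose σ hσ using fun j => Odd.Fat.exists_sign (K.f j) o (fun v => K.trans j o v) (h j)
  exact ⟨σ, hσ⟩

/-- A representation from a family of injective rows. -/
lemma rep_of_rows {V : Type} (H : SimpleGraph V) (row : V → Option (K.J × Bool) → K.C)
    (hinj : ∀ u, Function.Injective (row u)) (hne : ∀ u v, u ≠ v → ∃ s, row u s ≠ row v s)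
    (hH : ∀ u v, u ≠ v → (H.Adj u v ↔ ∃ s, row u s = row v s)) : Rep H N := by
  have hcardS : Nat.card (Option (K.J × Bool)) = N := by
    rw [Finite.card_option, Nat.card_prod, Nat.card_eq_fintype_card (α := Bool),
      Fintype.card_bool]
    have := K.cardJ
    omega
  let eS : Option (K.J × Bool) ≃ Fin N := Finite.equivFinOfCardEq hcardS
  let eC : K.C ≃ Fin N := Finite.equivFinOfCardEq K.cardC
  have row_bij : ∀ u, Function.Bijective (row u) := by
    intro u
    rw [Nat.bijective_iff_injective_and_card]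
    exact ⟨hinj u, by rw [hcardS, K.cardC]⟩
  let π : V → Equiv.Perm (Fin N) := fun a =>
    eS.symm.trans ((Equiv.ofBijective _ (row_bij a)).trans eC)
  have hπ : ∀ a i, π a i = eC (row a (eS.symm i)) := fun a i => rfl
  refine ⟨π, ?_, ?_⟩
  · intro a b hab
    by_contra hne'
    obtain ⟨s, hs⟩ := hne a b hne'
    have h1 : π a (eS s) = π b (eS s) := by rw [hab]
    rw [hπ, hπ, Equiv.symm_apply_apply] at h1
    exact hs (eC.injective h1)
  · intro a b hab
    rw [hH a b hab]
    constructor
    · rintro ⟨s, hs⟩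
      exact ⟨eS s, by rw [hπ, hπ, Equiv.symm_apply_apply, hs]⟩
    · rintro ⟨i, hi⟩
      rw [hπ, hπ] at hi
      exact ⟨eS.symm i, eC.injective hi⟩

/-- A representation with `N + 1` points from a family of injective rows with one more value and
one more column. -/
lemma rep_of_rows' {V : Type} (H : SimpleGraph V)
    (row : V → Option (Option (K.J × Bool)) → Option K.C)
    (hinj : ∀ u, Function.Injective (row u)) (hne : ∀ u v, u ≠ v → ∃ s, row u s ≠ row v s)
    (hH : ∀ u v, u ≠ v → (H.Adj u v ↔ ∃ s, row u s = row v s)) : Rep H (N + 1) := by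
  have hcardS : Nat.card (Option (Option (K.J × Bool))) = N + 1 := by
    rw [Finite.card_option, Finite.card_option, Nat.card_prod,
      Nat.card_eq_fintype_card (α := Bool), Fintype.card_bool]
    have := K.cardJ
    omega
  have hcardC : Nat.card (Option K.C) = N + 1 := by
    rw [Finite.card_option, K.cardC]
  let eS : Option (Option (K.J × Bool)) ≃ Fin (N + 1) := Finite.equivFinOfCardEq hcardS
  let eC : Option K.C ≃ Fin (N + 1) := Finite.equivFinOfCardEq hcardC
  have row_bij : ∀ u, Function.Bijective (row u) := by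
    intro u
    rw [Nat.bijective_iff_injective_and_card]
    exact ⟨hinj u, by rw [hcardS, hcardC]⟩
  let π : V → Equiv.Perm (Fin (N + 1)) := fun a =>
    eS.symm.trans ((Equiv.ofBijective _ (row_bij a)).trans eC)
  have hπ : ∀ a i, π a i = eC (row a (eS.symm i)) := fun a i => rfl
  refine ⟨π, ?_, ?_⟩
  · intro a b hab
    by_contra hne'
    obtain ⟨s, hs⟩ := hne a b hne'
    have h1 : π a (eS s) = π b (eS s) := by rw [hab]
    rw [hπ, hπ, Equiv.symm_apply_apply] at h1
    exact hs (eC.injective h1)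
  · intro a b hab
    rw [hH a b hab]
    constructor
    · rintro ⟨s, hs⟩
      exact ⟨eS s, by rw [hπ, hπ, Equiv.symm_apply_apply, hs]⟩
    · rintro ⟨i, hi⟩
      rw [hπ, hπ] at hi
      exact ⟨eS.symm i, eC.injective hi⟩

end Pool.Agent.Work.MP_12b649_co.Ev

end

section

/-!
# Good pairs in the generalised product with a cyclic inner factor
-/

namespace Pool.Agent.Work.MP_12b649_co.GX

open Pool.Agent.Work.MP_12b649_co

/-- The cyclic Kotzig factorization of prime order, with steps `-1, -2, …`. -/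
def cyc (p : ℕ) [hp : Fact p.Prime] (hodd : Odd p) : Kotzig p where
  V := ZMod p
  J := Fin ((p - 1) / 2)
  C := ZMod p
  finV := inferInstance
  finJ := inferInstance
  finC := inferInstance
  cardV := Nat.card_zmod p
  cardC := Nat.card_zmod p
  cardJ := by
    rw [Nat.card_eq_fintype_card, Fintype.card_fin]
    obtain ⟨k, hk⟩ := hodd
    omega
  f := fun m => Equiv.subRight ((m.val + 1 : ℕ) : ZMod p)
  col := fun u v => u + v
  trans := by
    intro m u v
    have hδ : ((m.val + 1 : ℕ) : ZMod p) ≠ 0 := by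
      intro h
      have := (ZMod.natCast_eq_zero_iff _ _).mp h
      have h1 := Nat.le_of_dvd (by omega) this
      have := m.2
      omega
    set δ : ZMod p := ((m.val + 1 : ℕ) : ZMod p) with hδd
    have hpow : ∀ k : ℕ, ((Equiv.subRight δ : Equiv.Perm (ZMod p)) ^ k) u = u - k * δ := by
      intro k
      induction k with
      | zero => simp
      | succ k ih =>
        rw [pow_succ', Equiv.Perm.mul_apply, ih, Equiv.subRight_apply]
        push_cast
        ring
    have h1 := hpow ((u - v) * δ⁻¹).val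
    rw [ZMod.natCast_zmod_val, mul_assoc, inv_mul_cancel₀ hδ, mul_one, sub_sub_cancel] at h1
    rw [← h1]
    exact Equiv.Perm.sameCycle_pow_right.2 (Equiv.Perm.SameCycle.refl _ _)
  col_comm := fun u v => add_comm u v
  col_inj := fun u v w h => add_left_cancel h
  diag_inj := by
    intro u v h
    have h2 : (2 : ZMod p) * u = 2 * v := by
      simp only at h
      linear_combination h
    exact (two_isUnit hodd).mul_left_cancel h2
  orth := by
    intro m u v h
    have h2 : (2 : ZMod p) * u = 2 * v := by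
      simp only [Equiv.subRight_apply] at h
      linear_combination h
    exact (two_isUnit hodd).mul_left_cancel h2
  cover := by
    intro u v huv
    have hpos : 0 < p := hp.out.pos
    have hy : u - v ≠ 0 := sub_ne_zero.mpr huv
    have hy1 : (u - v).val ≠ 0 := by rwa [Ne, ZMod.val_eq_zero]
    have hy2 : (u - v).val < p := ZMod.val_lt _
    have hyc : (((u - v).val : ℕ) : ZMod p) = u - v := ZMod.natCast_zmod_val _
    rcases Nat.lt_or_ge ((u - v).val - 1) ((p - 1) / 2) with h | h
    · refine ⟨⟨(u - v).val - 1, h⟩, Or.inl ?_⟩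
      simp only [Equiv.subRight_apply, Nat.sub_add_cancel (Nat.one_le_iff_ne_zero.mpr hy1)]
      rw [hyc, sub_sub_cancel]
    · have h' : p - (u - v).val - 1 < (p - 1) / 2 := by
        obtain ⟨a, ha⟩ := hodd
        omega
      refine ⟨⟨p - (u - v).val - 1, h'⟩, Or.inr ?_⟩
      have e1 : p - (u - v).val - 1 + 1 = p - (u - v).val := by omega
      have e2 : ((p - (u - v).val : ℕ) : ZMod p) = v - u := by
        rw [Nat.cast_sub hy2.le, hyc, ZMod.natCast_self]
        ring
      simp only [Equiv.subRight_apply, e1, e2, sub_sub_cancel]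

section Good

variable {d p : ℕ} [hp : Fact p.Prime] (hodd : Odd p) {Kd : Kotzig d}
  (P : PData Kd (cyc p hodd))

/-- Surjectivity onto a set of the right size gives injectivity. -/
lemma inj_of_surj {N : ℕ} (K : Kotzig N) (x : ℕ → K.V) (h : ∀ v, ∃ a, a < N ∧ x a = v) :
    ∀ a b, a < N → b < N → x a = x b → a = b := by
  have hs : Function.Surjective (fun i : Fin N => x i.val) := by
    intro v
    obtain ⟨a, ha, hx⟩ := h v
    exact ⟨⟨a, ha⟩, hx⟩
  have hb : Function.Bijective (fun i : Fin N => x i.val) := by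
    rw [Nat.bijective_iff_surjective_and_card]
    exact ⟨hs, by rw [Nat.card_eq_fintype_card, Fintype.card_fin, K.cardV]⟩
  intro a b ha hb' hab
  have := hb.1 (a₁ := ⟨a, ha⟩) (a₂ := ⟨b, hb'⟩) hab
  exact congrArg Fin.val this

end Good

/-- GOODX. -/
theorem goodx (d p : ℕ) (Kd : Kotzig d) (hpr : p.Prime) (hodd : Odd p) (hd : Odd d)
    (hd5 : 5 ≤ d) : ∃ (K : Kotzig (d * p)) (x : ℕ → K.V), Even.Good K (2 * p - 1) x := by
  classical
  have : Fact p.Prime := ⟨hpr⟩
  have : NeZero p := ⟨hpr.ne_zero⟩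
  have : NeZero d := ⟨by omega⟩
  obtain ⟨h, hh⟩ := id hodd
  have hh1 : 1 ≤ h := by
    have := hpr.two_le
    omega
  have hhp : (p - 1) / 2 = h := by omega
  -- the base
  have hVne : Nonempty Kd.V := by
    have : 0 < Nat.card Kd.V := by rw [Kd.cardV]; omega
    exact (Nat.card_pos_iff.mp this).1
  obtain ⟨b⟩ := hVne
  have hl2 : ∀ m : Fin ((p - 1) / 2), 2 * (m.val + 1) < p := by
    intro m
    have := m.2
    omega
  obtain ⟨P, hPb, hPw, hPlam, hPφ⟩ := exists_pdata Kd (cyc p hodd) hd (by omega) hodd b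
    (0 : ZMod p) (fun m : Fin ((p - 1) / 2) => m.val + 1)
    (fun m m' hm => Fin.ext (Nat.succ_injective hm)) (fun m => Nat.le_add_left _ _)
    hl2 (Equiv.refl (ZMod p)) rfl
    (by
      intro m
      show (0 : ZMod p) - ((m.val + 1 : ℕ) : ZMod p) = _
      rw [zero_sub])
  let K' := P.kotzig
  let j0 := P.j0
  have hκb : ∀ j, P.κ j b = 0 := by
    intro j
    rw [← hPb]
    exact P.κb j
  have hκ1 : ∀ j, P.κ j ((Kd.f j).symm b) = -1 := by
    intro j
    have h1 := P.κf j ((Kd.f j).symm b)
    rw [Equiv.apply_symm_apply, hκb] at h1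
    linear_combination -h1
  have hκ1v : ∀ j, (P.κ j ((Kd.f j).symm b)).val = d - 1 := by
    intro j
    rw [hκ1]
    have h1 : ((d - 1 : ℕ) : ZMod d) = -1 := by
      rw [Nat.cast_sub (by omega), ZMod.natCast_self]
      ring
    rw [← h1, ZMod.val_natCast_of_lt (by omega)]
  have hsg1 : ∀ j (l : ZMod p), sg (P.κ j ((Kd.f j).symm b)).val l = -l := by
    intro j l
    rw [hκ1v]
    apply sg_even _ (by omega)
    obtain ⟨k, hk⟩ := hd
    exact ⟨k, by omega⟩
  have hsg0 : ∀ j (l : ZMod p), sg (P.κ j b).val l = l := by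
    intro j l
    rw [hκb, ZMod.val_zero, sg_zero]
  have hlam : ∀ m : Fin ((p - 1) / 2), P.lam m = m.val + 1 := by
    intro m
    rw [hPlam]
  have hqb : ∀ m : Fin ((p - 1) / 2), P.q m b = - ((m.val + 1 : ℕ) : ZMod p) := by
    intro m
    unfold PData.q
    rw [hsg0, hlam]
  have hqi : ∀ m : Fin ((p - 1) / 2), P.q m ((Kd.f j0).symm b) = ((m.val + 1 : ℕ) : ZMod p) := by
    intro m
    unfold PData.q
    rw [show P.j0 = j0 from rfl, hsg1, hlam, neg_neg]
  -- nonvanishing
  have nz : ∀ k : ℕ, 1 ≤ k → k < p → (k : ZMod p) ≠ 0 := fun k h1 h2 => PData.nz h1 h2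
  -- rows at `(b, 1)`
  have R1 : ∀ j l, P.row (Sum.inl (j, l)) (b, 1) = (Kd.f j b, 1 + l) := by
    intro j l
    rw [PData.row_inl_reg, hsg0]
    intro m _ _ h1
    have h2 := hqb m
    rw [← h1] at h2
    apply nz (m.val + 2) (by omega) (by have := m.2; omega)
    push_cast at h2 ⊢
    linear_combination h2
  have R2 : ∀ j l, P.row (Sum.inl (j, l)) ((Kd.f j).symm b, 1 + l) = (b, 1) := by
    intro j l
    rw [PData.row_inl_reg, hsg1, Equiv.apply_symm_apply]
    · simp
    · intro m hj hm h1
      subst hj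
      have h2 := hqi m
      rw [show P.q m ((Kd.f j0).symm b) = 1 + l from h1.symm, ← hlam m, hm] at h2
      apply nz 1 le_rfl (by omega)
      push_cast
      linear_combination h2
  have R3 : ∀ m : Fin ((p - 1) / 2),
      P.row (Sum.inr m) (b, 1) = (b, 1 + ((m.val + 1 : ℕ) : ZMod p)) := by
    intro m
    have hne : (1 : ZMod p) ≠ P.q m b := by
      intro h1
      have h2 := hqb m
      rw [← h1] at h2
      apply nz (m.val + 2) (by omega) (by have := m.2; omega)
      push_cast at h2 ⊢
      linear_combination h2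
    refine (P.row_inr_reg m b 1 hne).trans ?_
    rw [hPφ]
    rfl
  have R4 : ∀ m : Fin ((p - 1) / 2),
      P.row (Sum.inr m) (b, 1 - ((m.val + 1 : ℕ) : ZMod p)) = (b, 1) := by
    intro m
    have hne : (1 : ZMod p) - ((m.val + 1 : ℕ) : ZMod p) ≠ P.q m b := by
      intro h1
      have h2 := hqb m
      rw [← h1] at h2
      apply nz 1 le_rfl (by omega)
      push_cast at h2 ⊢
      linear_combination h2
    refine (P.row_inr_reg m b _ hne).trans ?_
    rw [hPφ]
    show (b, (1 - ((m.val + 1 : ℕ) : ZMod p)) + ((m.val + 1 : ℕ) : ZMod p)) = _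
    rw [sub_add_cancel]
  -- rows at `(b, 0)`
  have R5 : ∀ j l, P.row (Sum.inl (j, l)) (b, 0) = (Kd.f j b, l) := by
    intro j l
    rw [PData.row_inl_reg, hsg0, zero_add]
    intro m _ _ h1
    exact P.q_ne m b h1.symm
  have R6 : ∀ j l, ¬ (j = j0 ∧ ∃ m : Fin ((p - 1) / 2), ((m.val + 1 : ℕ) : ZMod p) = l) →
      P.row (Sum.inl (j, l)) ((Kd.f j).symm b, l) = (b, 0) := by
    intro j l hjl
    rw [PData.row_inl_reg, hsg1, Equiv.apply_symm_apply]
    · simp
    · intro m hj hm _
      apply hjl
      refine ⟨hj, m, ?_⟩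
      rw [← hlam m]
      exact hm
  have R6' : ∀ m : Fin ((p - 1) / 2), P.row (Sum.inl (j0, ((m.val + 1 : ℕ) : ZMod p)))
      (b, - ((m.val + 1 : ℕ) : ZMod p)) = (b, 0) := by
    intro m
    have h1 := P.row_inl_sw m b
    rw [hqb m, hlam m] at h1
    exact h1
  have R7 : ∀ m : Fin ((p - 1) / 2),
      P.row (Sum.inr m) (b, 0) = (b, ((m.val + 1 : ℕ) : ZMod p)) := by
    intro m
    refine (P.row_inr_reg m b _ (fun h1 => P.q_ne m b h1.symm)).trans ?_
    rw [hPφ]
    show (b, (0 : ZMod p) + ((m.val + 1 : ℕ) : ZMod p)) = _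
    rw [zero_add]
  have R8 : ∀ m : Fin ((p - 1) / 2),
      P.row (Sum.inr m) ((Kd.f j0).symm b, ((m.val + 1 : ℕ) : ZMod p)) = (b, 0) := by
    intro m
    have h1 := P.row_inr_sw m ((Kd.f j0).symm b)
    rw [hqi m] at h1
    rw [h1, show P.j0 = j0 from rfl, Equiv.apply_symm_apply]
  -- the pairs which are not labelled
  let Lab : Kd.J × ZMod p → Prop := fun jy =>
    jy.1 = j0 ∧ ∃ m : Fin ((p - 1) / 2), ((m.val + 1 : ℕ) : ZMod p) = jy.2
  have hcardLab : Nat.card {jy // Lab jy} = h := by
    have hinj : Function.Injective (fun m : Fin ((p - 1) / 2) => ((m.val + 1 : ℕ) : ZMod p)) := by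
      intro m m' hm
      have a1 : ((m.val + 1 : ℕ) : ZMod p).val = m.val + 1 :=
        ZMod.val_natCast_of_lt (by have := m.2; omega)
      have a2 : ((m'.val + 1 : ℕ) : ZMod p).val = m'.val + 1 :=
        ZMod.val_natCast_of_lt (by have := m'.2; omega)
      have a3 : m.val + 1 = m'.val + 1 := by
        rw [← a1, ← a2]
        exact congrArg ZMod.val hm
      exact Fin.ext (by omega)
    let e : Fin ((p - 1) / 2) ≃ {jy // Lab jy} := Equiv.ofBijective
      (fun m => ⟨(j0, ((m.val + 1 : ℕ) : ZMod p)), rfl, m, rfl⟩) (by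
        constructor
        · intro m m' hm
          have := congrArg (fun z => z.1.2) hm
          exact hinj this
        · rintro ⟨⟨j, y⟩, hj, m, hm⟩
          refine ⟨m, ?_⟩
          apply Subtype.ext
          simp only at hj hm
          show (j0, ((m.val + 1 : ℕ) : ZMod p)) = (j, y)
          rw [hj, hm])
    rw [← Nat.card_congr e, Nat.card_eq_fintype_card, Fintype.card_fin, hhp]
  let Q : Type := {jy : Kd.J × ZMod p // ¬ Lab jy}
  have hcardQ : 2 * Nat.card Q + (2 * p - 1) = d * p := by
    have : Fintype (Kd.J × ZMod p) := Fintype.ofFinite _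
    have h1 : Nat.card Q = Nat.card (Kd.J × ZMod p) - Nat.card {jy // Lab jy} := by
      simp only [Q]
      rw [Nat.card_eq_fintype_card, Nat.card_eq_fintype_card, Nat.card_eq_fintype_card,
        Fintype.card_subtype_compl]
    have h2 : Nat.card {jy // Lab jy} ≤ Nat.card (Kd.J × ZMod p) :=
      Nat.card_le_card_of_injective _ Subtype.val_injective
    rw [hcardLab] at h1 h2
    rw [Nat.card_prod, Nat.card_zmod] at h1 h2
    have h3 := Kd.cardJ
    have h5 : (2 * Nat.card Kd.J + 1) * p = d * p := by rw [h3]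
    have h4 : d * p = 2 * (Nat.card Kd.J * p) + p := by
      rw [← h5]
      ring
    omega
  let en : Fin (Nat.card Q) ≃ Q := (Finite.equivFin Q).symm
  -- the enumeration
  let fb : Kd.V := Kd.f j0 b
  let fi : Kd.V := (Kd.f j0).symm b
  let x : ℕ → Kd.V × ZMod p := fun a =>
    if a ≤ 4 * h then
      (if a % 4 = 0 then (b, ((1 + 2 * (a / 4) : ℕ) : ZMod p))
       else if a % 4 = 1 then
        (if 1 + 2 * (a / 4) ≤ h then (fi, ((1 + 2 * (a / 4) : ℕ) : ZMod p))
          else (fb, ((p - (1 + 2 * (a / 4)) : ℕ) : ZMod p)))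
       else if a % 4 = 2 then
        (if 1 + 2 * (a / 4) ≤ h then (fb, ((1 + 2 * (a / 4) : ℕ) : ZMod p))
          else (fi, ((p - (1 + 2 * (a / 4)) : ℕ) : ZMod p)))
       else (b, ((p - (1 + 2 * (a / 4)) : ℕ) : ZMod p)))
    else if hi : (a - (4 * h + 1)) / 2 < Nat.card Q then
      (if (a - (4 * h + 1)) % 2 = 0 then
        (Kd.f (en ⟨_, hi⟩).1.1 b, (en ⟨_, hi⟩).1.2)
       else ((Kd.f (en ⟨_, hi⟩).1.1).symm b, (en ⟨_, hi⟩).1.2))
    else (b, 0)
  have x0 : ∀ t, t ≤ h → x (4 * t) = (b, ((1 + 2 * t : ℕ) : ZMod p)) := by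
    intro t ht
    have e1 : 4 * t ≤ 4 * h := by omega
    have e2 : 4 * t % 4 = 0 := by omega
    have e3 : 4 * t / 4 = t := by omega
    simp only [x, e1, e2, e3, if_true]
  have x3 : ∀ t, t < h → x (4 * t + 3) = (b, ((p - (1 + 2 * t) : ℕ) : ZMod p)) := by
    intro t ht
    have e1 : 4 * t + 3 ≤ 4 * h := by omega
    have e2 : (4 * t + 3) % 4 = 3 := by omega
    have e3 : (4 * t + 3) / 4 = t := by omega
    simp only [x, e1, e2, e3, if_true]
    norm_num
  have x1 : ∀ t, t < h → 1 + 2 * t ≤ h → x (4 * t + 1) = (fi, ((1 + 2 * t : ℕ) : ZMod p)) := by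
    intro t ht h1
    have e1 : 4 * t + 1 ≤ 4 * h := by omega
    have e2 : (4 * t + 1) % 4 = 1 := by omega
    have e3 : (4 * t + 1) / 4 = t := by omega
    simp only [x, e1, e2, e3, if_true, h1]
    norm_num
  have x1' : ∀ t, t < h → ¬ 1 + 2 * t ≤ h →
      x (4 * t + 1) = (fb, ((p - (1 + 2 * t) : ℕ) : ZMod p)) := by
    intro t ht h1
    have e1 : 4 * t + 1 ≤ 4 * h := by omega
    have e2 : (4 * t + 1) % 4 = 1 := by omega
    have e3 : (4 * t + 1) / 4 = t := by omega
    simp only [x, e1, e2, e3, if_true, h1, if_false]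
    norm_num
  have x2 : ∀ t, t < h → 1 + 2 * t ≤ h → x (4 * t + 2) = (fb, ((1 + 2 * t : ℕ) : ZMod p)) := by
    intro t ht h1
    have e1 : 4 * t + 2 ≤ 4 * h := by omega
    have e2 : (4 * t + 2) % 4 = 2 := by omega
    have e3 : (4 * t + 2) / 4 = t := by omega
    simp only [x, e1, e2, e3, if_true, h1]
    norm_num
  have x2' : ∀ t, t < h → ¬ 1 + 2 * t ≤ h →
      x (4 * t + 2) = (fi, ((p - (1 + 2 * t) : ℕ) : ZMod p)) := by
    intro t ht h1
    have e1 : 4 * t + 2 ≤ 4 * h := by omega
    have e2 : (4 * t + 2) % 4 = 2 := by omega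
    have e3 : (4 * t + 2) / 4 = t := by omega
    simp only [x, e1, e2, e3, if_true, h1, if_false]
    norm_num
  have xq : ∀ i : Fin (Nat.card Q), x (4 * h + 1 + 2 * i.val) =
      (Kd.f (en i).1.1 b, (en i).1.2) := by
    intro i
    have e1 : ¬ 4 * h + 1 + 2 * i.val ≤ 4 * h := by omega
    have e2 : (4 * h + 1 + 2 * i.val - (4 * h + 1)) % 2 = 0 := by omega
    have e3 : (4 * h + 1 + 2 * i.val - (4 * h + 1)) / 2 = i.val := by omega
    simp only [x, e1, if_false, e2, e3, if_true, Fin.eta, i.2, dif_pos]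
  have xq' : ∀ i : Fin (Nat.card Q), x (4 * h + 1 + 2 * i.val + 1) =
      ((Kd.f (en i).1.1).symm b, (en i).1.2) := by
    intro i
    have e1 : ¬ 4 * h + 1 + 2 * i.val + 1 ≤ 4 * h := by omega
    have e2 : (4 * h + 1 + 2 * i.val + 1 - (4 * h + 1)) % 2 = 1 := by omega
    have e3 : (4 * h + 1 + 2 * i.val + 1 - (4 * h + 1)) / 2 = i.val := by omega
    simp only [x, e1, if_false, e2, e3, Fin.eta, i.2, dif_pos]
    norm_num
  have cneg : ∀ k, k ≤ p → ((p - k : ℕ) : ZMod p) = - (k : ZMod p) := by
    intro k hk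
    rw [Nat.cast_sub hk, ZMod.natCast_self, zero_sub]
  have hk : ∀ k, 1 ≤ k → k ≤ h →
      (∃ t, t < h ∧ x (4 * t) = (b, (k : ZMod p)) ∧ x (4 * t + 1) = (fi, (k : ZMod p)) ∧
        x (4 * t + 2) = (fb, (k : ZMod p)) ∧ x (4 * t + 3) = (b, - (k : ZMod p))) ∨
      (∃ t, t < h ∧ x (4 * t) = (b, - (k : ZMod p)) ∧ x (4 * t + 1) = (fb, (k : ZMod p)) ∧
        x (4 * t + 2) = (fi, (k : ZMod p)) ∧ x (4 * t + 3) = (b, (k : ZMod p))) := by
    intro k hk1 hkh
    rcases Nat.even_or_odd k with hev | hod
    · right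
      obtain ⟨r, hr⟩ := hev
      have e1 : 1 + 2 * ((p - k - 1) / 2) = p - k := by omega
      have e2 : p - (p - k) = k := by omega
      refine ⟨(p - k - 1) / 2, by omega, ?_, ?_, ?_, ?_⟩
      · rw [x0 _ (by omega), e1, cneg k (by omega)]
      · rw [x1' _ (by omega) (by omega), e1, e2]
      · rw [x2' _ (by omega) (by omega), e1, e2]
      · rw [x3 _ (by omega), e1, e2]
    · left
      obtain ⟨r, hr⟩ := hod
      have e1 : 1 + 2 * ((k - 1) / 2) = k := by omega
      refine ⟨(k - 1) / 2, by omega, ?_, ?_, ?_, ?_⟩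
      · rw [x0 _ (by omega), e1]
      · rw [x1 _ (by omega) (by omega), e1]
      · rw [x2 _ (by omega) (by omega), e1]
      · rw [x3 _ (by omega), e1, cneg k (by omega)]
  have hkk : ∀ k, 1 ≤ k → k ≤ h →
      (∃ t, t < h ∧ x (4 * t + 3) = (b, 1 - (k : ZMod p)) ∧
        x (4 * t + 3 + 1) = (b, 1 + (k : ZMod p))) ∨
      (∃ t, t < h ∧ x (4 * t + 3) = (b, 1 + (k : ZMod p)) ∧
        x (4 * t + 3 + 1) = (b, 1 - (k : ZMod p))) := by
    intro k hk1 hkh
    rcases Nat.even_or_odd k with hev | hod
    · left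
      obtain ⟨r, hr⟩ := hev
      have e1 : 1 + 2 * ((k - 2) / 2) = k - 1 := by omega
      have e2 : 4 * ((k - 2) / 2) + 3 + 1 = 4 * ((k - 2) / 2 + 1) := by omega
      have e3 : 1 + 2 * ((k - 2) / 2 + 1) = k + 1 := by omega
      refine ⟨(k - 2) / 2, by omega, ?_, ?_⟩
      · rw [x3 _ (by omega), e1, cneg (k - 1) (by omega), Nat.cast_sub hk1, Nat.cast_one, neg_sub]
      · rw [e2, x0 _ (by omega), e3]
        push_cast
        rw [add_comm]
    · right
      obtain ⟨r, hr⟩ := hod
      have e1 : 1 + 2 * ((p - 2 - k) / 2) = p - (k + 1) := by omega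
      have e2 : 4 * ((p - 2 - k) / 2) + 3 + 1 = 4 * ((p - 2 - k) / 2 + 1) := by omega
      have e3 : 1 + 2 * ((p - 2 - k) / 2 + 1) = p - (k - 1) := by omega
      have e4 : p - (p - (k + 1)) = k + 1 := by omega
      refine ⟨(p - 2 - k) / 2, by omega, ?_, ?_⟩
      · rw [x3 _ (by omega), e1, e4]
        push_cast
        rw [add_comm]
      · rw [e2, x0 _ (by omega), e3, cneg (k - 1) (by omega), Nat.cast_sub hk1, Nat.cast_one,
          neg_sub]
  have hL : 2 * p - 1 - 1 = 4 * h := by omega
  have hx0 : x 0 = (b, 1) := by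
    have := x0 0 (by omega)
    rw [show 4 * 0 = 0 by rfl] at this
    rw [this]
    norm_num
  have hxL : x (2 * p - 1 - 1) = (b, 0) := by
    rw [hL, x0 h le_rfl]
    have e1 : 1 + 2 * h = p := by omega
    rw [e1, ZMod.natCast_self]
  have hNp : 2 * p - 1 ≤ d * p := by omega
  -- surjectivity
  have hsurj : ∀ v : Kd.V × ZMod p, ∃ a, a < d * p ∧ x a = v := by
    rintro ⟨u, y⟩
    by_cases hu : u = b
    · rw [hu]
      by_cases hy : y = 0
      · refine ⟨4 * h, by omega, ?_⟩
        rw [← hL, hxL, hy]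
      · have hv0 : y.val ≠ 0 := by rwa [Ne, ZMod.val_eq_zero]
        have hv : y.val < p := ZMod.val_lt y
        have hyc : ((y.val : ℕ) : ZMod p) = y := ZMod.natCast_zmod_val y
        rcases Nat.even_or_odd y.val with hev | hod
        · obtain ⟨r, hr⟩ := hev
          refine ⟨4 * ((p - y.val - 1) / 2) + 3, by omega, ?_⟩
          rw [x3 _ (by omega)]
          have e1 : p - (1 + 2 * ((p - y.val - 1) / 2)) = y.val := by omega
          rw [e1, hyc]
        · obtain ⟨r, hr⟩ := hod
          refine ⟨4 * ((y.val - 1) / 2), by omega, ?_⟩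
          rw [x0 _ (by omega)]
          have e1 : 1 + 2 * ((y.val - 1) / 2) = y.val := by omega
          rw [e1, hyc]
    · obtain ⟨j, hj⟩ := Kd.cover b u (Ne.symm hu)
      by_cases hl : Lab (j, y)
      · obtain ⟨hj0, m, hm⟩ := hl
        simp only at hj0 hm
        have hm2 := m.2
        rw [← hm]
        rcases hk (m.val + 1) (by omega) (by omega) with ⟨t, ht, _, h1, h2, _⟩ |
          ⟨t, ht, _, h1, h2, _⟩
        · rcases hj with hj | hj
          · refine ⟨4 * t + 2, by omega, ?_⟩
            rw [h2, ← hj, hj0]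
          · refine ⟨4 * t + 1, by omega, ?_⟩
            rw [h1]
            have : fi = u := by
              show (Kd.f j0).symm b = u
              rw [Equiv.symm_apply_eq, ← hj, hj0]
            rw [this]
        · rcases hj with hj | hj
          · refine ⟨4 * t + 1, by omega, ?_⟩
            rw [h1, ← hj, hj0]
          · refine ⟨4 * t + 2, by omega, ?_⟩
            rw [h2]
            have : fi = u := by
              show (Kd.f j0).symm b = u
              rw [Equiv.symm_apply_eq, ← hj, hj0]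
            rw [this]
      · let i := en.symm ⟨(j, y), hl⟩
        have hi : en i = ⟨(j, y), hl⟩ := en.apply_symm_apply _
        have hi2 := i.2
        rcases hj with hj | hj
        · refine ⟨4 * h + 1 + 2 * i.val, by omega, ?_⟩
          rw [xq i, hi]
          simp only
          rw [hj]
        · refine ⟨4 * h + 1 + 2 * i.val + 1, by omega, ?_⟩
          rw [xq' i, hi]
          simp only
          rw [← hj, Equiv.symm_apply_apply]
  have sy : ∀ (c : (Kd.J × ZMod p) ⊕ (cyc p hodd).J) (u v w : Kd.V × ZMod p), w = u →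
      P.row c v = u → (P.row c).symm w = v := by
    intro c u v w hw hv
    rw [hw]
    exact (Equiv.symm_apply_eq _).2 hv.symm
  refine ⟨K', x, ?_, by omega, hNp, inj_of_surj K' x hsurj, ?_, ?_⟩
  · exact ⟨2 * h, by omega⟩
  · -- the pairs of `s1`
    rintro (⟨j, l⟩ | m)
    · by_cases hl : Lab (j, 1 + l)
      · obtain ⟨hj0, m, hm⟩ := hl
        simp only at hj0 hm
        have hm2 := m.2
        have a1 : K'.f (Sum.inl (j, l)) (x 0) = (fb, ((m.val + 1 : ℕ) : ZMod p)) := by
          rw [hx0, hm]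
          refine (R1 j l).trans ?_
          rw [hj0]
        have a2 : (K'.f (Sum.inl (j, l))).symm (x 0) = (fi, ((m.val + 1 : ℕ) : ZMod p)) := by
          refine sy _ _ _ _ hx0 ?_
          rw [hm]
          have h9 := R2 j l
          rw [hj0] at h9
          rw [hj0]
          exact h9
        rcases hk (m.val + 1) (by omega) (by omega) with ⟨t, ht, _, h1, h2, _⟩ |
          ⟨t, ht, _, h1, h2, _⟩
        · refine ⟨4 * t + 1, ⟨2 * t, by ring⟩, by omega, Or.inr ⟨?_, ?_⟩⟩
          · rw [a1, show 4 * t + 1 + 1 = 4 * t + 2 by ring, h2]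
          · rw [a2, h1]
        · refine ⟨4 * t + 1, ⟨2 * t, by ring⟩, by omega, Or.inl ⟨?_, ?_⟩⟩
          · rw [a1, h1]
          · rw [a2, show 4 * t + 1 + 1 = 4 * t + 2 by ring, h2]
      · let i := en.symm ⟨(j, 1 + l), hl⟩
        have hi : en i = ⟨(j, 1 + l), hl⟩ := en.apply_symm_apply _
        have hi2 := i.2
        refine ⟨4 * h + 1 + 2 * i.val, ⟨2 * h + i.val, by ring⟩, by omega, Or.inl ⟨?_, ?_⟩⟩
        · rw [hx0, xq i, hi]
          exact R1 j l
        · refine (sy _ _ _ _ hx0 (R2 j l)).trans ?_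
          rw [xq' i, hi]
    · have hm2 := m.2
      have hm3 : (m : Fin ((p - 1) / 2)).val < (p - 1) / 2 := Fin.is_lt _
      rcases hkk ((m : Fin ((p - 1) / 2)).val + 1) (by omega) (by omega) with
        ⟨t, ht, h1, h2⟩ | ⟨t, ht, h1, h2⟩
      · refine ⟨4 * t + 3, ⟨2 * t + 1, by ring⟩, by omega, Or.inr ⟨?_, ?_⟩⟩
        · rw [hx0, h2]
          exact R3 m
        · refine (sy _ _ _ _ hx0 (R4 m)).trans ?_
          rw [h1]
      · refine ⟨4 * t + 3, ⟨2 * t + 1, by ring⟩, by omega, Or.inl ⟨?_, ?_⟩⟩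
        · rw [hx0, h1]
          exact R3 m
        · refine (sy _ _ _ _ hx0 (R4 m)).trans ?_
          rw [h2]
  · -- the pairs of `s2`
    rintro (⟨j, l⟩ | m)
    · by_cases hl : Lab (j, l)
      · obtain ⟨hj0, m, hm⟩ := hl
        simp only at hj0 hm
        have hm2 := m.2
        have a1 : K'.f (Sum.inl (j, l)) (x (2 * p - 1 - 1)) =
            (fb, ((m.val + 1 : ℕ) : ZMod p)) := by
          rw [hxL, hm]
          refine (R5 j l).trans ?_
          rw [hj0]
        have a2 : (K'.f (Sum.inl (j, l))).symm (x (2 * p - 1 - 1)) =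
            (b, - ((m.val + 1 : ℕ) : ZMod p)) := by
          refine sy _ _ _ _ hxL ?_
          rw [hj0, ← hm]
          exact R6' m
        rcases hk (m.val + 1) (by omega) (by omega) with ⟨t, ht, h0, h1, h2, h3⟩ |
          ⟨t, ht, h0, h1, h2, h3⟩
        · refine ⟨4 * t + 2, Or.inl ⟨⟨2 * t + 1, by ring⟩, by omega⟩, Or.inl ⟨?_, ?_⟩⟩
          · rw [a1, h2]
          · rw [a2, show 4 * t + 2 + 1 = 4 * t + 3 by ring, h3]
        · refine ⟨4 * t, Or.inl ⟨⟨2 * t, by ring⟩, by omega⟩, Or.inr ⟨?_, ?_⟩⟩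
          · rw [a1, h1]
          · rw [a2, h0]
      · let i := en.symm ⟨(j, l), hl⟩
        have hi : en i = ⟨(j, l), hl⟩ := en.apply_symm_apply _
        have hi2 := i.2
        refine ⟨4 * h + 1 + 2 * i.val, Or.inr ⟨⟨2 * h + i.val, by ring⟩, by omega, by omega⟩,
          Or.inl ⟨?_, ?_⟩⟩
        · rw [hxL, xq i, hi]
          exact R5 j l
        · refine (sy _ _ _ _ hxL (R6 j l hl)).trans ?_
          rw [xq' i, hi]
    · have hm3 : (m : Fin ((p - 1) / 2)).val < (p - 1) / 2 := Fin.is_lt _
      have a1 : K'.f (Sum.inr m) (x (2 * p - 1 - 1)) =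
          (b, (((m : Fin ((p - 1) / 2)).val + 1 : ℕ) : ZMod p)) := by
        rw [hxL]
        exact R7 m
      have a2 : (K'.f (Sum.inr m)).symm (x (2 * p - 1 - 1)) =
          (fi, (((m : Fin ((p - 1) / 2)).val + 1 : ℕ) : ZMod p)) := by
        exact sy _ _ _ _ hxL (R8 m)
      rcases hk ((m : Fin ((p - 1) / 2)).val + 1) (by omega) (by omega) with
        ⟨t, ht, h0, h1, h2, h3⟩ | ⟨t, ht, h0, h1, h2, h3⟩
      · refine ⟨4 * t, Or.inl ⟨⟨2 * t, by ring⟩, by omega⟩, Or.inl ⟨?_, ?_⟩⟩
        · rw [a1, h0]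
        · rw [a2, h1]
      · refine ⟨4 * t + 2, Or.inl ⟨⟨2 * t + 1, by ring⟩, by omega⟩, Or.inr ⟨?_, ?_⟩⟩
        · rw [a1, show 4 * t + 2 + 1 = 4 * t + 3 by ring, h3]
        · rw [a2, h2]

end Pool.Agent.Work.MP_12b649_co.GX

end
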