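import Mathlib
import Pool.Agent.Work.MP_12b649_co.Even.Stmts
import Pool.Agent.Work.MP_12b649_co.Bd.B03
import Pool.Agent.Work.MP_12b649_co.Even.I_AFF
import Pool.Agent.Work.MP_12b649_co.Bd.B01
import Pool.Agent.Work.MP_12b649_co.Even.I_C4
import Pool.Agent.Work.MP_12b649_co.Bd.B02
import Pool.Agent.Work.MP_12b649_co.Even.I_STAR
import Pool.Agent.Work.MP_12b649_co.Even.I_TPET
import Pool.Agent.Work.MP_12b649_co.Even.I_WORD
import Pool.Agent.Work.MP_12b649_co.Even.WordX

/-! Bundle of small proof modules (one section per former module). -/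

section

/-!
# Item CORE: positions and signs for the prolongation
-/

namespace Pool.Agent.Work.MP_12b649_co.Even

open Pool.Agent.Work.MP_12b649_co

/-- A cyclic permutation with a closed walk of length three moves at most three points. -/
lemma CORE_three {V : Type} [Finite V] (F : Equiv.Perm V) (a b c : V)
    (hF : ∀ v, F.SameCycle a v) (h1 : F a = b) (h2 : F b = c) (h3 : F c = a) :
    Nat.card V ≤ 3 := by
  classical
  have fV : Fintype V := Fintype.ofFinite _
  have key : ∀ k : ℕ, (F ^ k) a = a ∨ (F ^ k) a = b ∨ (F ^ k) a = c := by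
    intro k
    induction k with
    | zero => left; rfl
    | succ k ih =>
      rw [pow_succ', Equiv.Perm.mul_apply]
      rcases ih with h | h | h
      · rw [h, h1]; right; left; rfl
      · rw [h, h2]; right; right; rfl
      · rw [h, h3]; left; rfl
  have hsub : (Finset.univ : Finset V) ⊆ {a, b, c} := by
    intro v _
    obtain ⟨k, hk⟩ := (hF v).exists_nat_pow_eq
    have := key k
    rw [hk] at this
    simpa using this
  have h4 := Finset.card_le_card hsub
  rw [Finset.card_univ] at h4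
  rw [Nat.card_eq_fintype_card]
  exact h4.trans Finset.card_le_three

/-- The set of rows. -/
lemma CORE_T {J : Type} [Fintype J] [DecidableEq J] (j1 j2 js : J) (h12 : j1 ≠ j2) (d : ℕ)
    (hd : 2 ≤ d) (hd' : d + 2 ≤ 2 * Fintype.card J) :
    ∃ T : Finset J, js ∈ T ∧
      2 * T.card = d + (if j1 ∈ T then 1 else 0) + (if j2 ∈ T then 1 else 0) := by
  classical
  by_cases hs : js = j1 ∨ js = j2
  · -- a single row
    have hc : ((Finset.univ.erase j1).erase j2 : Finset J).card = Fintype.card J - 2 := by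
      rw [Finset.card_erase_of_mem (by simp [h12.symm]), Finset.card_erase_of_mem (by simp),
        Finset.card_univ]
      omega
    rcases Nat.even_or_odd d with hev | hod
    · obtain ⟨q, hq⟩ := hev
      obtain ⟨T', hT', hTc⟩ := Finset.exists_subset_card_eq
        (s := ((Finset.univ.erase j1).erase j2 : Finset J)) (n := q - 1) (by rw [hc]; omega)
      have n1 : j1 ∉ T' := fun h => by simpa using hT' h
      have n2 : j2 ∉ T' := fun h => by simpa using hT' h
      refine ⟨insert j1 (insert j2 T'), ?_, ?_⟩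
      · rcases hs with rfl | rfl <;> simp
      · rw [Finset.card_insert_of_notMem (by simp [h12, n1]), Finset.card_insert_of_notMem n2, hTc]
        simp only [Finset.mem_insert, true_or, or_true, if_true]
        omega
    · obtain ⟨q, hq⟩ := hod
      obtain ⟨T', hT', hTc⟩ := Finset.exists_subset_card_eq
        (s := ((Finset.univ.erase j1).erase j2 : Finset J)) (n := q) (by rw [hc]; omega)
      have n1 : j1 ∉ T' := fun h => by simpa using hT' h
      have n2 : j2 ∉ T' := fun h => by simpa using hT' h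
      refine ⟨insert js T', by simp, ?_⟩
      rcases hs with rfl | rfl
      · rw [Finset.card_insert_of_notMem n1, hTc]
        simp only [Finset.mem_insert, true_or, if_true, h12.symm, n2, or_self, if_false]
        omega
      · rw [Finset.card_insert_of_notMem n2, hTc]
        simp only [Finset.mem_insert, true_or, if_true, h12, n1, or_self, if_false]
        omega
  · push Not at hs
    obtain ⟨hs1, hs2⟩ := hs
    have hc : (((Finset.univ.erase j1).erase j2).erase js : Finset J).card
        = Fintype.card J - 3 := by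
      rw [Finset.card_erase_of_mem (by simp [hs1, hs2]),
        Finset.card_erase_of_mem (by simp [h12.symm]), Finset.card_erase_of_mem (by simp),
        Finset.card_univ]
      omega
    have hJ3 : 3 ≤ Fintype.card J := by
      have : ({j1, j2, js} : Finset J).card = 3 := by
        rw [Finset.card_insert_of_notMem (by simp [h12, hs1.symm]),
          Finset.card_insert_of_notMem (by simp [hs2.symm]), Finset.card_singleton]
      rw [← this]
      exact Finset.card_le_univ _
    rcases Nat.even_or_odd d with hev | hod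
    · obtain ⟨q, hq⟩ := hev
      by_cases hq' : q + 2 ≤ Fintype.card J
      · obtain ⟨T', hT', hTc⟩ := Finset.exists_subset_card_eq
          (s := (((Finset.univ.erase j1).erase j2).erase js : Finset J)) (n := q - 1)
          (by rw [hc]; omega)
        have n1 : j1 ∉ T' := fun h => by simpa using hT' h
        have n2 : j2 ∉ T' := fun h => by simpa using hT' h
        have n3 : js ∉ T' := fun h => by simpa using hT' h
        refine ⟨insert js T', by simp, ?_⟩
        rw [Finset.card_insert_of_notMem n3, hTc]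
        simp only [Finset.mem_insert, hs1.symm, hs2.symm, n1, n2, or_self, if_false]
        omega
      · refine ⟨Finset.univ, by simp, ?_⟩
        simp only [Finset.mem_univ, if_true, Finset.card_univ]
        omega
    · obtain ⟨q, hq⟩ := hod
      obtain ⟨T', hT', hTc⟩ := Finset.exists_subset_card_eq
        (s := (((Finset.univ.erase j1).erase j2).erase js : Finset J)) (n := q - 1)
        (by rw [hc]; omega)
      have n1 : j1 ∉ T' := fun h => by simpa using hT' h
      have n2 : j2 ∉ T' := fun h => by simpa using hT' h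
      have n3 : js ∉ T' := fun h => by simpa using hT' h
      refine ⟨insert j1 (insert js T'), by simp, ?_⟩
      rw [Finset.card_insert_of_notMem (by simp [hs1.symm, n1]), Finset.card_insert_of_notMem n3,
        hTc]
      simp only [Finset.mem_insert, true_or, if_true, h12.symm, hs2.symm, n2, or_self, if_false]
      omega

/-- An equivalence respecting two predicates, with a prescribed value. -/
lemma CORE_equiv {A B : Type} [Fintype A] [Fintype B] (P : A → Prop) (Q : B → Prop)
    [DecidablePred P] [DecidablePred Q]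
    (hc : Fintype.card A = Fintype.card B)
    (hc1 : (Finset.univ.filter P).card = (Finset.univ.filter Q).card)
    (a0 : A) (b0 : B) (ha : P a0) (hb : Q b0) :
    ∃ e : A ≃ B, e a0 = b0 ∧ ∀ a, P a ↔ Q (e a) := by
  classical
  have h1 : Fintype.card {a // P a} = Fintype.card {b // Q b} := by
    rw [Fintype.card_subtype, Fintype.card_subtype]
    exact hc1
  have h2 : Fintype.card {a // ¬ P a} = Fintype.card {b // ¬ Q b} := by
    rw [Fintype.card_subtype_compl, Fintype.card_subtype_compl, h1, hc]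
  let e1 := Fintype.equivOfCardEq h1
  let e2 := Fintype.equivOfCardEq h2
  let e0 : A ≃ B := (Equiv.sumCompl P).symm.trans ((Equiv.sumCongr e1 e2).trans
    (Equiv.sumCompl Q))
  have he0 : ∀ a, P a ↔ Q (e0 a) := by
    intro a
    by_cases h : P a
    · have : e0 a = (e1 ⟨a, h⟩ : B) := by
        simp only [e0, Equiv.trans_apply, Equiv.sumCompl_symm_apply_of_pos h]
        rfl
      rw [this]
      exact iff_of_true h (e1 ⟨a, h⟩).2
    · have : e0 a = (e2 ⟨a, h⟩ : B) := by
        simp only [e0, Equiv.trans_apply, Equiv.sumCompl_symm_apply_of_neg h]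
        rfl
      rw [this]
      exact iff_of_false h (e2 ⟨a, h⟩).2
  refine ⟨e0.trans (Equiv.swap (e0 a0) b0), ?_, ?_⟩
  · rw [Equiv.trans_apply, Equiv.swap_apply_left]
  · intro a
    rw [Equiv.trans_apply]
    by_cases h3 : e0 a = e0 a0
    · rw [h3, Equiv.swap_apply_left, e0.injective h3]
      exact iff_of_true ha hb
    · by_cases h4 : e0 a = b0
      · rw [h4, Equiv.swap_apply_right]
        have h5 := he0 a
        rw [h4] at h5
        exact iff_of_true (h5.2 hb) ((he0 a0).1 ha)
      · rw [Equiv.swap_apply_of_ne_of_ne h3 h4]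
        exact he0 a

theorem pr_CORE : S_CORE := by
  intro N K W _ hN hW D g h hgh hDgh R C
  classical
  have fV : Fintype K.V := Fintype.ofFinite _
  have fJ : Fintype K.J := Fintype.ofFinite _
  have hcJ : 2 * Fintype.card K.J + 1 = N := by
    have := K.cardJ
    rwa [Nat.card_eq_fintype_card] at this
  have hcV : Fintype.card K.V = N := by
    have := K.cardV
    rwa [Nat.card_eq_fintype_card] at this
  obtain ⟨s1, o, hso⟩ : ∃ s1 o : K.V, s1 ≠ o :=
    Fintype.exists_pair_of_one_lt_card (by omega)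
  have hnb : ∀ u v : K.V, u ≠ v → ∃ p, K.nb u p = v := by
    intro u v huv
    obtain ⟨j, h | h⟩ := K.cover u v huv
    · exact ⟨(j, true), by simp only [Kotzig.nb, if_true]; exact h⟩
    · refine ⟨(j, false), ?_⟩
      simp only [Kotzig.nb, Bool.false_eq_true, if_false]
      rw [← h, Equiv.symm_apply_apply]
  have nbt : ∀ j u, K.nb u (j, true) = K.f j u := fun j u => by simp [Kotzig.nb]
  have nbf : ∀ j u, K.nb u (j, false) = (K.f j).symm u := fun j u => by simp [Kotzig.nb]
  obtain ⟨⟨j1, b1⟩, h1⟩ := hnb s1 o hso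
  obtain ⟨o2, ho2⟩ : ∃ o2, o2 = K.nb o (j1, b1) := ⟨_, rfl⟩
  have hos : K.nb o (j1, !b1) = s1 := by
    cases b1
    · rw [nbf] at h1
      rw [Bool.not_false, nbt, ← h1, Equiv.apply_symm_apply]
    · rw [nbt] at h1
      rw [Bool.not_true, nbf, ← h1, Equiv.symm_apply_apply]
  have ho2o : o2 ≠ o := by
    rw [ho2]
    exact K.nb_ne _ _
  have ho2s : o2 ≠ s1 := by
    rw [ho2, ← hos]
    intro h
    have := K.nb_injective o h
    simp at this
  have hx : K.nb s1 (j1, !b1) ≠ o2 := by
    intro hx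
    have h3 : Nat.card K.V ≤ 3 := by
      cases b1
      · rw [nbf] at h1 ho2
        rw [Bool.not_false, nbt] at hx
        -- `f s1 = o2`, `f o2 = o`, `f o = s1`
        refine CORE_three (K.f j1) s1 o2 o (fun v => K.trans j1 s1 v) hx ?_ ?_
        · rw [ho2, Equiv.apply_symm_apply]
        · rw [← h1, Equiv.apply_symm_apply]
      · rw [nbt] at h1 ho2
        rw [Bool.not_true, nbf] at hx
        refine CORE_three (K.f j1) s1 o o2 (fun v => K.trans j1 s1 v) h1 ho2.symm ?_
        rw [← hx, Equiv.apply_symm_apply]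
    rw [K.cardV] at h3
    omega
  obtain ⟨⟨j2, b2⟩, h2⟩ := hnb s1 o2 ho2s.symm
  have hj12 : j1 ≠ j2 := by
    rintro rfl
    by_cases hb : b2 = b1
    · rw [hb] at h2
      exact ho2o (h2.symm.trans h1)
    · have hb' : b2 = !b1 := by
        cases b1 <;> cases b2 <;> simp_all
      rw [hb'] at h2
      exact hx h2
  set X : Finset (K.J × Bool) := (Finset.univ.erase (j1, b1)).erase (j2, b2) with hX
  have hXm : ∀ p, p ∈ X ↔ p ≠ (j2, b2) ∧ p ≠ (j1, b1) := by
    intro p
    simp only [hX, Finset.mem_erase, Finset.mem_univ, and_true]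
  have hne21 : (j2, b2) ≠ (j1, b1) := fun h => hj12 (congrArg Prod.fst h).symm
  have hXc : X.card = Fintype.card W := by
    rw [hX, Finset.card_erase_of_mem (by simp [hj12.symm]), Finset.card_erase_of_mem (by simp),
      Finset.card_univ, Fintype.card_prod, Fintype.card_bool]
    omega
  -- the star symbol
  obtain ⟨ws, hws⟩ : ∃ ws, K.col o ws = K.col s1 s1 := by
    have : Function.Bijective (K.col o) := by
      rw [Nat.bijective_iff_injective_and_card]
      exact ⟨K.col_inj o, by rw [K.cardV, K.cardC]⟩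
    exact this.2 _
  have hws1 : ws ≠ s1 := by
    rintro rfl
    rw [K.col_comm] at hws
    exact hso (K.col_inj _ hws).symm
  obtain ⟨ps, hps⟩ := hnb s1 ws hws1.symm
  have hXne : X.Nonempty := by
    rw [← Finset.card_pos, hXc]
    exact Fintype.card_pos_iff.2 ⟨g⟩
  obtain ⟨pt, hpt, hpt'⟩ : ∃ pt, pt ∈ X ∧ (ps ∈ X → pt = ps) := by
    by_cases hp : ps ∈ X
    · exact ⟨ps, hp, fun _ => rfl⟩
    · obtain ⟨p, hp'⟩ := hXne
      exact ⟨p, hp', fun h => absurd h hp⟩
  -- the rows
  set d : ℕ := (Finset.univ.filter (fun w : W => (D w ↔ D g))).card with hd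
  have hd2 : 2 ≤ d := by
    have : ({g, h} : Finset W) ⊆ Finset.univ.filter (fun w : W => (D w ↔ D g)) := by
      intro w hw
      rw [Finset.mem_insert, Finset.mem_singleton] at hw
      rw [Finset.mem_filter]
      rcases hw with rfl | rfl
      · exact ⟨Finset.mem_univ _, Iff.rfl⟩
      · exact ⟨Finset.mem_univ _, hDgh.symm⟩
    have h3 := Finset.card_le_card this
    rwa [Finset.card_pair hgh] at h3
  have hdW : d ≤ Fintype.card W := by
    rw [hd, ← Finset.card_univ]
    exact Finset.card_filter_le _ _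
  obtain ⟨T, hT, hTc⟩ := CORE_T j1 j2 pt.1 hj12 d hd2 (by omega)
  have hwt : (Finset.univ.filter (fun p : {p // p ∈ X} => p.1.1 ∈ T)).card = d := by
    have e1 : (Finset.univ.filter (fun p : {p // p ∈ X} => p.1.1 ∈ T)).card =
        (X.filter (fun p => p.1 ∈ T)).card := by
      rw [← Finset.card_map (Function.Embedding.subtype _)]
      congr 1
      ext p
      rw [Finset.mem_map, Finset.mem_filter]
      constructor
      · rintro ⟨q, hq, rfl⟩
        exact ⟨q.2, (Finset.mem_filter.1 hq).2⟩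
      · rintro ⟨hp, hq⟩
        exact ⟨⟨p, hp⟩, Finset.mem_filter.2 ⟨Finset.mem_univ _, hq⟩, rfl⟩
    have e2 : X.filter (fun p => p.1 ∈ T) =
        ((T ×ˢ (Finset.univ : Finset Bool)).erase (j1, b1)).erase (j2, b2) := by
      ext p
      rw [Finset.mem_filter, hXm, Finset.mem_erase, Finset.mem_erase, Finset.mem_product]
      simp only [Finset.mem_univ, and_true]
      tauto
    rw [e1, e2, Finset.card_erase_eq_ite, Finset.card_erase_eq_ite, Finset.card_product,
      Finset.card_univ, Fintype.card_bool]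
    have e3 : (j2, b2) ∈ (T ×ˢ (Finset.univ : Finset Bool)).erase (j1, b1) ↔ j2 ∈ T := by
      rw [Finset.mem_erase, Finset.mem_product]
      simp only [Finset.mem_univ, and_true]
      exact ⟨fun h => h.2, fun h => ⟨hne21, h⟩⟩
    have e4 : (j1, b1) ∈ (T ×ˢ (Finset.univ : Finset Bool)) ↔ j1 ∈ T := by
      rw [Finset.mem_product]
      simp
    simp only [e3, e4]
    by_cases m1 : j1 ∈ T <;> by_cases m2 : j2 ∈ T <;>
      simp only [m1, m2, if_true, if_false] at hTc ⊢ <;> omega
  obtain ⟨e, he0, he⟩ := CORE_equiv (A := W) (B := {p // p ∈ X}) (fun w : W => (D w ↔ D g))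
    (fun p => p.1.1 ∈ T) (by rw [Fintype.card_coe, hXc]) (by rw [hwt]) g ⟨pt, hpt⟩ Iff.rfl hT
  have he : ∀ a, (D a ↔ D g) ↔ (e a).1.1 ∈ T := he
  let ψ : W → K.V := fun w => K.nb s1 (e w).1
  have hψ : ∀ w, ψ w = K.nb s1 (e w).1 := fun w => rfl
  have hψi : Function.Injective ψ := by
    intro a b hab
    exact e.injective (Subtype.ext (K.nb_injective s1 hab))
  have hψo : ∀ w, ψ w ≠ o := by
    intro w h3
    rw [hψ, ← h1] at h3
    have h4 := K.nb_injective _ h3
    exact ((hXm _).1 (e w).2).2 h4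
  have hψo2 : ∀ w, ψ w ≠ o2 := by
    intro w h3
    rw [hψ, ← h2] at h3
    have h4 := K.nb_injective _ h3
    exact ((hXm _).1 (e w).2).1 h4
  have hψs : ∀ w, ψ w ≠ s1 := fun w => K.nb_ne _ _
  have hposi : Function.Injective (pos s1 ψ) := by
    intro a b hab
    rcases a with _ | a <;> rcases b with _ | b
    · rfl
    · exact absurd hab.symm (hψs b)
    · exact absurd hab (hψs a)
    · exact congrArg some (hψi hab)
  have hposo : ∀ a, pos s1 ψ a ≠ o := by
    intro a
    rcases a with _ | a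
    · exact hso
    · exact hψo a
  have hposo2 : ∀ a, pos s1 ψ a ≠ o2 := by
    intro a
    rcases a with _ | a
    · exact ho2s.symm
    · exact hψo2 a
  let ε : K.J → Bool := fun j => decide (j ∈ T ↔ D g)
  have hε : ∀ j, ε j = true ↔ (j ∈ T ↔ D g) := fun j => by simp [ε]
  let stp : K.J → K.V → Prop := fun j u =>
    if K.f j u = o then False else
      if u = o then (∃ a b, ψ a = (K.f j).symm o ∧ ψ b = K.f j o ∧ C a b)
      else (∃ a b, pos s1 ψ a = u ∧ pos s1 ψ b = K.f j u ∧ R a b)
  have hsign : ∀ j, ∃ σ : K.V → Bool, ∀ u, K.f j u ≠ o2 → (σ u ≠ σ (K.f j u) ↔ stp j u) :=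
    fun j => Odd.Fat.exists_sign (K.f j) o2 (fun v => K.trans j o2 v) (stp j)
  choose σ hσ using hsign
  refine ⟨o, s1, o2, ψ, ε, σ, hso.symm, ho2s, ho2o, hψi, hψo, hψs, hψo2, ?_, ?_, ?_, ?_, ?_, ?_⟩
  · intro w hw
    rw [← hws] at hw
    have h3 := K.col_inj _ hw
    rw [hψ, ← hps] at h3
    have h4 := K.nb_injective _ h3
    have h5 : ps ∈ X := by
      rw [← h4]
      exact (e w).2
    have h6 : e w = e g := by
      rw [he0]
      exact Subtype.ext (h4.trans (hpt' h5).symm)
    exact e.injective h6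
  · intro j w hjw
    have h3 : (e w).1.1 = j := by
      rcases hjw with h3 | h3
      · rw [← nbt, hψ] at h3
        rw [← K.nb_injective _ h3]
      · have h4 : K.nb s1 (j, false) = K.nb s1 (e w).1 := by
          rw [nbf, ← hψ w, ← (K.f j).symm_apply_apply (ψ w), h3]
        rw [← K.nb_injective _ h4]
    have h4 := he w
    rw [h3] at h4
    rw [hε, ← h4]
    tauto
  · intro j hj
    rw [← nbt, ← h1] at hj
    have h3 := K.nb_injective _ hj
    rw [ho2, ← h3, nbt]
  · intro j hj
    have h3 : K.nb s1 (j, false) = K.nb s1 (j1, b1) := by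
      rw [h1, nbf, ← hj, Equiv.symm_apply_apply]
    have h4 := K.nb_injective _ h3
    rw [ho2, ← h4, nbf, Equiv.apply_symm_apply]
  · intro j a b hab
    have h3 := hσ j (pos s1 ψ a) (by rw [hab]; exact hposo2 b)
    have h4 : stp j (pos s1 ψ a) ↔ R a b := by
      simp only [stp]
      rw [if_neg (by rw [hab]; exact hposo b), if_neg (hposo a), hab]
      constructor
      · rintro ⟨a', b', ha, hb, hR⟩
        rw [hposi ha, hposi hb] at hR
        exact hR
      · intro hR
        exact ⟨a, b, rfl, rfl, hR⟩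
    rw [hab, h4] at h3
    exact h3
  · intro j a b hja hjb
    have h3 := hσ j (ψ a) (by rw [hja]; exact ho2o.symm)
    have h4 : ¬ stp j (ψ a) := by
      simp only [stp]
      rw [if_pos hja]
      exact not_false
    have h5 : σ j (ψ a) = σ j o := by
      by_contra hne
      rw [← hja] at hne
      exact h4 (h3.1 hne)
    have h6 := hσ j o (by rw [hjb]; exact hψo2 b)
    have h7 : stp j o ↔ C a b := by
      simp only [stp]
      rw [if_neg (K.f_ne j o), if_pos trivial]
      constructor
      · rintro ⟨a', b', ha, hb, hC⟩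
        rw [← hja, Equiv.symm_apply_apply] at ha
        rw [hjb] at hb
        rw [hψi ha, hψi hb] at hC
        exact hC
      · intro hC
        exact ⟨a, b, by rw [← hja, Equiv.symm_apply_apply], hjb.symm, hC⟩
    rw [hjb, h7] at h6
    rw [h5]
    exact h6

end Pool.Agent.Work.MP_12b649_co.Even

end

section

/-!
# Derangement representations, even order: item T2 (the double merge)
-/

namespace Pool.Agent.Work.MP_12b649_co.Even

open Pool.Agent.Work.MP_12b649_co

namespace T2I

/-- A colour for every row. -/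
lemma choose_e {N : ℕ} (K : Kotzig N) {V : Type} (s : K.V) (φ : V → K.V) (P D : V → Prop)
    (h : ∀ j u u', P u → P u' → (K.f j s = φ u ∨ K.f j (φ u) = s) →
      (K.f j s = φ u' ∨ K.f j (φ u') = s) → (D u ↔ D u')) :
    ∃ e : K.J → Bool, ∀ j u, P u → (K.f j s = φ u ∨ K.f j (φ u) = s) → (D u ↔ e j = true) := by
  classical
  refine ⟨fun j => decide (∃ u, P u ∧ (K.f j s = φ u ∨ K.f j (φ u) = s) ∧ D u), ?_⟩
  intro j u hP hn
  rw [decide_eq_true_eq]
  constructor
  · intro hD
    exact ⟨u, hP, hn, hD⟩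
  · rintro ⟨u', hP', hn', hD'⟩
    exact (h j u u' hP hP' hn hn').2 hD'

/-- The positions of the neighbours of a symbol in a row. -/
lemma nbpos {N : ℕ} (K : Kotzig N) (x : ℕ → K.V)
    (hinj : ∀ a b, a < N → b < N → x a = x b → a = b) {s : K.V} {j : K.J} {a b : ℕ}
    (ha : a + 1 < N)
    (h : (K.f j s = x a ∧ (K.f j).symm s = x (a + 1)) ∨
      (K.f j s = x (a + 1) ∧ (K.f j).symm s = x a)) (hb : b < N)
    (hn : K.f j s = x b ∨ K.f j (x b) = s) : b = a ∨ b = a + 1 := by
  have ha' : a < N := by omega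
  have hn' : K.f j s = x b ∨ (K.f j).symm s = x b := by
    rcases hn with hn | hn
    · exact Or.inl hn
    · right
      rw [← hn, Equiv.symm_apply_apply]
  rcases h with ⟨h1, h2⟩ | ⟨h1, h2⟩
  · rcases hn' with hn | hn
    · left
      exact hinj b a hb ha' (by rw [← hn, h1])
    · right
      exact hinj b (a + 1) hb ha (by rw [← hn, h2])
  · rcases hn' with hn | hn
    · right
      exact hinj b (a + 1) hb ha (by rw [← hn, h1])
    · left
      exact hinj b a hb ha' (by rw [← hn, h2])

end T2I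

theorem pr_T2 (hW : S_WORD) (hR : S_RAW) : S_T2 := by
  classical
  intro N L K x hgood V _ H p1 q1 p2 q2 v hcard hT
  obtain ⟨hLodd, hL5, hLN, hinj, hg1, hg2⟩ := hgood
  have hNodd : Odd N := ⟨Nat.card K.J, by have := K.cardJ; omega⟩
  have hpq1 : p1 ≠ q1 := hT.adj1.ne
  have hpq2 : p2 ≠ q2 := hT.adj2.ne
  have cross := hT.cross
  have cross' : Dd H p2 q2 p1 ↔ Dd H p2 q2 q1 := by
    have h := cross
    simp only [Dd, H.adj_comm p2, H.adj_comm q2] at h ⊢
    tauto
  -- the other vertices
  let W : Type := {u : V // u ≠ p1 ∧ u ≠ q1 ∧ u ≠ p2 ∧ u ≠ q2}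
  have hcW : Fintype.card W + 3 = N := by
    have h1 : Fintype.card W =
        ((((Finset.univ.erase p1).erase q1).erase p2).erase q2 : Finset V).card := by
      apply Fintype.card_of_subtype
      intro u
      simp only [Finset.mem_erase, Finset.mem_univ, and_true]
      tauto
    rw [h1, Finset.card_erase_of_mem, Finset.card_erase_of_mem, Finset.card_erase_of_mem,
      Finset.card_erase_of_mem (Finset.mem_univ _), Finset.card_univ, hcard]
    · omega
    · simp [hpq1.symm]
    · simp [hT.n1.symm, hT.n3.symm]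
    · simp [hT.n2.symm, hT.n4.symm, hpq2.symm]
  obtain ⟨y, yinj, yr, y1, y2, y3, y4, y5⟩ := hW N L W hcW hNodd hLodd hL5 hLN
    (fun w => Dd H p1 q1 w.1) (fun w => Dd H p2 q2 w.1) (Dd H p1 q1 p2) (Dd H p2 q2 p1)
    ⟨v, hT.v1, hT.v2, hT.v3, hT.v4⟩ hT.bad
  -- positions
  let yy : V → ℕ := fun u => if h : u ≠ p1 ∧ u ≠ q1 ∧ u ≠ p2 ∧ u ≠ q2 then y ⟨u, h⟩
    else if u = p1 ∨ u = q1 then 0 else L - 1
  have yW : ∀ u (h : u ≠ p1 ∧ u ≠ q1 ∧ u ≠ p2 ∧ u ≠ q2), yy u = y ⟨u, h⟩ := by
    intro u h
    simp only [yy, dif_pos h]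
  have y1' : ∀ u, (u = p1 ∨ u = q1) → yy u = 0 := by
    intro u h
    have h' : ¬ (u ≠ p1 ∧ u ≠ q1 ∧ u ≠ p2 ∧ u ≠ q2) := by tauto
    simp only [yy, dif_neg h', if_pos h]
  have y2' : ∀ u, (u = p2 ∨ u = q2) → yy u = L - 1 := by
    intro u h
    have h' : ¬ (u ≠ p1 ∧ u ≠ q1 ∧ u ≠ p2 ∧ u ≠ q2) := by tauto
    have h'' : ¬ (u = p1 ∨ u = q1) := by
      rintro (rfl | rfl)
      · rcases h with h | h
        · exact hT.n1 h
        · exact hT.n2 h
      · rcases h with h | h
        · exact hT.n3 h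
        · exact hT.n4 h
    simp only [yy, dif_neg h', if_neg h'']
  have cls : ∀ u, (u = p1 ∨ u = q1) ∨ (u = p2 ∨ u = q2) ∨
      (u ≠ p1 ∧ u ≠ q1 ∧ u ≠ p2 ∧ u ≠ q2) := by
    intro u
    tauto
  have yyN : ∀ u, yy u < N := by
    intro u
    rcases cls u with h | h | h
    · rw [y1' u h]; omega
    · rw [y2' u h]; omega
    · rw [yW u h]; exact (yr _).2.1
  have yyinj : ∀ u u', yy u = yy u' → u = u' ∨ ((u = p1 ∨ u = q1) ∧ (u' = p1 ∨ u' = q1)) ∨
      ((u = p2 ∨ u = q2) ∧ (u' = p2 ∨ u' = q2)) := by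
    intro u u' h
    rcases cls u with h1 | h1 | h1 <;> rcases cls u' with h2 | h2 | h2
    · exact Or.inr (Or.inl ⟨h1, h2⟩)
    · rw [y1' u h1, y2' u' h2] at h; omega
    · rw [y1' u h1, yW u' h2] at h
      have := (yr ⟨u', h2⟩).1
      omega
    · rw [y2' u h1, y1' u' h2] at h; omega
    · exact Or.inr (Or.inr ⟨h1, h2⟩)
    · rw [y2' u h1, yW u' h2] at h
      exact absurd h.symm (yr ⟨u', h2⟩).2.2
    · rw [yW u h1, y1' u' h2] at h
      have := (yr ⟨u, h1⟩).1
      omega
    · rw [yW u h1, y2' u' h2] at h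
      exact absurd h (yr ⟨u, h1⟩).2.2
    · rw [yW u h1, yW u' h2] at h
      exact Or.inl (congrArg Subtype.val (yinj h))
  -- a missing position
  obtain ⟨m, hmN, hm⟩ : ∃ m, m < N ∧ ∀ u, yy u ≠ m := by
    have h1 : (((Finset.univ.erase q1).erase q2 : Finset V).image yy).card <
        (Finset.range N).card := by
      refine lt_of_le_of_lt Finset.card_image_le ?_
      rw [Finset.card_erase_of_mem (by simp [hT.n4.symm]),
        Finset.card_erase_of_mem (Finset.mem_univ _), Finset.card_univ, hcard, Finset.card_range]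
      omega
    obtain ⟨m, hm1, hm2⟩ := Finset.exists_mem_notMem_of_card_lt_card h1
    refine ⟨m, Finset.mem_range.1 hm1, ?_⟩
    intro u hu
    apply hm2
    rw [Finset.mem_image]
    by_cases h1 : u = q1
    · refine ⟨p1, by simp [hpq1, hT.n2], ?_⟩
      rw [← hu, y1' u (Or.inr h1), y1' p1 (Or.inl rfl)]
    · by_cases h2 : u = q2
      · refine ⟨p2, by simp [hpq2, hT.n3.symm], ?_⟩
        rw [← hu, y2' u (Or.inr h2), y2' p2 (Or.inl rfl)]
      · exact ⟨u, by simp [h1, h2], hu⟩
  let φ : V → K.V := fun u => x (yy u)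
  have hφ1 : ∀ u, (u = p1 ∨ u = q1) → φ u = x 0 := by
    intro u h
    simp only [φ]
    rw [y1' u h]
  have hφ2 : ∀ u, (u = p2 ∨ u = q2) → φ u = x (L - 1) := by
    intro u h
    simp only [φ]
    rw [y2' u h]
  have hφo : ∀ u, φ u ≠ x m := by
    intro u h
    exact hm u (hinj _ _ (yyN u) hmN h)
  have hφi : ∀ u u', φ u = φ u' → u = u' ∨ ((u = p1 ∨ u = q1) ∧ (u' = p1 ∨ u' = q1)) ∨
      ((u = p2 ∨ u = q2) ∧ (u' = p2 ∨ u' = q2)) := by
    intro u u' h
    exact yyinj u u' (hinj _ _ (yyN u) (yyN u') h)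
  -- the colours of the rows
  have hD1 : ∀ u u', u ≠ p1 ∧ u ≠ q1 → u' ≠ p1 ∧ u' ≠ q1 → Odd (yy u) → yy u' = yy u + 1 →
      (Dd H p1 q1 u ↔ Dd H p1 q1 u') := by
    intro u u' hu hu' ho he
    rcases cls u with h1 | h1 | h1
    · tauto
    · rw [y2' u h1] at ho
      exfalso
      obtain ⟨a, ha⟩ := hLodd
      obtain ⟨b, hb⟩ := ho
      omega
    · rcases cls u' with h2 | h2 | h2
      · tauto
      · rw [y2' u' h2, yW u h1] at he
        have h3 := y2 ⟨u, h1⟩ (by omega)
        rcases h2 with rfl | rfl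
        · exact h3
        · exact h3.trans cross
      · rw [yW u h1] at ho
        rw [yW u h1, yW u' h2] at he
        exact y1 ⟨u, h1⟩ ⟨u', h2⟩ ho he
  have hD1' : ∀ u u', u ≠ p1 ∧ u ≠ q1 → u' ≠ p1 ∧ u' ≠ q1 → yy u = yy u' →
      (Dd H p1 q1 u ↔ Dd H p1 q1 u') := by
    intro u u' hu hu' he
    rcases yyinj u u' he with h | h | h
    · rw [h]
    · tauto
    · obtain ⟨h1, h2⟩ := h
      rcases h1 with rfl | rfl <;> rcases h2 with rfl | rfl
      · rfl
      · exact cross
      · exact cross.symm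
      · rfl
  have hD2 : ∀ u u', u ≠ p2 ∧ u ≠ q2 → u' ≠ p2 ∧ u' ≠ q2 →
      ((Even (yy u) ∧ yy u + 2 < L) ∨ (Odd (yy u) ∧ L ≤ yy u)) → yy u' = yy u + 1 →
      (Dd H p2 q2 u ↔ Dd H p2 q2 u') := by
    intro u u' hu hu' ho he
    rcases cls u' with h2 | h2 | h2
    · rw [y1' u' h2] at he; omega
    · tauto
    · rcases cls u with h1 | h1 | h1
      · have h3 : yy u = 0 := y1' u h1
        rw [h3, yW u' h2] at he
        have h4 := y4 ⟨u', h2⟩ (by omega)
        rcases h1 with rfl | rfl
        · exact h4.symm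
        · exact cross'.symm.trans h4.symm
      · tauto
      · rw [yW u h1, yW u' h2] at he
        rw [yW u h1] at ho
        rcases ho with ho | ho
        · exact y3 ⟨u, h1⟩ ⟨u', h2⟩ ho.1 ho.2 he
        · exact y5 ⟨u, h1⟩ ⟨u', h2⟩ ho.1 ho.2 he
  have hD2' : ∀ u u', u ≠ p2 ∧ u ≠ q2 → u' ≠ p2 ∧ u' ≠ q2 → yy u = yy u' →
      (Dd H p2 q2 u ↔ Dd H p2 q2 u') := by
    intro u u' hu hu' he
    rcases yyinj u u' he with h | h | h
    · rw [h]
    · obtain ⟨h1, h2⟩ := h
      rcases h1 with rfl | rfl <;> rcases h2 with rfl | rfl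
      · rfl
      · exact cross'
      · exact cross'.symm
      · rfl
    · tauto
  obtain ⟨e1, he1⟩ := T2I.choose_e K (x 0) φ (fun u => u ≠ p1 ∧ u ≠ q1) (fun u => Dd H p1 q1 u)
    (by
      intro j u u' hu hu' hn hn'
      obtain ⟨a, hao, haN, hab⟩ := hg1 j
      have b1 := T2I.nbpos K x hinj haN hab (yyN u) hn
      have b2 := T2I.nbpos K x hinj haN hab (yyN u') hn'
      rcases b1 with b1 | b1 <;> rcases b2 with b2 | b2
      · exact hD1' u u' hu hu' (by rw [b1, b2])
      · exact hD1 u u' hu hu' (by rw [b1]; exact hao) (by rw [b1, b2])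
      · exact (hD1 u' u hu' hu (by rw [b2]; exact hao) (by rw [b1, b2])).symm
      · exact hD1' u u' hu hu' (by rw [b1, b2]))
  obtain ⟨e2, he2⟩ := T2I.choose_e K (x (L - 1)) φ (fun u => u ≠ p2 ∧ u ≠ q2)
    (fun u => Dd H p2 q2 u)
    (by
      intro j u u' hu hu' hn hn'
      obtain ⟨a, hao, hab⟩ := hg2 j
      have haN : a + 1 < N := by
        rcases hao with h | h
        · omega
        · exact h.2.2
      have hao' : (Even a ∧ a + 2 < L) ∨ (Odd a ∧ L ≤ a) := by
        rcases hao with h | h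
        · exact Or.inl h
        · exact Or.inr ⟨h.1, h.2.1⟩
      have b1 := T2I.nbpos K x hinj haN hab (yyN u) hn
      have b2 := T2I.nbpos K x hinj haN hab (yyN u') hn'
      rcases b1 with b1 | b1 <;> rcases b2 with b2 | b2
      · exact hD2' u u' hu hu' (by rw [b1, b2])
      · exact hD2 u u' hu hu' (by rw [b1]; exact hao') (by rw [b1, b2])
      · exact (hD2 u' u hu' hu (by rw [b2]; exact hao') (by rw [b1, b2])).symm
      · exact hD2' u u' hu hu' (by rw [b1, b2]))
  -- the signs
  let R : K.V → K.V → Prop := fun a b => ∃ u u' : V, (u ≠ q1 ∧ u ≠ q2) ∧ (u' ≠ q1 ∧ u' ≠ q2) ∧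
    H.Adj u u' ∧ φ u = a ∧ φ u' = b
  have hφi' : ∀ u u', (u ≠ q1 ∧ u ≠ q2) → (u' ≠ q1 ∧ u' ≠ q2) → φ u = φ u' → u = u' := by
    intro u u' hu hu' h
    rcases hφi u u' h with h | ⟨h1, h2⟩ | ⟨h1, h2⟩
    · exact h
    · have h3 : u = p1 := by tauto
      have h4 : u' = p1 := by tauto
      rw [h3, h4]
    · have h3 : u = p2 := by tauto
      have h4 : u' = p2 := by tauto
      rw [h3, h4]
  have hRR : ∀ u u', (u ≠ q1 ∧ u ≠ q2) → (u' ≠ q1 ∧ u' ≠ q2) → (R (φ u) (φ u') ↔ H.Adj u u') := by
    intro u u' hu hu'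
    constructor
    · rintro ⟨a, a', ha, ha', h, e, e'⟩
      rw [hφi' a u ha hu e, hφi' a' u' ha' hu' e'] at h
      exact h
    · intro h
      exact ⟨u, u', hu, hu', h, rfl, rfl⟩
  have hsign : ∀ j, ∃ σ : K.V → Bool, ∀ a, K.f j a ≠ x m → (σ a ≠ σ (K.f j a) ↔ R a (K.f j a)) :=
    fun j => Odd.Fat.exists_sign (K.f j) (x m) (fun b => K.trans j (x m) b)
      (fun a => R a (K.f j a))
  choose σ hσ using hsign
  -- the representatives
  let rep : V → V := fun u => if u = q1 then p1 else if u = q2 then p2 else u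
  let E : K.J → V → Bool := fun j u => if u = q1 then e1 j else if u = q2 then e2 j else false
  have rep1 : rep q1 = p1 := by simp only [rep, if_true]
  have rep2 : rep q2 = p2 := by simp only [rep, if_true, if_neg hT.n4.symm]
  have rep3 : ∀ u, u ≠ q1 → u ≠ q2 → rep u = u := by
    intro u h h'
    simp only [rep, if_neg h, if_neg h']
  have E1 : ∀ j, E j q1 = e1 j := by
    intro j
    simp only [E, if_true]
  have E2 : ∀ j, E j q2 = e2 j := by
    intro j
    simp only [E, if_true, if_neg hT.n4.symm]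
  have E3 : ∀ j u, u ≠ q1 → u ≠ q2 → E j u = false := by
    intro j u h h'
    simp only [E, if_neg h, if_neg h']
  have repne : ∀ u, rep u ≠ q1 ∧ rep u ≠ q2 := by
    intro u
    by_cases h1 : u = q1
    · rw [h1, rep1]
      exact ⟨hpq1, hT.n2⟩
    · by_cases h2 : u = q2
      · rw [h2, rep2]
        exact ⟨hT.n3.symm, hpq2⟩
      · rw [rep3 u h1 h2]
        exact ⟨h1, h2⟩
  have repφ : ∀ u, φ (rep u) = φ u := by
    intro u
    by_cases h1 : u = q1
    · rw [h1, rep1, hφ1 p1 (Or.inl rfl), hφ1 q1 (Or.inr rfl)]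
    · by_cases h2 : u = q2
      · rw [h2, rep2, hφ2 p2 (Or.inl rfl), hφ2 q2 (Or.inr rfl)]
      · rw [rep3 u h1 h2]
  have key : ∀ j a b, (K.f j (φ a) = φ b ∨ K.f j (φ b) = φ a) →
      (H.Adj a b ↔ ¬ (H.Adj (rep a) b ↔ E j a = true)) := by
    intro j a b hn
    have hne : φ a ≠ φ b := by
      intro h
      rcases hn with hn | hn
      · rw [h] at hn
        exact K.f_ne _ _ hn
      · rw [h] at hn
        exact K.f_ne _ _ hn
    by_cases h1 : a = q1
    · have hb : b ≠ p1 ∧ b ≠ q1 := by
        refine ⟨?_, ?_⟩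
        · rintro rfl
          exact hne (by rw [hφ1 a (Or.inr h1), hφ1 b (Or.inl rfl)])
        · rintro rfl
          exact hne (by rw [h1])
      have h2 := he1 j b hb (by rw [← hφ1 a (Or.inr h1)]; exact hn)
      rw [h1, rep1, E1]
      unfold Dd at h2
      tauto
    · by_cases h2 : a = q2
      · have hb : b ≠ p2 ∧ b ≠ q2 := by
          refine ⟨?_, ?_⟩
          · rintro rfl
            exact hne (by rw [hφ2 a (Or.inr h2), hφ2 b (Or.inl rfl)])
          · rintro rfl
            exact hne (by rw [h2])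
        have h3 := he2 j b hb (by rw [← hφ2 a (Or.inr h2)]; exact hn)
        rw [h2, rep2, E2]
        unfold Dd at h3
        tauto
      · rw [rep3 a h1 h2, E3 j a h1 h2]
        simp
  let τ : K.J → V → Bool := fun j u => xor (σ j (φ u)) (E j u)
  apply hR N K V H φ τ
  · -- the fibres
    intro u u' hne h
    rcases hφi u u' h with h | ⟨h1, h2⟩ | ⟨h1, h2⟩
    · exact absurd h hne
    · rcases h1 with rfl | rfl <;> rcases h2 with rfl | rfl
      · exact absurd rfl hne
      · exact hT.adj1
      · exact hT.adj1.symm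
      · exact absurd rfl hne
    · rcases h1 with rfl | rfl <;> rcases h2 with rfl | rfl
      · exact absurd rfl hne
      · exact hT.adj2
      · exact hT.adj2.symm
      · exact absurd rfl hne
  · -- the edges of the rows
    intro j u u' h
    have k1 := key j u u' (Or.inl h)
    have k2 := key j u' (rep u) (by
      rw [repφ]
      exact Or.inr h)
    have k3 : σ j (φ u) ≠ σ j (φ u') ↔ H.Adj (rep u) (rep u') := by
      have h1 := hσ j (φ u) (by rw [h]; exact hφo u')
      rw [h] at h1
      rw [h1, ← hRR (rep u) (rep u') (repne u) (repne u'), repφ, repφ]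
    rw [H.adj_comm u' (rep u), H.adj_comm (rep u') (rep u)] at k2
    rw [k1, k2, ← k3]
    simp only [τ]
    cases σ j (φ u) <;> cases σ j (φ u') <;> cases E j u <;> cases E j u' <;> simp
  · -- different signs in the fibres
    have w1 : ∃ j, e1 j = true := by
      obtain ⟨w, h1, h2, h3⟩ := hT.nt1
      have hne : x 0 ≠ φ w := by
        intro h
        rw [← hφ1 p1 (Or.inl rfl)] at h
        rcases hφi p1 w h with h | ⟨_, h⟩ | ⟨h, _⟩
        · exact h1 h.symm
        · tauto
        · rcases h with h | h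
          · exact hT.n1 h
          · exact hT.n2 h
      obtain ⟨j, hj⟩ := K.cover _ _ hne
      exact ⟨j, (he1 j w ⟨h1, h2⟩ hj).1 h3⟩
    have w2 : ∃ j, e2 j = true := by
      obtain ⟨w, h1, h2, h3⟩ := hT.nt2
      have hne : x (L - 1) ≠ φ w := by
        intro h
        rw [← hφ2 p2 (Or.inl rfl)] at h
        rcases hφi p2 w h with h | ⟨h, _⟩ | ⟨_, h⟩
        · exact h1 h.symm
        · rcases h with h | h
          · exact hT.n1 h.symm
          · exact hT.n3 h.symm
        · tauto
      obtain ⟨j, hj⟩ := K.cover _ _ hne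
      exact ⟨j, (he2 j w ⟨h1, h2⟩ hj).1 h3⟩
    have t1 : ∃ j, τ j p1 ≠ τ j q1 := by
      obtain ⟨j, hj⟩ := w1
      refine ⟨j, ?_⟩
      simp only [τ]
      rw [hφ1 p1 (Or.inl rfl), hφ1 q1 (Or.inr rfl), E1, E3 j p1 hpq1 hT.n2, hj]
      cases σ j (x 0) <;> simp
    have t2 : ∃ j, τ j p2 ≠ τ j q2 := by
      obtain ⟨j, hj⟩ := w2
      refine ⟨j, ?_⟩
      simp only [τ]
      rw [hφ2 p2 (Or.inl rfl), hφ2 q2 (Or.inr rfl), E2, E3 j p2 hT.n3.symm hpq2, hj]
      cases σ j (x (L - 1)) <;> simp
    intro u u' hne h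
    rcases hφi u u' h with h | ⟨h1, h2⟩ | ⟨h1, h2⟩
    · exact absurd h hne
    · rcases h1 with rfl | rfl <;> rcases h2 with rfl | rfl
      · exact absurd rfl hne
      · exact t1
      · obtain ⟨j, hj⟩ := t1
        exact ⟨j, hj.symm⟩
      · exact absurd rfl hne
    · rcases h1 with rfl | rfl <;> rcases h2 with rfl | rfl
      · exact absurd rfl hne
      · exact t2
      · obtain ⟨j, hj⟩ := t2
        exact ⟨j, hj.symm⟩
      · exact absurd rfl hne

end Pool.Agent.Work.MP_12b649_co.Even

end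

section

/-!
# Assembly
-/

namespace Pool.Agent.Work.MP_12b649_co.Odd

universe u

/-- Transfer of representations along isomorphisms. -/
lemma rep_iso {V W : Type*} {G : SimpleGraph V} {H : SimpleGraph W} (e : G ≃g H) {k : ℕ}
    (h : ∃ π : W → Equiv.Perm (Fin k), IsRep H π) : ∃ π : V → Equiv.Perm (Fin k), IsRep G π := by
  obtain ⟨π, h1, h2⟩ := h
  refine ⟨fun v => π (e v), fun u v huv => e.injective (h1 huv), fun u v huv => ?_⟩
  rw [← h2 (e u) (e v) (fun h => huv (e.injective h))]
  exact e.map_adj_iff.symm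

/-- The main theorem from the claims. -/
theorem final_of (hF : ClaimFat) (hM : ClaimMulti) (V : Type u) [Finite V] [Nonempty V]
    (G : SimpleGraph V)
    (hG : Odd (Nat.card V) ∨ ∀ a b c, ¬ G.Adj a b → ¬ G.Adj b c → ¬ G.Adj a c)
    (h0 : ¬ Nonempty (G ≃g (⊥ : SimpleGraph (Fin 2))))
    (h1 : ¬ Nonempty (G ≃g (⊥ : SimpleGraph (Fin 3))))
    (h2 : ¬ Nonempty (G ≃g SimpleGraph.pathGraph 3)) :
    ∃ π : V → Equiv.Perm (Fin (Nat.card V)), IsRep G π := by
  obtain ⟨e⟩ : Nonempty (V ≃ Fin (Nat.card V)) := ⟨Finite.equivFin V⟩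
  let H : SimpleGraph (Fin (Nat.card V)) := G.map e.toEmbedding
  have iso : G ≃g H := SimpleGraph.Iso.map e G
  have hpos : 0 < Nat.card V := Nat.card_pos
  apply rep_iso iso
  by_cases hT : ∀ a b c, ¬ H.Adj a b → ¬ H.Adj b c → ¬ H.Adj a c
  · rcases Nat.lt_or_ge 4 (Nat.card V) with h | h
    · exact hM _ H h hT
    · exact small _ hpos h H hT (fun ⟨f⟩ => h0 ⟨iso.trans f⟩) (fun ⟨f⟩ => h1 ⟨iso.trans f⟩)
        (fun ⟨f⟩ => h2 ⟨iso.trans f⟩)
  · rcases hG with hG | hG
    · exact hF _ H hG hT
    · exfalso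
      apply hT
      intro a b c hab hbc hac
      apply hG (iso.symm a) (iso.symm b) (iso.symm c)
      · intro h
        exact hab (by simpa using iso.map_adj_iff.mpr h)
      · intro h
        exact hbc (by simpa using iso.map_adj_iff.mpr h)
      · rw [iso.symm.map_adj_iff]
        exact hac

end Pool.Agent.Work.MP_12b649_co.Odd

end

section

/-!
# GOODX: the generalised product with a cyclic inner factor has a good pair
-/

namespace Pool.Agent.Work.MP_12b649_co.Even

open Pool.Agent.Work.MP_12b649_co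

theorem pr_GOODX : S_GOODX := fun d p Kd h1 h2 h3 h4 => GX.goodx d p Kd h1 h2 h3 h4

end Pool.Agent.Work.MP_12b649_co.Even

end

section

/-!
# Derangement representations, even order: everything together
-/

namespace Pool.Agent.Work.MP_12b649_co.Even

theorem all_GOOD : S_GOOD := pr_GOOD pr_GOODP pr_GOOD9 pr_GOODX

theorem all_Z : S_Z := pr_Z pr_CORE pr_STAR

theorem all_TR : S_TR := pr_TR pr_CORE pr_STAR

theorem all_OUT : S_OUT := pr_OUT pr_OCL

theorem all_TF : S_TF := pr_TF (pr_TD4 pr_TD3) (pr_TPET pr_TD3) pr_TCYC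

theorem all_LTRI : S_LTRI :=
  pr_LTRI (pr_TTRI pr_TK4 (pr_TDIA2 (pr_TDIA pr_TK4) pr_TK4) pr_TPEN) pr_TPROP pr_NBR

theorem all_MAIN : S_MAIN :=
  pr_MAIN (pr_C4F pr_C4 all_OUT) (pr_SETUP all_OUT) pr_TPROP (pr_LEAF2 pr_TPROP)
    (pr_LO1 pr_TPROP) pr_LO2 all_LTRI all_TF (pr_LTR pr_TPROP pr_NBR) pr_LPET

/-- Even order: every graph with at least four vertices which is not a disjoint union of cliques
has a representation with at most as many points as vertices. -/
theorem even_all_of (hB : S_WORDB) (V : Type) [Fintype V] (H : SimpleGraph V)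
    (he : Even (Fintype.card V)) (h4 : 4 ≤ Fintype.card V) (hcl : ¬ Cluster H) :
    ∃ k, 0 < k ∧ k ≤ Fintype.card V ∧ Rep H k := by
  rcases Nat.lt_or_ge (Fintype.card V) 8 with h | h
  · obtain ⟨r, hr⟩ := he
    have : Fintype.card V = 4 ∨ Fintype.card V = 6 := by omega
    rcases this with h' | h'
    · exact ⟨4, by norm_num, by omega, rep_four V H h'⟩
    · exact ⟨6, by norm_num, by omega, rep_six V H h'⟩
  · exact even_big pr_AFF pr_BIP pr_KE pr_PETB all_GOOD (pr_T2 (pr_WORD hB) pr_RAW) all_Z all_TR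
      all_MAIN V H h he hcl

/-- Even order: every graph with at least four vertices which is not a disjoint union of cliques
has a representation with at most as many points as vertices. -/
theorem even_all (V : Type) [Fintype V] (H : SimpleGraph V)
    (he : Even (Fintype.card V)) (h4 : 4 ≤ Fintype.card V) (hcl : ¬ Cluster H) :
    ∃ k, 0 < k ∧ k ≤ Fintype.card V ∧ Rep H k :=
  even_all_of wordB_fallback V H he h4 hcl

end Pool.Agent.Work.MP_12b649_co.Even

end
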